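import Pool.Agent.Work.MP_d5b3be_an.BU.AsmS
import Pool.Agent.Work.MP_d5b3be_an.BN.Asm3

/-!
# Block BU: flat convex bodies of revolution, `N ≥ c R sqrt(lam)` families

All the numbers `n` of an interval `[n0, n1)` with `n1 - n0 ≥ 10⁻⁸⁰ R sqrt(lam)` are admissible.
-/

set_option autoImplicit false

namespace Pool.Agent.Work.MP_d5b3be_an.BU

open Pool.Agent.Work.MP_d5b3be_an.BN
open MeasureTheory Filter Set
open scoped ENNReal Topology ContDiff

/-- the choice of the numbers `n` -/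
theorem AsmF_SL (hBXC : BXC) (hRNC : RNC) (hNT1 : NT1) (h1 : NB1) (Ω : Set E3) (R a b : ℝ)
    (zm zp : ℝ → ℝ) (lam : ℝ) (hS : Sec Ω R a b zm zp) (hHR : b - a ≤ 1 / 10 ^ 250 * R)
    (hlam : (1 - 1 / 10 ^ 250) * (Real.pi / (b - a)) ^ 2 ≤ lam) :
    ∃ n0 n1 : ℕ, 1 ≤ n0 ∧ n0 ≤ n1 ∧ 1 / 10 ^ 80 * R * Real.sqrt lam ≤ (n1 : ℝ) - n0 ∧
      ∀ n : ℕ, n0 ≤ n → n < n1 → ∃ V : ℝ, lam < V ∧
      (∀ ρ, 0 < ρ → ρ < R → V ≤ (Real.pi / (zp ρ - zm ρ)) ^ 2 + ((n : ℝ) / ρ) ^ 2) ∧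
      BX Ω n lam := by
  classical
  have hR : 0 < R := hS.1
  have hab : a < b := hS.2.1
  have hpi := Real.pi_pos
  have hpi3 : 3 < Real.pi := Real.pi_gt_three
  have hpi4 : Real.pi < 3.15 := Real.pi_lt_d2
  obtain ⟨H, hHd⟩ : ∃ H, H = b - a := ⟨_, rfl⟩
  have hH : 0 < H := by linarith
  rw [← hHd] at hHR hlam
  have hHR' : b - a ≤ R / 10 ^ 110 := by
    rw [← hHd]
    have e5 : R / 10 ^ 110 = 1 / 10 ^ 110 * R := by ring
    rw [e5]
    refine hHR.trans (mul_le_mul_of_nonneg_right ?_ hR.le)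
    exact one_div_le_one_div_of_le (by positivity) (pow_le_pow_right₀ (by norm_num) (by norm_num))
  have hlam' : (1 - 1 / 10 ^ 110) * (Real.pi / (b - a)) ^ 2 ≤ lam := by
    rw [← hHd]
    refine le_trans ?_ hlam
    apply mul_le_mul_of_nonneg_right _ (by positivity)
    have h2 : (1 : ℝ) / 10 ^ 250 ≤ 1 / 10 ^ 110 := by
      apply one_div_le_one_div_of_le (by positivity)
      exact pow_le_pow_right₀ (by norm_num) (by norm_num)
    linarith
  have hlam0 : 0 ≤ lam := by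
    refine le_trans ?_ hlam'
    have : (0 : ℝ) ≤ 1 - 1 / 10 ^ 110 := by norm_num
    positivity
  have hex := SL3_ex zm zp R lam hR
  obtain ⟨n0, hn_def⟩ : ∃ n : ℕ, n = Nat.find hex := ⟨_, rfl⟩
  have hn := Nat.find_spec hex
  rw [← hn_def] at hn
  obtain ⟨hn1, hn2⟩ := hn
  have hn1' : (1 : ℝ) ≤ n0 := by exact_mod_cast hn1
  have hn0pos : (0 : ℝ) < n0 := by linarith
  have hup := SL3_up zm zp R a b n0 hR hab
    ((hS.2.2.2.1 (R / 2) (by linarith) (by linarith)).2.2)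
  rw [← hHd] at hup
  have hVn : ∀ n : ℕ, n0 ≤ n → lam < SL3_V zm zp R n := fun n hn =>
    lt_of_lt_of_le hn2 (Asm3_mono zm zp R hR n0 n hn)
  obtain ⟨Q, hQ⟩ : ∃ Q : ℝ, Q = R / H := ⟨_, rfl⟩
  have hRQ : R = Q * H := by rw [hQ]; field_simp
  have hQ0 : 0 < Q := by rw [hQ]; positivity
  have hQ250 : 10 ^ 250 ≤ Q := by
    rw [hQ, le_div_iff₀ hH]
    have := mul_le_mul_of_nonneg_left hHR (show (0 : ℝ) ≤ 10 ^ 250 by positivity)
    have e : (10 : ℝ) ^ 250 * (1 / 10 ^ 250 * R) = R := by field_simp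
    linarith
  obtain ⟨K, hK⟩ : ∃ K : ℝ, K = 10 ^ 16 := ⟨_, rfl⟩
  rcases le_or_gt (K * n0) Q with hc | hc
  · -- small numbers
    refine ⟨n0, ⌊Q / 10 ^ 15⌋₊, hn1, ?_, ?_, ?_⟩
    · apply Nat.le_floor
      rw [le_div_iff₀ (by positivity)]
      refine le_trans ?_ hc
      rw [hK, mul_comm]
      exact mul_le_mul_of_nonneg_right (by norm_num) hn0pos.le
    · have h5 := Nat.sub_one_lt_floor (Q / 10 ^ 15)
      have h6 : Real.sqrt lam ≤ 7 / H := by
        apply Real.sqrt_le_iff.2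
        refine ⟨by positivity, hn2.le.trans (hup.trans ?_)⟩
        have h7 : (n0 : ℝ) / R ≤ 1 / H := by
          rw [hRQ, div_le_div_iff₀ (by positivity) hH]
          have h8 : (n0 : ℝ) ≤ Q := by
            refine le_trans ?_ hc
            rw [hK]
            nlinarith
          nlinarith
        have h9 : ((n0 : ℝ) / R) ^ 2 ≤ (1 / H) ^ 2 := pow_le_pow_left₀ (by positivity) h7 2
        have h10 : (Real.pi / H) ^ 2 = Real.pi ^ 2 * (1 / H) ^ 2 := by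
          rw [div_eq_mul_one_div, mul_pow]
        have h11 : (7 / H) ^ 2 = 49 * (1 / H) ^ 2 := by
          rw [div_eq_mul_one_div, mul_pow]
          norm_num
        rw [h10, h11]
        have h12 : 0 < (1 / H) ^ 2 := by positivity
        have h13 : Real.pi ^ 2 ≤ 10 := by nlinarith
        nlinarith
      have h7 : R * Real.sqrt lam ≤ 7 * Q := by
        calc R * Real.sqrt lam ≤ R * (7 / H) := mul_le_mul_of_nonneg_left h6 hR.le
          _ = 7 * Q := by rw [hQ]; ring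
      have h8 : (n0 : ℝ) ≤ Q / 10 ^ 16 := by
        rw [le_div_iff₀ (by positivity), mul_comm, ← hK]
        exact hc
      have h9 : 1 / 10 ^ 80 * R * Real.sqrt lam = 1 / 10 ^ 80 * (R * Real.sqrt lam) := by ring
      rw [h9]
      have h10 : 1 / 10 ^ 80 * (R * Real.sqrt lam) ≤ 1 / 10 ^ 80 * (7 * Q) :=
        mul_le_mul_of_nonneg_left h7 (by positivity)
      have h11 : (10 : ℝ) ^ 20 ≤ Q :=
        le_trans (pow_le_pow_right₀ (by norm_num) (by norm_num)) hQ250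
      have h12 : 1 / 10 ^ 80 * (7 * Q) ≤ 1 / 10 ^ 16 * Q := by
        have : (1 : ℝ) / 10 ^ 80 * 7 ≤ 1 / 10 ^ 16 := by norm_num
        nlinarith
      norm_num at *
      linarith
    · intro n h2 h3
      refine ⟨SL3_V zm zp R n, hVn n h2, fun ρ h0 h4 => SL3_le zm zp R n ρ h0 h4, ?_⟩
      refine h1 Ω R a b zm zp n lam hS (by omega) ?_ hlam'
      have h5 : (n : ℝ) < Q / 10 ^ 15 := Nat.lt_of_lt_floor h3
      rw [lt_div_iff₀ (by positivity)] at h5
      rw [← hHd, hRQ]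
      apply mul_le_mul_of_nonneg_right _ hH.le
      linarith
  · -- large numbers
    have hbig : (10 : ℝ) ^ 234 ≤ n0 := by
      have h5 : (10 : ℝ) ^ 16 * 10 ^ 234 ≤ 10 ^ 16 * n0 := by
        rw [← hK]
        refine le_trans ?_ (hQ250.trans hc.le)
        rw [hK, ← pow_add]
      exact le_of_mul_le_mul_left h5 (by positivity)
    have hbig2 : (10 : ℝ) ^ 80 ≤ n0 :=
      le_trans (pow_le_pow_right₀ (by norm_num) (by norm_num)) hbig
    refine ⟨n0, n0 + ⌊(n0 : ℝ) / 10 ^ 62⌋₊, hn1, by omega, ?_, ?_⟩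
    · have h5 := Nat.sub_one_lt_floor ((n0 : ℝ) / 10 ^ 62)
      have h6 : Real.sqrt lam ≤ 10 ^ 17 * (n0 / R) := by
        apply Real.sqrt_le_iff.2
        refine ⟨by positivity, hn2.le.trans (hup.trans ?_)⟩
        obtain ⟨x, hx⟩ : ∃ x : ℝ, x = n0 / R := ⟨_, rfl⟩
        have hx0 : 0 < x := by rw [hx]; positivity
        have h7 : 1 / H ≤ 10 ^ 16 * x := by
          rw [hx, hRQ, ← mul_div_assoc, div_le_div_iff₀ hH (by positivity), ← hK]
          nlinarith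
        have h9 : (1 / H) ^ 2 ≤ (10 ^ 16 * x) ^ 2 := pow_le_pow_left₀ (by positivity) h7 2
        have h10 : (Real.pi / H) ^ 2 = Real.pi ^ 2 * (1 / H) ^ 2 := by
          rw [div_eq_mul_one_div, mul_pow]
        rw [h10, ← hx]
        have h12 : 0 < x ^ 2 := by positivity
        have h13 : Real.pi ^ 2 ≤ 10 := by nlinarith
        have h14 : Real.pi ^ 2 * (1 / H) ^ 2 ≤ 10 * (10 ^ 16 * x) ^ 2 :=
          mul_le_mul h13 h9 (by positivity) (by norm_num)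
        have h15 : (10 ^ 17 * x) ^ 2 = 10 ^ 34 * x ^ 2 := by ring
        have h16 : (10 ^ 16 * x) ^ 2 = 10 ^ 32 * x ^ 2 := by ring
        rw [h16] at h14
        rw [h15]
        norm_num at *
        linarith
      have h7 : R * Real.sqrt lam ≤ 10 ^ 17 * n0 := by
        calc R * Real.sqrt lam ≤ R * (10 ^ 17 * (n0 / R)) := mul_le_mul_of_nonneg_left h6 hR.le
          _ = 10 ^ 17 * n0 := by field_simp
      have h9 : 1 / 10 ^ 80 * R * Real.sqrt lam = 1 / 10 ^ 80 * (R * Real.sqrt lam) := by ring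
      rw [h9]
      have h10 : 1 / 10 ^ 80 * (R * Real.sqrt lam) ≤ 1 / 10 ^ 80 * (10 ^ 17 * n0) :=
        mul_le_mul_of_nonneg_left h7 (by positivity)
      push_cast
      obtain ⟨y, hy⟩ : ∃ y : ℝ, y = (n0 : ℝ) / 10 ^ 63 := ⟨_, rfl⟩
      have e1 : 1 / 10 ^ 80 * (10 ^ 17 * (n0 : ℝ)) = y := by
        rw [hy]
        ring
      have e2 : (n0 : ℝ) / 10 ^ 62 = 10 * y := by
        rw [hy]
        ring
      have hy1 : 1 ≤ y := by
        rw [hy, le_div_iff₀ (by positivity), one_mul]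
        exact le_trans (pow_le_pow_right₀ (by norm_num) (by norm_num)) hbig2
      rw [e1] at h10
      rw [e2] at h5 ⊢
      linarith
    · intro n h2 h3
      refine ⟨SL3_V zm zp R n, hVn n h2, fun ρ h0 h4 => SL3_le zm zp R n ρ h0 h4, ?_⟩
      have hn3 : 2 ≤ n0 := by
        have h5 : (2 : ℝ) ≤ n0 := le_trans (by norm_num) hbig2
        exact_mod_cast h5
      have hprev : SL3_V zm zp R (n0 - 1) ≤ lam := by
        by_contra hc2
        have h5 := Nat.find_min hex (m := n0 - 1) (by omega)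
        exact h5 ⟨by omega, not_le.1 hc2⟩
      have hst := Asm3_scale zm zp R hR (n0 - 1) n (by omega) (by omega)
      have hx : ((n0 - 1 : ℕ) : ℝ) = n0 - 1 := by
        rw [Nat.cast_sub (by omega)]
        norm_num
      rw [hx] at hst
      obtain ⟨x, hx1⟩ : ∃ x : ℝ, x = n0 - 1 := ⟨_, rfl⟩
      rw [← hx1] at hst
      have hx0 : 0 < x := by rw [hx1]; linarith [show (2 : ℝ) ≤ n0 by exact_mod_cast hn3]
      have h6 : (n : ℝ) ≤ (1 + 1 / 10 ^ 61) * x := by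
        have h7 : (n : ℝ) ≤ n0 + ⌊(n0 : ℝ) / 10 ^ 62⌋₊ := by exact_mod_cast h3.le
        have h8 : (⌊(n0 : ℝ) / 10 ^ 62⌋₊ : ℝ) ≤ (n0 : ℝ) / 10 ^ 62 :=
          Nat.floor_le (by positivity)
        obtain ⟨w, hw⟩ : ∃ w : ℝ, w = (n0 : ℝ) / 10 ^ 62 := ⟨_, rfl⟩
        have hw1 : 1 ≤ w := by
          rw [hw, le_div_iff₀ (by positivity), one_mul]
          exact le_trans (pow_le_pow_right₀ (by norm_num) (by norm_num)) hbig2
        have e1 : (1 + 1 / 10 ^ 61) * ((n0 : ℝ) - 1) = n0 + 10 * w - 1 - 1 / 10 ^ 61 := by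
          rw [hw]
          ring
        rw [hx1, e1]
        rw [← hw] at h8 h7
        have h9 : (1 : ℝ) / 10 ^ 61 ≤ 1 := by norm_num
        linarith
      have h7 : (n : ℝ) / x ≤ 1 + 1 / 10 ^ 61 := by
        rw [div_le_iff₀ hx0]
        exact h6
      have h8 : ((n : ℝ) / x) ^ 2 ≤ (1 + 1 / 10 ^ 61) ^ 2 :=
        pow_le_pow_left₀ (by positivity) h7 2
      have h9 : SL3_V zm zp R n ≤ (1 + 1 / 10 ^ 61) ^ 2 * lam := by
        calc SL3_V zm zp R n ≤ ((n : ℝ) / x) ^ 2 * SL3_V zm zp R (n0 - 1) := hst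
          _ ≤ ((n : ℝ) / x) ^ 2 * lam := mul_le_mul_of_nonneg_left hprev (by positivity)
          _ ≤ _ := mul_le_mul_of_nonneg_right h8 hlam0
      refine Asm3_one hBXC hRNC hNT1 h1 Ω R a b zm zp n lam hS (by omega) hHR' hlam' ?_
      calc (1 - 1 / 10 ^ 60) * SL3_V zm zp R n ≤
            (1 - 1 / 10 ^ 60) * ((1 + 1 / 10 ^ 61) ^ 2 * lam) :=
            mul_le_mul_of_nonneg_left h9 (by norm_num)
        _ = ((1 - 1 / 10 ^ 60) * (1 + 1 / 10 ^ 61) ^ 2) * lam := by ring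
        _ ≤ 1 * lam := mul_le_mul_of_nonneg_right (by norm_num) hlam0
        _ = lam := one_mul _

/-- flat convex bodies of revolution: at least `c R sqrt(lam)` families with increasing energies -/
theorem AsmF_B (h1 : ROT) (h2 : TFC) (h3 : CLB) (h5 : ROS) (h6 : DIS) (h8 : SEC) (hBXC : BXC)
    (hRNC : RNC) (hNT1 : NT1) (hNB1 : NB1) (hE : EG2) (hN : NZT) (hEX2 : EX2) (hSTM : STM) :
    ∃ κ c : ℝ, 0 < κ ∧ κ < 1 ∧ 0 < c ∧ ∀ (Ω : Set E3) (R a b : ℝ), IsOpen Ω → Ω.Nonempty →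
      Bornology.IsBounded Ω → Convex ℝ Ω → RI Ω → IsLUB (rr '' Ω) R →
      IsGLB ((fun x : E3 => x 2) '' Ω) a → IsLUB ((fun x : E3 => x 2) '' Ω) b → b - a ≤ κ * R →
      (Real.pi / (b - a)) ^ 2 ≤ lam1 Ω ∧
      ∀ lam : ℝ, (1 - κ) * (Real.pi / (b - a)) ^ 2 ≤ lam →
        FamE Ω lam (c * R * Real.sqrt lam) := by
  refine ⟨1 / 10 ^ 250, 1 / 10 ^ 80, by positivity, by norm_num, by positivity, ?_⟩
  intro Ω R a b ho hne hb hcx hr hR ha hb' hκ
  obtain ⟨zm, zp, hS⟩ := h8 Ω R a b ho hne hb hcx hr hR ha hb'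
  have hR0 : 0 < R := hS.1
  have hab : a < b := hS.2.1
  have hH : 0 < b - a := by linarith
  have hΩ := Asm2_sec Ω R a b zm zp hS
  have hev := Asm2_lam1 hE hN Ω R a b ho hne hR0 hab hΩ
  have hRp : 0 < (Real.pi / (2 * R)) ^ 2 := by
    have : 0 < Real.pi := Real.pi_pos
    positivity
  refine ⟨by linarith, fun lam hl => ?_⟩
  have hlam : 0 < lam := by
    have hp : 0 < Real.pi := Real.pi_pos
    have h14 : 0 < (Real.pi / (b - a)) ^ 2 := by positivity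
    have h15 : (0 : ℝ) < 1 - 1 / 10 ^ 250 := by norm_num
    have : 0 < (1 - 1 / 10 ^ 250) * (Real.pi / (b - a)) ^ 2 := mul_pos h15 h14
    linarith
  obtain ⟨n0, n1, k1, k2, k3, k4⟩ := AsmF_SL hBXC hRNC hNT1 hNB1 Ω R a b zm zp lam hS hκ hl
  have hF := AsmS_fam h1 h5 h6 hEX2 hSTM Ω lam R n0 (n1 - n0) hb hr hR0 (fun x hx => (hΩ x hx).1)
    hlam k1 (fun n hn1 hn2 => by
      obtain ⟨V, e1, e2, ρ0, z0, δ, η, e3, e4⟩ := k4 n hn1 (by omega)
      refine ⟨V, e1, fun φ hφ => h3 Ω R a b zm zp n V φ hS (by omega) e2 hφ, ?_⟩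
      obtain ⟨ψ, f1, f2, f3⟩ := h2 Ω n lam ρ0 z0 δ η (by omega) e3 e4
      exact ⟨ψ, f1, f2, f3⟩)
  obtain ⟨K, U, E, hK1, hK2⟩ := hF
  refine ⟨K, U, E, le_trans ?_ hK1, hK2⟩
  rw [Nat.cast_sub k2]
  exact k3

end Pool.Agent.Work.MP_d5b3be_an.BU
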