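import Pool.Agent.Work.MP_d5b3be_an.BU.Stmts

/-!
# Block BU, item CUT: from slices to profiles
-/

set_option autoImplicit false

namespace Pool.Agent.Work.MP_d5b3be_an.BU

open Pool.Agent.Work.MP_d5b3be_an.BN
open MeasureTheory Filter Set
open scoped ENNReal Topology ContDiff

/-- the derivative of the smooth transition function is bounded -/
theorem CUT_bound : ∃ S : ℝ, ∀ x : ℝ, |deriv Real.smoothTransition x| ≤ S := by
  have hc : Continuous (deriv Real.smoothTransition) :=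
    (Real.smoothTransition.contDiff (n := 1)).continuous_deriv le_rfl
  obtain ⟨S, hS⟩ := (isCompact_Icc (a := (0 : ℝ)) (b := 1)).exists_bound_of_continuousOn
    hc.continuousOn
  refine ⟨max S 0, fun x => ?_⟩
  rcases lt_or_ge x 0 with hx | hx
  · have h1 : Real.smoothTransition =ᶠ[𝓝 x] fun _ => (0 : ℝ) := by
      filter_upwards [Iio_mem_nhds hx] with y hy
      exact Real.smoothTransition.zero_of_nonpos (le_of_lt hy)
    rw [h1.deriv_eq]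
    simp
  · rcases lt_or_ge 1 x with hx1 | hx1
    · have h1 : Real.smoothTransition =ᶠ[𝓝 x] fun _ => (1 : ℝ) := by
        filter_upwards [Ioi_mem_nhds hx1] with y hy
        exact Real.smoothTransition.one_of_one_le (le_of_lt hy)
      rw [h1.deriv_eq]
      simp
    · have h2 := hS x ⟨hx, hx1⟩
      rw [Real.norm_eq_abs] at h2
      exact h2.trans (le_max_left _ _)

/-- the cutoff -/
noncomputable def CUT_k (b : ℝ) (r : ℝ) : ℝ := Real.smoothTransition (2 * r / b - 1)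

/-- the derivative of the cutoff -/
noncomputable def CUT_k' (b : ℝ) (r : ℝ) : ℝ :=
  deriv Real.smoothTransition (2 * r / b - 1) * (2 / b)

theorem CUT_hasDerivAt (b r : ℝ) : HasDerivAt (CUT_k b) (CUT_k' b r) r := by
  have h1 : HasDerivAt (fun r : ℝ => 2 * r / b - 1) (2 / b) r := by
    have h := (((hasDerivAt_id r).const_mul 2).div_const b).sub_const 1
    simpa using h
  have h2 : HasDerivAt Real.smoothTransition (deriv Real.smoothTransition (2 * r / b - 1))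
      (2 * r / b - 1) :=
    ((Real.smoothTransition.contDiff (n := 1)).differentiable one_ne_zero _).hasDerivAt
  exact h2.comp r h1

theorem CUT_smooth (b : ℝ) : ContDiff ℝ ((⊤ : ℕ∞) : WithTop ℕ∞) (CUT_k b) := by
  unfold CUT_k
  exact Real.smoothTransition.contDiff.comp
    (((contDiff_const.mul contDiff_id).div_const b).sub contDiff_const)

theorem CUT_nonneg (b r : ℝ) : 0 ≤ CUT_k b r := Real.smoothTransition.nonneg _

theorem CUT_le_one (b r : ℝ) : CUT_k b r ≤ 1 := Real.smoothTransition.le_one _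

theorem CUT_eq_one {b r : ℝ} (hb : 0 < b) (h : b ≤ r) : CUT_k b r = 1 := by
  apply Real.smoothTransition.one_of_one_le
  have : 2 ≤ 2 * r / b := by rw [le_div_iff₀ hb]; linarith
  linarith

theorem CUT_eq_zero {b r : ℝ} (hb : 0 < b) (h : r ≤ b / 2) : CUT_k b r = 0 := by
  apply Real.smoothTransition.zero_of_nonpos
  have : 2 * r / b ≤ 1 := by rw [div_le_one hb]; linarith
  linarith

/-- the function `κ(ρ) f` -/
noncomputable def CUT_g (b : ℝ) (f : ℝ × ℝ → ℝ) (p : ℝ × ℝ) : ℝ := CUT_k b p.1 * f p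

theorem CUT_fderiv (b : ℝ) (f : ℝ × ℝ → ℝ) (hf : ContDiff ℝ ((⊤ : ℕ∞) : WithTop ℕ∞) f)
    (p : ℝ × ℝ) : HasFDerivAt (CUT_g b f)
      (CUT_k b p.1 • fderiv ℝ f p + f p • (CUT_k' b p.1 • ContinuousLinearMap.fst ℝ ℝ ℝ)) p := by
  have h1 : HasFDerivAt (fun q : ℝ × ℝ => CUT_k b q.1)
      (CUT_k' b p.1 • ContinuousLinearMap.fst ℝ ℝ ℝ) p :=
    (CUT_hasDerivAt b p.1).comp_hasFDerivAt p hasFDerivAt_fst
  have h2 : HasFDerivAt f (fderiv ℝ f p) p :=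
    (hf.differentiable (by simp) p).hasFDerivAt
  exact h1.mul h2

theorem CUT_e1 (b : ℝ) (f : ℝ × ℝ → ℝ) (hf : ContDiff ℝ ((⊤ : ℕ∞) : WithTop ℕ∞) f)
    (p : ℝ × ℝ) : e1 (CUT_g b f) p = CUT_k b p.1 * e1 f p + CUT_k' b p.1 * f p := by
  unfold e1
  rw [(CUT_fderiv b f hf p).fderiv]
  simp
  ring

theorem CUT_e2 (b : ℝ) (f : ℝ × ℝ → ℝ) (hf : ContDiff ℝ ((⊤ : ℕ∞) : WithTop ℕ∞) f)
    (p : ℝ × ℝ) : e2 (CUT_g b f) p = CUT_k b p.1 * e2 f p := by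
  unfold e2
  rw [(CUT_fderiv b f hf p).fderiv]
  simp

theorem CUT_contDiff (b : ℝ) (f : ℝ × ℝ → ℝ) (hf : ContDiff ℝ ((⊤ : ℕ∞) : WithTop ℕ∞) f) :
    ContDiff ℝ ((⊤ : ℕ∞) : WithTop ℕ∞) (CUT_g b f) := by
  unfold CUT_g
  exact ((CUT_smooth b).comp contDiff_fst).mul hf

theorem CUT_tsupport (b : ℝ) (f : ℝ × ℝ → ℝ) : tsupport (CUT_g b f) ⊆ tsupport f := by
  apply closure_mono
  intro p hp
  rw [Function.mem_support] at hp ⊢
  intro h
  apply hp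
  simp [CUT_g, h]

theorem CUT_Pf (Ω : Set E3) (b : ℝ) (hb : 0 < b) (f : ℝ × ℝ → ℝ) (hf : P0 Ω f) :
    Pf Ω (CUT_g b f) := by
  obtain ⟨h1, h2, h3⟩ := hf
  refine ⟨⟨CUT_contDiff b f h1, ?_, fun p hp h0 => h3 p (CUT_tsupport b f hp) h0⟩, fun z => ?_⟩
  · exact h2.of_isClosed_subset (isClosed_tsupport _) (CUT_tsupport b f)
  · unfold CUT_g
    rw [CUT_eq_zero hb (by simp; linarith)]
    simp

theorem CUT_measHp : MeasurableSet Hp := (isOpen_lt continuous_const continuous_fst).measurableSet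

theorem CUT_Bi (h1 : AXI) (h2 : IN0) (f : ℝ × ℝ → ℝ) (b μ : ℝ) (hb : 0 < b) (hμ : 0 < μ)
    (hbμ : b ^ 2 * μ = 1 / 12) (hf : ContDiff ℝ ((⊤ : ℕ∞) : WithTop ℕ∞) f)
    (hc : HasCompactSupport f) (hA : Ai f ≤ μ * Bi f) : Bi f ≤ 4 * Bi (CUT_g b f) := by
  have hg := CUT_contDiff b f hf
  have hgc : HasCompactSupport (CUT_g b f) :=
    hc.of_isClosed_subset (isClosed_tsupport _) (CUT_tsupport b f)
  have hif := (h2 f hf hc).1
  have hig := (h2 _ hg hgc).1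
  have hax := h1 f b hf hc hb
  have hm : MeasurableSet {p : ℝ × ℝ | p.1 < b} :=
    (isOpen_lt continuous_fst continuous_const).measurableSet
  have hsplit := integral_inter_add_diff hm hif
  have heq : ∫ p in Hp \ {p : ℝ × ℝ | p.1 < b}, p.1 * f p ^ 2 =
      ∫ p in Hp \ {p : ℝ × ℝ | p.1 < b}, p.1 * CUT_g b f p ^ 2 := by
    apply setIntegral_congr_fun (CUT_measHp.diff hm)
    intro p hp
    have : b ≤ p.1 := by
      have := hp.2
      simpa using this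
    simp only [CUT_g]
    rw [CUT_eq_one hb this, one_mul]
  have hle : ∫ p in Hp \ {p : ℝ × ℝ | p.1 < b}, p.1 * CUT_g b f p ^ 2 ≤ Bi (CUT_g b f) := by
    unfold Bi
    apply setIntegral_mono_set hig
    · filter_upwards [ae_restrict_mem CUT_measHp] with p hp
      have : (0 : ℝ) < p.1 := hp
      simp only [Pi.zero_apply]
      positivity
    · exact (diff_subset).eventuallyLE
  have h5 : b ^ 2 * Ai f ≤ 1 / 12 * Bi f := by
    calc b ^ 2 * Ai f ≤ b ^ 2 * (μ * Bi f) := by gcongr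
      _ = 1 / 12 * Bi f := by rw [← mul_assoc, hbμ]
  have h6 : Bi f = ∫ p in Hp, p.1 * f p ^ 2 := rfl
  linarith

theorem CUT_Ai (h2 : IN0) (f : ℝ × ℝ → ℝ) (b S : ℝ) (hb : 0 < b)
    (hS : ∀ x : ℝ, |deriv Real.smoothTransition x| ≤ S)
    (hf : ContDiff ℝ ((⊤ : ℕ∞) : WithTop ℕ∞) f)
    (hc : HasCompactSupport f) :
    Ai (CUT_g b f) ≤ 2 * Ai f + 8 * S ^ 2 / b ^ 2 * Bi f := by
  have hg := CUT_contDiff b f hf
  have hgc : HasCompactSupport (CUT_g b f) :=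
    hc.of_isClosed_subset (isClosed_tsupport _) (CUT_tsupport b f)
  obtain ⟨hf1, hf2, hf3, -⟩ := h2 f hf hc
  obtain ⟨hg1, hg2, hg3, -⟩ := h2 _ hg hgc
  have hA : IntegrableOn (fun p : ℝ × ℝ => p.1 * (e1 f p ^ 2 + e2 f p ^ 2)) Hp := by
    have := hf2.add hf3
    refine this.congr_fun (fun p _ => ?_) CUT_measHp
    simp only [Pi.add_apply]
    ring
  have hAg : IntegrableOn (fun p : ℝ × ℝ =>
      p.1 * (e1 (CUT_g b f) p ^ 2 + e2 (CUT_g b f) p ^ 2)) Hp := by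
    have := hg2.add hg3
    refine this.congr_fun (fun p _ => ?_) CUT_measHp
    simp only [Pi.add_apply]
    ring
  have hrw : 2 * Ai f + 8 * S ^ 2 / b ^ 2 * Bi f = ∫ p in Hp,
      (2 * (p.1 * (e1 f p ^ 2 + e2 f p ^ 2)) + 8 * S ^ 2 / b ^ 2 * (p.1 * f p ^ 2)) := by
    unfold Ai Bi
    rw [integral_add (hA.const_mul 2) (hf1.const_mul _), integral_const_mul, integral_const_mul]
  rw [hrw]
  unfold Ai
  apply setIntegral_mono_on hAg ((hA.const_mul 2).add (hf1.const_mul _)) CUT_measHp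
  intro p hp
  have hp0 : (0 : ℝ) < p.1 := hp
  rw [CUT_e1 b f hf, CUT_e2 b f hf]
  have hk0 := CUT_nonneg b p.1
  have hk1 := CUT_le_one b p.1
  have hk2 : CUT_k b p.1 ^ 2 ≤ 1 := by nlinarith
  have hk' : CUT_k' b p.1 ^ 2 ≤ 4 * S ^ 2 / b ^ 2 := by
    have h0 := hS (2 * p.1 / b - 1)
    have h1 : deriv Real.smoothTransition (2 * p.1 / b - 1) ^ 2 ≤ S ^ 2 := by
      rw [← sq_abs]
      exact pow_le_pow_left₀ (abs_nonneg _) h0 2
    unfold CUT_k'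
    rw [mul_pow]
    calc deriv Real.smoothTransition (2 * p.1 / b - 1) ^ 2 * (2 / b) ^ 2
        ≤ S ^ 2 * (2 / b) ^ 2 := by gcongr
      _ = 4 * S ^ 2 / b ^ 2 := by ring
  have e1n : 0 ≤ e1 f p ^ 2 := sq_nonneg _
  have e2n : 0 ≤ e2 f p ^ 2 := sq_nonneg _
  have fn : 0 ≤ f p ^ 2 := sq_nonneg _
  have a1 : (CUT_k b p.1 * e1 f p + CUT_k' b p.1 * f p) ^ 2 ≤
      2 * e1 f p ^ 2 + 8 * S ^ 2 / b ^ 2 * f p ^ 2 := by
    have b1 : (CUT_k b p.1 * e1 f p + CUT_k' b p.1 * f p) ^ 2 ≤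
        2 * (CUT_k b p.1 ^ 2 * e1 f p ^ 2) + 2 * (CUT_k' b p.1 ^ 2 * f p ^ 2) := by
      nlinarith [sq_nonneg (CUT_k b p.1 * e1 f p - CUT_k' b p.1 * f p)]
    have b2 : CUT_k b p.1 ^ 2 * e1 f p ^ 2 ≤ 1 * e1 f p ^ 2 :=
      mul_le_mul_of_nonneg_right hk2 e1n
    have b3 : CUT_k' b p.1 ^ 2 * f p ^ 2 ≤ 4 * S ^ 2 / b ^ 2 * f p ^ 2 :=
      mul_le_mul_of_nonneg_right hk' fn
    have b4 : 8 * S ^ 2 / b ^ 2 * f p ^ 2 = 2 * (4 * S ^ 2 / b ^ 2 * f p ^ 2) := by ring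
    linarith
  have a2 : (CUT_k b p.1 * e2 f p) ^ 2 ≤ 2 * e2 f p ^ 2 := by
    rw [mul_pow]
    have b2 : CUT_k b p.1 ^ 2 * e2 f p ^ 2 ≤ 1 * e2 f p ^ 2 :=
      mul_le_mul_of_nonneg_right hk2 e2n
    linarith
  calc p.1 * ((CUT_k b p.1 * e1 f p + CUT_k' b p.1 * f p) ^ 2 + (CUT_k b p.1 * e2 f p) ^ 2)
      ≤ p.1 * ((2 * e1 f p ^ 2 + 8 * S ^ 2 / b ^ 2 * f p ^ 2) + 2 * e2 f p ^ 2) := by
        gcongr
    _ = 2 * (p.1 * (e1 f p ^ 2 + e2 f p ^ 2)) + 8 * S ^ 2 / b ^ 2 * (p.1 * f p ^ 2) := by ring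

theorem CUT_Wi (h2 : IN0) (f : ℝ × ℝ → ℝ) (b : ℝ) (hb : 0 < b)
    (hf : ContDiff ℝ ((⊤ : ℕ∞) : WithTop ℕ∞) f)
    (hc : HasCompactSupport f) :
    Wi (CUT_g b f) ≤ 4 / b ^ 2 * Bi f := by
  have hg := CUT_contDiff b f hf
  have hgc : HasCompactSupport (CUT_g b f) :=
    hc.of_isClosed_subset (isClosed_tsupport _) (CUT_tsupport b f)
  obtain ⟨hf1, -, -, -⟩ := h2 f hf hc
  obtain ⟨-, -, -, hg4⟩ := h2 _ hg hgc
  have hg0 : ∀ z : ℝ, CUT_g b f (0, z) = 0 := by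
    intro z
    unfold CUT_g
    rw [CUT_eq_zero hb (by simp; linarith)]
    simp
  have hW := hg4 hg0
  unfold Wi Bi
  rw [← integral_const_mul]
  apply setIntegral_mono_on hW (hf1.const_mul _) CUT_measHp
  intro p hp
  have hp0 : (0 : ℝ) < p.1 := hp
  have fn : 0 ≤ f p ^ 2 := sq_nonneg _
  rcases le_or_gt p.1 (b / 2) with h | h
  · have : CUT_g b f p = 0 := by
      unfold CUT_g
      rw [CUT_eq_zero hb h, zero_mul]
    rw [this]
    have : (0 : ℝ) ≤ 4 / b ^ 2 * (p.1 * f p ^ 2) := by positivity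
    simpa using this
  · have hk0 := CUT_nonneg b p.1
    have hk1 := CUT_le_one b p.1
    have hk2 : CUT_k b p.1 ^ 2 ≤ 1 := by nlinarith
    have h3 : CUT_g b f p ^ 2 ≤ f p ^ 2 := by
      unfold CUT_g
      rw [mul_pow]
      have b2 : CUT_k b p.1 ^ 2 * f p ^ 2 ≤ 1 * f p ^ 2 :=
        mul_le_mul_of_nonneg_right hk2 fn
      linarith
    have h4 : b ^ 2 ≤ 4 * p.1 ^ 2 := by nlinarith
    rw [div_le_iff₀ hp0]
    have h5 : (1 : ℝ) ≤ 4 / b ^ 2 * p.1 ^ 2 := by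
      rw [div_mul_eq_mul_div, le_div_iff₀ (by positivity)]
      linarith
    calc CUT_g b f p ^ 2 ≤ 1 * f p ^ 2 := by linarith
      _ ≤ (4 / b ^ 2 * p.1 ^ 2) * f p ^ 2 := mul_le_mul_of_nonneg_right h5 fn
      _ = 4 / b ^ 2 * (p.1 * f p ^ 2) * p.1 := by ring

theorem prfCUT (h1 : AXI) (h2 : IN0) : CUT := by
  obtain ⟨S, hS⟩ := CUT_bound
  refine ⟨4 * (2 + 96 * S ^ 2) + 192, by positivity, ?_⟩
  intro Ω f μ hP hμ hB hA
  have hbpos : 0 < Real.sqrt (1 / (12 * μ)) := Real.sqrt_pos.mpr (by positivity)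
  have hbsq : Real.sqrt (1 / (12 * μ)) ^ 2 = 1 / (12 * μ) := Real.sq_sqrt (by positivity)
  set b := Real.sqrt (1 / (12 * μ)) with hbdef
  have hbμ : b ^ 2 * μ = 1 / 12 := by rw [hbsq]; field_simp
  have hinv : 1 / b ^ 2 = 12 * μ := by rw [hbsq]; field_simp
  have k1 := CUT_Bi h1 h2 f b μ hbpos hμ hbμ hP.1 hP.2.1 hA
  have k2 := CUT_Ai h2 f b S hbpos hS hP.1 hP.2.1
  have k3 := CUT_Wi h2 f b hbpos hP.1 hP.2.1
  have e2' : 8 * S ^ 2 / b ^ 2 = 96 * S ^ 2 * μ := by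
    rw [div_eq_mul_one_div, hinv]; ring
  have e3' : 4 / b ^ 2 = 48 * μ := by
    rw [div_eq_mul_one_div, hinv]; ring
  rw [e2'] at k2
  rw [e3'] at k3
  have hBg : 0 < Bi (CUT_g b f) := by linarith
  have hS2 : 0 ≤ S ^ 2 := sq_nonneg _
  refine ⟨CUT_g b f, CUT_Pf Ω b hbpos f hP, hBg, ?_, ?_⟩
  · calc Ai (CUT_g b f) ≤ 2 * Ai f + 96 * S ^ 2 * μ * Bi f := k2
      _ ≤ 2 * (μ * Bi f) + 96 * S ^ 2 * μ * Bi f := by linarith
      _ = (2 + 96 * S ^ 2) * μ * Bi f := by ring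
      _ ≤ (2 + 96 * S ^ 2) * μ * (4 * Bi (CUT_g b f)) := by gcongr
      _ = (4 * (2 + 96 * S ^ 2)) * (μ * Bi (CUT_g b f)) := by ring
      _ ≤ (4 * (2 + 96 * S ^ 2) + 192) * (μ * Bi (CUT_g b f)) := by
          have : 0 ≤ μ * Bi (CUT_g b f) := by positivity
          nlinarith
      _ = (4 * (2 + 96 * S ^ 2) + 192) * μ * Bi (CUT_g b f) := by ring
  · calc Wi (CUT_g b f) ≤ 48 * μ * Bi f := k3
      _ ≤ 48 * μ * (4 * Bi (CUT_g b f)) := by gcongr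
      _ = 192 * (μ * Bi (CUT_g b f)) := by ring
      _ ≤ (4 * (2 + 96 * S ^ 2) + 192) * (μ * Bi (CUT_g b f)) := by
          have : 0 ≤ μ * Bi (CUT_g b f) := by positivity
          have h9 : 0 ≤ 4 * (2 + 96 * S ^ 2) * (μ * Bi (CUT_g b f)) := by positivity
          nlinarith
      _ = (4 * (2 + 96 * S ^ 2) + 192) * μ * Bi (CUT_g b f) := by ring

end Pool.Agent.Work.MP_d5b3be_an.BU
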