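import Pool.Agent.Work.MP_d5b3be_an.BU.StmtsS
import Pool.Agent.Work.MP_d5b3be_an.BU.CUT

/-!
# Block BU, item STC: cut-off near the axis
-/

set_option autoImplicit false

namespace Pool.Agent.Work.MP_d5b3be_an.BU

open Pool.Agent.Work.MP_d5b3be_an.BN
open MeasureTheory Filter Set
open scoped ENNReal Topology ContDiff

/-- the square of the distance from the axis -/
noncomputable def STC_q (x : E3) : ℝ := x 0 ^ 2 + x 1 ^ 2

/-- the cut-off function -/
noncomputable def STC_k (b : ℝ) (x : E3) : ℝ := Real.smoothTransition (STC_q x / b ^ 2 - 1)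

theorem STC_q_smooth : ContDiff ℝ ((⊤ : ℕ∞) : WithTop ℕ∞) STC_q := by
  unfold STC_q
  exact ((contDiff_apply ℝ ℝ (0 : Fin 3)).pow 2).add ((contDiff_apply ℝ ℝ (1 : Fin 3)).pow 2)

theorem STC_k_smooth (b : ℝ) : ContDiff ℝ ((⊤ : ℕ∞) : WithTop ℕ∞) (STC_k b) := by
  unfold STC_k
  exact Real.smoothTransition.contDiff.comp ((STC_q_smooth.div_const _).sub contDiff_const)

theorem STC_q_rot (t : ℝ) (x : E3) : STC_q (rot t x) = STC_q x := by
  unfold STC_q rot
  simp only [Matrix.cons_val_zero, Matrix.cons_val_one]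
  have h := Real.sin_sq_add_cos_sq t
  have h2 : (Real.cos t * x 0 - Real.sin t * x 1) ^ 2 + (Real.sin t * x 0 + Real.cos t * x 1) ^ 2 =
      (Real.sin t ^ 2 + Real.cos t ^ 2) * (x 0 ^ 2 + x 1 ^ 2) := by ring
  rw [h2, h, one_mul]

theorem STC_k_rot (b t : ℝ) (x : E3) : STC_k b (rot t x) = STC_k b x := by
  unfold STC_k
  rw [STC_q_rot]

theorem STC_deriv {y : ℝ} (h : 1 < y) : deriv Real.smoothTransition y = 0 := by
  have h1 : Real.smoothTransition =ᶠ[𝓝 y] fun _ => (1 : ℝ) := by
    filter_upwards [Ioi_mem_nhds h] with z hz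
    exact Real.smoothTransition.one_of_one_le (le_of_lt hz)
  rw [h1.deriv_eq]
  simp

theorem STC_hasFDerivAt_q (x : E3) : HasFDerivAt STC_q
    ((2 * x 0) • ContinuousLinearMap.proj (R := ℝ) (φ := fun _ : Fin 3 => ℝ) 0 +
      (2 * x 1) • ContinuousLinearMap.proj (R := ℝ) (φ := fun _ : Fin 3 => ℝ) 1) x := by
  have h0 : HasFDerivAt (fun y : E3 => y 0)
      (ContinuousLinearMap.proj (R := ℝ) (φ := fun _ : Fin 3 => ℝ) 0) x := hasFDerivAt_apply 0 x
  have h1 : HasFDerivAt (fun y : E3 => y 1)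
      (ContinuousLinearMap.proj (R := ℝ) (φ := fun _ : Fin 3 => ℝ) 1) x := hasFDerivAt_apply 1 x
  have h := (h0.mul h0).add (h1.mul h1)
  have h2 : HasFDerivAt STC_q _ x :=
    h.congr_of_eventuallyEq (Filter.Eventually.of_forall fun y => by unfold STC_q; simp; ring)
  refine h2.congr_fderiv ?_
  ext v
  simp
  ring

theorem STC_pd_k (b : ℝ) (x : E3) (i : Fin 3) : pd i (STC_k b) x =
    deriv Real.smoothTransition (STC_q x / b ^ 2 - 1) *
      (((2 * x 0) * (Pi.single i (1 : ℝ) : E3) 0 + (2 * x 1) * (Pi.single i (1 : ℝ) : E3) 1) /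
        b ^ 2) := by
  have h1 : HasFDerivAt (fun y : E3 => STC_q y / b ^ 2 - 1) ((1 / b ^ 2) •
    ((2 * x 0) • ContinuousLinearMap.proj (R := ℝ) (φ := fun _ : Fin 3 => ℝ) 0 +
      (2 * x 1) • ContinuousLinearMap.proj (R := ℝ) (φ := fun _ : Fin 3 => ℝ) 1)) x := by
    have h := ((STC_hasFDerivAt_q x).const_mul (1 / b ^ 2)).sub_const 1
    refine h.congr_of_eventuallyEq (Filter.Eventually.of_forall fun y => ?_)
    ring
  have h2 : HasDerivAt Real.smoothTransition (deriv Real.smoothTransition (STC_q x / b ^ 2 - 1))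
      (STC_q x / b ^ 2 - 1) :=
    ((Real.smoothTransition.contDiff (n := 1)).differentiable one_ne_zero _).hasDerivAt
  have h3 := h2.comp_hasFDerivAt x h1
  have h4 : HasFDerivAt (STC_k b) _ x := h3
  unfold pd
  rw [h4.fderiv]
  simp only [smul_add, ContinuousLinearMap.add_apply, ContinuousLinearMap.smul_apply,
    ContinuousLinearMap.proj_apply, smul_eq_mul]
  ring

theorem STC_pd_mul (b : ℝ) (φ : E3 → ℝ) (hφ : ContDiff ℝ ((⊤ : ℕ∞) : WithTop ℕ∞) φ) (x : E3)
    (i : Fin 3) : pd i (fun y => STC_k b y * φ y) x =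
      STC_k b x * pd i φ x + φ x * pd i (STC_k b) x := by
  have h1 : DifferentiableAt ℝ (STC_k b) x := (STC_k_smooth b).differentiable (by simp) x
  have h2 : DifferentiableAt ℝ φ x := hφ.differentiable (by simp) x
  unfold pd
  rw [fderiv_fun_mul h1 h2]
  simp

theorem STC_axis (L : ℕ) (φ : E3 → ℝ) (h : ∀ x, φ (rot (Real.pi / L) x) = -φ x) (z : ℝ) :
    φ ![0, 0, z] = 0 := by
  have h1 := h ![0, 0, z]
  have h2 : rot (Real.pi / L) ![0, 0, z] = ![0, 0, z] := by
    unfold rot
    simp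
  rw [h2] at h1
  linarith

theorem STC_lip (L : ℕ) (φ : E3 → ℝ) (hφ : ContDiff ℝ ((⊤ : ℕ∞) : WithTop ℕ∞) φ)
    (hc : HasCompactSupport φ) (h : ∀ x, φ (rot (Real.pi / L) x) = -φ x) :
    ∃ C : ℝ, 0 ≤ C ∧ ∀ x, |φ x| ≤ C * max |x 0| |x 1| := by
  obtain ⟨C, hC⟩ := hφ.lipschitzWith_of_hasCompactSupport hc (by simp)
  refine ⟨C, C.2, fun x => ?_⟩
  have h1 := hC.dist_le_mul x ![0, 0, x 2]
  rw [STC_axis L φ h, Real.dist_eq, sub_zero] at h1
  refine h1.trans (mul_le_mul_of_nonneg_left ?_ C.2)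
  rw [dist_pi_le_iff (le_max_of_le_left (abs_nonneg _))]
  intro i
  fin_cases i
  · simp
  · simp
  · simp

/-- the bound for the second term of the gradient -/
theorem STC_bound (S C b : ℝ) (hb : 0 < b) (hS : ∀ x : ℝ, |deriv Real.smoothTransition x| ≤ S)
    (φ : E3 → ℝ) (hC : 0 ≤ C) (hφ : ∀ x, |φ x| ≤ C * max |x 0| |x 1|) (x : E3) (i : Fin 3) :
    |φ x * pd i (STC_k b) x| ≤ 4 * S * C := by
  have hS0 : 0 ≤ S := (abs_nonneg _).trans (hS 0)
  set m := max |x 0| |x 1| with hm
  have hm0 : 0 ≤ m := le_max_of_le_left (abs_nonneg _)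
  have hq : m ^ 2 ≤ STC_q x := by
    unfold STC_q
    rcases max_choice |x 0| |x 1| with h | h
    · rw [hm, h, sq_abs]; nlinarith [sq_nonneg (x 1)]
    · rw [hm, h, sq_abs]; nlinarith [sq_nonneg (x 0)]
  have hb2 : 0 < b ^ 2 := by positivity
  rw [STC_pd_k]
  rcases le_or_gt (STC_q x) (2 * b ^ 2) with h | h
  · have h1 : |(2 * x 0) * (Pi.single i (1 : ℝ) : E3) 0 + (2 * x 1) * (Pi.single i (1 : ℝ) : E3) 1|
        ≤ 2 * m := by
      fin_cases i
      · simp [abs_mul]
        exact le_max_left _ _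
      · simp [abs_mul]
        exact le_max_right _ _
      · simp
        exact hm0
    have h2 : |((2 * x 0) * (Pi.single i (1 : ℝ) : E3) 0 +
        (2 * x 1) * (Pi.single i (1 : ℝ) : E3) 1) / b ^ 2| ≤ 2 * m / b ^ 2 := by
      rw [abs_div, abs_of_pos hb2]
      exact div_le_div_of_nonneg_right h1 hb2.le
    rw [abs_mul, abs_mul]
    have h3 : C * m * (2 * m / b ^ 2) ≤ 4 * C := by
      have h4 : m ^ 2 ≤ 2 * b ^ 2 := hq.trans h
      have h5 : C * m * (2 * m / b ^ 2) = 2 * C * (m ^ 2 / b ^ 2) := by ring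
      have h6 : m ^ 2 / b ^ 2 ≤ 2 := by rw [div_le_iff₀ hb2]; exact h4
      rw [h5]
      nlinarith
    calc |φ x| * (|deriv Real.smoothTransition (STC_q x / b ^ 2 - 1)| *
        |((2 * x 0) * (Pi.single i (1 : ℝ) : E3) 0 +
        (2 * x 1) * (Pi.single i (1 : ℝ) : E3) 1) / b ^ 2|)
        ≤ (C * m) * (S * (2 * m / b ^ 2)) := by
          apply mul_le_mul (hφ x) (mul_le_mul (hS _) h2 (abs_nonneg _) hS0)
            (by positivity) (by positivity)
      _ = S * (C * m * (2 * m / b ^ 2)) := by ring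
      _ ≤ S * (4 * C) := mul_le_mul_of_nonneg_left h3 hS0
      _ = 4 * S * C := by ring
  · have h1 : 1 < STC_q x / b ^ 2 - 1 := by
      have : 2 < STC_q x / b ^ 2 := by rw [lt_div_iff₀ hb2]; exact h
      linarith
    rw [STC_deriv h1]
    simp
    positivity

theorem STC_eventually (x : E3) (hx : 0 < STC_q x) :
    ∀ᶠ k : ℕ in atTop, 2 * (1 / ((k : ℝ) + 1)) ^ 2 < STC_q x := by
  have h1 : Tendsto (fun k : ℕ => 2 * (1 / ((k : ℝ) + 1)) ^ 2) atTop (𝓝 (2 * 0 ^ 2)) :=
    (tendsto_one_div_add_atTop_nhds_zero_nat.pow 2).const_mul 2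
  have h2 : (2 * 0 ^ 2 : ℝ) < STC_q x := by simpa using hx
  exact h1.eventually_lt_const h2

theorem STC_ae : ∀ᵐ x : E3, 0 < STC_q x := by
  have h : volume {x : E3 | x 0 = 0} = 0 := by
    have := Measure.pi_hyperplane (fun _ : Fin 3 => (volume : Measure ℝ)) 0 0
    exact this
  filter_upwards [measure_eq_zero_iff_ae_notMem.1 h] with x hx
  have h0 : x 0 ≠ 0 := hx
  unfold STC_q
  positivity

theorem STC_k_one {b : ℝ} (hb : 0 < b) {x : E3} (h : 2 * b ^ 2 ≤ STC_q x) : STC_k b x = 1 := by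
  apply Real.smoothTransition.one_of_one_le
  have hb2 : 0 < b ^ 2 := by positivity
  have : 2 ≤ STC_q x / b ^ 2 := by rw [le_div_iff₀ hb2]; exact h
  linarith

theorem STC_k_zero {b : ℝ} (hb : 0 < b) {x : E3} (h : STC_q x < b ^ 2) : STC_k b x = 0 := by
  apply Real.smoothTransition.zero_of_nonpos
  have hb2 : 0 < b ^ 2 := by positivity
  have : STC_q x / b ^ 2 ≤ 1 := by rw [div_le_one hb2]; exact h.le
  linarith

theorem prfSTC : STC := by
  intro Ω L φ ε hL hT hε
  obtain ⟨⟨hs, hc, hsub⟩, hrot⟩ := hT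
  obtain ⟨S, hS⟩ := CUT_bound
  obtain ⟨C, hC, hφC⟩ := STC_lip L φ hs hc hrot
  set b : ℕ → ℝ := fun k => 1 / ((k : ℝ) + 1) with hbdef
  have hb : ∀ k, 0 < b k := fun k => by positivity
  set ψ : ℕ → E3 → ℝ := fun k x => STC_k (b k) x * φ x with hψdef
  have hψs : ∀ k, ContDiff ℝ ((⊤ : ℕ∞) : WithTop ℕ∞) (ψ k) := fun k => (STC_k_smooth _).mul hs
  have hts : ∀ k, tsupport (ψ k) ⊆ tsupport φ := by
    intro k
    apply closure_mono
    intro x hx
    rw [Function.mem_support] at hx ⊢
    intro h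
    exact hx (by simp [hψdef, h])
  have hψc : ∀ k, HasCompactSupport (ψ k) := fun k =>
    hc.of_isClosed_subset (isClosed_tsupport _) (hts k)
  have hψT : ∀ k, TestN Ω L (ψ k) := fun k => by
    refine ⟨⟨hψs k, hψc k, (hts k).trans hsub⟩, fun x => ?_⟩
    simp only [hψdef]
    rw [STC_k_rot, hrot]
    ring
  have hk0 : ∀ k x, 0 ≤ STC_k (b k) x := fun k x => Real.smoothTransition.nonneg _
  have hk1 : ∀ k x, STC_k (b k) x ≤ 1 := fun k x => Real.smoothTransition.le_one _
  have hψle : ∀ k x, |ψ k x| ≤ |φ x| := by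
    intro k x
    simp only [hψdef]
    rw [abs_mul, abs_of_nonneg (hk0 k x)]
    exact mul_le_of_le_one_left (abs_nonneg _) (hk1 k x)
  have hlim : ∀ x, 0 < STC_q x → ∀ᶠ k : ℕ in atTop, ψ k x = φ x := by
    intro x hx
    filter_upwards [STC_eventually x hx] with k hk
    simp only [hψdef]
    rw [STC_k_one (hb k) hk.le, one_mul]
  -- bounds of the gradient
  have hcont : ∀ i : Fin 3, Continuous (pd i φ) := fun i => by
    unfold pd
    exact (hs.continuous_fderiv (by simp)).clm_apply continuous_const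
  have hpdc : ∀ (f : E3 → ℝ) (i : Fin 3) (x : E3), x ∉ tsupport f → pd i f x = 0 := by
    intro f i x hx
    unfold pd
    have h1 : f =ᶠ[𝓝 x] fun _ => (0 : ℝ) := by
      have := notMem_tsupport_iff_eventuallyEq.1 hx
      exact this
    rw [h1.fderiv_eq]
    simp
  have hM : ∃ M : ℝ, 0 ≤ M ∧ ∀ (i : Fin 3) (x : E3), |pd i φ x| ≤ M := by
    have h1 : ∀ i : Fin 3, ∃ M : ℝ, ∀ x, |pd i φ x| ≤ M := by
      intro i
      obtain ⟨M, hM⟩ := hc.exists_bound_of_continuousOn (f := pd i φ) (hcont i).continuousOn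
      refine ⟨max M 0, fun x => ?_⟩
      by_cases hx : x ∈ tsupport φ
      · exact ((Real.norm_eq_abs _) ▸ (hM x hx)).trans (le_max_left _ _)
      · rw [hpdc φ i x hx]
        simp
    choose M hM using h1
    refine ⟨|M 0| + |M 1| + |M 2|, by positivity, fun i x => (hM i x).trans ?_⟩
    have a0 := le_abs_self (M 0)
    have a1 := le_abs_self (M 1)
    have a2 := le_abs_self (M 2)
    have b0 := abs_nonneg (M 0)
    have b1 := abs_nonneg (M 1)
    have b2 := abs_nonneg (M 2)
    fin_cases i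
    · show M 0 ≤ _; linarith
    · show M 1 ≤ _; linarith
    · show M 2 ≤ _; linarith
  obtain ⟨M, hM0, hM⟩ := hM
  have hg : ∀ k i x, |pd i (ψ k) x| ≤ M + 4 * S * C := by
    intro k i x
    have h1 : pd i (ψ k) x = STC_k (b k) x * pd i φ x + φ x * pd i (STC_k (b k)) x :=
      STC_pd_mul (b k) φ hs x i
    rw [h1]
    refine (abs_add_le _ _).trans (add_le_add ?_ (STC_bound S C (b k) (hb k) hS φ hC hφC x i))
    rw [abs_mul, abs_of_nonneg (hk0 k x)]
    exact (mul_le_of_le_one_left (abs_nonneg _) (hk1 k x)).trans (hM i x)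
  have hglim : ∀ x, 0 < STC_q x → ∀ᶠ k : ℕ in atTop, ∀ i, pd i (ψ k) x = pd i φ x := by
    intro x hx
    filter_upwards [STC_eventually x hx] with k hk i
    have h1 : ψ k =ᶠ[𝓝 x] φ := by
      have hopen : IsOpen {y : E3 | 2 * (b k) ^ 2 < STC_q y} :=
        isOpen_lt continuous_const STC_q_smooth.continuous
      filter_upwards [hopen.mem_nhds hk] with y hy
      simp only [hψdef]
      rw [STC_k_one (hb k) (le_of_lt hy), one_mul]
    unfold pd
    rw [h1.fderiv_eq]
  have hcφ : Continuous φ := hs.continuous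
  -- limits
  have t6 : Tendsto (fun k => N6 (ψ k)) atTop (𝓝 (N6 φ)) := by
    unfold N6
    refine tendsto_integral_of_dominated_convergence (fun x => |φ x| ^ 6)
      (fun k => ((hψs k).continuous.pow 6).aestronglyMeasurable) ?_ ?_ ?_
    · refine (hcφ.abs.pow 6).integrable_of_hasCompactSupport ?_
      exact hc.of_isClosed_subset (isClosed_tsupport _) (closure_mono fun x hx => by
        rw [Function.mem_support] at hx ⊢
        intro h
        exact hx (by simp [h]))
    · intro k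
      filter_upwards with x
      rw [norm_pow, Real.norm_eq_abs]
      exact pow_le_pow_left₀ (abs_nonneg _) (hψle k x) 6
    · filter_upwards [STC_ae] with x hx
      refine tendsto_const_nhds.congr' ?_
      filter_upwards [hlim x hx] with k hk
      rw [hk]
  have t2 : Tendsto (fun k => Q2 (ψ k)) atTop (𝓝 (Q2 φ)) := by
    unfold Q2
    refine tendsto_integral_of_dominated_convergence (fun x => |φ x| ^ 2)
      (fun k => ((hψs k).continuous.pow 2).aestronglyMeasurable) ?_ ?_ ?_
    · refine (hcφ.abs.pow 2).integrable_of_hasCompactSupport ?_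
      exact hc.of_isClosed_subset (isClosed_tsupport _) (closure_mono fun x hx => by
        rw [Function.mem_support] at hx ⊢
        intro h
        exact hx (by simp [h]))
    · intro k
      filter_upwards with x
      rw [norm_pow, Real.norm_eq_abs]
      exact pow_le_pow_left₀ (abs_nonneg _) (hψle k x) 2
    · filter_upwards [STC_ae] with x hx
      refine tendsto_const_nhds.congr' ?_
      filter_upwards [hlim x hx] with k hk
      rw [hk]
  have td : Tendsto (fun k => DD (gr (ψ k))) atTop (𝓝 (DD (gr φ))) := by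
    unfold DD
    refine tendsto_integral_of_dominated_convergence
      ((tsupport φ).indicator fun _ => 3 * (M + 4 * S * C) ^ 2) (fun k => ?_) ?_ ?_ ?_
    · refine Continuous.aestronglyMeasurable ?_
      refine continuous_finsetSum _ fun i _ => ?_
      have : Continuous (pd i (ψ k)) := by
        unfold pd
        exact ((hψs k).continuous_fderiv (by simp)).clm_apply continuous_const
      exact this.pow 2
    · rw [integrable_indicator_iff (isClosed_tsupport φ).measurableSet]
      exact integrableOn_const (hc.isCompact.measure_lt_top.ne)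
    · intro k
      filter_upwards with x
      by_cases hx : x ∈ tsupport φ
      · rw [Set.indicator_of_mem hx, Real.norm_eq_abs, abs_of_nonneg (Finset.sum_nonneg
          fun i _ => sq_nonneg _)]
        have h1 : ∀ i ∈ (Finset.univ : Finset (Fin 3)), gr (ψ k) i x ^ 2 ≤ (M + 4 * S * C) ^ 2 := by
          intro i _
          show (pd i (ψ k) x) ^ 2 ≤ _
          rw [← sq_abs]
          exact pow_le_pow_left₀ (abs_nonneg _) (hg k i x) 2
        refine (Finset.sum_le_card_nsmul _ _ _ h1).trans ?_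
        simp
      · rw [Set.indicator_of_notMem hx]
        have h1 : ∀ i, gr (ψ k) i x = 0 := fun i =>
          hpdc (ψ k) i x (fun h => hx (hts k h))
        simp [h1]
    · filter_upwards [STC_ae] with x hx
      refine tendsto_const_nhds.congr' ?_
      filter_upwards [hglim x hx] with k hk
      refine Finset.sum_congr rfl fun i _ => ?_
      show (pd i φ x) ^ 2 = (pd i (ψ k) x) ^ 2
      rw [hk i]
  have e6 := (Metric.tendsto_atTop.1 t6) ε hε
  have e2 := (Metric.tendsto_atTop.1 t2) ε hε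
  have ed := (Metric.tendsto_atTop.1 td) ε hε
  obtain ⟨k6, h6⟩ := e6
  obtain ⟨k2, h2⟩ := e2
  obtain ⟨kd, hd⟩ := ed
  set k := max k6 (max k2 kd) with hkdef
  refine ⟨ψ k, b k, hb k, hψT k, fun x hx => ?_, ?_, ?_, ?_⟩
  · simp only [hψdef]
    rw [STC_k_zero (hb k) hx, zero_mul]
  · have := h6 k (le_max_left _ _)
    rw [Real.dist_eq] at this
    exact this.le
  · have := h2 k ((le_max_left _ _).trans (le_max_right _ _))
    rw [Real.dist_eq] at this
    exact this.le
  · have := hd k ((le_max_right _ _).trans (le_max_right _ _))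
    rw [Real.dist_eq] at this
    exact this.le

end Pool.Agent.Work.MP_d5b3be_an.BU
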