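import Pool.Agent.Work.MP_d5b3be_an.BU.StmtsS

/-!
# Block BU, item STF: the stretched function
-/

set_option autoImplicit false

namespace Pool.Agent.Work.MP_d5b3be_an.BU

open Pool.Agent.Work.MP_d5b3be_an.BN
open MeasureTheory Filter Set
open scoped ENNReal Topology ContDiff

/-- the distance from the axis of a point in cylindrical coordinates -/
theorem STF_s (r t z : ℝ) (hr : 0 ≤ r) :
    Real.sqrt (cyl r t z 0 ^ 2 + cyl r t z 1 ^ 2) = r := by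
  have h0 : cyl r t z 0 = r * Real.cos t := by simp [cyl]
  have h1 : cyl r t z 1 = r * Real.sin t := by simp [cyl]
  have h3 : cyl r t z 0 ^ 2 + cyl r t z 1 ^ 2 = r ^ 2 := by
    rw [h0, h1]
    have := Real.sin_sq_add_cos_sq t
    calc (r * Real.cos t) ^ 2 + (r * Real.sin t) ^ 2
        = r ^ 2 * (Real.sin t ^ 2 + Real.cos t ^ 2) := by ring
      _ = r ^ 2 := by rw [this, mul_one]
  rw [h3, Real.sqrt_sq hr]

theorem STF_2 (r t z : ℝ) : cyl r t z 2 = z := by simp [cyl]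

/-- the antiperiod -/
theorem STF_anti (hR : ROT) {Ω : Set E3} {L : ℕ} {φ : E3 → ℝ} (hL : 1 ≤ L) (h : TestN Ω L φ)
    (r s z : ℝ) (k : ℕ) : φ (cyl r (s + k * (Real.pi / L)) z) = (-1) ^ k * φ (cyl r s z) := by
  induction k with
  | zero => simp
  | succ k ih =>
    have h1 := h.2 (cyl r (s + k * (Real.pi / L)) z)
    rw [hR.2.2.2.2.2.2.2.2, ih] at h1
    have e : s + ((k + 1 : ℕ) : ℝ) * (Real.pi / L) = s + k * (Real.pi / L) + Real.pi / L := by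
      push_cast
      ring
    rw [e, h1, pow_succ]
    ring

theorem STF_per1 (hR : ROT) {Ω : Set E3} {n L : ℕ} {φ : E3 → ℝ} (hL : 1 ≤ L) (h : TestN Ω L φ)
    (r s z : ℝ) (k : ℕ) : φ (cyl r ((n : ℝ) / L * (s + k * (2 * Real.pi))) z) =
      φ (cyl r ((n : ℝ) / L * s) z) := by
  have e : (n : ℝ) / L * (s + k * (2 * Real.pi)) =
      (n : ℝ) / L * s + ((2 * (n * k) : ℕ) : ℝ) * (Real.pi / L) := by
    push_cast
    ring
  rw [e, STF_anti hR hL h, pow_mul]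
  norm_num

theorem STF_per (hR : ROT) {Ω : Set E3} {n L : ℕ} {φ : E3 → ℝ} (hL : 1 ≤ L) (h : TestN Ω L φ)
    (r s t z : ℝ) (k : ℤ) (hk : t = s + k * (2 * Real.pi)) : φ (cyl r ((n : ℝ) / L * t) z) =
      φ (cyl r ((n : ℝ) / L * s) z) := by
  obtain ⟨j, rfl | rfl⟩ := k.eq_nat_or_neg
  · rw [hk]
    exact STF_per1 hR hL h r s z j
  · have e : s = t + (j : ℝ) * (2 * Real.pi) := by
      rw [hk]
      push_cast
      ring
    rw [e]
    exact (STF_per1 hR hL h r t z j).symm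

/-- the angle of a point is determined up to multiples of `2π` -/
theorem STF_ang (r t s : ℝ) (hr : 0 < r)
    (h0 : r * Real.cos t = r * Real.cos s) (h1 : r * Real.sin t = r * Real.sin s) :
    ∃ k : ℤ, t = s + k * (2 * Real.pi) := by
  have h0' : Real.cos t = Real.cos s := mul_left_cancel₀ hr.ne' h0
  have h1' : Real.sin t = Real.sin s := mul_left_cancel₀ hr.ne' h1
  have h2 : (t : Real.Angle) = (s : Real.Angle) := Real.Angle.cos_sin_inj h0' h1'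
  rw [Real.Angle.angle_eq_iff_two_pi_dvd_sub] at h2
  obtain ⟨k, hk⟩ := h2
  exact ⟨k, by linarith⟩

/-- a point is given by its distance from the axis and the argument -/
theorem STF_arg (x : E3) :
    cyl (Real.sqrt (x 0 ^ 2 + x 1 ^ 2)) (Complex.arg ((x 0 : ℂ) + (x 1 : ℂ) * Complex.I)) (x 2) =
      x := by
  obtain ⟨w, hw⟩ : ∃ w : ℂ, w = (x 0 : ℂ) + (x 1 : ℂ) * Complex.I := ⟨_, rfl⟩
  have hre : w.re = x 0 := by simp [hw]
  have him : w.im = x 1 := by simp [hw]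
  have habs : ‖w‖ = Real.sqrt (x 0 ^ 2 + x 1 ^ 2) := by
    rw [Complex.norm_def, Complex.normSq_apply, hre, him]
    congr 1
    ring
  rw [← hw, ← habs]
  funext i
  fin_cases i
  · change ‖w‖ * Real.cos (Complex.arg w) = x 0
    rw [Complex.norm_mul_cos_arg, hre]
  · change ‖w‖ * Real.sin (Complex.arg w) = x 1
    rw [Complex.norm_mul_sin_arg, him]
  · rfl

theorem STF_formula (hR : ROT) {Ω : Set E3} {n L : ℕ} {φ : E3 → ℝ} (hL : 1 ≤ L)
    (h : TestN Ω L φ) (r t z : ℝ) (hr : 0 < r) :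
    strf n L φ (cyl r t z) = φ (cyl r ((n : ℝ) / L * t) z) := by
  unfold strf
  have h3 := STF_arg (cyl r t z)
  rw [STF_s r t z hr.le, STF_2] at h3 ⊢
  obtain ⟨a, ha⟩ : ∃ a : ℝ, a = Complex.arg ((cyl r t z 0 : ℂ) + (cyl r t z 1 : ℂ) * Complex.I) :=
    ⟨_, rfl⟩
  rw [← ha] at h3 ⊢
  have h4 := congrFun h3 0
  have h5 := congrFun h3 1
  have h6 : r * Real.cos a = r * Real.cos t := h4
  have h7 : r * Real.sin a = r * Real.sin t := h5
  obtain ⟨k, hk⟩ := STF_ang r a t hr h6 h7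
  exact STF_per hR hL h r t a z k hk

/-- near the axis -/
theorem STF_zero {n L : ℕ} {φ : E3 → ℝ} {b : ℝ} (hz : ∀ x : E3, x 0 ^ 2 + x 1 ^ 2 < b ^ 2 → φ x = 0)
    (x : E3) (hx : x 0 ^ 2 + x 1 ^ 2 < b ^ 2) : strf n L φ x = 0 := by
  unfold strf
  apply hz
  have h1 := STF_s (Real.sqrt (x 0 ^ 2 + x 1 ^ 2))
    ((n : ℝ) / L * Complex.arg ((x 0 : ℂ) + (x 1 : ℂ) * Complex.I)) (x 2) (Real.sqrt_nonneg _)
  rw [Real.sqrt_inj (by positivity) (by positivity)] at h1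
  rw [h1]
  exact hx

/-- a local formula with another choice of the angle -/
theorem STF_local (hR : ROT) {Ω : Set E3} {n L : ℕ} {φ : E3 → ℝ} (hL : 1 ≤ L)
    (h : TestN Ω L φ) (y : E3) (a : ℝ) (hy : 0 < y 0 ^ 2 + y 1 ^ 2)
    (ha : cyl (Real.sqrt (y 0 ^ 2 + y 1 ^ 2)) a (y 2) = y) :
    strf n L φ y = φ (cyl (Real.sqrt (y 0 ^ 2 + y 1 ^ 2)) ((n : ℝ) / L * a) (y 2)) := by
  have h1 := STF_formula (n := n) hR hL h (Real.sqrt (y 0 ^ 2 + y 1 ^ 2)) a (y 2)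
    (Real.sqrt_pos.2 hy)
  rw [ha] at h1
  exact h1

/-- the second choice of the angle -/
theorem STF_arg2 (x : E3) :
    cyl (Real.sqrt (x 0 ^ 2 + x 1 ^ 2))
      (Complex.arg (-((x 0 : ℂ) + (x 1 : ℂ) * Complex.I)) + Real.pi) (x 2) = x := by
  obtain ⟨w, hw⟩ : ∃ w : ℂ, w = (x 0 : ℂ) + (x 1 : ℂ) * Complex.I := ⟨_, rfl⟩
  have hre : w.re = x 0 := by simp [hw]
  have him : w.im = x 1 := by simp [hw]
  have habs : ‖-w‖ = Real.sqrt (x 0 ^ 2 + x 1 ^ 2) := by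
    rw [norm_neg, Complex.norm_def, Complex.normSq_apply, hre, him]
    congr 1
    ring
  rw [← hw, ← habs]
  funext i
  fin_cases i
  · change ‖-w‖ * Real.cos (Complex.arg (-w) + Real.pi) = x 0
    rw [Real.cos_add_pi, mul_neg, Complex.norm_mul_cos_arg, Complex.neg_re, neg_neg, hre]
  · change ‖-w‖ * Real.sin (Complex.arg (-w) + Real.pi) = x 1
    rw [Real.sin_add_pi, mul_neg, Complex.norm_mul_sin_arg, Complex.neg_im, neg_neg, him]
  · rfl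

theorem STF_cyl {a b c : E3 → ℝ} {x : E3} (ha : ContDiffAt ℝ ((⊤ : ℕ∞) : WithTop ℕ∞) a x)
    (hb : ContDiffAt ℝ ((⊤ : ℕ∞) : WithTop ℕ∞) b x) (hc : ContDiffAt ℝ ((⊤ : ℕ∞) : WithTop ℕ∞) c x) :
    ContDiffAt ℝ ((⊤ : ℕ∞) : WithTop ℕ∞) (fun y => cyl (a y) (b y) (c y)) x := by
  rw [contDiffAt_pi]
  intro i
  fin_cases i
  · exact ha.mul (Real.contDiff_cos.contDiffAt.comp x hb)
  · exact ha.mul (Real.contDiff_sin.contDiffAt.comp x hb)
  · exact hc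

theorem STF_argsmooth (w : E3 → ℂ) (x : E3) (hw : ContDiffAt ℝ ((⊤ : ℕ∞) : WithTop ℕ∞) w x)
    (hx : w x ∈ Complex.slitPlane) :
    ContDiffAt ℝ ((⊤ : ℕ∞) : WithTop ℕ∞) (fun y => Complex.arg (w y)) x := by
  have h1 : ContDiffAt ℂ ((⊤ : ℕ∞) : WithTop ℕ∞) Complex.log (w x) := Complex.contDiffAt_log hx
  have h2 : ContDiffAt ℝ ((⊤ : ℕ∞) : WithTop ℕ∞) Complex.log (w x) := h1.restrict_scalars ℝ
  have h3 : ContDiffAt ℝ ((⊤ : ℕ∞) : WithTop ℕ∞) (fun y => (Complex.log (w y)).im) x :=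
    Complex.imCLM.contDiff.contDiffAt.comp x (h2.comp x hw)
  refine h3.congr_of_eventuallyEq (Filter.Eventually.of_forall fun y => ?_)
  exact (Complex.log_im _).symm

theorem STF_smooth (hR : ROT) {Ω : Set E3} {n L : ℕ} {φ : E3 → ℝ} {b : ℝ} (hL : 1 ≤ L)
    (hb : 0 < b) (h : TestN Ω L φ) (hz : ∀ x : E3, x 0 ^ 2 + x 1 ^ 2 < b ^ 2 → φ x = 0) :
    ContDiff ℝ ((⊤ : ℕ∞) : WithTop ℕ∞) (strf n L φ) := by
  rw [contDiff_iff_contDiffAt]
  intro x
  have hcont : Continuous fun y : E3 => y 0 ^ 2 + y 1 ^ 2 := by fun_prop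
  by_cases hx : x 0 ^ 2 + x 1 ^ 2 = 0
  · have h5 : {y : E3 | y 0 ^ 2 + y 1 ^ 2 < b ^ 2} ∈ 𝓝 x :=
      (isOpen_lt hcont continuous_const).mem_nhds (by
        show x 0 ^ 2 + x 1 ^ 2 < b ^ 2
        rw [hx]
        positivity)
    have h6 : strf n L φ =ᶠ[𝓝 x] fun _ => 0 := by
      filter_upwards [h5] with y hy
      exact STF_zero hz y hy
    exact (contDiffAt_const (c := (0 : ℝ))).congr_of_eventuallyEq h6
  · have hx0 : 0 < x 0 ^ 2 + x 1 ^ 2 := lt_of_le_of_ne (by positivity) (Ne.symm hx)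
    have p0 : ContDiffAt ℝ ((⊤ : ℕ∞) : WithTop ℕ∞) (fun x : E3 => x 0) x :=
      (contDiff_apply ℝ ℝ (0 : Fin 3)).contDiffAt
    have p1 : ContDiffAt ℝ ((⊤ : ℕ∞) : WithTop ℕ∞) (fun x : E3 => x 1) x :=
      (contDiff_apply ℝ ℝ (1 : Fin 3)).contDiffAt
    have p2 : ContDiffAt ℝ ((⊤ : ℕ∞) : WithTop ℕ∞) (fun x : E3 => x 2) x :=
      (contDiff_apply ℝ ℝ (2 : Fin 3)).contDiffAt
    have ps : ContDiffAt ℝ ((⊤ : ℕ∞) : WithTop ℕ∞)
        (fun x : E3 => Real.sqrt (x 0 ^ 2 + x 1 ^ 2)) x :=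
      ((p0.pow 2).add (p1.pow 2)).sqrt hx
    have hc : ∀ i : Fin 3, ContDiffAt ℝ ((⊤ : ℕ∞) : WithTop ℕ∞) (fun x : E3 => (x i : ℂ)) x :=
      fun i => (Complex.ofRealCLM.contDiff.comp (contDiff_apply ℝ ℝ i)).contDiffAt
    have hw : ContDiffAt ℝ ((⊤ : ℕ∞) : WithTop ℕ∞)
        (fun x : E3 => (x 0 : ℂ) + (x 1 : ℂ) * Complex.I) x :=
      (hc 0).add ((hc 1).mul contDiffAt_const)
    have hnear : {y : E3 | 0 < y 0 ^ 2 + y 1 ^ 2} ∈ 𝓝 x :=
      (isOpen_lt continuous_const hcont).mem_nhds hx0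
    have hgen : ∀ a : E3 → ℝ, ContDiffAt ℝ ((⊤ : ℕ∞) : WithTop ℕ∞) a x →
        (∀ y : E3, cyl (Real.sqrt (y 0 ^ 2 + y 1 ^ 2)) (a y) (y 2) = y) →
        ContDiffAt ℝ ((⊤ : ℕ∞) : WithTop ℕ∞) (strf n L φ) x := by
      intro a ha hay
      have h1 : strf n L φ =ᶠ[𝓝 x] fun y =>
          φ (cyl (Real.sqrt (y 0 ^ 2 + y 1 ^ 2)) ((n : ℝ) / L * a y) (y 2)) := by
        filter_upwards [hnear] with y hy
        exact STF_local hR hL h y (a y) hy (hay y)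
      refine ContDiffAt.congr_of_eventuallyEq ?_ h1
      exact h.1.1.contDiffAt.comp x (STF_cyl ps (contDiffAt_const.mul ha) p2)
    by_cases hs : (x 0 : ℂ) + (x 1 : ℂ) * Complex.I ∈ Complex.slitPlane
    · exact hgen _ (STF_argsmooth _ x hw hs) fun y => STF_arg y
    · have hs2 : -((x 0 : ℂ) + (x 1 : ℂ) * Complex.I) ∈ Complex.slitPlane := by
        rw [Complex.mem_slitPlane_iff] at hs ⊢
        push_neg at hs
        have hre : ((x 0 : ℂ) + (x 1 : ℂ) * Complex.I).re = x 0 := by simp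
        have him : ((x 0 : ℂ) + (x 1 : ℂ) * Complex.I).im = x 1 := by simp
        rw [hre, him] at hs
        left
        rw [Complex.neg_re, hre]
        have : x 0 ≠ 0 := by
          intro h0
          rw [h0, hs.2] at hx0
          norm_num at hx0
        have := lt_of_le_of_ne hs.1 this
        linarith
      exact hgen _ ((STF_argsmooth _ x hw.neg hs2).add contDiffAt_const) fun y => STF_arg2 y

theorem STF_sign (hR : ROT) {Ω : Set E3} {n L : ℕ} {φ : E3 → ℝ} {b : ℝ} (hn : 1 ≤ n) (hL : 1 ≤ L)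
    (hb : 0 < b) (h : TestN Ω L φ) (hz : ∀ x : E3, x 0 ^ 2 + x 1 ^ 2 < b ^ 2 → φ x = 0) (x : E3) :
    strf n L φ (rot (Real.pi / n) x) = -strf n L φ x := by
  have hn0 : (n : ℝ) ≠ 0 := by positivity
  have hL0 : (L : ℝ) ≠ 0 := by positivity
  by_cases hx : x 0 ^ 2 + x 1 ^ 2 = 0
  · have h1 : x 0 ^ 2 + x 1 ^ 2 < b ^ 2 := by rw [hx]; positivity
    have h2 : rot (Real.pi / n) x 0 ^ 2 + rot (Real.pi / n) x 1 ^ 2 < b ^ 2 := by
      rw [(hR.2.2.2.1 (Real.pi / n) x).1]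
      exact h1
    rw [STF_zero hz x h1, STF_zero hz _ h2, neg_zero]
  · have hx0 : 0 < x 0 ^ 2 + x 1 ^ 2 := lt_of_le_of_ne (by positivity) (Ne.symm hx)
    have hr := Real.sqrt_pos.2 hx0
    obtain ⟨r, hr1⟩ : ∃ r, r = Real.sqrt (x 0 ^ 2 + x 1 ^ 2) := ⟨_, rfl⟩
    obtain ⟨a, ha⟩ : ∃ a, a = Complex.arg ((x 0 : ℂ) + (x 1 : ℂ) * Complex.I) := ⟨_, rfl⟩
    have h1 := STF_arg x
    rw [← hr1, ← ha] at h1
    rw [← hr1] at hr
    rw [← h1, hR.2.2.2.2.2.2.2.2, STF_formula hR hL h _ _ _ hr, STF_formula hR hL h _ _ _ hr]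
    have h2 := STF_anti hR hL h r ((n : ℝ) / L * a) (x 2) 1
    have e : (n : ℝ) / L * (a + Real.pi / n) = (n : ℝ) / L * a + ((1 : ℕ) : ℝ) * (Real.pi / L) := by
      push_cast
      field_simp
    rw [e, h2]
    ring

theorem STF_supp (hR : ROT) {Ω : Set E3} {n L : ℕ} {φ : E3 → ℝ} (hΩ : RI Ω) (hL : 1 ≤ L)
    (h : TestN Ω L φ) : HasCompactSupport (strf n L φ) ∧ tsupport (strf n L φ) ⊆ Ω := by
  have hc : Continuous fun p : ℝ × E3 => rot p.1 p.2 := by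
    unfold rot
    refine continuous_pi fun i => ?_
    fin_cases i
    · show Continuous fun p : ℝ × E3 => Real.cos p.1 * p.2 0 - Real.sin p.1 * p.2 1
      fun_prop
    · show Continuous fun p : ℝ × E3 => Real.sin p.1 * p.2 0 + Real.cos p.1 * p.2 1
      fun_prop
    · show Continuous fun p : ℝ × E3 => p.2 2
      fun_prop
  obtain ⟨M, hM⟩ : ∃ M : ℝ, M = Real.pi * (1 + (n : ℝ) / L) := ⟨_, rfl⟩
  obtain ⟨K, hK⟩ : ∃ K : Set E3, K = (fun p : ℝ × E3 => rot p.1 p.2) '' (Icc (-M) M ×ˢ tsupport φ) :=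
    ⟨_, rfl⟩
  have hKc : IsCompact K := by
    rw [hK]
    exact (isCompact_Icc.prod h.1.2.1).image hc
  have hKΩ : K ⊆ Ω := by
    rw [hK]
    rintro x ⟨⟨t, y⟩, ⟨-, hy⟩, rfl⟩
    exact hΩ t y (h.1.2.2 hy)
  have hsub : Function.support (strf n L φ) ⊆ K := by
    intro x hx
    rw [Function.mem_support] at hx
    obtain ⟨r, hr1⟩ : ∃ r, r = Real.sqrt (x 0 ^ 2 + x 1 ^ 2) := ⟨_, rfl⟩
    obtain ⟨a, ha⟩ : ∃ a, a = Complex.arg ((x 0 : ℂ) + (x 1 : ℂ) * Complex.I) := ⟨_, rfl⟩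
    have h1 := STF_arg x
    unfold strf at hx
    rw [← hr1, ← ha] at h1 hx
    rw [hK]
    refine ⟨(a - (n : ℝ) / L * a, cyl r ((n : ℝ) / L * a) (x 2)), ⟨?_, subset_closure hx⟩, ?_⟩
    · have h2 : |a| ≤ Real.pi := by
        rw [ha]
        exact Complex.abs_arg_le_pi _
      show a - (n : ℝ) / L * a ∈ Icc (-M) M
      rw [mem_Icc, ← abs_le, hM]
      have h3 : |a - (n : ℝ) / L * a| ≤ |a| + |(n : ℝ) / L * a| := abs_sub _ _
      have h4 : |(n : ℝ) / L * a| = (n : ℝ) / L * |a| := by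
        rw [abs_mul, abs_of_nonneg (by positivity)]
      have h5 : (n : ℝ) / L * |a| ≤ (n : ℝ) / L * Real.pi :=
        mul_le_mul_of_nonneg_left h2 (by positivity)
      rw [h4] at h3
      calc |a - (n : ℝ) / L * a| ≤ |a| + (n : ℝ) / L * |a| := h3
        _ ≤ Real.pi + (n : ℝ) / L * Real.pi := add_le_add h2 h5
        _ = Real.pi * (1 + (n : ℝ) / L) := by ring
    · show rot (a - (n : ℝ) / L * a) (cyl r ((n : ℝ) / L * a) (x 2)) = x
      rw [hR.2.2.2.2.2.2.2.2]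
      have e : (n : ℝ) / L * a + (a - (n : ℝ) / L * a) = a := by ring
      rw [e, h1]
  have hcl : tsupport (strf n L φ) ⊆ K := closure_minimal hsub hKc.isClosed
  exact ⟨hKc.of_isClosed_subset (isClosed_tsupport _) hcl, hcl.trans hKΩ⟩

theorem prfSTF (hR : ROT) : STF := by
  intro Ω n L φ b hΩ hn hL hb h hz
  obtain ⟨h1, h2⟩ := STF_supp (n := n) hR hΩ hL h
  exact ⟨⟨⟨STF_smooth hR hL hb h hz, h1, h2⟩, fun x => STF_sign hR hn hL hb h hz x⟩,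
    fun r t z hr => STF_formula hR hL h r t z hr⟩

end Pool.Agent.Work.MP_d5b3be_an.BU
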