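import Pool.Agent.Work.MP_d5b3be_an.BU.StmtsS
import Pool.Agent.Work.MP_d5b3be_an.BN.ANG

/-!
# Block BU, item STI: the integrals of the stretched function
-/

set_option autoImplicit false

namespace Pool.Agent.Work.MP_d5b3be_an.BU

open Pool.Agent.Work.MP_d5b3be_an.BN
open MeasureTheory Filter Set
open scoped ENNReal Topology ContDiff

theorem STI_le (hCYI : CYI) {F G : E3 → ℝ≥0∞} (hF : Measurable F) (hG : Measurable G)
    (h : ∀ r z : ℝ, 0 < r → ∫⁻ t in Ioo (-Real.pi) Real.pi, F (cyl r t z) ≤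
      ∫⁻ t in Ioo (-Real.pi) Real.pi, G (cyl r t z)) : ∫⁻ x, F x ≤ ∫⁻ x, G x := by
  rw [hCYI _ hF, hCYI _ hG]
  refine lintegral_mono fun z => ?_
  have hcm := (ANG_cyl_cont z).measurable
  have hms : Measurable fun p : ℝ × ℝ => ENNReal.ofReal p.2 := measurable_snd.ennreal_ofReal
  have sw : ∀ f : E3 → ℝ≥0∞, Measurable f →
      ∫⁻ t in Ioo (-Real.pi) Real.pi, ∫⁻ r in Ioi (0 : ℝ), ENNReal.ofReal r * f (cyl r t z) =
        ∫⁻ r in Ioi (0 : ℝ), ENNReal.ofReal r * ∫⁻ t in Ioo (-Real.pi) Real.pi,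
          f (cyl r t z) := by
    intro f hf
    rw [lintegral_lintegral_swap (hms.mul (hf.comp hcm)).aemeasurable]
    refine lintegral_congr fun r => ?_
    have hm : Measurable fun t : ℝ => f (cyl r t z) := by
      have h1 : Continuous fun t : ℝ => cyl r t z :=
        (ANG_cyl_cont z).comp (continuous_id.prodMk continuous_const)
      exact hf.comp h1.measurable
    exact lintegral_const_mul _ hm
  rw [sw _ hF, sw _ hG]
  refine setLIntegral_mono' measurableSet_Ioi fun r hr => ?_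
  exact mul_le_mul_right (h r z hr) _

theorem STI_key {g : ℝ → ℝ} (hg : Continuous g) (hn : ∀ t, 0 ≤ g t) :
    ∫⁻ t in Ioo (-Real.pi) Real.pi, ENNReal.ofReal (g t) =
      ENNReal.ofReal (∫ t in (-Real.pi)..Real.pi, g t) := by
  have hle : -Real.pi ≤ Real.pi := by linarith [Real.pi_pos]
  rw [intervalIntegral.integral_of_le hle, integral_Ioc_eq_integral_Ioo]
  rw [ofReal_integral_eq_lintegral_ofReal]
  · exact (hg.integrableOn_Icc).mono_set Ioo_subset_Icc_self
  · exact Eventually.of_forall hn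

/-- the integral over a symmetric interval of `2k` periods -/
theorem STI_per {g : ℝ → ℝ} (hg : Continuous g) {T : ℝ} (hp : Function.Periodic g T) (k : ℕ) :
    ∫ t in (-(k * T))..(k * T), g t = 2 * k * ∫ t in (0 : ℝ)..T, g t := by
  have h1 := hp.intervalIntegral_add_zsmul_eq (2 * k : ℤ) (-(k * T))
    (fun a b => hg.intervalIntegrable a b)
  have h2 := hp.intervalIntegral_add_eq (-(k * T)) 0
  rw [zero_add] at h2
  rw [h2] at h1
  have e : -(k * T) + (2 * k : ℤ) • T = k * T := by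
    rw [zsmul_eq_mul]
    push_cast
    ring
  rw [e, zsmul_eq_mul] at h1
  rw [h1]
  push_cast
  ring

theorem STI_circ {g : ℝ → ℝ} (hg : Continuous g) {n L : ℕ} (hn : 1 ≤ n) (hL : 1 ≤ L)
    (hp : Function.Periodic g (Real.pi / L)) :
    ∫ t in (-Real.pi)..Real.pi, g ((n : ℝ) / L * t) = ∫ t in (-Real.pi)..Real.pi, g t := by
  have hn0 : (n : ℝ) ≠ 0 := by positivity
  have hL0 : (L : ℝ) ≠ 0 := by positivity
  rw [intervalIntegral.integral_comp_mul_left g (div_ne_zero hn0 hL0)]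
  have e1 : (n : ℝ) / L * -Real.pi = -(n * (Real.pi / L)) := by ring
  have e2 : (n : ℝ) / L * Real.pi = n * (Real.pi / L) := by ring
  rw [e1, e2, STI_per hg hp n]
  have e3 : -Real.pi = -(L * (Real.pi / L)) := by field_simp
  have e4 : Real.pi = L * (Real.pi / L) := by field_simp
  have h5 : ∫ t in (-Real.pi)..Real.pi, g t = 2 * L * ∫ t in (0 : ℝ)..(Real.pi / L), g t := by
    rw [← STI_per hg hp L, ← e3, ← e4]
  rw [h5, smul_eq_mul]
  field_simp

theorem STI_hc {Ω : Set E3} {L : ℕ} {φ : E3 → ℝ} (hR : ROT) (h : TestN Ω L φ) (r t z : ℝ) :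
    φ (cyl r (t + Real.pi / L) z) = -φ (cyl r t z) := by
  rw [← hR.2.2.2.2.2.2.2.2 (Real.pi / L) r t z]
  exact h.2 _

/-- the three derivatives -/
theorem STI_der {Ω : Set E3} {L : ℕ} {φ : E3 → ℝ} (hR : ROT) (hD : CYD) (h : TestN Ω L φ)
    (r t z : ℝ) (hr : 0 < r) :
    (Real.cos (t + Real.pi / L) * pd 0 φ (cyl r (t + Real.pi / L) z) +
        Real.sin (t + Real.pi / L) * pd 1 φ (cyl r (t + Real.pi / L) z) =
      -(Real.cos t * pd 0 φ (cyl r t z) + Real.sin t * pd 1 φ (cyl r t z))) ∧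
    (-Real.sin (t + Real.pi / L) * pd 0 φ (cyl r (t + Real.pi / L) z) +
        Real.cos (t + Real.pi / L) * pd 1 φ (cyl r (t + Real.pi / L) z) =
      -(-Real.sin t * pd 0 φ (cyl r t z) + Real.cos t * pd 1 φ (cyl r t z))) ∧
    pd 2 φ (cyl r (t + Real.pi / L) z) = -pd 2 φ (cyl r t z) := by
  obtain ⟨a1, a2, a3, -, -, -⟩ := hD φ h.1.1 r (t + Real.pi / L) z
  obtain ⟨b1, b2, b3, -, -, -⟩ := hD φ h.1.1 r t z
  refine ⟨?_, ?_, ?_⟩
  · have e : (fun s => φ (cyl s (t + Real.pi / L) z)) = fun s => -φ (cyl s t z) := by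
      funext s
      exact STI_hc hR h s t z
    rw [e] at a1
    exact a1.unique b1.neg
  · have a4 : HasDerivAt (fun s => φ (cyl r (s + Real.pi / L) z))
        (r * (-Real.sin (t + Real.pi / L) * pd 0 φ (cyl r (t + Real.pi / L) z) +
          Real.cos (t + Real.pi / L) * pd 1 φ (cyl r (t + Real.pi / L) z))) t := by
      have := HasDerivAt.comp_add_const t (Real.pi / L) a2
      exact this
    have e : (fun s => φ (cyl r (s + Real.pi / L) z)) = fun s => -φ (cyl r s z) := by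
      funext s
      exact STI_hc hR h r s z
    rw [e] at a4
    have h5 := a4.unique b2.neg
    have h6 : r * (-Real.sin (t + Real.pi / L) * pd 0 φ (cyl r (t + Real.pi / L) z) +
        Real.cos (t + Real.pi / L) * pd 1 φ (cyl r (t + Real.pi / L) z)) =
        r * (-(-Real.sin t * pd 0 φ (cyl r t z) + Real.cos t * pd 1 φ (cyl r t z))) := by
      rw [h5]
      ring
    exact mul_left_cancel₀ hr.ne' h6
  · have e : (fun s => φ (cyl r (t + Real.pi / L) s)) = fun s => -φ (cyl r t s) := by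
      funext s
      exact STI_hc hR h r t s
    rw [e] at a3
    exact a3.unique b3.neg

/-- the gradient of the stretched function -/
theorem STI_grad {φ ψ : E3 → ℝ} {n L : ℕ} (hL : 1 ≤ L) (hD : CYD)
    (h1 : ContDiff ℝ ((⊤ : ℕ∞) : WithTop ℕ∞) φ) (h2 : ContDiff ℝ ((⊤ : ℕ∞) : WithTop ℕ∞) ψ)
    (hf : ∀ r t z : ℝ, 0 < r → ψ (cyl r t z) = φ (cyl r ((n : ℝ) / L * t) z))
    (r t s z : ℝ) (hr : 0 < r) (hs : s = (n : ℝ) / L * t) :
    ∑ i, gr ψ i (cyl r t z) ^ 2 =
      (Real.cos s * pd 0 φ (cyl r s z) + Real.sin s * pd 1 φ (cyl r s z)) ^ 2 +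
      ((n : ℝ) / L) ^ 2 *
        (-Real.sin s * pd 0 φ (cyl r s z) + Real.cos s * pd 1 φ (cyl r s z)) ^ 2 +
      pd 2 φ (cyl r s z) ^ 2 := by
  obtain ⟨a1, a2, a3, -, -, -⟩ := hD ψ h2 r t z
  obtain ⟨b1, b2, b3, -, -, -⟩ := hD φ h1 r s z
  have q1 : Real.cos t * pd 0 ψ (cyl r t z) + Real.sin t * pd 1 ψ (cyl r t z) =
      Real.cos s * pd 0 φ (cyl r s z) + Real.sin s * pd 1 φ (cyl r s z) := by
    have e : (fun y => ψ (cyl y t z)) =ᶠ[𝓝 r] fun y => φ (cyl y s z) := by
      filter_upwards [Ioi_mem_nhds hr] with y hy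
      rw [hs]
      exact hf y t z hy
    exact a1.unique (b1.congr_of_eventuallyEq e)
  have q2 : -Real.sin t * pd 0 ψ (cyl r t z) + Real.cos t * pd 1 ψ (cyl r t z) =
      (n : ℝ) / L * (-Real.sin s * pd 0 φ (cyl r s z) + Real.cos s * pd 1 φ (cyl r s z)) := by
    have e : (fun y => ψ (cyl r y z)) = fun y => φ (cyl r ((n : ℝ) / L * y) z) := by
      funext y
      exact hf r y z hr
    rw [e] at a2
    have b4 : HasDerivAt (fun y : ℝ => (n : ℝ) / L * y) ((n : ℝ) / L * 1) t :=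
      (hasDerivAt_id t).const_mul _
    rw [hs] at b2
    have b5 := HasDerivAt.comp t b2 b4
    have h5 := a2.unique b5
    rw [← hs] at h5
    have h6 : r * (-Real.sin t * pd 0 ψ (cyl r t z) + Real.cos t * pd 1 ψ (cyl r t z)) =
        r * ((n : ℝ) / L *
          (-Real.sin s * pd 0 φ (cyl r s z) + Real.cos s * pd 1 φ (cyl r s z))) := by
      rw [h5]
      ring
    exact mul_left_cancel₀ hr.ne' h6
  have q3 : pd 2 ψ (cyl r t z) = pd 2 φ (cyl r s z) := by
    have e : (fun y => ψ (cyl r t y)) = fun y => φ (cyl r s y) := by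
      funext y
      rw [hs]
      exact hf r t y hr
    rw [e] at a3
    exact a3.unique b3
  have hsum : ∑ i, gr ψ i (cyl r t z) ^ 2 = pd 0 ψ (cyl r t z) ^ 2 + pd 1 ψ (cyl r t z) ^ 2 +
      pd 2 ψ (cyl r t z) ^ 2 := by
    rw [Fin.sum_univ_three]
    rfl
  have hrot : pd 0 ψ (cyl r t z) ^ 2 + pd 1 ψ (cyl r t z) ^ 2 =
      (Real.cos t * pd 0 ψ (cyl r t z) + Real.sin t * pd 1 ψ (cyl r t z)) ^ 2 +
      (-Real.sin t * pd 0 ψ (cyl r t z) + Real.cos t * pd 1 ψ (cyl r t z)) ^ 2 := by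
    have := Real.sin_sq_add_cos_sq t
    linear_combination (-(pd 0 ψ (cyl r t z) ^ 2 + pd 1 ψ (cyl r t z) ^ 2)) * this
  rw [hsum, hrot, q1, q2, q3]
  ring

/-- integrals of functions of the values: `∫ p(ψ) = ∫ p(φ)` -/
theorem STI_val (hR : ROT) (hCYI : CYI) {Ω : Set E3} {n L : ℕ} {φ ψ : E3 → ℝ} (hn : 1 ≤ n)
    (hL : 1 ≤ L) (h1 : TestN Ω L φ) (h2 : TestN Ω n ψ)
    (hf : ∀ r t z : ℝ, 0 < r → ψ (cyl r t z) = φ (cyl r ((n : ℝ) / L * t) z)) (p : ℝ → ℝ)
    (hp : Continuous p) (hp0 : ∀ y, 0 ≤ p y) (hpn : ∀ y, p (-y) = p y) :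
    ∫ x, p (ψ x) = ∫ x, p (φ x) := by
  have c1 : Continuous fun x => p (φ x) := hp.comp h1.1.1.continuous
  have c2 : Continuous fun x => p (ψ x) := hp.comp h2.1.1.continuous
  rw [integral_eq_lintegral_of_nonneg_ae (ae_of_all _ fun x => hp0 _) c1.aestronglyMeasurable,
    integral_eq_lintegral_of_nonneg_ae (ae_of_all _ fun x => hp0 _) c2.aestronglyMeasurable]
  have hcirc : ∀ r z : ℝ, 0 < r →
      ∫⁻ t in Ioo (-Real.pi) Real.pi, ENNReal.ofReal (p (ψ (cyl r t z))) =
        ∫⁻ t in Ioo (-Real.pi) Real.pi, ENNReal.ofReal (p (φ (cyl r t z))) := by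
    intro r z hr
    have hcy : Continuous fun t : ℝ => cyl r t z :=
      (ANG_cyl_cont z).comp (continuous_id.prodMk continuous_const)
    rw [STI_key (g := fun t => p (φ (cyl r t z))) (c1.comp hcy) fun t => hp0 _,
      STI_key (g := fun t => p (ψ (cyl r t z))) (c2.comp hcy) fun t => hp0 _]
    congr 1
    have e : ∀ t, p (ψ (cyl r t z)) = (fun s => p (φ (cyl r s z))) ((n : ℝ) / L * t) := by
      intro t
      rw [hf r t z hr]
    simp_rw [e]
    refine STI_circ (g := fun s => p (φ (cyl r s z))) (c1.comp hcy) hn hL ?_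
    intro s
    show p (φ (cyl r (s + Real.pi / L) z)) = p (φ (cyl r s z))
    rw [STI_hc hR h1, hpn]
  congr 1
  refine le_antisymm ?_ ?_
  · exact STI_le hCYI c2.measurable.ennreal_ofReal c1.measurable.ennreal_ofReal
      fun r z hr => (hcirc r z hr).le
  · exact STI_le hCYI c1.measurable.ennreal_ofReal c2.measurable.ennreal_ofReal
      fun r z hr => (hcirc r z hr).ge

theorem prfSTI (hR : ROT) (hD : CYD) (hCYI : CYI) (hWAP : WAP) : STI := by
  intro Ω n L φ ψ R hn hnL hRp hbd h1 h2 hf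
  have hL : 1 ≤ L := hn.trans hnL
  have hn0 : (0 : ℝ) < n := by exact_mod_cast hn
  have hL0 : (0 : ℝ) < L := by exact_mod_cast hL
  have hnL' : (n : ℝ) ≤ L := by exact_mod_cast hnL
  refine ⟨?_, ?_, ?_⟩
  · exact STI_val hR hCYI hn hL h1 h2 hf (fun y => y ^ 6) (by fun_prop)
      (fun y => by positivity) (fun y => by ring)
  · exact STI_val hR hCYI hn hL h1 h2 hf (fun y => y ^ 2) (by fun_prop)
      (fun y => by positivity) (fun y => by ring)
  obtain ⟨D, hDd⟩ : ∃ D : ℝ, D = ((L : ℝ) ^ 2 - (n : ℝ) ^ 2) / R ^ 2 := ⟨_, rfl⟩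
  have hD0 : 0 ≤ D := by
    rw [hDd]
    apply div_nonneg _ (by positivity)
    nlinarith
  have hφc : Continuous φ := h1.1.1.continuous
  have hpφ : ∀ i, Continuous (pd i φ) := fun i => ANG_pd_cont i h1.1.1
  have hpψ : ∀ i, Continuous (pd i ψ) := fun i => ANG_pd_cont i h2.1.1
  have cφ : Continuous fun x => ∑ i, gr φ i x ^ 2 := by
    apply continuous_finsetSum
    intro i _
    exact (hpφ i).pow 2
  have cψ : Continuous fun x => ∑ i, gr ψ i x ^ 2 := by
    apply continuous_finsetSum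
    intro i _
    exact (hpψ i).pow 2
  have cF : Continuous fun x => (∑ i, gr ψ i x ^ 2) + D * φ x ^ 2 :=
    cψ.add (continuous_const.mul (hφc.pow 2))
  have hmain : ∫⁻ x, ENNReal.ofReal ((∑ i, gr ψ i x ^ 2) + D * φ x ^ 2) ≤
      ∫⁻ x, ENNReal.ofReal (∑ i, gr φ i x ^ 2) := by
    refine STI_le hCYI cF.measurable.ennreal_ofReal cφ.measurable.ennreal_ofReal ?_
    intro r z hr
    have hcy : Continuous fun t : ℝ => cyl r t z :=
      (ANG_cyl_cont z).comp (continuous_id.prodMk continuous_const)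
    rw [STI_key (g := fun t => (∑ i, gr ψ i (cyl r t z) ^ 2) + D * φ (cyl r t z) ^ 2)
        (cF.comp hcy) fun t => by positivity,
      STI_key (g := fun t => ∑ i, gr φ i (cyl r t z) ^ 2) (cφ.comp hcy) fun t => by positivity]
    refine ENNReal.ofReal_le_ofReal ?_
    -- the three derivatives on the circle
    obtain ⟨P, hP⟩ : ∃ P : ℝ → ℝ, P = fun s =>
      Real.cos s * pd 0 φ (cyl r s z) + Real.sin s * pd 1 φ (cyl r s z) := ⟨_, rfl⟩
    obtain ⟨Q, hQ⟩ : ∃ Q : ℝ → ℝ, Q = fun s =>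
      -Real.sin s * pd 0 φ (cyl r s z) + Real.cos s * pd 1 φ (cyl r s z) := ⟨_, rfl⟩
    obtain ⟨Z, hZ⟩ : ∃ Z : ℝ → ℝ, Z = fun s => pd 2 φ (cyl r s z) := ⟨_, rfl⟩
    have cP : Continuous P := by
      rw [hP]
      exact (Real.continuous_cos.mul ((hpφ 0).comp hcy)).add
        (Real.continuous_sin.mul ((hpφ 1).comp hcy))
    have cQ : Continuous Q := by
      rw [hQ]
      exact (Real.continuous_sin.neg.mul ((hpφ 0).comp hcy)).add
        (Real.continuous_cos.mul ((hpφ 1).comp hcy))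
    have cZ : Continuous Z := by
      rw [hZ]
      exact (hpφ 2).comp hcy
    have cf : Continuous fun s => φ (cyl r s z) := hφc.comp hcy
    have aP : ∀ s, P (s + Real.pi / L) = -P s := by
      intro s
      rw [hP]
      exact (STI_der hR hD h1 r s z hr).1
    have aQ : ∀ s, Q (s + Real.pi / L) = -Q s := by
      intro s
      rw [hQ]
      exact (STI_der hR hD h1 r s z hr).2.1
    have aZ : ∀ s, Z (s + Real.pi / L) = -Z s := by
      intro s
      rw [hZ]
      exact (STI_der hR hD h1 r s z hr).2.2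
    have e1 : ∀ t, ∑ i, gr ψ i (cyl r t z) ^ 2 =
        (fun s => P s ^ 2 + ((n : ℝ) / L) ^ 2 * Q s ^ 2 + Z s ^ 2) ((n : ℝ) / L * t) := by
      intro t
      rw [hP, hQ, hZ]
      exact STI_grad hL hD h1.1.1 h2.1.1 hf r t _ z hr rfl
    have e2 : ∀ t, ∑ i, gr φ i (cyl r t z) ^ 2 = P t ^ 2 + Q t ^ 2 + Z t ^ 2 := by
      intro t
      rw [hP, hQ, hZ]
      have hsum : ∑ i, gr φ i (cyl r t z) ^ 2 = pd 0 φ (cyl r t z) ^ 2 +
          pd 1 φ (cyl r t z) ^ 2 + pd 2 φ (cyl r t z) ^ 2 := by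
        rw [Fin.sum_univ_three]
        rfl
      rw [hsum]
      have := Real.sin_sq_add_cos_sq t
      simp only
      linear_combination (-(pd 0 φ (cyl r t z) ^ 2 + pd 1 φ (cyl r t z) ^ 2)) * this
    have cH : Continuous fun s => P s ^ 2 + ((n : ℝ) / L) ^ 2 * Q s ^ 2 + Z s ^ 2 :=
      ((cP.pow 2).add (continuous_const.mul (cQ.pow 2))).add (cZ.pow 2)
    have pH : Function.Periodic (fun s => P s ^ 2 + ((n : ℝ) / L) ^ 2 * Q s ^ 2 + Z s ^ 2)
        (Real.pi / L) := by
      intro s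
      show P (s + Real.pi / L) ^ 2 + ((n : ℝ) / L) ^ 2 * Q (s + Real.pi / L) ^ 2 +
        Z (s + Real.pi / L) ^ 2 = _
      rw [aP, aQ, aZ]
      ring
    have i1 : ∫ t in (-Real.pi)..Real.pi, ((∑ i, gr ψ i (cyl r t z) ^ 2) +
        D * φ (cyl r t z) ^ 2) =
        (∫ t in (-Real.pi)..Real.pi, (P t ^ 2 + ((n : ℝ) / L) ^ 2 * Q t ^ 2 + Z t ^ 2)) +
          D * ∫ t in (-Real.pi)..Real.pi, φ (cyl r t z) ^ 2 := by
      have j1 : IntervalIntegrable (fun t => ∑ i, gr ψ i (cyl r t z) ^ 2) volume (-Real.pi)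
          Real.pi := (cψ.comp hcy).intervalIntegrable _ _
      have j2 : IntervalIntegrable (fun t => D * φ (cyl r t z) ^ 2) volume (-Real.pi)
          Real.pi := (continuous_const.mul (cf.pow 2)).intervalIntegrable _ _
      rw [intervalIntegral.integral_add j1 j2, intervalIntegral.integral_const_mul]
      congr 1
      simp_rw [e1]
      exact STI_circ cH hn hL pH
    have i2 : ∫ t in (-Real.pi)..Real.pi, (∑ i, gr φ i (cyl r t z) ^ 2) =
        (∫ t in (-Real.pi)..Real.pi, (P t ^ 2 + ((n : ℝ) / L) ^ 2 * Q t ^ 2 + Z t ^ 2)) +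
          (1 - ((n : ℝ) / L) ^ 2) * ∫ t in (-Real.pi)..Real.pi, Q t ^ 2 := by
      have j2 : IntervalIntegrable (fun t => (1 - ((n : ℝ) / L) ^ 2) * Q t ^ 2) volume (-Real.pi)
          Real.pi := (continuous_const.mul (cQ.pow 2)).intervalIntegrable _ _
      rw [← intervalIntegral.integral_const_mul, ← intervalIntegral.integral_add
        (cH.intervalIntegrable _ _) j2]
      refine intervalIntegral.integral_congr fun t _ => ?_
      simp only [e2]
      ring
    rw [i1, i2]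
    have hfc : ContDiff ℝ ((⊤ : ℕ∞) : WithTop ℕ∞) (fun s => φ (cyl r s z)) :=
      (hD φ h1.1.1 r 0 z).2.2.2.2.1
    have hW := hWAP (fun s => φ (cyl r s z)) L hL (hfc.of_le (by simp))
      (fun t => STI_hc hR h1 r t z)
    have hder : ∀ t, deriv (fun s => φ (cyl r s z)) t ^ 2 = r ^ 2 * Q t ^ 2 := by
      intro t
      rw [((hD φ h1.1.1 r t z).2.1).deriv, hQ]
      ring
    simp_rw [hder] at hW
    rw [intervalIntegral.integral_const_mul] at hW
    obtain ⟨I0, hI0⟩ : ∃ I0, I0 = ∫ t in (-Real.pi)..Real.pi, φ (cyl r t z) ^ 2 := ⟨_, rfl⟩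
    obtain ⟨I1, hI1⟩ : ∃ I1, I1 = ∫ t in (-Real.pi)..Real.pi, Q t ^ 2 := ⟨_, rfl⟩
    have hle : -Real.pi ≤ Real.pi := by linarith [Real.pi_pos]
    have hI0n : 0 ≤ I0 := by
      rw [hI0]
      exact intervalIntegral.integral_nonneg hle fun t _ => by positivity
    have hI1n : 0 ≤ I1 := by
      rw [hI1]
      exact intervalIntegral.integral_nonneg hle fun t _ => by positivity
    rw [← hI0, ← hI1] at hW ⊢
    have hfin : D * I0 ≤ (1 - ((n : ℝ) / L) ^ 2) * I1 := by
      have hq : (n : ℝ) / L ≤ 1 := by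
        rw [div_le_one hL0]
        exact hnL'
      have hq0 : 0 ≤ (n : ℝ) / L := by positivity
      have hq2 : 0 ≤ 1 - ((n : ℝ) / L) ^ 2 := by nlinarith
      rcases le_or_gt r R with hrR | hrR
      · have h5 : (L : ℝ) ^ 2 / r ^ 2 * I0 ≤ I1 := by
          rw [div_mul_eq_mul_div, div_le_iff₀ (by positivity)]
          linarith
        have h6 : D * I0 ≤ (1 - ((n : ℝ) / L) ^ 2) * ((L : ℝ) ^ 2 / r ^ 2 * I0) := by
          have e : (1 - ((n : ℝ) / L) ^ 2) * ((L : ℝ) ^ 2 / r ^ 2 * I0) =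
              ((L : ℝ) ^ 2 - (n : ℝ) ^ 2) / r ^ 2 * I0 := by
            field_simp
          rw [e, hDd]
          apply mul_le_mul_of_nonneg_right _ hI0n
          apply div_le_div_of_nonneg_left _ (by positivity)
          · exact pow_le_pow_left₀ hr.le hrR 2
          · nlinarith
        exact h6.trans (mul_le_mul_of_nonneg_left h5 hq2)
      · have h0 : ∀ t, φ (cyl r t z) = 0 := by
          intro t
          by_contra hne
          have h7 : cyl r t z ∈ Ω := h1.1.2.2 (subset_closure hne)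
          have h8 := hbd _ h7
          have h4 : cyl r t z 0 ^ 2 + cyl r t z 1 ^ 2 = r ^ 2 := by
            have h5 : cyl r t z 0 = r * Real.cos t := rfl
            have h6 : cyl r t z 1 = r * Real.sin t := rfl
            rw [h5, h6]
            have h7 := Real.sin_sq_add_cos_sq t
            linear_combination (r ^ 2) * h7
          rw [h4] at h8
          nlinarith
        have h9 : I0 = 0 := by
          rw [hI0]
          simp [h0]
        rw [h9, mul_zero]
        exact mul_nonneg hq2 hI1n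
    linarith
  -- back to real integrals
  have hcsφ : HasCompactSupport φ := h1.1.2.1
  have hcs : ∀ (f : E3 → ℝ) (_ : HasCompactSupport f) (i : Fin 3), HasCompactSupport (pd i f) := by
    intro f hf i
    refine HasCompactSupport.intro (K := tsupport f) hf fun x hx => ?_
    unfold pd
    have : fderiv ℝ f x = 0 := by
      by_contra hne
      exact hx (support_fderiv_subset ℝ hne)
    rw [this]
    rfl
  have intsq : ∀ (f : E3 → ℝ), Continuous f → HasCompactSupport f →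
      Integrable (fun x => f x ^ 2) := by
    intro f hf hf2
    have : (fun x => f x ^ 2) = fun x => f x * f x := by
      funext x
      ring
    rw [this]
    exact (hf.mul hf).integrable_of_hasCompactSupport hf2.mul_left
  have iψ : Integrable fun x => ∑ i, gr ψ i x ^ 2 :=
    integrable_finsetSum _ fun i _ => intsq _ (hpψ i) (hcs ψ h2.1.2.1 i)
  have iφ : Integrable fun x => ∑ i, gr φ i x ^ 2 :=
    integrable_finsetSum _ fun i _ => intsq _ (hpφ i) (hcs φ hcsφ i)
  have i0 : Integrable fun x => D * φ x ^ 2 := (intsq φ hφc hcsφ).const_mul D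
  rw [← hDd]
  have e5 : DD (gr ψ) + D * Q2 φ = ∫ x, ((∑ i, gr ψ i x ^ 2) + D * φ x ^ 2) := by
    rw [integral_add iψ i0, integral_const_mul]
    rfl
  rw [e5]
  unfold DD
  have i9 : Integrable fun x => (∑ i, gr ψ i x ^ 2) + D * φ x ^ 2 := iψ.add i0
  rw [← ofReal_integral_eq_lintegral_ofReal i9 (ae_of_all _ fun x => by
      show (0 : ℝ) ≤ (∑ i, gr ψ i x ^ 2) + D * φ x ^ 2
      positivity),
    ← ofReal_integral_eq_lintegral_ofReal iφ (ae_of_all _ fun x => by
      show (0 : ℝ) ≤ ∑ i, gr φ i x ^ 2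
      positivity)] at hmain
  rwa [ENNReal.ofReal_le_ofReal_iff (integral_nonneg fun x => by
    show (0 : ℝ) ≤ ∑ i, gr φ i x ^ 2
    positivity)] at hmain

end Pool.Agent.Work.MP_d5b3be_an.BU
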