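import Pool.Agent.Work.MP_d5b3be_an.BU.StmtsS
import Pool.Agent.Work.MP_d5b3be_an.BN.HCE

/-!
# Block BU, part S, item STM: the levels are strictly increasing
-/

set_option autoImplicit false

namespace Pool.Agent.Work.MP_d5b3be_an.BU

open Pool.Agent.Work.MP_d5b3be_an.BN
open MeasureTheory Filter Set
open scoped ENNReal Topology ContDiff

/-- a sequence close to a convergent one converges -/
theorem STM_squeeze {a b : ℕ → ℝ} {c : ℝ} (hb : Tendsto b atTop (𝓝 c))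
    (h : ∀ k : ℕ, |a k - b k| ≤ 1 / ((k : ℝ) + 1)) : Tendsto a atTop (𝓝 c) := by
  have h0 : Tendsto (fun k : ℕ => a k - b k) atTop (𝓝 0) :=
    squeeze_zero_norm (fun k => by rw [Real.norm_eq_abs]; exact h k)
      tendsto_one_div_add_atTop_nhds_zero_nat
  have h1 := h0.add hb
  simpa using h1

/-- `u` is not zero in `L²` if it is not zero in `L⁶` -/
theorem STM_Q2_pos {u : E3 → ℝ} (hu2 : MemLp u 2 volume) (hN : 0 < N6 u) : 0 < Q2 u := by
  have h0 : 0 ≤ Q2 u := integral_nonneg fun x => sq_nonneg _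
  rcases h0.lt_or_eq with h | h
  · exact h
  · exfalso
    have h1 : (fun x => u x ^ 2) =ᵐ[volume] 0 :=
      (integral_eq_zero_iff_of_nonneg (fun x => sq_nonneg _) hu2.integrable_sq).1 h.symm
    have h2 : N6 u = 0 := by
      unfold N6
      refine integral_eq_zero_of_ae ?_
      filter_upwards [h1] with x hx
      have h3 : u x ^ 2 = 0 := hx
      show u x ^ 6 = 0
      have h4 : u x ^ 6 = (u x ^ 2) ^ 3 := by ring
      rw [h4, h3]
      norm_num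
    exact hN.ne' h2

theorem STM_cube_lt {a b : ℝ} (h : a < b) : a ^ 3 < b ^ 3 :=
  (Odd.strictMono_pow (by decide : Odd 3)) h

theorem STM_cube_le {a b : ℝ} (h : a ≤ b) : a ^ 3 ≤ b ^ 3 :=
  (Odd.strictMono_pow (by decide : Odd 3)).monotone h

theorem STM_lt_of_cube {a b : ℝ} (h : a ^ 3 < b ^ 3) : a < b := by
  by_contra hc
  exact absurd (STM_cube_le (not_lt.1 hc)) (not_le.2 h)

/-- item STM -/
theorem prfSTM (h1 : STF) (h2 : STI) (h3 : STC) (h4 : CLT) (h5 : SOB) (h6 : HS6) (h7 : LCV)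
    (h8 : L6C) : STM := by
  intro Ω n L R lam m m' u g hRI hn hnL hR hΩR hm hu hu6 hN haf hm'
  have hL : 1 ≤ L := hn.trans hnL.le
  have hT : Cl (TestN Ω L) := (h4 Ω).2 L
  obtain ⟨hu2, hg2, φ, hφ, hc1, hc2⟩ := hu
  have hLpos : (0 : ℝ) < (L : ℝ) ^ 2 / 64 := by
    have : (0 : ℝ) < L := by exact_mod_cast hL
    positivity
  have hin : ∀ ψ, TestN Ω L ψ → (L : ℝ) ^ 2 / 64 * N6 ψ ≤ DD (gr ψ) ^ 3 := by
    intro ψ hψ
    have := h5 Ω L ψ hL hψ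
    linarith
  obtain ⟨-, hcv6⟩ := h6 (TestN Ω L) _ u g φ hT hLpos hin hu2 hg2 hφ hc1 hc2
  have hN1 : Tendsto (fun k => N6 (φ k)) atTop (𝓝 (N6 u)) :=
    (h8 φ u (fun k => HCE_memLp hT (hφ k) 6) hu6 hcv6).1
  have hQ1 : Tendsto (fun k => Q2 (φ k)) atTop (𝓝 (Q2 u)) :=
    (h7 φ u (fun k => HCE_memLp hT (hφ k) 2) hu2 hc1).1
  have hD1 : Tendsto (fun k => DD (gr (φ k))) atTop (𝓝 (DD g)) := by
    have h1 : ∀ k, DD (gr (φ k)) = ∑ i, ∫ x, gr (φ k) i x ^ 2 := fun k =>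
      HCE_DD fun i => HCE_pd_memLp hT (hφ k) i
    simp_rw [h1, HCE_DD hg2]
    exact tendsto_finsetSum _ fun i _ =>
      (h7 (fun k => pd i (φ k)) (g i) (fun k => HCE_pd_memLp hT (hφ k) i) (hg2 i) (hc2 i)).1
  have hε : ∀ k : ℕ, (0 : ℝ) < 1 / ((k : ℝ) + 1) := fun k => by positivity
  choose ψ b hb hψ hax hN2 hQ2 hD2 using
    fun k : ℕ => h3 Ω L (φ k) (1 / ((k : ℝ) + 1)) hL (hφ k) (hε k)
  have hN3 : Tendsto (fun k => N6 (ψ k)) atTop (𝓝 (N6 u)) := STM_squeeze hN1 hN2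
  have hQ3 : Tendsto (fun k => Q2 (ψ k)) atTop (𝓝 (Q2 u)) := STM_squeeze hQ1 hQ2
  have hD3 : Tendsto (fun k => DD (gr (ψ k))) atTop (𝓝 (DD g)) := STM_squeeze hD1 hD2
  set δ : ℝ := ((L : ℝ) ^ 2 - (n : ℝ) ^ 2) / R ^ 2 with hδ
  have hδpos : 0 < δ := by
    have h1 : (n : ℝ) < L := by exact_mod_cast hnL
    have h2 : (0 : ℝ) ≤ n := Nat.cast_nonneg n
    have h3 : (n : ℝ) ^ 2 < (L : ℝ) ^ 2 := by nlinarith
    rw [hδ]
    exact div_pos (by linarith) (by positivity)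
  have hkey : ∀ k, m ^ 3 * N6 (ψ k) ≤ (DD (gr (ψ k)) - δ * Q2 (ψ k) - lam * Q2 (ψ k)) ^ 3 := by
    intro k
    obtain ⟨e1, e2⟩ := h1 Ω n L (ψ k) (b k) hRI hn hL (hb k) (hψ k) (hax k)
    obtain ⟨e3, e4, e5⟩ := h2 Ω n L (ψ k) (strf n L (ψ k)) R hn hnL.le hR hΩR (hψ k) e1 e2
    have e6 := hm _ e1
    rw [e3] at e6
    refine e6.trans (STM_cube_le ?_)
    unfold af
    rw [e4]
    linarith
  have hlim : m ^ 3 * N6 u ≤ (DD g - δ * Q2 u - lam * Q2 u) ^ 3 := by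
    refine le_of_tendsto_of_tendsto' (hN3.const_mul (m ^ 3)) ?_ hkey
    exact ((hD3.sub (hQ3.const_mul δ)).sub (hQ3.const_mul lam)).pow 3
  have hQpos : 0 < Q2 u := STM_Q2_pos hu2 hN
  have hlt : (DD g - δ * Q2 u - lam * Q2 u) ^ 3 < (af lam u g) ^ 3 := by
    refine STM_cube_lt ?_
    unfold af
    have := mul_pos hδpos hQpos
    linarith
  have hfin : m ^ 3 * N6 u < m' ^ 3 * N6 u := by
    have e : (af lam u g) ^ 3 = m' ^ 3 * N6 u := by
      rw [haf, ← hm']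
      ring
    rw [← e]
    exact lt_of_le_of_lt hlim hlt
  exact STM_lt_of_cube (lt_of_mul_lt_mul_right hfin hN.le)

end Pool.Agent.Work.MP_d5b3be_an.BU
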