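import Pool.Agent.Work.MP_d5b3be_an.BU.Stmts
import Pool.Agent.Work.MP_d5b3be_an.BN.Asm3

/-!
# Block BU: assembly
-/

set_option autoImplicit false

namespace Pool.Agent.Work.MP_d5b3be_an.BU

open Pool.Agent.Work.MP_d5b3be_an.BN
open MeasureTheory Filter Set
open scoped ENNReal Topology ContDiff

/-- a radius -/
theorem Asm_rad (Ω : Set E3) (hb : Bornology.IsBounded Ω) :
    ∃ R : ℝ, 0 < R ∧ ∀ x ∈ Ω, x 0 ^ 2 + x 1 ^ 2 ≤ R ^ 2 := by
  obtain ⟨M, hM⟩ := hb.exists_norm_le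
  refine ⟨2 * (|M| + 1), by positivity, fun x hx => ?_⟩
  have hc : ∀ i, |x i| ≤ |M| + 1 := fun i => by
    have h1 := norm_le_pi_norm x i
    rw [Real.norm_eq_abs] at h1
    have h2 := hM x hx
    have h3 := le_abs_self M
    linarith
  have e0 : x 0 ^ 2 ≤ (|M| + 1) ^ 2 := sq_le_sq' (abs_le.1 (hc 0)).1 (abs_le.1 (hc 0)).2
  have e1 : x 1 ^ 2 ≤ (|M| + 1) ^ 2 := sq_le_sq' (abs_le.1 (hc 1)).1 (abs_le.1 (hc 1)).2
  nlinarith [sq_nonneg (|M| + 1)]

/-- the theorem of the block -/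
theorem Asm_U (h1 : ROT) (h5 : ROS) (h6 : DIS) (hSLL : SLL) (hUNF : UNF) (hKEY : KEY) (hCR2 : CR2)
    (hL1P : L1P) (hCNU : CNU) :
    ∃ C c : ℝ, 0 < C ∧ 0 < c ∧ ∀ Ω : Set E3, IsOpen Ω → Ω.Nonempty → Bornology.IsBounded Ω →
      RI Ω → ∀ lam : ℝ, C * lam1 Ω ≤ lam → Fam Ω lam (max 1 (c * Real.log (lam / lam1 Ω))) := by
  obtain ⟨C, hC, hU⟩ := hUNF
  obtain ⟨N0, τ, hN0, hτ, hτ1, hK⟩ := hKEY
  obtain ⟨N1, c, hc, hN⟩ := hCNU C τ hC hτ
  obtain ⟨N, hNdef⟩ : ∃ N : ℕ, N = max N0 N1 := ⟨_, rfl⟩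
  have hNN0 : N0 ≤ N := by rw [hNdef]; exact le_max_left _ _
  have hNN1 : N1 ≤ N := by rw [hNdef]; exact le_max_right _ _
  have hN1 : 1 ≤ N := hN0.trans hNN0
  have hNr : (1 : ℝ) ≤ N := by exact_mod_cast hN1
  refine ⟨max 1 (C * (N : ℝ) ^ 2), c, lt_of_lt_of_le one_pos (le_max_left _ _), hc, ?_⟩
  intro Ω ho hne hb hr lam hl
  obtain ⟨u1, u2, u3, u4, u5⟩ := hU Ω ho hne hr
  obtain ⟨R, hR, hΩR⟩ := Asm_rad Ω hb
  have hl1 := hL1P Ω ho hne hb
  have hlam1 : lam1 Ω ≤ lam := by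
    refine le_trans ?_ hl
    have := mul_le_mul_of_nonneg_right (le_max_left 1 (C * (N : ℝ) ^ 2)) hl1.le
    linarith
  have hlam : 0 < lam := lt_of_lt_of_le hl1 hlam1
  have hlN : Un Ω N ≤ lam := by
    refine (u5 N hN1).trans (le_trans ?_ hl)
    exact mul_le_mul_of_nonneg_right (le_max_right _ _) hl1.le
  -- the largest number below the threshold
  have hex : ∃ n : ℕ, N ≤ n ∧ lam < Un Ω (n + 1) := by
    obtain ⟨k, hk⟩ := exists_nat_gt (lam * R ^ 2)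
    refine ⟨max N k, le_max_left _ _, ?_⟩
    refine lt_of_lt_of_le ?_ (u3 R (max N k + 1) hR hΩR)
    rw [lt_div_iff₀ (by positivity)]
    refine lt_of_lt_of_le hk ?_
    have h2 : (k : ℝ) ≤ ((max N k : ℕ) : ℝ) := by exact_mod_cast le_max_right N k
    have h3 : (0 : ℝ) ≤ k := Nat.cast_nonneg k
    push_cast at *
    nlinarith
  obtain ⟨m, hmdef⟩ : ∃ m : ℕ, m = Nat.find hex := ⟨_, rfl⟩
  have hm := Nat.find_spec hex
  rw [← hmdef] at hm
  obtain ⟨hm1, hm2⟩ := hm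
  have hmU : Un Ω m ≤ lam := by
    rcases Nat.lt_or_ge N m with h | h
    · by_contra hcon
      have h2 := Nat.find_min hex (m := m - 1) (by omega)
      apply h2
      refine ⟨by omega, ?_⟩
      rw [show m - 1 + 1 = m by omega]
      exact not_le.1 hcon
    · have : m = N := le_antisymm h hm1
      rw [this]
      exact hlN
  have hx1 : 1 ≤ lam / lam1 Ω := by
    rw [le_div_iff₀ hl1, one_mul]
    exact hlam1
  have hx2 : lam / lam1 Ω < C * ((m : ℝ) + 1) ^ 2 := by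
    rw [div_lt_iff₀ hl1]
    refine lt_of_lt_of_le hm2 ?_
    have := u5 (m + 1) (by omega)
    push_cast at this
    exact this
  obtain ⟨J, hJ1, hJ2, hJ3⟩ := hN m (lam / lam1 Ω) (hNN1.trans hm1) hx1 hx2
  -- the solutions
  have hm0 : 1 ≤ m := hN1.trans hm1
  have hmr : (0 : ℝ) < m := by exact_mod_cast hm0
  obtain ⟨g, g1, g2, g3⟩ := u4 m (τ * (m : ℝ) ^ 2 / R ^ 2) (by positivity)
  have g4 : Ai g + (m : ℝ) ^ 2 * Wi g ≤ (lam + τ * (m : ℝ) ^ 2 / R ^ 2) * Bi g := by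
    refine g3.trans (mul_le_mul_of_nonneg_right (by linarith) ?_)
    unfold Bi
    refine setIntegral_nonneg (measurableSet_lt measurable_const measurable_fst) ?_
    intro p hp
    exact mul_nonneg (le_of_lt hp) (sq_nonneg _)
  have key : ∀ i : Fin J, ∃ (n p : ℕ) (u : E3 → ℝ), Odd p ∧ n = 2 ^ (i : ℕ) * p ∧ 1 ≤ n ∧
      IsSol Ω lam u ∧ Anti n u := by
    intro i
    obtain ⟨n, p, e1, e2, e3, e4⟩ := Asm3_num (m + 1) i
    have hpow : 2 ^ ((i : ℕ) + 1) ≤ 2 ^ J := Nat.pow_le_pow_right (by norm_num) i.isLt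
    have hnm : n ≤ m + 2 ^ J := by omega
    have hnr : (n : ℝ) ≤ (1 + τ) * m := by
      have h2 : (n : ℝ) ≤ m + 2 ^ J := by exact_mod_cast hnm
      linarith
    have hψ := hK Ω R lam m n g hr hR hΩR (hNN0.trans hm1) (by omega) hnr g1 g2 g4
    have hV : lam < Un Ω n := lt_of_lt_of_le hm2 (u2 (m + 1) n e1)
    obtain ⟨u, hu1, hu2, hu3⟩ := hCR2 Ω n (Un Ω n) lam hb hr (by omega) hlam hV
      (hSLL Ω n (Un Ω n) hr (by omega) (fun g hg => u1 n g hg)) hψ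
    exact ⟨n, p, u, e3, e4, by omega, hu1, hu3⟩
  choose n p u hp hnp hn hu hA using key
  have main : ∀ i i' : Fin J, i ≠ i' → ∀ t σ : ℝ, (σ = 1 ∨ σ = -1) →
      ¬ (u i =ᵐ[volume] fun x => σ * u i' (rot t x)) := by
    intro i i' hii t σ hσ h
    have h9 := INE_anti h1 (n i') t σ (u i) (u i') (hA i') h
    have h10 := hA i
    rw [hnp i'] at h9
    rw [hnp i] at h10
    have hne : (i : ℕ) ≠ i' := fun h => hii (Fin.ext h)
    rcases lt_or_gt_of_ne hne with hlt | hgt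
    · exact Asm3_two h1 (u i) (hu i).1 i i' (p i) (p i') hlt (hp i) (hp i') h10 h9
    · exact Asm3_two h1 (u i) (hu i).1 i' i (p i') (p i) hgt (hp i') (hp i) h9 h10
  refine ⟨J, fun i j x => u i (rot (Real.pi / (n i * 2 ^ j)) x), ?_, ?_, ?_, ?_⟩
  · exact max_le (by exact_mod_cast hJ1) hJ2
  · intro i j
    exact h5 Ω lam _ _ hr (hu i)
  · intro i j j' hjj
    exact h6 (n i) _ (hn i) (hu i).1 (hA i) j j' hjj
  · intro i i' hii j j' t
    constructor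
    · intro h
      have h11 := Asm_move h1 _ _ _ _ _ h
      refine main i i' hii (Real.pi / (n i' * 2 ^ j') + t - Real.pi / (n i * 2 ^ j)) 1
        (Or.inl rfl) ?_
      filter_upwards [h11] with x hx
      rw [hx, one_mul]
    · intro h
      have h11 := Asm_move' h1 _ _ _ _ _ h
      refine main i i' hii (Real.pi / (n i' * 2 ^ j') + t - Real.pi / (n i * 2 ^ j)) (-1)
        (Or.inr rfl) ?_
      filter_upwards [h11] with x hx
      rw [hx, neg_one_mul]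

end Pool.Agent.Work.MP_d5b3be_an.BU
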