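import Pool.Agent.Work.MP_d5b3be_an.BN.Stmts4

/-!
# Block BU, part S: the levels of the classes are strictly increasing (statements)

The minimum level `m` of the class `n` (`m³ N6 φ ≤ (af lam φ)³`, attained) is strictly increasing in `n`:
stretch a function of the class `L` in the angle by the factor `L/n`, `n < L`. The solution `u` of EX2
satisfies `(N6 u)² = m³`, and `N6` is invariant under rotations and sign, so the solutions of ALL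
different `n` are not related: `c sqrt(lam / lam1)` families instead of `c log(lam / lam1)`.
-/

set_option autoImplicit false

namespace Pool.Agent.Work.MP_d5b3be_an.BU

open Pool.Agent.Work.MP_d5b3be_an.BN
open MeasureTheory Filter Set
open scoped ENNReal Topology ContDiff

/-- the function stretched in the angle: `(r, t, z) ↦ φ(r, (n/L) t, z)` -/
noncomputable def strf (n L : ℕ) (φ : E3 → ℝ) (x : E3) : ℝ :=
  φ (cyl (Real.sqrt (x 0 ^ 2 + x 1 ^ 2))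
    ((n : ℝ) / L * Complex.arg ((x 0 : ℂ) + (x 1 : ℂ) * Complex.I)) (x 2))

/-- STF (MEDIUM, from ROT): the stretched function. `2π n/L` is `2n` times `π/L`, so
`φ(cyl r (n/L t) z)` has the period `2π` in `t`. Near a point away from the axis the angle is a smooth
function (`Complex.arg` or `arg(-z) + π`), near the axis the function is zero. Support: in the set of the
points whose rotations meet `tsupport φ` (image of a compact set, in `Ω` by RI). -/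
def STF : Prop :=
  ∀ (Ω : Set E3) (n L : ℕ) (φ : E3 → ℝ) (b : ℝ), RI Ω → 1 ≤ n → 1 ≤ L → 0 < b → TestN Ω L φ →
    (∀ x : E3, x 0 ^ 2 + x 1 ^ 2 < b ^ 2 → φ x = 0) →
    TestN Ω n (strf n L φ) ∧
    ∀ r t z : ℝ, 0 < r → strf n L φ (cyl r t z) = φ (cyl r ((n : ℝ) / L * t) z)

/-- STI (MEDIUM, from CYI, CYD, ROT, WAP; models `BN/ANG.lean`, `BN/BXI.lean`): its integrals. For fixed
`r > 0`, `z`, a continuous function `G` with the period `π/L` has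
`∫_{-π}^{π} G((n/L) t) dt = (L/n) ∫_{-π n/L}^{π n/L} G = 2L ∫_0^{π/L} G = ∫_{-π}^{π} G`. By CYD for `ψ` and `φ`:
`|∇ψ|²(r, t, z) = |∇φ|² - (1 - n²/L²) (-sin t' pd 0 φ + cos t' pd 1 φ)²` at `(r, t', z)`, `t' = (n/L) t`, and WAP:
`∫ (-sin t pd 0 φ + cos t pd 1 φ)² dt ≥ (L²/r²) ∫ φ² dt`, `r ≤ R` on the support. -/
def STI : Prop :=
  ∀ (Ω : Set E3) (n L : ℕ) (φ ψ : E3 → ℝ) (R : ℝ), 1 ≤ n → n ≤ L → 0 < R →
    (∀ x ∈ Ω, x 0 ^ 2 + x 1 ^ 2 ≤ R ^ 2) → TestN Ω L φ → TestN Ω n ψ →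
    (∀ r t z : ℝ, 0 < r → ψ (cyl r t z) = φ (cyl r ((n : ℝ) / L * t) z)) →
    N6 ψ = N6 φ ∧ Q2 ψ = Q2 φ ∧
      DD (gr ψ) + ((L : ℝ) ^ 2 - (n : ℝ) ^ 2) / R ^ 2 * Q2 φ ≤ DD (gr φ)

/-- STC (MEDIUM): cut-off near the axis. `φ' = κ(ρ/b) φ`, `κ(s) = Real.smoothTransition (2s - 1)`, `b → 0`.
`φ` vanishes on the axis, so `|φ| ≤ C ρ`; the gradient of `κ(ρ/b)` is bounded by `2S/b` and vanishes for `ρ > b`,
so the gradients of `φ'` are bounded and converge to the gradient of `φ` off the axis: dominated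
convergence for the three integrals. (`κ(ρ/b) = smoothTransition (2 sqrt(x₀² + x₁²)/b - 1)` is smooth: zero near the
axis.) -/
def STC : Prop :=
  ∀ (Ω : Set E3) (L : ℕ) (φ : E3 → ℝ) (ε : ℝ), 1 ≤ L → TestN Ω L φ → 0 < ε →
    ∃ (φ' : E3 → ℝ) (b : ℝ), 0 < b ∧ TestN Ω L φ' ∧
      (∀ x : E3, x 0 ^ 2 + x 1 ^ 2 < b ^ 2 → φ' x = 0) ∧
      |N6 φ' - N6 φ| ≤ ε ∧ |Q2 φ' - Q2 φ| ≤ ε ∧ |DD (gr φ') - DD (gr φ)| ≤ ε

/-- EX2 (EASY, from CLT, SOB, INF, CPT, EUL, HCL, SYM, NSY; the proofs of `BN/EXI.lean` and `BN/CRI.lean`):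
the criterion with the level. `u = s u₀`, `s⁴ = m`: `N6 u = s⁶`, `af lam u = s² m = s⁶`. -/
def EX2 : Prop :=
  ∀ (Ω : Set E3) (n : ℕ) (V lam : ℝ), Bornology.IsBounded Ω → RI Ω → 1 ≤ n →
    0 < lam → lam < V → (∀ φ, TestN Ω n φ → V * Q2 φ ≤ DD (gr φ)) →
    (∃ ψ, TestN Ω n ψ ∧ 0 < N6 ψ ∧ 64 * af lam ψ (gr ψ) ^ 3 < (n : ℝ) ^ 2 * N6 ψ) →
    ∃ (m : ℝ) (u : E3 → ℝ) (g : Fin 3 → E3 → ℝ), 0 < m ∧ HC (TestN Ω n) u g ∧ MemLp u 6 volume ∧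
      N6 u ^ 2 = m ^ 3 ∧ 0 < N6 u ∧ af lam u g = N6 u ∧
      (∀ φ, TestN Ω n φ → m ^ 3 * N6 φ ≤ af lam φ (gr φ) ^ 3) ∧ IsSol Ω lam u ∧ Anti n u

/-- STM (EASY-MEDIUM, from STF, STI, STC, and CLT, SOB, HS6, LCV, L6C): the levels are strictly
increasing. `φ_k → u` in the class `L` (also in `L⁶`), `φ'_k` from STC with `ε = 1/k`, `ψ_k = strf n L φ'_k`:
`m³ N6 φ'_k ≤ (af φ'_k - δ Q2 φ'_k)³`, `δ = (L² - n²)/R²`, so
`m³ N6 u ≤ (af u - δ Q2 u)³ < (af u)³ = (N6 u)³ = m'³ N6 u` (`Q2 u > 0` as `N6 u > 0`). -/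
def STM : Prop :=
  ∀ (Ω : Set E3) (n L : ℕ) (R lam m m' : ℝ) (u : E3 → ℝ) (g : Fin 3 → E3 → ℝ), RI Ω → 1 ≤ n →
    n < L → 0 < R → (∀ x ∈ Ω, x 0 ^ 2 + x 1 ^ 2 ≤ R ^ 2) →
    (∀ φ, TestN Ω n φ → m ^ 3 * N6 φ ≤ af lam φ (gr φ) ^ 3) →
    HC (TestN Ω L) u g → MemLp u 6 volume → 0 < N6 u → af lam u g = N6 u →
    N6 u ^ 2 = m' ^ 3 → m < m'

end Pool.Agent.Work.MP_d5b3be_an.BU
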