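import Pool.Agent.Work.MP_d5b3be_an.BU.Defs
import Pool.Agent.Work.MP_d5b3be_an.BU.StmtsS
import Pool.Agent.Work.MP_d5b3be_an.BU.Asm

/-!
# Block BU: assembly with strictly increasing energies
-/

set_option autoImplicit false

namespace Pool.Agent.Work.MP_d5b3be_an.BU

open Pool.Agent.Work.MP_d5b3be_an.BN
open MeasureTheory Filter Set
open scoped ENNReal Topology ContDiff

/-- the energy is invariant under rotations -/
theorem AsmS_rot (h1 : ROT) (u : E3 → ℝ) (t : ℝ) : N6 (fun x => u (rot t x)) = N6 u :=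
  (h1.2.2.2.2.2.2.1 t).integral_comp (h1.2.2.2.2.2.2.2.1 t) (fun y => u y ^ 6)

/-- from the classes to the families -/
theorem AsmS_fam (h1 : ROT) (h5 : ROS) (h6 : DIS) (hEX2 : EX2) (hSTM : STM) (Ω : Set E3)
    (lam R : ℝ) (a N : ℕ) (hb : Bornology.IsBounded Ω) (hr : RI Ω) (hR : 0 < R)
    (hΩR : ∀ x ∈ Ω, x 0 ^ 2 + x 1 ^ 2 ≤ R ^ 2) (hlam : 0 < lam) (ha : 1 ≤ a)
    (hcl : ∀ n, a ≤ n → n < a + N → ∃ V : ℝ, lam < V ∧
      (∀ φ, TestN Ω n φ → V * Q2 φ ≤ DD (gr φ)) ∧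
      ∃ ψ, TestN Ω n ψ ∧ 0 < N6 ψ ∧ 64 * af lam ψ (gr ψ) ^ 3 < (n : ℝ) ^ 2 * N6 ψ) :
    FamE Ω lam N := by
  have key : ∀ i : Fin N, ∃ (m : ℝ) (u : E3 → ℝ) (g : Fin 3 → E3 → ℝ), 0 < m ∧
      HC (TestN Ω (a + i)) u g ∧ MemLp u 6 volume ∧
      N6 u ^ 2 = m ^ 3 ∧ 0 < N6 u ∧ af lam u g = N6 u ∧
      (∀ φ, TestN Ω (a + i) φ → m ^ 3 * N6 φ ≤ af lam φ (gr φ) ^ 3) ∧ IsSol Ω lam u ∧
      Anti (a + i) u := by
    intro i
    obtain ⟨V, hV, hlow, hψ⟩ := hcl (a + i) (by omega) (by omega)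
    exact hEX2 Ω (a + i) V lam hb hr (by omega) hlam hV hlow hψ
  choose m u g hm hHC hL6 hN hN0 haf hmin hu hA using key
  have hmono : ∀ i i' : Fin N, i < i' → N6 (u i) < N6 (u i') := by
    intro i i' hii
    have hlt : (i : ℕ) < i' := hii
    have h := hSTM Ω (a + i) (a + i') R lam (m i) (m i') (u i') (g i') hr (by omega) (by omega)
      hR hΩR (hmin i) (hHC i') (hL6 i') (hN0 i') (haf i') (hN i')
    have h2 : N6 (u i) ^ 2 < N6 (u i') ^ 2 := by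
      rw [hN i, hN i']
      exact pow_lt_pow_left₀ h (hm i).le (by norm_num)
    exact lt_of_pow_lt_pow_left₀ 2 (hN0 i').le h2
  refine ⟨N, fun i j x => u i (rot (Real.pi / ((a + i : ℕ) * 2 ^ j)) x), fun i => N6 (u i),
    le_rfl, ?_, ?_, ?_, fun i i' h => hmono i i' h⟩
  · intro i j
    exact h5 Ω lam _ _ hr (hu i)
  · intro i j j' hjj
    exact h6 (a + i) _ (by omega) (hu i).1 (hA i) j j' hjj
  · intro i j
    exact AsmS_rot h1 (u i) _

/-- the theorem of the block -/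
theorem Asm_S (h1 : ROT) (h5 : ROS) (h6 : DIS) (hSLL : SLL) (hUNF : UNF) (hKEY : KEY) (hL1P : L1P)
    (hEX2 : EX2) (hSTM : STM) :
    ∃ C c : ℝ, 0 < C ∧ 0 < c ∧ ∀ Ω : Set E3, IsOpen Ω → Ω.Nonempty → Bornology.IsBounded Ω →
      RI Ω → ∀ lam : ℝ, C * lam1 Ω ≤ lam → FamE Ω lam (c * Real.sqrt (lam / lam1 Ω)) := by
  obtain ⟨C, hC, hU⟩ := hUNF
  obtain ⟨N0, τ, hN0, hτ, hτ1, hK⟩ := hKEY
  obtain ⟨N1, hN1⟩ := exists_nat_gt (2 / τ)
  obtain ⟨N, hNdef⟩ : ∃ N : ℕ, N = max N0 N1 := ⟨_, rfl⟩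
  have hNN0 : N0 ≤ N := by rw [hNdef]; exact le_max_left _ _
  have hNN1 : N1 ≤ N := by rw [hNdef]; exact le_max_right _ _
  have hN1' : 1 ≤ N := hN0.trans hNN0
  have hNr : (1 : ℝ) ≤ N := by exact_mod_cast hN1'
  have hsC : 0 < Real.sqrt C := Real.sqrt_pos.2 hC
  refine ⟨max 1 (C * (N : ℝ) ^ 2), τ / (4 * Real.sqrt C), lt_of_lt_of_le one_pos (le_max_left _ _),
    by positivity, ?_⟩
  intro Ω ho hne hb hr lam hl
  obtain ⟨u1, u2, u3, u4, u5⟩ := hU Ω ho hne hr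
  obtain ⟨R, hR, hΩR⟩ := Asm_rad Ω hb
  have hl1 := hL1P Ω ho hne hb
  have hlam1 : lam1 Ω ≤ lam := by
    refine le_trans ?_ hl
    have := mul_le_mul_of_nonneg_right (le_max_left 1 (C * (N : ℝ) ^ 2)) hl1.le
    linarith
  have hlam : 0 < lam := lt_of_lt_of_le hl1 hlam1
  have hlN : Un Ω N ≤ lam := by
    refine (u5 N hN1').trans (le_trans ?_ hl)
    exact mul_le_mul_of_nonneg_right (le_max_right _ _) hl1.le
  have hex : ∃ n : ℕ, N ≤ n ∧ lam < Un Ω (n + 1) := by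
    obtain ⟨k, hk⟩ := exists_nat_gt (lam * R ^ 2)
    refine ⟨max N k, le_max_left _ _, ?_⟩
    refine lt_of_lt_of_le ?_ (u3 R (max N k + 1) hR hΩR)
    rw [lt_div_iff₀ (by positivity)]
    refine lt_of_lt_of_le hk ?_
    have h2 : (k : ℝ) ≤ ((max N k : ℕ) : ℝ) := by exact_mod_cast le_max_right N k
    have h3 : (0 : ℝ) ≤ k := Nat.cast_nonneg k
    push_cast at *
    nlinarith
  obtain ⟨m, hmdef⟩ : ∃ m : ℕ, m = Nat.find hex := ⟨_, rfl⟩
  have hm := Nat.find_spec hex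
  rw [← hmdef] at hm
  obtain ⟨hm1, hm2⟩ := hm
  have hmU : Un Ω m ≤ lam := by
    rcases Nat.lt_or_ge N m with h | h
    · by_contra hcon
      have h2 := Nat.find_min hex (m := m - 1) (by omega)
      apply h2
      refine ⟨by omega, ?_⟩
      rw [show m - 1 + 1 = m by omega]
      exact not_le.1 hcon
    · have : m = N := le_antisymm h hm1
      rw [this]
      exact hlN
  have hx2 : lam / lam1 Ω < C * ((m : ℝ) + 1) ^ 2 := by
    rw [div_lt_iff₀ hl1]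
    refine lt_of_lt_of_le hm2 ?_
    have := u5 (m + 1) (by omega)
    push_cast at this
    exact this
  have hm0 : 1 ≤ m := hN1'.trans hm1
  have hmr : (1 : ℝ) ≤ m := by exact_mod_cast hm0
  have hmτ : 2 < τ * m := by
    have h2 : (N1 : ℝ) ≤ m := by exact_mod_cast hNN1.trans hm1
    have h3 : 2 / τ < m := lt_of_lt_of_le hN1 h2
    rw [div_lt_iff₀ hτ] at h3
    linarith
  -- the solutions
  obtain ⟨g, g1, g2, g3⟩ := u4 m (τ * (m : ℝ) ^ 2 / R ^ 2) (by positivity)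
  have g4 : Ai g + (m : ℝ) ^ 2 * Wi g ≤ (lam + τ * (m : ℝ) ^ 2 / R ^ 2) * Bi g := by
    refine g3.trans (mul_le_mul_of_nonneg_right (by linarith) ?_)
    unfold Bi
    refine setIntegral_nonneg (measurableSet_lt measurable_const measurable_fst) ?_
    intro p hp
    exact mul_nonneg (le_of_lt hp) (sq_nonneg _)
  have hfl : ((⌊τ * m⌋₊ : ℕ) : ℝ) ≤ τ * m := Nat.floor_le (by positivity)
  have hfl2 : τ * m < (⌊τ * m⌋₊ : ℕ) + 1 := Nat.lt_floor_add_one _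
  have hF := AsmS_fam h1 h5 h6 hEX2 hSTM Ω lam R (m + 1) ⌊τ * m⌋₊ hb hr hR hΩR hlam (by omega)
    (fun n hn1 hn2 => ⟨Un Ω n, lt_of_lt_of_le hm2 (u2 (m + 1) n hn1),
      hSLL Ω n (Un Ω n) hr (by omega) (fun g hg => u1 n g hg),
      hK Ω R lam m n g hr hR hΩR (hNN0.trans hm1) (by omega) (by
        have h2 : (n : ℝ) ≤ m + (⌊τ * m⌋₊ : ℕ) := by
          have : n ≤ m + ⌊τ * m⌋₊ := by omega
          exact_mod_cast this
        linarith) g1 g2 g4⟩)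
  obtain ⟨K, U, E, hK1, hK2⟩ := hF
  refine ⟨K, U, E, le_trans ?_ hK1, hK2⟩
  -- the number of the families
  have hs : Real.sqrt (lam / lam1 Ω) ≤ Real.sqrt C * (m + 1) := by
    rw [Real.sqrt_le_left (by positivity), mul_pow, Real.sq_sqrt hC.le]
    exact hx2.le
  calc τ / (4 * Real.sqrt C) * Real.sqrt (lam / lam1 Ω)
      ≤ τ / (4 * Real.sqrt C) * (Real.sqrt C * (m + 1)) :=
        mul_le_mul_of_nonneg_left hs (by positivity)
    _ = τ * (m + 1) / 4 := by field_simp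
    _ ≤ (⌊τ * m⌋₊ : ℕ) := by nlinarith

end Pool.Agent.Work.MP_d5b3be_an.BU
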