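import Pool.Agent.Work.MP_d5b3be_an.BU.All
import Pool.Agent.Work.MP_d5b3be_an.BU.AsmS
import Pool.Agent.Work.MP_d5b3be_an.BU.EX2
import Pool.Agent.Work.MP_d5b3be_an.BU.STC
import Pool.Agent.Work.MP_d5b3be_an.BU.STF
import Pool.Agent.Work.MP_d5b3be_an.BU.STI
import Pool.Agent.Work.MP_d5b3be_an.BU.STM

/-!
# Block BU: all items of part S
-/

set_option autoImplicit false

namespace Pool.Agent.Work.MP_d5b3be_an.BU

open Pool.Agent.Work.MP_d5b3be_an.BN

theorem all_STF : STF := prfSTF all_ROT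
theorem all_STI : STI := prfSTI all_ROT all_CYD all_CYI all_WAP
theorem all_STC : STC := prfSTC
theorem all_EX2 : EX2 := prfEX2 all_CLT all_SOB all_INF all_CPT all_EUL all_HCL all_SYM all_NSY
theorem all_STM : STM :=
  prfSTM all_STF all_STI all_STC all_CLT all_SOB all_HS6 all_LCV all_L6C

end Pool.Agent.Work.MP_d5b3be_an.BU
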