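import Pool.Agent.Work.MP_d5b3be_an.BU.AsmS
import Pool.Agent.Work.MP_d5b3be_an.BN.TFC
import Pool.Agent.Work.MP_d5b3be_an.BN.Asm2

/-!
# Block BU: flat bodies of revolution of any shape with a thick ring

`Ω` is contained in the cylinder `ρ < R`, `a < z < b`, `H = b - a`, and contains the ring
`r1 ≤ ρ ≤ r1 + w`, `|z - z1| ≤ (1-κ) H/2`, `r1 ≥ θ R`, `w ≥ H/κ`. For every `lam ≥ (1-κ)(π/H)²` there are at least
`c R sqrt(lam)` families. Write `lam = (1+x)(π/H)²`. For `x ≤ x0 = θ⁶/10⁹` boxes of the width `H/sqrt(max x κ)`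
are enough, for `x ≥ x0` item KEY applies, because `Un Ω N0 ≤ (1+x0)(π/H)²`.
-/

set_option autoImplicit false

namespace Pool.Agent.Work.MP_d5b3be_an.BU

open Pool.Agent.Work.MP_d5b3be_an.BN
open MeasureTheory Filter Set
open scoped ENNReal Topology ContDiff

/-- the upper bound of the first eigenvalue of the class by a box -/
theorem AsmR_Un (hBMP : BMP) (hBXF : BXF) (hBXI : BXI) (hSLL : SLL) (Ω : Set E3) (n : ℕ)
    (ρ0 z0 δ η : ℝ) (hr : RI Ω) (hn : 1 ≤ n) (hδ : 0 < δ) (hδρ : δ < ρ0) (hη : 0 < η)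
    (hbox : boxS ρ0 z0 δ η ⊆ Ω)
    (hU : ∀ g, Pf Ω g → Un Ω n * Bi g ≤ Ai g + (n : ℝ) ^ 2 * Wi g) : Un Ω n ≤ Eb n ρ0 δ η := by
  refine le_of_forall_pos_le_add fun ε' hε' => ?_
  have hρ : 0 < ρ0 := hδ.trans hδρ
  have hpi := Real.pi_pos
  obtain ⟨K, hK⟩ : ∃ K : ℝ, K = 1 / δ ^ 2 + 1 / η ^ 2 := ⟨_, rfl⟩
  have hK0 : 0 < K := by rw [hK]; positivity
  obtain ⟨ζ, hζ, hI, hJ⟩ := hBMP (ε' / K) (by positivity)
  obtain ⟨hT, -, -⟩ := hBXF Ω n ζ ρ0 z0 δ η hn hζ hδ hδρ hη hbox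
  obtain ⟨hQ, hD⟩ := hBXI n ζ ρ0 z0 δ η hn hζ hδ hδρ hη
  obtain ⟨φ, hφ⟩ : ∃ φ, φ = bxf n ζ ρ0 z0 δ η := ⟨_, rfl⟩
  rw [← hφ] at hT hQ hD
  obtain ⟨P, hP⟩ : ∃ P : ℝ, P = ρ0 * δ * η := ⟨_, rfl⟩
  have hP0 : 0 < P := by rw [hP]; positivity
  have hQ' : Q2 φ = Real.pi * P * (∫ x, ζ x ^ 2) ^ 2 := by rw [hQ, hP]; ring
  have hQ0 : 0 < Q2 φ := by rw [hQ']; positivity
  have hE := TFC_energy P δ η ((n : ℝ) ^ 2 / (ρ0 - δ) ^ 2) (∫ x, ζ x ^ 2) (∫ x, deriv ζ x ^ 2)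
    (ε' / K) hP0 hδ hη hI hJ
  have hD' : DD (gr φ) ≤ (Eb n ρ0 δ η + ε') * Q2 φ := by
    have h1 : DD (gr φ) ≤ Real.pi * P * ((∫ x, ζ x ^ 2) * (∫ x, deriv ζ x ^ 2) / δ ^ 2 +
        (∫ x, ζ x ^ 2) * (∫ x, deriv ζ x ^ 2) / η ^ 2 +
        (n : ℝ) ^ 2 / (ρ0 - δ) ^ 2 * (∫ x, ζ x ^ 2) ^ 2) := by
      refine hD.trans (le_of_eq ?_)
      rw [hP]; ring
    have h2 : ε' / K * (1 / δ ^ 2 + 1 / η ^ 2) = ε' := by
      rw [← hK]
      field_simp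
    rw [h2] at hE
    rw [hQ']
    unfold Eb
    exact h1.trans hE
  have h3 := hSLL Ω n (Un Ω n) hr hn hU φ hT
  exact le_of_mul_le_mul_right (h3.trans hD') hQ0

/-- the cylinder -/
theorem AsmR_low (hCLB : CLB) (Ω : Set E3) (R a b : ℝ) (hR : 0 < R) (hab : a < b)
    (hΩ : ∀ x ∈ Ω, rr x < R ∧ a < x 2 ∧ x 2 < b) (n : ℕ) (hn : 1 ≤ n) (φ : E3 → ℝ)
    (hφ : TestN Ω n φ) :
    ((Real.pi / (b - a)) ^ 2 + ((n : ℝ) / R) ^ 2) * Q2 φ ≤ DD (gr φ) := by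
  have hpi := Real.pi_pos
  have hS : Sec {x : E3 | rr x < R ∧ a < x 2 ∧ x 2 < b} R a b (fun _ => a) (fun _ => b) := by
    refine ⟨hR, hab, fun x hx => hx, ?_, ?_, ?_⟩
    · intro ρ h0 h1
      refine ⟨le_rfl, le_rfl, ?_⟩
      have h2 : 0 < ρ / R := by positivity
      nlinarith
    · intro ρ ρ' _ _ _
      exact ⟨le_rfl, le_rfl⟩
    · intro x _ h1
      exact ⟨fun h => h.2, fun h => ⟨h1, h⟩⟩
  refine hCLB _ R a b _ _ n _ φ hS hn ?_ ⟨⟨hφ.1.1, hφ.1.2.1, fun x hx => hΩ x (hφ.1.2.2 hx)⟩, hφ.2⟩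
  intro ρ h0 h1
  have h2 : (n : ℝ) / R ≤ n / ρ := div_le_div_of_nonneg_left (Nat.cast_nonneg n) h0 h1.le
  have h3 : ((n : ℝ) / R) ^ 2 ≤ (n / ρ) ^ 2 := pow_le_pow_left₀ (by positivity) h2 2
  linarith

/-- the box condition in the window -/
theorem AsmR_box (θ κ R H r1 w y lam : ℝ) (n : ℕ) (hθ : 0 < θ) (hθ1 : θ ≤ 1) (hκ : 0 < κ)
    (hκy : κ ≤ y) (hy : y ≤ θ ^ 6 / 10 ^ 9) (hH : 0 < H) (hr1 : θ * R ≤ r1) (hR : 0 < R)
    (hwR : r1 + w ≤ R) (hw : H ≤ κ * w)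
    (hlam : (1 - κ) * (Real.pi / H) ^ 2 ≤ lam)
    (hlam2 : lam = (1 + y) * (Real.pi / H) ^ 2 ∨ y = κ)
    (hn1 : Real.pi / H * R * Real.sqrt y < n) (hn2 : (n : ℝ) ≤ 2 * (Real.pi / H * R * Real.sqrt y)) :
    BC n lam (r1 + H / Real.sqrt y) (H / Real.sqrt y) ((1 - κ) * (H / 2)) ∧
      2 * (H / Real.sqrt y) ≤ w := by
  have hpi := Real.pi_pos
  have hpi3 : 3 < Real.pi := Real.pi_gt_three
  have hpi4 : Real.pi < 3.15 := Real.pi_lt_d2
  have hθ6 : θ ^ 6 ≤ 1 := pow_le_one₀ hθ.le hθ1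
  have hy1 : y ≤ 1 / 10 ^ 9 := by
    refine hy.trans ?_
    exact div_le_div_of_nonneg_right hθ6 (by positivity)
  have hκ1 : κ ≤ 1 / 10 ^ 9 := hκy.trans hy1
  have hy0 : 0 < y := lt_of_lt_of_le hκ hκy
  obtain ⟨s, hs⟩ : ∃ s, s = Real.sqrt y := ⟨_, rfl⟩
  have hs0 : 0 < s := by rw [hs]; exact Real.sqrt_pos.2 hy0
  have hs2 : s ^ 2 = y := by rw [hs]; exact Real.sq_sqrt hy0.le
  have hsk : κ ≤ s := by
    have h1 : κ ≤ s ^ 2 := by rw [hs2]; exact hκy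
    have h2 : s ≤ 1 := by
      by_contra hc
      push Not at hc
      have : (1 : ℝ) < s ^ 2 := by nlinarith
      rw [hs2] at this
      norm_num at hy1
      linarith
    nlinarith
  have hw0 : 0 < w := by
    by_contra hc
    push Not at hc
    have : κ * w ≤ 0 := mul_nonpos_of_nonneg_of_nonpos hκ.le hc
    linarith
  rw [← hs] at hn1 hn2 ⊢
  have hr10 : 0 < r1 := lt_of_lt_of_le (by positivity) hr1
  have hδ : 0 < H / s := by positivity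
  have hδw : 2 * (H / s) ≤ w := by
    have h1 : H / s ≤ κ * w / s := div_le_div_of_nonneg_right hw hs0.le
    have h2 : κ * w / s ≤ s * w := by
      rw [div_le_iff₀ hs0]
      have : κ ≤ s * s := by nlinarith
      nlinarith
    have h3 : s ≤ 1 / 2 := by
      by_contra hc
      push Not at hc
      have : (1 : ℝ) / 4 < s ^ 2 := by nlinarith
      rw [hs2] at this
      norm_num at hy1
      linarith
    nlinarith
  have hη : 0 < (1 - κ) * (H / 2) := by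
    have : 0 < 1 - κ := by norm_num at hκ1; linarith
    positivity
  refine ⟨⟨hδ, by linarith, hη, ?_⟩, hδw⟩
  -- the estimate
  obtain ⟨A, hA⟩ : ∃ A, A = Real.pi / H := ⟨_, rfl⟩
  have hA0 : 0 < A := by rw [hA]; positivity
  have hAH : A * H = Real.pi := by rw [hA]; field_simp
  rw [← hA] at hlam hlam2 hn1 hn2
  have hn0 : (0 : ℝ) < n := lt_trans (by positivity) hn1
  have e1 : (Real.pi / (2 * (H / s))) ^ 2 = A ^ 2 * (y / 4) := by
    rw [hA, ← hs2]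
    field_simp
    ring
  have e2 : (Real.pi / (2 * ((1 - κ) * (H / 2)))) ^ 2 ≤ A ^ 2 * (1 + 3 * κ) := by
    have h1 : 0 < 1 - κ := by norm_num at hκ1; linarith
    have h2 : (Real.pi / (2 * ((1 - κ) * (H / 2)))) ^ 2 = A ^ 2 * (1 / (1 - κ) ^ 2) := by
      rw [hA]
      field_simp
    rw [h2]
    apply mul_le_mul_of_nonneg_left _ (by positivity)
    rw [div_le_iff₀ (by positivity)]
    have h3 : κ ≤ 1 / 10 := by norm_num at hκ1; linarith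
    nlinarith [mul_pos hκ hκ, mul_pos (mul_pos hκ hκ) hκ]
  have e3 : (n : ℝ) ^ 2 / (r1 + H / s - H / s) ^ 2 ≤ A ^ 2 * (4 * y / θ ^ 2) := by
    have h1 : r1 + H / s - H / s = r1 := by ring
    rw [h1, div_le_iff₀ (by positivity)]
    have h2 : (n : ℝ) ^ 2 ≤ (2 * (A * R * s)) ^ 2 := pow_le_pow_left₀ hn0.le hn2 2
    have h3 : (θ * R) ^ 2 ≤ r1 ^ 2 := pow_le_pow_left₀ (by positivity) hr1 2
    have h4 : (2 * (A * R * s)) ^ 2 = A ^ 2 * (4 * y / θ ^ 2) * (θ * R) ^ 2 := by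
      rw [← hs2]
      field_simp
      ring
    rw [h4] at h2
    exact h2.trans (mul_le_mul_of_nonneg_left h3 (by positivity))
  have e4 : (1 + y - 2 * y) * A ^ 2 ≤ lam ∧ (1 - y) * A ^ 2 ≤ lam := by
    have h1 : (1 - y) * A ^ 2 ≤ lam := by
      rcases hlam2 with h | h
      · rw [h]
        apply mul_le_mul_of_nonneg_right _ (by positivity)
        linarith
      · rw [h]
        exact hlam
    exact ⟨by linarith, h1⟩
  have hEb : Eb n (r1 + H / s) (H / s) ((1 - κ) * (H / 2)) - lam ≤ A ^ 2 * (y * (9 / θ ^ 2)) := by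
    unfold Eb
    have h1 : A ^ 2 * (y / 4) + A ^ 2 * (1 + 3 * κ) + A ^ 2 * (4 * y / θ ^ 2) - (1 - y) * A ^ 2 ≤
        A ^ 2 * (y * (9 / θ ^ 2)) := by
      have h2 : A ^ 2 * (y / 4) + A ^ 2 * (1 + 3 * κ) + A ^ 2 * (4 * y / θ ^ 2) -
          (1 - y) * A ^ 2 = A ^ 2 * (y / 4 + 3 * κ + y + y * (4 / θ ^ 2)) := by ring
      rw [h2]
      apply mul_le_mul_of_nonneg_left _ (by positivity)
      have h3 : (1 : ℝ) ≤ 1 / θ ^ 2 := by
        rw [le_div_iff₀ (by positivity), one_mul]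
        exact pow_le_one₀ hθ.le hθ1
      have h4 : y * (9 / θ ^ 2) = y * (5 * (1 / θ ^ 2)) + y * (4 / θ ^ 2) := by ring
      rw [h4]
      have h5 : y * (5 * 1) ≤ y * (5 * (1 / θ ^ 2)) := by
        apply mul_le_mul_of_nonneg_left _ hy0.le
        linarith
      linarith
    linarith [e4.2]
  have hX3 : (Eb n (r1 + H / s) (H / s) ((1 - κ) * (H / 2)) - lam) ^ 3 ≤
      (A ^ 2 * (y * (9 / θ ^ 2))) ^ 3 := (Odd.pow_le_pow (by decide : Odd 3)).2 hEb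
  have hY : ((r1 + H / s) * (H / s) * ((1 - κ) * (H / 2))) ^ 2 ≤ R ^ 2 * H ^ 4 / (4 * y) := by
    have k1 : r1 + H / s ≤ R := by linarith
    have k2 : (1 - κ) * (H / 2) ≤ H / 2 := by
      have : 0 ≤ κ * (H / 2) := by positivity
      linarith
    have k3 : (r1 + H / s) * (H / s) * ((1 - κ) * (H / 2)) ≤ R * (H / s) * (H / 2) := by
      apply mul_le_mul _ k2 hη.le (by positivity)
      exact mul_le_mul_of_nonneg_right k1 hδ.le
    calc _ ≤ (R * (H / s) * (H / 2)) ^ 2 := pow_le_pow_left₀ (by positivity) k3 2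
      _ = R ^ 2 * H ^ 4 / (4 * y) := by
        rw [← hs2]
        field_simp
        ring
  have hpi6 : Real.pi ^ 6 ≤ 3.15 ^ 6 := pow_le_pow_left₀ hpi.le hpi4.le 6
  calc _ ≤ 4096 * Real.pi ^ 2 * (A ^ 2 * (y * (9 / θ ^ 2))) ^ 3 *
        ((r1 + H / s) * (H / s) * ((1 - κ) * (H / 2))) ^ 2 := by
        apply mul_le_mul_of_nonneg_right _ (by positivity)
        exact mul_le_mul_of_nonneg_left hX3 (by positivity)
    _ ≤ 4096 * Real.pi ^ 2 * (A ^ 2 * (y * (9 / θ ^ 2))) ^ 3 * (R ^ 2 * H ^ 4 / (4 * y)) :=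
        mul_le_mul_of_nonneg_left hY (by positivity)
    _ = 746496 * Real.pi ^ 2 * (A * H) ^ 4 * (y / θ ^ 6) * (A * R * s) ^ 2 := by
        rw [← hs2]
        field_simp
        ring
    _ = 746496 * Real.pi ^ 6 * (y / θ ^ 6) * (A * R * s) ^ 2 := by
        rw [hAH]; ring
    _ ≤ 746496 * 3.15 ^ 6 * (1 / 10 ^ 9) * (A * R * s) ^ 2 := by
        apply mul_le_mul_of_nonneg_right _ (by positivity)
        apply mul_le_mul _ _ (by positivity) (by positivity)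
        · exact mul_le_mul_of_nonneg_left hpi6 (by positivity)
        · rw [div_le_iff₀ (by positivity)]
          linarith
    _ ≤ 1 * (A * R * s) ^ 2 := by
        apply mul_le_mul_of_nonneg_right _ (by positivity)
        norm_num
    _ = (A * R * s) ^ 2 := one_mul _
    _ < n ^ 2 := pow_lt_pow_left₀ hn1 (by positivity) two_ne_zero


/-- the upper bound of `Un` -/
theorem AsmR_U (hBMP : BMP) (hBXF : BXF) (hBXI : BXI) (hSLL : SLL) (Ω : Set E3) (n : ℕ)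
    (θ κ R H r1 w z1 : ℝ) (hr : RI Ω) (hn : 1 ≤ n) (hθ : 0 < θ) (hκ : 0 < κ) (hκ1 : κ ≤ 1 / 10)
    (hH : 0 < H) (hR : 0 < R) (hr1 : θ * R ≤ r1) (hw : H ≤ κ * w)
    (hring : ∀ x : E3, r1 ≤ rr x → rr x ≤ r1 + w → |x 2 - z1| ≤ (1 - κ) * (H / 2) → x ∈ Ω)
    (hU : ∀ g, Pf Ω g → Un Ω n * Bi g ≤ Ai g + (n : ℝ) ^ 2 * Wi g) :
    Un Ω n ≤ (Real.pi / H) ^ 2 * (1 + 4 * κ) + (n : ℝ) ^ 2 / (θ * R) ^ 2 := by
  have hpi := Real.pi_pos
  have hw0 : 0 < w := by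
    by_contra hc
    push Not at hc
    have : κ * w ≤ 0 := mul_nonpos_of_nonneg_of_nonpos hκ.le hc
    linarith
  have hr10 : 0 < r1 := lt_of_lt_of_le (by positivity) hr1
  have h1κ : 0 < 1 - κ := by linarith
  have hη : 0 < (1 - κ) * (H / 2) := by positivity
  have hbox : boxS (r1 + w / 2) z1 (w / 2) ((1 - κ) * (H / 2)) ⊆ Ω := by
    intro x hx
    obtain ⟨h1, h2⟩ := hx
    rw [abs_le] at h1
    refine hring x ?_ ?_ h2
    · show r1 ≤ Real.sqrt (x 0 ^ 2 + x 1 ^ 2)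
      linarith [h1.1]
    · show Real.sqrt (x 0 ^ 2 + x 1 ^ 2) ≤ r1 + w
      linarith [h1.2]
  have h := AsmR_Un hBMP hBXF hBXI hSLL Ω n (r1 + w / 2) z1 (w / 2) ((1 - κ) * (H / 2)) hr hn
    (by positivity) (by linarith) hη hbox hU
  refine h.trans ?_
  obtain ⟨A, hA⟩ : ∃ A, A = Real.pi / H := ⟨_, rfl⟩
  have hA0 : 0 < A := by rw [hA]; positivity
  rw [← hA]
  have e1 : (Real.pi / (2 * (w / 2))) ^ 2 ≤ A ^ 2 * κ := by
    have h1 : Real.pi / (2 * (w / 2)) ≤ A * κ := by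
      rw [hA, div_mul_eq_mul_div, div_le_div_iff₀ (by positivity) hH]
      nlinarith
    calc (Real.pi / (2 * (w / 2))) ^ 2 ≤ (A * κ) ^ 2 := pow_le_pow_left₀ (by positivity) h1 2
      _ = A ^ 2 * (κ * κ) := by ring
      _ ≤ A ^ 2 * κ := by
        apply mul_le_mul_of_nonneg_left _ (by positivity)
        nlinarith
  have e2 : (Real.pi / (2 * ((1 - κ) * (H / 2)))) ^ 2 ≤ A ^ 2 * (1 + 3 * κ) := by
    have h2 : (Real.pi / (2 * ((1 - κ) * (H / 2)))) ^ 2 = A ^ 2 * (1 / (1 - κ) ^ 2) := by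
      rw [hA]
      field_simp
    rw [h2]
    apply mul_le_mul_of_nonneg_left _ (by positivity)
    rw [div_le_iff₀ (by positivity)]
    nlinarith [mul_pos hκ hκ, mul_pos (mul_pos hκ hκ) hκ]
  have e3 : (n : ℝ) ^ 2 / (r1 + w / 2 - w / 2) ^ 2 ≤ (n : ℝ) ^ 2 / (θ * R) ^ 2 := by
    have h1 : r1 + w / 2 - w / 2 = r1 := by ring
    rw [h1]
    exact div_le_div_of_nonneg_left (by positivity) (by positivity)
      (pow_le_pow_left₀ (by positivity) hr1 2)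
  unfold Eb
  have h4 : A ^ 2 * (1 + 4 * κ) = A ^ 2 * κ + A ^ 2 * (1 + 3 * κ) := by ring
  rw [h4]
  linarith

/-- the window `lam ≤ (1+x0) (π/H)²` -/
theorem AsmR_A (h1 : ROT) (hTFC : TFC) (hCLB : CLB) (h5 : ROS) (h6 : DIS) (hEX2 : EX2)
    (hSTM : STM) (Ω : Set E3) (θ κ R a b r1 w z1 lam : ℝ) (hb : Bornology.IsBounded Ω)
    (hr : RI Ω) (hθ : 0 < θ) (hθ1 : θ ≤ 1) (hκ : 0 < κ) (hκx : κ ≤ θ ^ 6 / 10 ^ 9) (hab : a < b)
    (hR : 0 < R) (hΩ : ∀ x ∈ Ω, rr x < R ∧ a < x 2 ∧ x 2 < b) (hr1 : θ * R ≤ r1)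
    (hw : b - a ≤ κ * w) (hwR : r1 + w ≤ R)
    (hring : ∀ x : E3, r1 ≤ rr x → rr x ≤ r1 + w → |x 2 - z1| ≤ (1 - κ) * ((b - a) / 2) → x ∈ Ω)
    (hlam : (1 - κ) * (Real.pi / (b - a)) ^ 2 ≤ lam)
    (hlam2 : lam ≤ (1 + θ ^ 6 / 10 ^ 9) * (Real.pi / (b - a)) ^ 2) :
    FamE Ω lam (Real.sqrt κ / 4 * R * Real.sqrt lam) := by
  have hpi := Real.pi_pos
  have hpi3 : 3 < Real.pi := Real.pi_gt_three
  obtain ⟨H, hHdef⟩ : ∃ H, H = b - a := ⟨_, rfl⟩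
  rw [← hHdef] at hw hring hlam hlam2
  have hH : 0 < H := by rw [hHdef]; linarith
  obtain ⟨A, hA⟩ : ∃ A, A = Real.pi / H := ⟨_, rfl⟩
  have hA0 : 0 < A := by rw [hA]; positivity
  have hAH : A * H = Real.pi := by rw [hA]; field_simp
  have hθ6 : θ ^ 6 ≤ 1 := pow_le_one₀ hθ.le hθ1
  have hx01 : θ ^ 6 / 10 ^ 9 ≤ 1 / 10 ^ 9 := div_le_div_of_nonneg_right hθ6 (by positivity)
  have hκ1 : κ ≤ 1 / 10 := by
    have := hκx.trans hx01
    norm_num at this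
    linarith
  have hw0 : 0 < w := by
    by_contra hc
    push Not at hc
    have : κ * w ≤ 0 := mul_nonpos_of_nonneg_of_nonpos hκ.le hc
    linarith
  have hr10 : 0 < r1 := lt_of_lt_of_le (by positivity) hr1
  rw [← hA] at hlam hlam2
  have hlam0 : 0 < lam := lt_of_lt_of_le (by
    have : 0 < 1 - κ := by linarith
    positivity) hlam
  obtain ⟨y, hydef⟩ : ∃ y, y = max (lam / A ^ 2 - 1) κ := ⟨_, rfl⟩
  have hκy : κ ≤ y := by rw [hydef]; exact le_max_right _ _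
  have hxy : lam / A ^ 2 - 1 ≤ y := by rw [hydef]; exact le_max_left _ _
  have hy : y ≤ θ ^ 6 / 10 ^ 9 := by
    rw [hydef]
    refine max_le ?_ hκx
    have : lam / A ^ 2 ≤ 1 + θ ^ 6 / 10 ^ 9 := by
      rw [div_le_iff₀ (by positivity)]
      exact hlam2
    linarith
  have hy0 : 0 < y := lt_of_lt_of_le hκ hκy
  have hlamy : lam ≤ (1 + y) * A ^ 2 := by
    have : lam / A ^ 2 ≤ 1 + y := by linarith
    rwa [div_le_iff₀ (by positivity)] at this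
  have hor : lam = (1 + y) * A ^ 2 ∨ y = κ := by
    rcases le_total (lam / A ^ 2 - 1) κ with h | h
    · right
      rw [hydef]; exact max_eq_right h
    · left
      have h2 : y = lam / A ^ 2 - 1 := by rw [hydef]; exact max_eq_left h
      rw [h2]
      field_simp
      ring
  have hsy0 : 0 < Real.sqrt y := Real.sqrt_pos.2 hy0
  have hsy2 : Real.sqrt y ^ 2 = y := Real.sq_sqrt hy0.le
  have hsk0 : 0 < Real.sqrt κ := Real.sqrt_pos.2 hκ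
  have hsk2 : Real.sqrt κ ^ 2 = κ := Real.sq_sqrt hκ.le
  obtain ⟨B, hB⟩ : ∃ B, B = A * R * Real.sqrt y := ⟨_, rfl⟩
  have hBk : A * R * Real.sqrt κ ≤ B := by
    rw [hB]
    exact mul_le_mul_of_nonneg_left (Real.sqrt_le_sqrt hκy) (by positivity)
  have hARk : Real.pi ≤ A * R * κ := by
    have h2 : H ≤ κ * R := hw.trans (mul_le_mul_of_nonneg_left (by linarith) hκ.le)
    calc Real.pi = A * H := hAH.symm
      _ ≤ A * (κ * R) := mul_le_mul_of_nonneg_left h2 hA0.le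
      _ = A * R * κ := by ring
  have hsk1 : Real.sqrt κ ≤ 1 := by
    rw [show (1 : ℝ) = Real.sqrt 1 by rw [Real.sqrt_one]]
    exact Real.sqrt_le_sqrt (by linarith)
  have hB2 : 2 < B := by
    have h2 : A * R * κ ≤ A * R * Real.sqrt κ := by
      apply mul_le_mul_of_nonneg_left _ (by positivity)
      nlinarith
    linarith
  have hB0 : 0 < B := by linarith
  have hfl : ((⌊B⌋₊ : ℕ) : ℝ) ≤ B := Nat.floor_le hB0.le
  have hfl2 : B < (⌊B⌋₊ : ℕ) + 1 := Nat.lt_floor_add_one _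
  have hΩR : ∀ x ∈ Ω, x 0 ^ 2 + x 1 ^ 2 ≤ R ^ 2 := by
    intro x hx
    have h2 : Real.sqrt (x 0 ^ 2 + x 1 ^ 2) < R := (hΩ x hx).1
    have h3 : 0 ≤ x 0 ^ 2 + x 1 ^ 2 := by positivity
    have h4 := pow_le_pow_left₀ (Real.sqrt_nonneg (x 0 ^ 2 + x 1 ^ 2)) h2.le 2
    rwa [Real.sq_sqrt h3] at h4
  have hF := AsmS_fam h1 h5 h6 hEX2 hSTM Ω lam R (⌊B⌋₊ + 1) ⌊B⌋₊ hb hr hR hΩR hlam0 (by omega) (by
    intro n hn1 hn2
    have hnB : B < n := by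
      have : ((⌊B⌋₊ + 1 : ℕ) : ℝ) ≤ n := by exact_mod_cast hn1
      push_cast at this
      linarith
    have hnB2 : (n : ℝ) ≤ 2 * B := by
      have h2 : n ≤ 2 * ⌊B⌋₊ := by omega
      have h3 : (n : ℝ) ≤ 2 * ((⌊B⌋₊ : ℕ) : ℝ) := by exact_mod_cast h2
      linarith
    have hn : 1 ≤ n := by omega
    refine ⟨(Real.pi / (b - a)) ^ 2 + ((n : ℝ) / R) ^ 2, ?_, ?_, ?_⟩
    · rw [← hHdef, ← hA]
      refine lt_of_le_of_lt hlamy ?_
      have h2 : A * Real.sqrt y < n / R := by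
        rw [lt_div_iff₀ hR]
        refine lt_of_eq_of_lt ?_ hnB
        rw [hB]; ring
      have h3 : (A * Real.sqrt y) ^ 2 < (n / R) ^ 2 :=
        pow_lt_pow_left₀ h2 (by positivity) two_ne_zero
      rw [mul_pow, hsy2] at h3
      linarith
    · exact fun φ hφ => AsmR_low hCLB Ω R a b hR hab hΩ n hn φ hφ
    · rw [hB, hA] at hnB hnB2
      rw [hA] at hor hlam
      obtain ⟨hBC, hδw⟩ := AsmR_box θ κ R H r1 w y lam n hθ hθ1 hκ hκy hy hH hr1 hR hwR hw hlam hor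
        hnB hnB2
      refine hTFC Ω n lam (r1 + H / Real.sqrt y) z1 (H / Real.sqrt y) ((1 - κ) * (H / 2)) hn hBC ?_
      intro x hx
      obtain ⟨k1, k2⟩ := hx
      rw [abs_le] at k1
      refine hring x ?_ ?_ k2
      · show r1 ≤ Real.sqrt (x 0 ^ 2 + x 1 ^ 2)
        linarith [k1.1]
      · show Real.sqrt (x 0 ^ 2 + x 1 ^ 2) ≤ r1 + w
        linarith [k1.2])
  obtain ⟨K, U, E, hK1, hK2⟩ := hF
  refine ⟨K, U, E, le_trans ?_ hK1, hK2⟩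
  have hsl : Real.sqrt lam ≤ 2 * A := by
    rw [Real.sqrt_le_left (by positivity)]
    refine hlam2.trans ?_
    have h2 : 1 + θ ^ 6 / 10 ^ 9 ≤ 4 := by
      norm_num at hx01
      linarith
    nlinarith [mul_pos hA0 hA0]
  calc Real.sqrt κ / 4 * R * Real.sqrt lam ≤ Real.sqrt κ / 4 * R * (2 * A) :=
        mul_le_mul_of_nonneg_left hsl (by positivity)
    _ = A * R * Real.sqrt κ / 2 := by ring
    _ ≤ B / 2 := by linarith
    _ ≤ (⌊B⌋₊ : ℕ) := by linarith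

/-- the large `lam` -/
theorem AsmR_K (h1 : ROT) (h5 : ROS) (h6 : DIS) (hSLL : SLL) (hEX2 : EX2) (hSTM : STM)
    (Ω : Set E3) (N0 N : ℕ) (τ θ X x0 R Y lam : ℝ) (ho : IsOpen Ω) (hb : Bornology.IsBounded Ω)
    (hr : RI Ω) (hR : 0 < R) (hΩR : ∀ x ∈ Ω, x 0 ^ 2 + x 1 ^ 2 ≤ R ^ 2) (hlam0 : 0 < lam)
    (hτ : 0 < τ) (hN0 : 1 ≤ N0) (hNN0 : N0 ≤ N) (hN1 : 2 < τ * N) (hθ : 0 < θ) (hx0 : 0 < x0)
    (hK : ∀ (Ω : Set E3) (R lam : ℝ) (m n : ℕ) (g : ℝ × ℝ → ℝ), RI Ω → 0 < R →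
      (∀ x ∈ Ω, x 0 ^ 2 + x 1 ^ 2 ≤ R ^ 2) → N0 ≤ m → m < n → (n : ℝ) ≤ (1 + τ) * m → Pf Ω g →
      0 < Wi g → Ai g + (m : ℝ) ^ 2 * Wi g ≤ (lam + τ * (m : ℝ) ^ 2 / R ^ 2) * Bi g →
      ∃ ψ, TestN Ω n ψ ∧ 0 < N6 ψ ∧ 64 * af lam ψ (gr ψ) ^ 3 < (n : ℝ) ^ 2 * N6 ψ)
    (u1 : ∀ (n : ℕ) (g : ℝ × ℝ → ℝ), Pf Ω g → Un Ω n * Bi g ≤ Ai g + (n : ℝ) ^ 2 * Wi g)
    (u2 : ∀ n n' : ℕ, n ≤ n' → Un Ω n ≤ Un Ω n')
    (u3 : ∀ (R : ℝ) (n : ℕ), 0 < R → (∀ x ∈ Ω, x 0 ^ 2 + x 1 ^ 2 ≤ R ^ 2) →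
      (n : ℝ) ^ 2 / R ^ 2 ≤ Un Ω n)
    (u4 : ∀ (n : ℕ) (δ : ℝ), 0 < δ → ∃ g, Pf Ω g ∧ 0 < Wi g ∧
      Ai g + (n : ℝ) ^ 2 * Wi g ≤ (Un Ω n + δ) * Bi g)
    (hlN : Un Ω N ≤ lam)
    (hup : ∀ n : ℕ, 1 ≤ n → Un Ω n ≤ X + (n : ℝ) ^ 2 / (θ * R) ^ 2)
    (hX : X + x0 * lam ≤ lam) :
    FamE Ω lam (τ * θ * Real.sqrt x0 / 4 * R * Real.sqrt lam) := by
  have hN1' : 1 ≤ N := hN0.trans hNN0
  have hex : ∃ n : ℕ, N ≤ n ∧ lam < Un Ω (n + 1) := by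
    obtain ⟨k, hk⟩ := exists_nat_gt (lam * R ^ 2)
    refine ⟨max N k, le_max_left _ _, ?_⟩
    refine lt_of_lt_of_le ?_ (u3 R (max N k + 1) hR hΩR)
    rw [lt_div_iff₀ (by positivity)]
    refine lt_of_lt_of_le hk ?_
    have h2 : (k : ℝ) ≤ ((max N k : ℕ) : ℝ) := by exact_mod_cast le_max_right N k
    have h3 : (0 : ℝ) ≤ k := Nat.cast_nonneg k
    push_cast at *
    nlinarith
  obtain ⟨m, hmdef⟩ : ∃ m : ℕ, m = Nat.find hex := ⟨_, rfl⟩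
  have hm := Nat.find_spec hex
  rw [← hmdef] at hm
  obtain ⟨hm1, hm2⟩ := hm
  have hmU : Un Ω m ≤ lam := by
    rcases Nat.lt_or_ge N m with h | h
    · by_contra hcon
      have h2 := Nat.find_min hex (m := m - 1) (by omega)
      apply h2
      refine ⟨by omega, ?_⟩
      rw [show m - 1 + 1 = m by omega]
      exact not_le.1 hcon
    · have : m = N := le_antisymm h hm1
      rw [this]
      exact hlN
  have hm0 : 1 ≤ m := hN1'.trans hm1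
  have hmr : (1 : ℝ) ≤ m := by exact_mod_cast hm0
  have hmτ : 2 < τ * m := by
    have h2 : (N : ℝ) ≤ m := by exact_mod_cast hm1
    have h3 : τ * N ≤ τ * m := mul_le_mul_of_nonneg_left h2 hτ.le
    linarith
  -- the solutions
  obtain ⟨g, g1, g2, g3⟩ := u4 m (τ * (m : ℝ) ^ 2 / R ^ 2) (by positivity)
  have g4 : Ai g + (m : ℝ) ^ 2 * Wi g ≤ (lam + τ * (m : ℝ) ^ 2 / R ^ 2) * Bi g := by
    refine g3.trans (mul_le_mul_of_nonneg_right (by linarith) ?_)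
    unfold Bi
    refine setIntegral_nonneg (measurableSet_lt measurable_const measurable_fst) ?_
    intro p hp
    exact mul_nonneg (le_of_lt hp) (sq_nonneg _)
  have hfl : ((⌊τ * m⌋₊ : ℕ) : ℝ) ≤ τ * m := Nat.floor_le (by positivity)
  have hfl2 : τ * m < (⌊τ * m⌋₊ : ℕ) + 1 := Nat.lt_floor_add_one _
  have hF := AsmS_fam h1 h5 h6 hEX2 hSTM Ω lam R (m + 1) ⌊τ * m⌋₊ hb hr hR hΩR hlam0 (by omega)
    (fun n hn1 hn2 => ⟨Un Ω n, lt_of_lt_of_le hm2 (u2 (m + 1) n hn1),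
      hSLL Ω n (Un Ω n) hr (by omega) (fun g hg => u1 n g hg),
      hK Ω R lam m n g hr hR hΩR (hNN0.trans hm1) (by omega) (by
        have h2 : (n : ℝ) ≤ m + (⌊τ * m⌋₊ : ℕ) := by
          have : n ≤ m + ⌊τ * m⌋₊ := by omega
          exact_mod_cast this
        linarith) g1 g2 g4⟩)
  obtain ⟨K, U, E, hK1, hK2⟩ := hF
  refine ⟨K, U, E, le_trans ?_ hK1, hK2⟩
  -- the number of the families
  have hm3 : x0 * lam * (θ * R) ^ 2 ≤ ((m : ℝ) + 1) ^ 2 := by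
    have h2 := hup (m + 1) (by omega)
    have h3 : x0 * lam ≤ ((m + 1 : ℕ) : ℝ) ^ 2 / (θ * R) ^ 2 := by linarith
    rw [le_div_iff₀ (by positivity)] at h3
    push_cast at h3
    exact h3
  have hs : Real.sqrt x0 * Real.sqrt lam * (θ * R) ≤ (m : ℝ) + 1 := by
    have h2 : (Real.sqrt x0 * Real.sqrt lam * (θ * R)) ^ 2 ≤ ((m : ℝ) + 1) ^ 2 := by
      rw [mul_pow, mul_pow, Real.sq_sqrt hx0.le, Real.sq_sqrt hlam0.le]
      exact hm3
    exact le_of_sq_le_sq h2 (by positivity)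
  calc τ * θ * Real.sqrt x0 / 4 * R * Real.sqrt lam
      = τ / 4 * (Real.sqrt x0 * Real.sqrt lam * (θ * R)) := by ring
    _ ≤ τ / 4 * ((m : ℝ) + 1) := mul_le_mul_of_nonneg_left hs (by positivity)
    _ ≤ (⌊τ * m⌋₊ : ℕ) := by nlinarith

/-- the theorem of the block -/
theorem AsmR_B (h1 : ROT) (hTFC : TFC) (hCLB : CLB) (h5 : ROS) (h6 : DIS) (hBMP : BMP)
    (hBXF : BXF) (hBXI : BXI) (hE : EG2) (hN : NZT) (hSLL : SLL) (hUNF : UNF) (hKEY : KEY)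
    (hEX2 : EX2) (hSTM : STM) :
    ∀ θ : ℝ, 0 < θ → θ ≤ 1 → ∃ κ c : ℝ, 0 < κ ∧ κ < 1 ∧ 0 < c ∧
      ∀ (Ω : Set E3) (R a b r1 w z1 : ℝ), IsOpen Ω → Bornology.IsBounded Ω → RI Ω → 0 < R →
        a < b → (∀ x ∈ Ω, rr x < R ∧ a < x 2 ∧ x 2 < b) → θ * R ≤ r1 → b - a ≤ κ * w →
        (∀ x : E3, r1 ≤ rr x → rr x ≤ r1 + w → |x 2 - z1| ≤ (1 - κ) * ((b - a) / 2) → x ∈ Ω) →
        (Real.pi / (b - a)) ^ 2 ≤ lam1 Ω ∧
        ∀ lam : ℝ, (1 - κ) * (Real.pi / (b - a)) ^ 2 ≤ lam →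
          FamE Ω lam (c * R * Real.sqrt lam) := by
  intro θ hθ hθ1
  obtain ⟨C, hC, hU⟩ := hUNF
  obtain ⟨N0, τ, hN0, hτ, hτ1, hK⟩ := hKEY
  obtain ⟨N1, hN1⟩ := exists_nat_gt (2 / τ)
  obtain ⟨N, hNdef⟩ : ∃ N : ℕ, N = max N0 N1 := ⟨_, rfl⟩
  have hNN0 : N0 ≤ N := by rw [hNdef]; exact le_max_left _ _
  have hNN1 : N1 ≤ N := by rw [hNdef]; exact le_max_right _ _
  have hN1' : 1 ≤ N := hN0.trans hNN0
  have hNr : (1 : ℝ) ≤ N := by exact_mod_cast hN1'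
  have hNτ : 2 < τ * N := by
    have h2 : (N1 : ℝ) ≤ N := by exact_mod_cast hNN1
    have h3 : 2 / τ < N := lt_of_lt_of_le hN1 h2
    rw [div_lt_iff₀ hτ] at h3
    linarith
  have hpi := Real.pi_pos
  have hpi3 : 3 < Real.pi := Real.pi_gt_three
  have hθ6 : θ ^ 6 ≤ 1 := pow_le_one₀ hθ.le hθ1
  obtain ⟨x0, hx0def⟩ : ∃ x0, x0 = θ ^ 6 / 10 ^ 9 := ⟨_, rfl⟩
  have hx0 : 0 < x0 := by rw [hx0def]; positivity
  have hx01 : x0 ≤ 1 / 10 ^ 9 := by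
    rw [hx0def]
    exact div_le_div_of_nonneg_right hθ6 (by positivity)
  have hx01' : x0 ≤ 1 := hx01.trans (by norm_num)
  obtain ⟨κ, hκdef⟩ : ∃ κ, κ = θ * x0 / (10 * N) := ⟨_, rfl⟩
  have hκ : 0 < κ := by rw [hκdef]; positivity
  have hκN : κ * (10 * N) = θ * x0 := by
    rw [hκdef]
    field_simp
  have hκx : κ ≤ x0 / 10 := by
    have h2 : κ * 10 ≤ κ * (10 * N) := by
      apply mul_le_mul_of_nonneg_left _ hκ.le
      linarith
    have h3 : θ * x0 ≤ 1 * x0 := mul_le_mul_of_nonneg_right hθ1 hx0.le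
    linarith
  have hκ1 : κ ≤ 1 / 10 := by linarith
  refine ⟨κ, min (Real.sqrt κ / 4) (τ * θ * Real.sqrt (x0 / 4) / 4), hκ, by linarith,
    lt_min (by positivity) (by positivity), ?_⟩
  intro Ω R a b r1 w z1 ho hb hr hR hab hΩ hr1 hw hring
  have hH : 0 < b - a := by linarith
  have hw0 : 0 < w := by
    by_contra hc
    push Not at hc
    have : κ * w ≤ 0 := mul_nonpos_of_nonneg_of_nonpos hκ.le hc
    linarith
  have hr10 : 0 < r1 := lt_of_lt_of_le (by positivity) hr1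
  have hη : 0 ≤ (1 - κ) * ((b - a) / 2) := by
    have : 0 ≤ 1 - κ := by linarith
    positivity
  have hΩR : ∀ x ∈ Ω, x 0 ^ 2 + x 1 ^ 2 ≤ R ^ 2 := by
    intro x hx
    have h2 : Real.sqrt (x 0 ^ 2 + x 1 ^ 2) < R := (hΩ x hx).1
    have h3 : 0 ≤ x 0 ^ 2 + x 1 ^ 2 := by positivity
    have h4 := pow_le_pow_left₀ (Real.sqrt_nonneg (x 0 ^ 2 + x 1 ^ 2)) h2.le 2
    rwa [Real.sq_sqrt h3] at h4
  obtain ⟨p, hp⟩ : ∃ p : E3, p 0 = r1 + w ∧ p 1 = 0 ∧ p 2 = z1 :=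
    ⟨cyl (r1 + w) 0 z1, by simp [cyl], by simp [cyl], by simp [cyl]⟩
  have hrp : rr p = r1 + w := by
    show Real.sqrt (p 0 ^ 2 + p 1 ^ 2) = r1 + w
    rw [hp.1, hp.2.1]
    rw [show (r1 + w) ^ 2 + (0 : ℝ) ^ 2 = (r1 + w) ^ 2 by ring]
    exact Real.sqrt_sq (by positivity)
  have hpΩ : p ∈ Ω := by
    refine hring p (by rw [hrp]; linarith) (by rw [hrp]) ?_
    rw [hp.2.2]
    simpa using hη
  have hwR : r1 + w ≤ R := by
    have := (hΩ p hpΩ).1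
    rw [hrp] at this
    exact this.le
  have hne : Ω.Nonempty := ⟨p, hpΩ⟩
  obtain ⟨u1, u2, u3, u4, -⟩ := hU Ω ho hne hr
  refine ⟨?_, ?_⟩
  · have h2 := Asm2_lam1 hE hN Ω R a b ho hne hR hab
      (fun x hx => ⟨hΩR x hx, (hΩ x hx).2.1.le, (hΩ x hx).2.2.le⟩)
    have h3 : 0 ≤ (Real.pi / (2 * R)) ^ 2 := by positivity
    linarith
  · intro lam hlam
    have hlam0 : 0 < lam := lt_of_lt_of_le (by
      have : 0 < 1 - κ := by linarith
      positivity) hlam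
    have hcc : ∀ c c' : ℝ, c ≤ c' → FamE Ω lam (c' * R * Real.sqrt lam) →
        FamE Ω lam (c * R * Real.sqrt lam) := by
      intro c c' hcc ⟨K, U, E, hK1, hK2⟩
      refine ⟨K, U, E, le_trans ?_ hK1, hK2⟩
      have h2 : 0 ≤ R * Real.sqrt lam := by positivity
      have h3 := mul_le_mul_of_nonneg_right hcc h2
      linarith
    rcases le_or_gt lam ((1 + θ ^ 6 / 10 ^ 9) * (Real.pi / (b - a)) ^ 2) with hl | hl
    · refine hcc _ _ (min_le_left _ _) ?_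
      exact AsmR_A h1 hTFC hCLB h5 h6 hEX2 hSTM Ω θ κ R a b r1 w z1 lam hb hr hθ hθ1 hκ
        (by rw [← hx0def]; linarith) hab hR hΩ hr1 hw hwR hring hlam hl
    · refine hcc _ _ (min_le_right _ _) ?_
      rw [← hx0def] at hl
      have hup : ∀ n : ℕ, 1 ≤ n →
          Un Ω n ≤ (Real.pi / (b - a)) ^ 2 * (1 + 4 * κ) + (n : ℝ) ^ 2 / (θ * R) ^ 2 :=
        fun n hn => AsmR_U hBMP hBXF hBXI hSLL Ω n θ κ R (b - a) r1 w z1 hr hn hθ hκ hκ1 hH hR hr1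
          hw hring (fun g hg => u1 n g hg)
      obtain ⟨A, hA⟩ : ∃ A, A = Real.pi / (b - a) := ⟨_, rfl⟩
      have hA0 : 0 < A := by rw [hA]; positivity
      have hAH : A * (b - a) = Real.pi := by rw [hA]; field_simp
      rw [← hA] at hl hup
      have hA2 : 0 < A ^ 2 := by positivity
      have hNb : (N : ℝ) ^ 2 / (θ * R) ^ 2 ≤ A ^ 2 * (x0 / 10) := by
        rw [div_le_iff₀ (by positivity)]
        have h2 : b - a ≤ κ * R := hw.trans (mul_le_mul_of_nonneg_left (by linarith) hκ.le)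
        have h3 : Real.pi ≤ A * R * κ := by
          calc Real.pi = A * (b - a) := hAH.symm
            _ ≤ A * (κ * R) := mul_le_mul_of_nonneg_left h2 hA0.le
            _ = A * R * κ := by ring
        have h4 : 10 * (N : ℝ) ≤ A * θ * R * x0 := by
          have h5 : 1 * (10 * (N : ℝ)) ≤ A * R * κ * (10 * N) :=
            mul_le_mul_of_nonneg_right (by linarith) (by positivity)
          calc 10 * (N : ℝ) = 1 * (10 * (N : ℝ)) := by ring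
            _ ≤ A * R * κ * (10 * N) := h5
            _ = A * R * (κ * (10 * N)) := by ring
            _ = A * θ * R * x0 := by rw [hκN]; ring
        have h6 : (10 * (N : ℝ)) ^ 2 ≤ (A * θ * R * x0) ^ 2 :=
          pow_le_pow_left₀ (by positivity) h4 2
        have h7 : (A * θ * R * x0) ^ 2 ≤ A ^ 2 * (θ * R) ^ 2 * x0 := by
          have h8 : (A * θ * R * x0) ^ 2 = A ^ 2 * (θ * R) ^ 2 * (x0 * x0) := by ring
          rw [h8]
          apply mul_le_mul_of_nonneg_left _ (by positivity)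
          nlinarith
        have h9 : 0 ≤ A ^ 2 * (θ * R) ^ 2 * x0 := by positivity
        have h10 : (10 * (N : ℝ)) ^ 2 = 100 * (N : ℝ) ^ 2 := by ring
        rw [h10] at h6
        have h11 : A ^ 2 * (x0 / 10) * (θ * R) ^ 2 = A ^ 2 * (θ * R) ^ 2 * x0 / 10 := by ring
        rw [h11]
        linarith
      have hlN : Un Ω N ≤ lam := by
        refine (hup N hN1').trans ?_
        have h2 : A ^ 2 * (4 * κ) ≤ A ^ 2 * (4 * (x0 / 10)) := by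
          apply mul_le_mul_of_nonneg_left _ hA2.le
          linarith
        have h3 : 0 ≤ A ^ 2 * x0 := by positivity
        nlinarith
      have hX : A ^ 2 * (1 + 4 * κ) + x0 / 4 * lam ≤ lam := by
        have h2 : A ^ 2 * (4 * κ) ≤ A ^ 2 * (4 * (x0 / 10)) := by
          apply mul_le_mul_of_nonneg_left _ hA2.le
          linarith
        have h3 : A ^ 2 * (1 + 4 * κ) ≤ (1 + 4 * (x0 / 10)) * A ^ 2 := by linarith
        have h4 : (1 + 4 * (x0 / 10)) ≤ (1 + x0) * (1 - x0 / 4) := by nlinarith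
        have h5 : (1 + 4 * (x0 / 10)) * A ^ 2 ≤ (1 + x0) * (1 - x0 / 4) * A ^ 2 :=
          mul_le_mul_of_nonneg_right h4 hA2.le
        have h6 : (1 - x0 / 4) * ((1 + x0) * A ^ 2) ≤ (1 - x0 / 4) * lam :=
          mul_le_mul_of_nonneg_left hl.le (by linarith)
        linarith
      exact AsmR_K h1 h5 h6 hSLL hEX2 hSTM Ω N0 N τ θ (A ^ 2 * (1 + 4 * κ)) (x0 / 4) R 0 lam ho hb
        hr hR hΩR hlam0 hτ hN0 hNN0 hNτ hθ (by positivity) hK u1 u2 u3 u4 hlN hup hX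

end Pool.Agent.Work.MP_d5b3be_an.BU
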