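import Pool.Agent.Work.MP_d5b3be_an.BU.Stmts2

/-! Item AXC of block BU, second part: cutting off near the axis. -/

set_option autoImplicit false

namespace Pool.Agent.Work.MP_d5b3be_an.BU

open Pool.Agent.Work.MP_d5b3be_an.BN
open MeasureTheory Filter Set
open scoped ENNReal Topology ContDiff

/-- the squared distance to the axis -/
def AXC_q (x : E3) : ℝ := x 0 ^ 2 + x 1 ^ 2

/-- the factor -/
noncomputable def AXC_k (a : ℝ) (x : E3) : ℝ := Real.smoothTransition (a * AXC_q x - 1)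

theorem AXC_cdS : ContDiff ℝ ((⊤ : ℕ∞) : WithTop ℕ∞) Real.smoothTransition :=
  Real.smoothTransition.contDiff

theorem AXC_diffS : Differentiable ℝ Real.smoothTransition :=
  AXC_cdS.differentiable (by simp)

theorem AXC_contdS : Continuous (deriv Real.smoothTransition) :=
  AXC_cdS.continuous_deriv (by simp)

theorem AXC_dS_neg {y : ℝ} (hy : y < 0) : deriv Real.smoothTransition y = 0 := by
  have h : Real.smoothTransition =ᶠ[𝓝 y] fun _ => (0 : ℝ) := by
    filter_upwards [Iio_mem_nhds hy] with z hz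
    exact Real.smoothTransition.zero_of_nonpos (le_of_lt hz)
  rw [h.deriv_eq]
  exact deriv_const _ _

theorem AXC_dS_big {y : ℝ} (hy : 1 < y) : deriv Real.smoothTransition y = 0 := by
  have h : Real.smoothTransition =ᶠ[𝓝 y] fun _ => (1 : ℝ) := by
    filter_upwards [Ioi_mem_nhds hy] with z hz
    exact Real.smoothTransition.one_of_one_le (le_of_lt hz)
  rw [h.deriv_eq]
  exact deriv_const _ _

theorem AXC_bound : ∃ M : ℝ, 0 ≤ M ∧ ∀ y, |deriv Real.smoothTransition y| ≤ M := by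
  obtain ⟨M, hM⟩ := (isCompact_Icc (a := (0 : ℝ)) (b := 1)).exists_bound_of_continuousOn
    AXC_contdS.continuousOn
  have hM0 : 0 ≤ M := (norm_nonneg _).trans (hM 0 ⟨le_rfl, zero_le_one⟩)
  refine ⟨M, hM0, fun y => ?_⟩
  by_cases h0 : y < 0
  · rw [AXC_dS_neg h0, abs_zero]; exact hM0
  by_cases h1 : 1 < y
  · rw [AXC_dS_big h1, abs_zero]; exact hM0
  exact hM y ⟨not_lt.mp h0, not_lt.mp h1⟩

theorem AXC_qsmooth : ContDiff ℝ ((⊤ : ℕ∞) : WithTop ℕ∞) AXC_q := by
  unfold AXC_q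
  fun_prop

theorem AXC_qderiv (x : E3) : HasFDerivAt AXC_q
    ((2 * x 0) • (ContinuousLinearMap.proj 0 : E3 →L[ℝ] ℝ) +
      (2 * x 1) • (ContinuousLinearMap.proj 1 : E3 →L[ℝ] ℝ)) x := by
  have h0 : HasFDerivAt (fun y : E3 => y 0) (ContinuousLinearMap.proj 0 : E3 →L[ℝ] ℝ) x :=
    hasFDerivAt_apply 0 x
  have h1 : HasFDerivAt (fun y : E3 => y 1) (ContinuousLinearMap.proj 1 : E3 →L[ℝ] ℝ) x :=
    hasFDerivAt_apply 1 x
  have h := (h0.pow 2).add (h1.pow 2)
  refine h.congr_fderiv ?_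
  ext v
  simp

theorem AXC_pdq (i : Fin 3) (x : E3) : |pd i AXC_q x| ≤ 2 * max |x 0| |x 1| := by
  unfold pd
  rw [(AXC_qderiv x).fderiv]
  fin_cases i
  · simp [abs_mul]
  · simp [abs_mul]
  · simp

theorem AXC_ksmooth (a : ℝ) : ContDiff ℝ ((⊤ : ℕ∞) : WithTop ℕ∞) (AXC_k a) := by
  unfold AXC_k
  exact AXC_cdS.comp ((contDiff_const.mul AXC_qsmooth).sub contDiff_const)

theorem AXC_pdk (a : ℝ) (i : Fin 3) (x : E3) :
    pd i (AXC_k a) x = deriv Real.smoothTransition (a * AXC_q x - 1) * (a * pd i AXC_q x) := by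
  have h1 : HasFDerivAt AXC_q (fderiv ℝ AXC_q x) x := (AXC_qderiv x).differentiableAt.hasFDerivAt
  have h2 : HasFDerivAt (fun y => a * AXC_q y - 1) (a • fderiv ℝ AXC_q x) x :=
    (h1.const_mul a).sub_const 1
  have h3 : HasDerivAt Real.smoothTransition
      (deriv Real.smoothTransition (a * AXC_q x - 1)) (a * AXC_q x - 1) :=
    (AXC_diffS _).hasDerivAt
  have h4 : HasFDerivAt (AXC_k a)
      (deriv Real.smoothTransition (a * AXC_q x - 1) • (a • fderiv ℝ AXC_q x)) x :=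
    h3.comp_hasFDerivAt x h2
  unfold pd
  rw [h4.fderiv]
  simp

theorem AXC_pdmul (a : ℝ) (i : Fin 3) (φ : E3 → ℝ)
    (hφ : ContDiff ℝ ((⊤ : ℕ∞) : WithTop ℕ∞) φ) (x : E3) :
    pd i (fun y => AXC_k a y * φ y) x = AXC_k a x * pd i φ x + φ x * pd i (AXC_k a) x := by
  have h1 : HasFDerivAt (AXC_k a) (fderiv ℝ (AXC_k a) x) x :=
    ((AXC_ksmooth a).differentiable (by simp) x).hasFDerivAt
  have h2 : HasFDerivAt φ (fderiv ℝ φ x) x := (hφ.differentiable (by simp) x).hasFDerivAt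
  have h3 := h1.mul h2
  unfold pd
  rw [show (fun y => AXC_k a y * φ y) = AXC_k a * φ from rfl, h3.fderiv]
  simp

/-- zero on the axis -/
theorem AXC_axis (n : ℕ) (φ : E3 → ℝ) (h : ∀ x, φ (rot (Real.pi / n) x) = -φ x) (z : ℝ) :
    φ ![0, 0, z] = 0 := by
  have e : rot (Real.pi / n) ![0, 0, z] = ![0, 0, z] := by
    unfold rot
    simp
  have h1 := h ![0, 0, z]
  rw [e] at h1
  linarith

theorem AXC_lip (n : ℕ) (φ : E3 → ℝ) (h : ∀ x, φ (rot (Real.pi / n) x) = -φ x)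
    (hs : ContDiff ℝ ((⊤ : ℕ∞) : WithTop ℕ∞) φ) (hc : HasCompactSupport φ) :
    ∃ L : ℝ, 0 ≤ L ∧ ∀ x, |φ x| ≤ L * max |x 0| |x 1| := by
  obtain ⟨C, hC⟩ := ContDiff.lipschitzWith_of_hasCompactSupport hc hs (by simp)
  refine ⟨C, C.coe_nonneg, fun x => ?_⟩
  have h1 := hC.dist_le_mul x ![0, 0, x 2]
  rw [AXC_axis n φ h, Real.dist_eq, sub_zero] at h1
  refine h1.trans (mul_le_mul_of_nonneg_left ?_ C.coe_nonneg)
  rw [dist_pi_le_iff (le_max_of_le_left (abs_nonneg _))]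
  intro i
  fin_cases i
  · simp
  · simp
  · simp

theorem AXC_m2 (x : E3) : max |x 0| |x 1| * max |x 0| |x 1| ≤ AXC_q x := by
  unfold AXC_q
  rcases max_cases |x 0| |x 1| with ⟨h, _⟩ | ⟨h, _⟩
  · rw [h, abs_mul_abs_self]
    nlinarith [sq_nonneg (x 1)]
  · rw [h, abs_mul_abs_self]
    nlinarith [sq_nonneg (x 0)]

theorem AXC_second (φ : E3 → ℝ) (L M a : ℝ) (hL : 0 ≤ L) (hM : 0 ≤ M) (ha : 0 < a)
    (h1 : ∀ x, |φ x| ≤ L * max |x 0| |x 1|) (h2 : ∀ y, |deriv Real.smoothTransition y| ≤ M)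
    (i : Fin 3) (x : E3) : |φ x * pd i (AXC_k a) x| ≤ 4 * L * M := by
  rw [AXC_pdk]
  by_cases hy : 1 < a * AXC_q x - 1
  · rw [AXC_dS_big hy]
    simp only [zero_mul, mul_zero, abs_zero]
    positivity
  push Not at hy
  have hm : 0 ≤ max |x 0| |x 1| := le_max_of_le_left (abs_nonneg _)
  have k1 : |φ x| * |pd i AXC_q x| ≤ 2 * L * AXC_q x := by
    calc |φ x| * |pd i AXC_q x| ≤ (L * max |x 0| |x 1|) * (2 * max |x 0| |x 1|) :=
          mul_le_mul (h1 x) (AXC_pdq i x) (abs_nonneg _) (by positivity)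
      _ = 2 * L * (max |x 0| |x 1| * max |x 0| |x 1|) := by ring
      _ ≤ 2 * L * AXC_q x := mul_le_mul_of_nonneg_left (AXC_m2 x) (by positivity)
  have k2 : a * (|φ x| * |pd i AXC_q x|) ≤ 4 * L := by
    have k3 := mul_le_mul_of_nonneg_left k1 ha.le
    have k4 : a * AXC_q x ≤ 2 := by linarith
    have k5 := mul_le_mul_of_nonneg_left k4 hL
    nlinarith
  calc |φ x * (deriv Real.smoothTransition (a * AXC_q x - 1) * (a * pd i AXC_q x))|
      = |deriv Real.smoothTransition (a * AXC_q x - 1)| * (a * (|φ x| * |pd i AXC_q x|)) := by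
        rw [abs_mul, abs_mul, abs_mul, abs_of_pos ha]
        ring
    _ ≤ M * (4 * L) := mul_le_mul (h2 _) k2 (by positivity) hM
    _ = 4 * L * M := by ring

theorem AXC_testN (hR : ROT) (Ω : Set E3) (n : ℕ) (φ : E3 → ℝ) (h : TestN Ω n φ) (a : ℝ) :
    TestN Ω n (fun x => AXC_k a x * φ x) := by
  obtain ⟨⟨h1, h2, h3⟩, h4⟩ := h
  refine ⟨⟨(AXC_ksmooth a).mul h1, h2.mul_left, ?_⟩, ?_⟩
  · exact (tsupport_mul_subset_right (f := AXC_k a) (g := φ)).trans h3
  · intro x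
    have e : AXC_k a (rot (Real.pi / n) x) = AXC_k a x := by
      unfold AXC_k AXC_q
      rw [(hR.2.2.2.1 (Real.pi / n) x).1]
    change AXC_k a (rot (Real.pi / n) x) * φ (rot (Real.pi / n) x) = -(AXC_k a x * φ x)
    rw [e, h4]
    ring

theorem AXC_ae : ∀ᵐ x : E3, 0 < AXC_q x := by
  have hz : ∀ᵐ x : E3, x 0 ≠ 0 := by
    rw [ae_iff]
    have := Measure.pi_hyperplane (fun _ : Fin 3 => (volume : Measure ℝ)) 0 (0 : ℝ)
    rw [← volume_pi] at this
    simpa using this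
  filter_upwards [hz] with x hx
  unfold AXC_q
  positivity

theorem AXC_ev (x : E3) (hx : 0 < AXC_q x) : ∀ᶠ k : ℕ in atTop, 1 < ((k : ℝ) + 1) * AXC_q x - 1 := by
  obtain ⟨N, hN⟩ := exists_nat_gt (2 / AXC_q x)
  filter_upwards [eventually_ge_atTop N] with k hk
  have h1 : (N : ℝ) ≤ k := by exact_mod_cast hk
  have h2 : 2 < N * AXC_q x := (div_lt_iff₀ hx).mp hN
  nlinarith

theorem AXC_pow (φ : E3 → ℝ) (hs : ContDiff ℝ ((⊤ : ℕ∞) : WithTop ℕ∞) φ)
    (hc : HasCompactSupport φ) (m : ℕ) (hm : Even m) (hm0 : m ≠ 0) :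
    Tendsto (fun k : ℕ => ∫ x, (AXC_k ((k : ℝ) + 1) x * φ x) ^ m) atTop (𝓝 (∫ x, φ x ^ m)) := by
  apply tendsto_integral_of_dominated_convergence (fun x => φ x ^ m)
  · intro k
    exact (((AXC_ksmooth _).continuous.mul hs.continuous).pow m).aestronglyMeasurable
  · apply Continuous.integrable_of_hasCompactSupport (hs.continuous.pow m)
    exact hc.comp_left (g := fun t : ℝ => t ^ m) (zero_pow hm0)
  · intro k
    refine Filter.Eventually.of_forall fun x => ?_
    have h1 : |AXC_k ((k : ℝ) + 1) x| ≤ 1 := by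
      rw [abs_le]
      exact ⟨by linarith [Real.smoothTransition.nonneg (((k : ℝ) + 1) * AXC_q x - 1),
        show AXC_k ((k : ℝ) + 1) x = Real.smoothTransition (((k : ℝ) + 1) * AXC_q x - 1) from rfl],
        Real.smoothTransition.le_one _⟩
    rw [Real.norm_eq_abs, abs_pow, ← Even.pow_abs hm (φ x), abs_mul]
    apply pow_le_pow_left₀ (by positivity)
    calc |AXC_k ((k : ℝ) + 1) x| * |φ x| ≤ 1 * |φ x| :=
          mul_le_mul_of_nonneg_right h1 (abs_nonneg _)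
      _ = |φ x| := one_mul _
  · filter_upwards [AXC_ae] with x hx
    apply tendsto_const_nhds.congr'
    filter_upwards [AXC_ev x hx] with k hk
    have : AXC_k ((k : ℝ) + 1) x = 1 := Real.smoothTransition.one_of_one_le hk.le
    rw [this, one_mul]

theorem AXC_pdc (i : Fin 3) (φ : E3 → ℝ) (hs : ContDiff ℝ ((⊤ : ℕ∞) : WithTop ℕ∞) φ) :
    Continuous (pd i φ) := by
  unfold pd
  exact (hs.continuous_fderiv (by simp)).clm_apply continuous_const

theorem AXC_grad (n : ℕ) (φ : E3 → ℝ) (h : ∀ x, φ (rot (Real.pi / n) x) = -φ x)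
    (hs : ContDiff ℝ ((⊤ : ℕ∞) : WithTop ℕ∞) φ) (hc : HasCompactSupport φ) :
    Tendsto (fun k : ℕ => ∫ x, ∑ i, pd i (fun y => AXC_k ((k : ℝ) + 1) y * φ y) x ^ 2) atTop
      (𝓝 (∫ x, ∑ i, pd i φ x ^ 2)) := by
  obtain ⟨L, hL, hL1⟩ := AXC_lip n φ h hs hc
  obtain ⟨M, hM, hM1⟩ := AXC_bound
  apply tendsto_integral_of_dominated_convergence
    (fun x => ∑ i, (2 * pd i φ x ^ 2 + (tsupport φ).indicator (fun _ => 2 * (4 * L * M) ^ 2) x))
  · intro k
    apply Continuous.aestronglyMeasurable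
    apply continuous_finsetSum
    intro i _
    exact (AXC_pdc i _ ((AXC_ksmooth _).mul hs)).pow 2
  · apply integrable_finsetSum
    intro i _
    apply Integrable.add
    · apply Integrable.const_mul
      apply Continuous.integrable_of_hasCompactSupport ((AXC_pdc i φ hs).pow 2)
      have h1 : HasCompactSupport (pd i φ) :=
        (hc.fderiv ℝ).comp_left (g := fun l : E3 →L[ℝ] ℝ => l (Pi.single i (1 : ℝ))) (by simp)
      exact h1.comp_left (g := fun t : ℝ => t ^ 2) (by simp)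
    · rw [integrable_indicator_iff (isClosed_tsupport φ).measurableSet]
      exact integrableOn_const hc.isCompact.measure_lt_top.ne
  · intro k
    refine Filter.Eventually.of_forall fun x => ?_
    rw [Real.norm_eq_abs, abs_of_nonneg (Finset.sum_nonneg fun i _ => sq_nonneg _)]
    apply Finset.sum_le_sum
    intro i _
    rw [AXC_pdmul _ i φ hs]
    have hk0 : 0 ≤ AXC_k ((k : ℝ) + 1) x := Real.smoothTransition.nonneg _
    have hk1 : AXC_k ((k : ℝ) + 1) x ≤ 1 := Real.smoothTransition.le_one _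
    have e1 : (AXC_k ((k : ℝ) + 1) x * pd i φ x) ^ 2 ≤ pd i φ x ^ 2 := by
      rw [mul_pow]
      have : AXC_k ((k : ℝ) + 1) x ^ 2 ≤ 1 := pow_le_one₀ hk0 hk1
      nlinarith [sq_nonneg (pd i φ x)]
    by_cases hx : x ∈ tsupport φ
    · rw [indicator_of_mem hx]
      have e2 : (φ x * pd i (AXC_k ((k : ℝ) + 1)) x) ^ 2 ≤ (4 * L * M) ^ 2 := by
        rw [← sq_abs]
        exact pow_le_pow_left₀ (abs_nonneg _)
          (AXC_second φ L M _ hL hM (by positivity) hL1 hM1 i x) 2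
      nlinarith [sq_nonneg (AXC_k ((k : ℝ) + 1) x * pd i φ x -
        φ x * pd i (AXC_k ((k : ℝ) + 1)) x)]
    · rw [indicator_of_notMem hx, image_eq_zero_of_notMem_tsupport hx]
      simp only [zero_mul, add_zero]
      nlinarith [sq_nonneg (pd i φ x)]
  · filter_upwards [AXC_ae] with x hx
    apply tendsto_const_nhds.congr'
    filter_upwards [AXC_ev x hx] with k hk
    apply Finset.sum_congr rfl
    intro i _
    have e0 : AXC_k ((k : ℝ) + 1) x = 1 := Real.smoothTransition.one_of_one_le hk.le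
    rw [AXC_pdmul _ i φ hs, AXC_pdk, AXC_dS_big hk, e0]
    simp

theorem prfAXC (h1 : ROT) : AXC := by
  intro Ω n φ ε _ _ hφ hε
  have hφ' := hφ
  obtain ⟨⟨hs, hc, -⟩, h4⟩ := hφ'
  have t1 := AXC_pow φ hs hc 6 (by decide) (by decide)
  have t2 := AXC_pow φ hs hc 2 (by decide) (by decide)
  have t3 := AXC_grad n φ h4 hs hc
  have e1 := t1.eventually (Metric.ball_mem_nhds _ hε)
  have e2 := t2.eventually (Metric.ball_mem_nhds _ hε)
  have e3 := t3.eventually (Metric.ball_mem_nhds _ hε)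
  obtain ⟨k, hk1, hk2, hk3⟩ := (e1.and (e2.and e3)).exists
  have hk : (0 : ℝ) < (k : ℝ) + 1 := by positivity
  refine ⟨fun x => AXC_k ((k : ℝ) + 1) x * φ x, AXC_testN h1 Ω n φ hφ _, ?_, ?_, ?_, ?_⟩
  · refine ⟨1 / ((k : ℝ) + 1), by positivity, fun x hx => ?_⟩
    have : AXC_k ((k : ℝ) + 1) x = 0 := by
      apply Real.smoothTransition.zero_of_nonpos
      rw [lt_div_iff₀ hk] at hx
      unfold AXC_q
      nlinarith
    simp only [this, zero_mul]
  · exact hk1
  · exact hk2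
  · exact hk3

end Pool.Agent.Work.MP_d5b3be_an.BU
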