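import Pool.Agent.Work.MP_d5b3be_an.BU.Stmts

/-! Item AXI of block BU: functions do not concentrate near the axis. -/

set_option autoImplicit false

namespace Pool.Agent.Work.MP_d5b3be_an.BU

open Pool.Agent.Work.MP_d5b3be_an.BN
open MeasureTheory Filter Set
open scoped ENNReal Topology ContDiff

theorem AXI_step (F F' : ℝ → ℝ) (hF : ∀ x, HasDerivAt F (F' x) x) (hc : Continuous F')
    (hA : IntegrableOn (fun ρ => ρ * F' ρ ^ 2) (Ioi 0)) (s : ℝ) (hs : 0 < s) :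
    ∫ ρ in (0 : ℝ)..s, ρ * F ρ ^ 2 ≤
      s ^ 2 * F s ^ 2 + s ^ 2 * ∫ ρ in Ioi (0 : ℝ), ρ * F' ρ ^ 2 := by
  have cF : Continuous F := continuous_iff_continuousAt.2 (fun x => (hF x).continuousAt)
  have h1 : ∫ ρ in (0 : ℝ)..s, (2 * ρ * F ρ ^ 2 + ρ ^ 2 * (2 * F ρ * F' ρ)) = s ^ 2 * F s ^ 2 := by
    rw [intervalIntegral.integral_eq_sub_of_hasDerivAt (f := fun ρ => ρ ^ 2 * F ρ ^ 2)]
    · simp
    · intro x _
      have e1 := (hasDerivAt_pow 2 x).mul ((hF x).pow 2)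
      refine e1.congr_deriv ?_
      simp
    · apply Continuous.intervalIntegrable
      fun_prop
  have h2 : ∫ ρ in (0 : ℝ)..s, ρ * F ρ ^ 2 ≤
      ∫ ρ in (0 : ℝ)..s, ((2 * ρ * F ρ ^ 2 + ρ ^ 2 * (2 * F ρ * F' ρ)) + ρ ^ 3 * F' ρ ^ 2) := by
    apply intervalIntegral.integral_mono_on hs.le
    · apply Continuous.intervalIntegrable
      fun_prop
    · apply Continuous.intervalIntegrable
      fun_prop
    · intro x hx
      have := mul_nonneg hx.1 (sq_nonneg (F x + x * F' x))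
      nlinarith [this]
  have h3 : ∫ ρ in (0 : ℝ)..s, ((2 * ρ * F ρ ^ 2 + ρ ^ 2 * (2 * F ρ * F' ρ)) + ρ ^ 3 * F' ρ ^ 2) =
      s ^ 2 * F s ^ 2 + ∫ ρ in (0 : ℝ)..s, ρ ^ 3 * F' ρ ^ 2 := by
    rw [intervalIntegral.integral_add, h1]
    · apply Continuous.intervalIntegrable
      fun_prop
    · apply Continuous.intervalIntegrable
      fun_prop
  have h4 : ∫ ρ in (0 : ℝ)..s, ρ ^ 3 * F' ρ ^ 2 ≤ ∫ ρ in (0 : ℝ)..s, s ^ 2 * (ρ * F' ρ ^ 2) := by
    apply intervalIntegral.integral_mono_on hs.le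
    · apply Continuous.intervalIntegrable
      fun_prop
    · apply Continuous.intervalIntegrable
      fun_prop
    · intro x hx
      have k1 : x ^ 2 ≤ s ^ 2 := pow_le_pow_left₀ hx.1 hx.2 2
      have k2 : 0 ≤ x * F' x ^ 2 := mul_nonneg hx.1 (sq_nonneg _)
      calc x ^ 3 * F' x ^ 2 = x ^ 2 * (x * F' x ^ 2) := by ring
        _ ≤ s ^ 2 * (x * F' x ^ 2) := mul_le_mul_of_nonneg_right k1 k2
  have h5 : ∫ ρ in (0 : ℝ)..s, ρ * F' ρ ^ 2 ≤ ∫ ρ in Ioi (0 : ℝ), ρ * F' ρ ^ 2 := by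
    rw [intervalIntegral.integral_of_le hs.le]
    apply setIntegral_mono_set hA
    · filter_upwards [ae_restrict_mem measurableSet_Ioi] with x hx
      exact mul_nonneg (le_of_lt hx) (sq_nonneg _)
    · exact (Ioc_subset_Ioi_self).eventuallyLE
  rw [intervalIntegral.integral_const_mul] at h4
  have h6 : s ^ 2 * ∫ ρ in (0 : ℝ)..s, ρ * F' ρ ^ 2 ≤ s ^ 2 * ∫ ρ in Ioi (0 : ℝ), ρ * F' ρ ^ 2 :=
    mul_le_mul_of_nonneg_left h5 (sq_nonneg s)
  linarith

theorem AXI_one (F F' : ℝ → ℝ) (hF : ∀ x, HasDerivAt F (F' x) x) (hc : Continuous F')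
    (b : ℝ) (hb : 0 < b) (hB : IntegrableOn (fun ρ => ρ * F ρ ^ 2) (Ioi 0))
    (hA : IntegrableOn (fun ρ => ρ * F' ρ ^ 2) (Ioi 0)) :
    ∫ ρ in Ioo (0 : ℝ) b, ρ * F ρ ^ 2 ≤
      2 / 3 * (∫ ρ in Ioi (0 : ℝ), ρ * F ρ ^ 2) + b ^ 2 * ∫ ρ in Ioi (0 : ℝ), ρ * F' ρ ^ 2 := by
  have cF : Continuous F := continuous_iff_continuousAt.2 (fun x => (hF x).continuousAt)
  rw [← integral_Ioc_eq_integral_Ioo, ← intervalIntegral.integral_of_le hb.le]
  set A := ∫ ρ in Ioi (0 : ℝ), ρ * F' ρ ^ 2 with hAd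
  set B := ∫ ρ in Ioi (0 : ℝ), ρ * F ρ ^ 2 with hBd
  have hA0 : 0 ≤ A := setIntegral_nonneg measurableSet_Ioi
    (fun ρ hρ => mul_nonneg (le_of_lt hρ) (sq_nonneg _))
  set M := ∫ ρ in (0 : ℝ)..b, ρ * F ρ ^ 2 with hM
  have ii : ∀ u v : ℝ, IntervalIntegrable (fun ρ => ρ * F ρ ^ 2) volume u v := by
    intro u v
    apply Continuous.intervalIntegrable
    fun_prop
  have hM2 : M + ∫ ρ in b..(2 * b), ρ * F ρ ^ 2 ≤ B := by
    rw [hM, intervalIntegral.integral_add_adjacent_intervals (ii _ _) (ii _ _),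
      intervalIntegral.integral_of_le (by linarith)]
    apply setIntegral_mono_set hB
    · filter_upwards [ae_restrict_mem measurableSet_Ioi] with x hx
      exact mul_nonneg (le_of_lt hx) (sq_nonneg _)
    · exact (Ioc_subset_Ioi_self).eventuallyLE
  have hpt : ∀ s ∈ Icc b (2 * b), M / (2 * b) ≤ s * F s ^ 2 + s * A := by
    intro s hs
    have hs0 : 0 < s := lt_of_lt_of_le hb hs.1
    have k1 := AXI_step F F' hF hc hA s hs0
    rw [← hAd] at k1
    have k2 : M ≤ ∫ ρ in (0 : ℝ)..s, ρ * F ρ ^ 2 := by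
      rw [hM, ← intervalIntegral.integral_add_adjacent_intervals (ii 0 b) (ii b s)]
      have : 0 ≤ ∫ ρ in b..s, ρ * F ρ ^ 2 :=
        intervalIntegral.integral_nonneg hs.1
          (fun x hx => mul_nonneg (hb.le.trans hx.1) (sq_nonneg _))
      linarith
    rw [div_le_iff₀ (by linarith)]
    have k3 : 0 ≤ s * F s ^ 2 + s * A := by positivity
    calc M ≤ s ^ 2 * F s ^ 2 + s ^ 2 * A := k2.trans k1
      _ = (s * F s ^ 2 + s * A) * s := by ring
      _ ≤ (s * F s ^ 2 + s * A) * (2 * b) := mul_le_mul_of_nonneg_left hs.2 k3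
  have hint : ∫ _s in b..(2 * b), M / (2 * b) ≤ ∫ s in b..(2 * b), (s * F s ^ 2 + s * A) := by
    apply intervalIntegral.integral_mono_on (by linarith)
    · exact intervalIntegrable_const
    · apply Continuous.intervalIntegrable
      fun_prop
    · exact hpt
  rw [intervalIntegral.integral_const, intervalIntegral.integral_add (ii _ _)
    (by apply Continuous.intervalIntegrable; fun_prop), intervalIntegral.integral_mul_const,
    integral_id, smul_eq_mul] at hint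
  have e1 : (2 * b - b) * (M / (2 * b)) = M / 2 := by
    field_simp
    ring
  rw [e1] at hint
  nlinarith [hint, hM2]

theorem prfAXI (h1 : IN0) : AXI := by
  intro f b hf hcs hb
  obtain ⟨i1, i2, i3, -⟩ := h1 f hf hcs
  have hHp : Hp = Ioi (0 : ℝ) ×ˢ (univ : Set ℝ) := by
    ext p
    simp [Hp]
  have hHb : Hp ∩ {p | p.1 < b} = Ioo (0 : ℝ) b ×ˢ (univ : Set ℝ) := by
    ext p
    simp [Hp]
  have hm : (volume : Measure (ℝ × ℝ)).restrict Hp =
      ((volume : Measure ℝ).restrict (Ioi 0)).prod volume := by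
    rw [hHp, Measure.volume_eq_prod, ← Measure.prod_restrict, Measure.restrict_univ]
  have hmb : (volume : Measure (ℝ × ℝ)).restrict (Hp ∩ {p | p.1 < b}) =
      ((volume : Measure ℝ).restrict (Ioo 0 b)).prod volume := by
    rw [hHb, Measure.volume_eq_prod, ← Measure.prod_restrict, Measure.restrict_univ]
  have i1b : IntegrableOn (fun p : ℝ × ℝ => p.1 * f p ^ 2) (Hp ∩ {p | p.1 < b}) :=
    i1.mono_set inter_subset_left
  -- the part with e1
  have hAi : ∫ p in Hp, p.1 * e1 f p ^ 2 ≤ Ai f := by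
    have : Ai f = (∫ p in Hp, p.1 * e1 f p ^ 2) + ∫ p in Hp, p.1 * e2 f p ^ 2 := by
      rw [Ai, ← integral_add i2 i3]
      congr 1
      ext p
      ring
    rw [this]
    have h0 : 0 ≤ ∫ p in Hp, p.1 * e2 f p ^ 2 := by
      apply setIntegral_nonneg
      · rw [hHp]; exact measurableSet_Ioi.prod MeasurableSet.univ
      · intro p hp
        exact mul_nonneg (le_of_lt hp) (sq_nonneg _)
    linarith
  have j1 : Integrable (fun p : ℝ × ℝ => p.1 * f p ^ 2)
      (((volume : Measure ℝ).restrict (Ioi 0)).prod volume) := by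
    rw [← hm]; exact i1
  have j2 : Integrable (fun p : ℝ × ℝ => p.1 * e1 f p ^ 2)
      (((volume : Measure ℝ).restrict (Ioi 0)).prod volume) := by
    rw [← hm]; exact i2
  have j1b : Integrable (fun p : ℝ × ℝ => p.1 * f p ^ 2)
      (((volume : Measure ℝ).restrict (Ioo 0 b)).prod volume) := by
    rw [← hmb]; exact i1b
  have hBi : Bi f = ∫ z : ℝ, ∫ ρ in Ioi (0 : ℝ), ρ * f (ρ, z) ^ 2 := by
    rw [Bi, hm, integral_prod_symm _ j1]
  have hA1 : ∫ p in Hp, p.1 * e1 f p ^ 2 = ∫ z : ℝ, ∫ ρ in Ioi (0 : ℝ), ρ * e1 f (ρ, z) ^ 2 := by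
    rw [hm, integral_prod_symm _ j2]
  have hL : ∫ p in Hp ∩ {p | p.1 < b}, p.1 * f p ^ 2 =
      ∫ z : ℝ, ∫ ρ in Ioo (0 : ℝ) b, ρ * f (ρ, z) ^ 2 := by
    rw [hmb, integral_prod_symm _ j1b]
  have hkey : ∫ z : ℝ, ∫ ρ in Ioo (0 : ℝ) b, ρ * f (ρ, z) ^ 2 ≤
      ∫ z : ℝ, (2 / 3 * (∫ ρ in Ioi (0 : ℝ), ρ * f (ρ, z) ^ 2) +
        b ^ 2 * ∫ ρ in Ioi (0 : ℝ), ρ * e1 f (ρ, z) ^ 2) := by
    apply integral_mono_ae
    · exact j1b.integral_prod_right
    · exact (j1.integral_prod_right.const_mul _).add (j2.integral_prod_right.const_mul _)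
    · filter_upwards [j1.prod_left_ae, j2.prod_left_ae] with z hz1 hz2
      refine AXI_one (fun ρ => f (ρ, z)) (fun ρ => e1 f (ρ, z)) ?_ ?_ b hb hz1 hz2
      · intro x
        have d1 : HasFDerivAt f (fderiv ℝ f (x, z)) (x, z) :=
          ((hf.differentiable (by simp)) (x, z)).hasFDerivAt
        have d2 : HasDerivAt (fun ρ : ℝ => (ρ, z)) ((1 : ℝ), (0 : ℝ)) x :=
          (hasDerivAt_id x).prodMk (hasDerivAt_const x z)
        exact d1.comp_hasDerivAt x d2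
      · have c1 : Continuous (fderiv ℝ f) := hf.continuous_fderiv (by simp)
        have c2 : Continuous (fun ρ : ℝ => ((ρ, z) : ℝ × ℝ)) := by fun_prop
        exact (c1.comp c2).clm_apply continuous_const
  rw [integral_add (j1.integral_prod_right.const_mul _) (j2.integral_prod_right.const_mul _),
    integral_const_mul, integral_const_mul] at hkey
  rw [hL]
  refine hkey.trans ?_
  rw [← hBi, ← hA1]
  have := mul_le_mul_of_nonneg_left hAi (sq_nonneg b)
  linarith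

end Pool.Agent.Work.MP_d5b3be_an.BU
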