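import Pool.Agent.Work.MP_d5b3be_an.BU.Stmts

/-!
# Block BU, item BWI: comparison of the integrals of a profile
-/

set_option autoImplicit false

namespace Pool.Agent.Work.MP_d5b3be_an.BU

open Pool.Agent.Work.MP_d5b3be_an.BN
open MeasureTheory Filter Set
open scoped ENNReal Topology ContDiff

theorem BWI_open : IsOpen Hp := isOpen_lt continuous_const continuous_fst

theorem BWI_meas : MeasurableSet Hp := BWI_open.measurableSet

theorem BWI_zero {g : ℝ × ℝ → ℝ} (hg : Continuous g)
    (h : ∀ᵐ p ∂((volume : Measure (ℝ × ℝ)).restrict Hp), g p = 0) :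
    Ai g = 0 ∧ Bi g = 0 ∧ Wi g = 0 := by
  have h0 : EqOn g (fun _ => (0 : ℝ)) Hp :=
    Measure.eqOn_open_of_ae_eq h BWI_open hg.continuousOn continuousOn_const
  have h1 : ∀ p ∈ Hp, fderiv ℝ g p = 0 := by
    intro p hp
    have h2 : g =ᶠ[𝓝 p] fun _ => (0 : ℝ) := Filter.eventuallyEq_of_mem (BWI_open.mem_nhds hp) h0
    rw [h2.fderiv_eq]
    simp
  refine ⟨?_, ?_, ?_⟩
  · apply setIntegral_eq_zero_of_forall_eq_zero
    intro p hp
    simp [e1, e2, h1 p hp]
  · apply setIntegral_eq_zero_of_forall_eq_zero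
    intro p hp
    simp [h0 hp]
  · apply setIntegral_eq_zero_of_forall_eq_zero
    intro p hp
    simp [h0 hp]

theorem prfBWI (h1 : IN0) : BWI := by
  intro Ω g hg
  obtain ⟨⟨hgs, hgc, -⟩, hg0⟩ := hg
  obtain ⟨i1, -, -, i4⟩ := h1 g hgs hgc
  have i4 := i4 hg0
  have hcont : Continuous g := hgs.continuous
  refine ⟨⟨?_, ?_, ?_⟩, ?_, ?_, ?_⟩
  · apply setIntegral_nonneg BWI_meas
    intro p hp
    have : 0 < p.1 := hp
    positivity
  · apply setIntegral_nonneg BWI_meas
    intro p hp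
    have : 0 < p.1 := hp
    positivity
  · apply setIntegral_nonneg BWI_meas
    intro p hp
    have : 0 < p.1 := hp
    positivity
  · intro h
    apply BWI_zero hcont
    rcases h with h | h
    · have h2 : (fun p : ℝ × ℝ => g p ^ 2 / p.1) =ᵐ[(volume : Measure (ℝ × ℝ)).restrict Hp] 0 := by
        rw [← setIntegral_eq_zero_iff_of_nonneg_ae ?_ i4]
        · exact h
        · filter_upwards [ae_restrict_mem BWI_meas] with p hp
          have : 0 < p.1 := hp
          show (0 : ℝ) ≤ g p ^ 2 / p.1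
          positivity
      filter_upwards [h2, ae_restrict_mem BWI_meas] with p hp hpH
      have hp1 : 0 < p.1 := hpH
      have h3 : g p ^ 2 / p.1 = 0 := hp
      rcases div_eq_zero_iff.1 h3 with h4 | h4
      · exact pow_eq_zero_iff two_ne_zero |>.1 h4
      · exact absurd h4 hp1.ne'
    · have h2 : (fun p : ℝ × ℝ => p.1 * g p ^ 2) =ᵐ[(volume : Measure (ℝ × ℝ)).restrict Hp] 0 := by
        rw [← setIntegral_eq_zero_iff_of_nonneg_ae ?_ i1]
        · exact h
        · filter_upwards [ae_restrict_mem BWI_meas] with p hp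
          have : 0 < p.1 := hp
          show (0 : ℝ) ≤ p.1 * g p ^ 2
          positivity
      filter_upwards [h2, ae_restrict_mem BWI_meas] with p hp hpH
      have hp1 : 0 < p.1 := hpH
      have h3 : p.1 * g p ^ 2 = 0 := hp
      rcases mul_eq_zero.1 h3 with h4 | h4
      · exact absurd h4 hp1.ne'
      · exact pow_eq_zero_iff two_ne_zero |>.1 h4
  · intro R hR
    unfold Bi Wi
    rw [← integral_const_mul]
    apply setIntegral_mono_on i1 (i4.const_mul _) BWI_meas
    intro p hp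
    have hp1 : 0 < p.1 := hp
    by_cases hs : p ∈ tsupport g
    · have h2 := hR p hs hp1
      have h3 : p.1 ^ 2 ≤ R ^ 2 := pow_le_pow_left₀ hp1.le h2 2
      rw [mul_div_assoc', le_div_iff₀ hp1]
      calc p.1 * g p ^ 2 * p.1 = p.1 ^ 2 * g p ^ 2 := by ring
        _ ≤ R ^ 2 * g p ^ 2 := mul_le_mul_of_nonneg_right h3 (sq_nonneg _)
    · rw [image_eq_zero_of_notMem_tsupport hs]
      simp
  · intro a ha hR
    unfold Bi Wi
    rw [← integral_const_mul]
    apply setIntegral_mono_on (i4.const_mul _) i1 BWI_meas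
    intro p hp
    have hp1 : 0 < p.1 := hp
    by_cases hs : p ∈ tsupport g
    · have h2 := hR p hs hp1
      have h3 : a ^ 2 ≤ p.1 ^ 2 := pow_le_pow_left₀ ha.le h2 2
      rw [mul_div_assoc', div_le_iff₀ hp1]
      calc a ^ 2 * g p ^ 2 ≤ p.1 ^ 2 * g p ^ 2 := mul_le_mul_of_nonneg_right h3 (sq_nonneg _)
        _ = p.1 * g p ^ 2 * p.1 := by ring
    · rw [image_eq_zero_of_notMem_tsupport hs]
      simp

end Pool.Agent.Work.MP_d5b3be_an.BU
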