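import Pool.Agent.Work.MP_d5b3be_an.BU.Stmts

/-! Block BU, item CH1: the one-dimensional integrals of the localization in the radial direction. -/

set_option autoImplicit false

namespace Pool.Agent.Work.MP_d5b3be_an.BU

open Pool.Agent.Work.MP_d5b3be_an.BN
open MeasureTheory Filter Set
open scoped ENNReal Topology ContDiff

/-- the image of the substitution -/
theorem CH1_image (ρ h : ℝ) (hρ : 0 < ρ) (hh : 0 < h) :
    (fun s : ℝ => (ρ * Real.exp (-s) - 1) / h) '' univ = Ioi (-(1 / h)) := by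
  ext t
  simp only [mem_image, mem_univ, true_and, mem_Ioi]
  constructor
  · rintro ⟨s, rfl⟩
    have h1 : 0 < ρ * Real.exp (-s) := mul_pos hρ (Real.exp_pos _)
    rw [sub_div]
    have h2 : 0 < ρ * Real.exp (-s) / h := div_pos h1 hh
    linarith
  · intro ht
    have h1 : 0 < 1 + h * t := by
      have := mul_lt_mul_of_pos_left ht hh
      have e : h * -(1 / h) = -1 := by field_simp
      linarith
    refine ⟨-Real.log ((1 + h * t) / ρ), ?_⟩
    rw [neg_neg, Real.exp_log (div_pos h1 hρ)]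
    field_simp
    ring

/-- the substitution -/
theorem CH1_sub (ρ h : ℝ) (hρ : 0 < ρ) (hh : 0 < h) (h2 : h ≤ 1 / 2) (F : ℝ → ℝ) (hF : Integrable F)
    (h0 : ∀ t, t ≤ -1 → F t = 0) :
    Integrable (fun s : ℝ => (ρ * Real.exp (-s) / h) * F ((ρ * Real.exp (-s) - 1) / h)) ∧
    ∫ s : ℝ, (ρ * Real.exp (-s) / h) * F ((ρ * Real.exp (-s) - 1) / h) = ∫ t, F t := by
  have hd : ∀ x ∈ (univ : Set ℝ), HasDerivWithinAt (fun s : ℝ => (ρ * Real.exp (-s) - 1) / h)
      (-(ρ * Real.exp (-x) / h)) univ x := by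
    intro x _
    apply HasDerivAt.hasDerivWithinAt
    have e1 : HasDerivAt (fun s : ℝ => Real.exp (-s)) (Real.exp (-x) * (-1)) x :=
      (hasDerivAt_neg x).exp
    have e2 := ((e1.const_mul ρ).sub_const 1).div_const h
    have e3 : -(ρ * Real.exp (-x) / h) = ρ * (Real.exp (-x) * (-1)) / h := by ring
    rw [e3]
    exact e2
  have hinj : InjOn (fun s : ℝ => (ρ * Real.exp (-s) - 1) / h) univ := by
    intro x _ y _ hxy
    simp only at hxy
    have e1 : ρ * Real.exp (-x) - 1 = ρ * Real.exp (-y) - 1 := by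
      field_simp at hxy
      linarith
    have e2 : Real.exp (-x) = Real.exp (-y) := by
      have : ρ * Real.exp (-x) = ρ * Real.exp (-y) := by linarith
      exact mul_left_cancel₀ hρ.ne' this
    have e3 := Real.exp_injective e2
    linarith
  have habs : ∀ x : ℝ, |(-(ρ * Real.exp (-x) / h))| = ρ * Real.exp (-x) / h := by
    intro x
    rw [abs_neg, abs_of_pos (div_pos (mul_pos hρ (Real.exp_pos _)) hh)]
  have hi := integrableOn_image_iff_integrableOn_abs_deriv_smul MeasurableSet.univ hd hinj F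
  have hj := integral_image_eq_integral_abs_deriv_smul MeasurableSet.univ hd hinj F
  rw [CH1_image ρ h hρ hh] at hi hj
  simp only [habs, smul_eq_mul, integrableOn_univ, Measure.restrict_univ] at hi hj
  refine ⟨hi.1 hF.integrableOn, ?_⟩
  rw [← hj]
  apply setIntegral_eq_integral_of_forall_compl_eq_zero
  intro t ht
  apply h0
  rw [mem_Ioi, not_lt] at ht
  have e1 : 1 ≤ 1 / h := by
    rw [le_div_iff₀ hh]
    linarith
  linarith

theorem CH1_int (F : ℝ → ℝ) (hc : Continuous F) (hz : ∀ t, ¬ (-1 < t ∧ t < 1) → F t = 0) :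
    Integrable F := by
  apply hc.integrable_of_hasCompactSupport
  apply HasCompactSupport.intro (isCompact_Icc (a := (-1 : ℝ)) (b := 1))
  intro x hx
  apply hz
  intro h
  exact hx ⟨h.1.le, h.2.le⟩

theorem CH1_zero (ζ : ℝ → ℝ) (hζ : Bmp ζ) (t : ℝ) (ht : ¬ (-1 < t ∧ t < 1)) :
    ζ t = 0 ∧ deriv ζ t = 0 := by
  have h1 : t ∉ tsupport ζ := fun h => ht (hζ.2.1 h)
  refine ⟨image_eq_zero_of_notMem_tsupport h1, ?_⟩
  by_contra h
  exact h1 (support_deriv_subset (Function.mem_support.2 h))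

theorem prfCH1 : CH1 := by
  intro ζ hζ hI
  have hsm : ContDiff ℝ ((⊤ : ℕ∞) : WithTop ℕ∞) ζ := hζ.1
  have hcont : Continuous ζ := hsm.continuous
  have hdiff : Differentiable ℝ ζ := hsm.differentiable (by simp)
  have hdc : Continuous (deriv ζ) := hsm.continuous_deriv (by simp)
  have hz : ∀ t, ¬ (-1 < t ∧ t < 1) → ζ t = 0 := fun t ht => (CH1_zero ζ hζ t ht).1
  have hdz : ∀ t, ¬ (-1 < t ∧ t < 1) → deriv ζ t = 0 := fun t ht => (CH1_zero ζ hζ t ht).2
  have hc1' : Continuous (fun t => ζ t ^ 2) := by fun_prop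
  have hc2' : Continuous (fun t => deriv ζ t ^ 2) := by fun_prop
  have hint1 : Integrable (fun t => ζ t ^ 2) :=
    CH1_int _ hc1' (fun t ht => by rw [hz t ht]; norm_num)
  have hint2 : Integrable (fun t => deriv ζ t ^ 2) :=
    CH1_int _ hc2' (fun t ht => by rw [hdz t ht]; norm_num)
  set I : ℝ := ∫ x, ζ x ^ 2 with hIdef
  set J : ℝ := ∫ x, deriv ζ x ^ 2 with hJdef
  have hJ0 : 0 ≤ J := integral_nonneg fun x => sq_nonneg _
  refine ⟨9 / 4 * (J / I) + 1, by positivity, ?_⟩
  intro h hh h2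
  have hwc : Continuous (fun t : ℝ => h * (1 / max (1 + h * t) (1 / 2))) := by
    apply continuous_const.mul
    apply continuous_const.div
    · fun_prop
    · intro t
      have : (1 / 2 : ℝ) ≤ max (1 + h * t) (1 / 2) := le_max_right _ _
      linarith
  have hF1 : Integrable (fun t => ζ t ^ 2 * (h * (1 / max (1 + h * t) (1 / 2)))) :=
    CH1_int _ (hc1'.mul hwc) (fun t ht => by rw [hz t ht]; ring)
  have hwd : Continuous (fun t : ℝ => (1 + h * t) / h) := by fun_prop
  have hF2 : Integrable (fun t => deriv ζ t ^ 2 * ((1 + h * t) / h)) :=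
    CH1_int _ (hc2'.mul hwd) (fun t ht => by rw [hdz t ht]; ring)
  have hF3 : Integrable (fun t => ζ t * deriv ζ t) :=
    CH1_int _ (hcont.mul hdc) (fun t ht => by rw [hz t ht]; ring)
  have hc1 : 2 / 3 * h * I ≤ ∫ t, ζ t ^ 2 * (h * (1 / max (1 + h * t) (1 / 2))) := by
    rw [hIdef, ← integral_const_mul]
    apply integral_mono (hint1.const_mul _) hF1
    intro t
    simp only
    by_cases ht : -1 < t ∧ t < 1
    · have e1 : max (1 + h * t) (1 / 2) ≤ 3 / 2 := by
        apply max_le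
        · nlinarith
        · norm_num
      have e0 : (1 / 2 : ℝ) ≤ max (1 + h * t) (1 / 2) := le_max_right _ _
      have e2 : (2 / 3 : ℝ) ≤ 1 / max (1 + h * t) (1 / 2) := by
        rw [le_div_iff₀ (by linarith)]
        linarith
      have e3 : 2 / 3 * h ≤ h * (1 / max (1 + h * t) (1 / 2)) := by
        have := mul_le_mul_of_nonneg_left e2 hh.le
        linarith
      have e4 := mul_le_mul_of_nonneg_left e3 (sq_nonneg (ζ t))
      linarith
    · rw [(CH1_zero ζ hζ t ht).1]
      simp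
  have hc2 : ∫ t, deriv ζ t ^ 2 * ((1 + h * t) / h) ≤ 3 / 2 / h * J := by
    rw [hJdef, ← integral_const_mul]
    apply integral_mono hF2 (hint2.const_mul _)
    intro t
    simp only
    by_cases ht : -1 < t ∧ t < 1
    · have e1 : (1 + h * t) / h ≤ 3 / 2 / h := by
        apply div_le_div_of_nonneg_right _ hh.le
        nlinarith
      have e4 := mul_le_mul_of_nonneg_left e1 (sq_nonneg (deriv ζ t))
      linarith
    · rw [(CH1_zero ζ hζ t ht).2]
      simp
  have hc3 : ∫ t, ζ t * deriv ζ t = 0 := by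
    have e1 : ∀ t, HasDerivAt (fun x => ζ x ^ 2 / 2) (ζ t * deriv ζ t) t := by
      intro t
      have := ((hdiff t).hasDerivAt.pow 2).div_const 2
      have e2 : ζ t * deriv ζ t = ((2 : ℕ) : ℝ) * ζ t ^ (2 - 1) * deriv ζ t / 2 := by
        norm_num
        ring
      rw [e2]
      exact this
    exact integral_eq_zero_of_hasDerivAt_of_integrable e1 hF3 (hint1.div_const 2)
  refine ⟨∫ t, ζ t ^ 2 * (h * (1 / max (1 + h * t) (1 / 2))),
    ∫ t, deriv ζ t ^ 2 * ((1 + h * t) / h), lt_of_lt_of_le (by positivity) hc1, ?_, ?_⟩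
  · refine hc2.trans ?_
    have e1 : 0 < (9 / 4 * (J / I) + 1) / h ^ 2 := by positivity
    refine le_trans ?_ (mul_le_mul_of_nonneg_left hc1 e1.le)
    have e2 : (9 / 4 * (J / I) + 1) / h ^ 2 * (2 / 3 * h * I) = 3 / 2 / h * J + 2 / 3 * I / h := by
      field_simp
      ring
    rw [e2]
    have : 0 < 2 / 3 * I / h := by positivity
    linarith
  · intro ρ hρ
    obtain ⟨a1, a2⟩ := CH1_sub ρ h hρ hh h2 _ hF1 (fun t ht => by
      rw [(CH1_zero ζ hζ t (by intro hc; linarith [hc.1])).1]; simp)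
    obtain ⟨b1, b2⟩ := CH1_sub ρ h hρ hh h2 _ hF2 (fun t ht => by
      rw [(CH1_zero ζ hζ t (by intro hc; linarith [hc.1])).2]; simp)
    obtain ⟨c1, c2⟩ := CH1_sub ρ h hρ hh h2 _ hF3 (fun t ht => by
      rw [(CH1_zero ζ hζ t (by intro hc; linarith [hc.1])).1]; simp)
    have hu : ∀ s : ℝ, 1 + h * ((ρ * Real.exp (-s) - 1) / h) = ρ * Real.exp (-s) := by
      intro s
      field_simp
      ring
    have A : (fun s : ℝ => (ρ * Real.exp (-s) / h) * (ζ ((ρ * Real.exp (-s) - 1) / h) ^ 2 *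
        (h * (1 / max (1 + h * ((ρ * Real.exp (-s) - 1) / h)) (1 / 2))))) =
        fun s : ℝ => ζ ((ρ * Real.exp (-s) - 1) / h) ^ 2 := by
      funext s
      by_cases ht : -1 < (ρ * Real.exp (-s) - 1) / h ∧ (ρ * Real.exp (-s) - 1) / h < 1
      · have e1 : 1 / 2 ≤ ρ * Real.exp (-s) := by
          rw [← hu s]
          nlinarith [ht.1]
        rw [hu s, max_eq_left e1]
        have e2 : 0 < ρ * Real.exp (-s) := by linarith
        field_simp
      · rw [(CH1_zero ζ hζ _ ht).1]
        simp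
    have B : (fun s : ℝ => (ρ * Real.exp (-s) / h) * (deriv ζ ((ρ * Real.exp (-s) - 1) / h) ^ 2 *
        ((1 + h * ((ρ * Real.exp (-s) - 1) / h)) / h))) =
        fun s : ℝ => ρ ^ 2 *
          (deriv ζ ((ρ * Real.exp (-s) - 1) / h) * (Real.exp (-s) / h)) ^ 2 := by
      funext s
      rw [hu s]
      ring
    have C : (fun s : ℝ => (ρ * Real.exp (-s) / h) * (ζ ((ρ * Real.exp (-s) - 1) / h) *
        deriv ζ ((ρ * Real.exp (-s) - 1) / h))) =
        fun s : ℝ => ρ * (ζ ((ρ * Real.exp (-s) - 1) / h) *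
          (deriv ζ ((ρ * Real.exp (-s) - 1) / h) * (Real.exp (-s) / h))) := by
      funext s
      ring
    rw [A] at a1 a2
    rw [B] at b1 b2
    rw [C] at c1 c2
    rw [integral_const_mul] at b2 c2
    refine ⟨a1, ?_, a2, ?_, ?_⟩
    · have := b1.const_mul (1 / ρ ^ 2)
      refine this.congr (Filter.Eventually.of_forall fun s => ?_)
      simp only
      field_simp
    · rw [hc3] at c2
      exact (mul_eq_zero.1 c2).resolve_left hρ.ne'
    · rw [eq_div_iff (by positivity), mul_comm]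
      exact b2

end Pool.Agent.Work.MP_d5b3be_an.BU
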