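import Pool.Agent.Work.MP_d5b3be_an.BU.Stmts

/-!
# Block BU, item CNU: the count
-/

set_option autoImplicit false

namespace Pool.Agent.Work.MP_d5b3be_an.BU

open Pool.Agent.Work.MP_d5b3be_an.BN
open MeasureTheory Filter Set
open scoped ENNReal Topology ContDiff

theorem prfCNU : CNU := by
  intro C τ hC hτ
  obtain ⟨N1, hN1⟩ := exists_nat_ge (2 / τ)
  have hK : 0 ≤ |Real.log (16 * C / τ ^ 2)| := abs_nonneg _
  refine ⟨N1 + 1, 1 / (|Real.log (16 * C / τ ^ 2)| + 4), by positivity, ?_⟩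
  intro m x hm hx hxm
  have hm1 : 1 ≤ m := by omega
  have hmR : (1 : ℝ) ≤ (m : ℝ) := by exact_mod_cast hm1
  have hmN : (N1 : ℝ) ≤ (m : ℝ) := by
    have : N1 ≤ m := by omega
    exact_mod_cast this
  have hτm : 2 ≤ τ * (m : ℝ) := by
    have h1 : 2 / τ ≤ (m : ℝ) := le_trans hN1 hmN
    rw [div_le_iff₀ hτ] at h1
    linarith
  obtain ⟨y, hy⟩ : ∃ y : ℕ, y = ⌊τ * (m : ℝ)⌋₊ := ⟨_, rfl⟩
  have hy2 : 2 ≤ y := by
    rw [hy]
    exact Nat.le_floor (by exact_mod_cast hτm)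
  have hyle : (y : ℝ) ≤ τ * (m : ℝ) := by
    rw [hy]
    exact Nat.floor_le (by positivity)
  have hylt : τ * (m : ℝ) < (y : ℝ) + 1 := by
    rw [hy]
    exact Nat.lt_floor_add_one _
  have hyR : (2 : ℝ) ≤ (y : ℝ) := by exact_mod_cast hy2
  have hJ : 1 ≤ Nat.log 2 y := Nat.log_pos one_lt_two hy2
  refine ⟨Nat.log 2 y, hJ, ?_, ?_⟩
  · have hJR : (1 : ℝ) ≤ ((Nat.log 2 y : ℕ) : ℝ) := by exact_mod_cast hJ
    -- the size of `y`
    have h1 : (y : ℝ) ≤ (2 : ℝ) ^ (Nat.log 2 y + 1) := by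
      have := (Nat.lt_pow_succ_log_self one_lt_two y).le
      exact_mod_cast this
    have h2 : Real.log (y : ℝ) ≤ 2 * ((Nat.log 2 y : ℕ) : ℝ) := by
      have h3 := Real.log_le_log (by linarith) h1
      rw [Real.log_pow] at h3
      have h4 := Real.log_two_lt_d9
      have h5 : ((Nat.log 2 y + 1 : ℕ) : ℝ) * Real.log 2 ≤ ((Nat.log 2 y + 1 : ℕ) : ℝ) * 1 :=
        mul_le_mul_of_nonneg_left (by linarith) (Nat.cast_nonneg _)
      push_cast at h3 h5
      linarith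
    -- the size of `x`
    have h6 : x ≤ 16 * C / τ ^ 2 * (y : ℝ) ^ 2 := by
      have h7 : (m : ℝ) + 1 ≤ 4 * (y : ℝ) / τ := by
        rw [le_div_iff₀ hτ]
        have h8 : τ ≤ τ * (m : ℝ) := by nlinarith
        nlinarith
      have h9 : ((m : ℝ) + 1) ^ 2 ≤ (4 * (y : ℝ) / τ) ^ 2 :=
        pow_le_pow_left₀ (by linarith) h7 2
      calc x ≤ C * ((m : ℝ) + 1) ^ 2 := hxm.le
        _ ≤ C * (4 * (y : ℝ) / τ) ^ 2 := mul_le_mul_of_nonneg_left h9 hC.le
        _ = 16 * C / τ ^ 2 * (y : ℝ) ^ 2 := by ring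
    have hq : 0 < 16 * C / τ ^ 2 := by positivity
    have h10 : Real.log x ≤ Real.log (16 * C / τ ^ 2) + 2 * Real.log (y : ℝ) := by
      have h11 := Real.log_le_log (by linarith) h6
      rw [Real.log_mul hq.ne' (by positivity), Real.log_pow] at h11
      push_cast at h11
      exact h11
    have h12 : Real.log (16 * C / τ ^ 2) ≤ |Real.log (16 * C / τ ^ 2)| := le_abs_self _
    rw [one_div, inv_mul_le_iff₀ (by positivity)]
    nlinarith
  · calc (2 : ℝ) ^ (Nat.log 2 y) ≤ (y : ℝ) := by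
          exact_mod_cast Nat.pow_log_le_self 2 (by omega)
      _ ≤ τ * (m : ℝ) := hyle

end Pool.Agent.Work.MP_d5b3be_an.BU
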