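import Pool.Agent.Work.MP_d5b3be_an.BU.Stmts

/-!
# Block BU: item CR2
-/

set_option autoImplicit false

namespace Pool.Agent.Work.MP_d5b3be_an.BU

open Pool.Agent.Work.MP_d5b3be_an.BN
open MeasureTheory Filter Set
open scoped ENNReal Topology ContDiff

theorem prfCR2 (h1 : CLT) (h2 : SOB) (h3 : EXI) (h4 : SYM) (h5 : NSY) : CR2 := by
  intro Ω n V lam hb hRI hn hlam hlV hV hψ
  have hHy : Hy (TestN Ω n) ((n : ℝ) ^ 2) V lam :=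
    ⟨(h1 Ω).2 n, by positivity, fun φ hφ => h2 Ω n φ hn hφ, hlam, hlV, hV⟩
  obtain ⟨u, g, hHC, h6, h0, hN, hE⟩ := h3 Ω (TestN Ω n) ((n : ℝ) ^ 2) V lam hb
    (fun φ hφ => hφ.1) hHy hψ
  refine ⟨u, ⟨h0, h6, g, ?_, h4 Ω n lam u g hRI hn hHC h6 hE⟩, hN, h5 Ω n u g hHC⟩
  obtain ⟨k1, k2, φ, k3, k4, k5⟩ := hHC
  exact ⟨k1, k2, φ, fun k => (k3 k).1, k4, k5⟩

end Pool.Agent.Work.MP_d5b3be_an.BU
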