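import Pool.Agent.Work.MP_d5b3be_an.BU.Stmts

/-!
# Block BU, item CRP: the localized functions are profiles
-/

set_option autoImplicit false

namespace Pool.Agent.Work.MP_d5b3be_an.BU

open Pool.Agent.Work.MP_d5b3be_an.BN
open MeasureTheory Filter Set
open scoped ENNReal Topology ContDiff

theorem CRP_der (ζ : ℝ → ℝ) (hζ : Differentiable ℝ ζ) (a g : ℝ × ℝ → ℝ) (A : ℝ × ℝ →L[ℝ] ℝ)
    (p v : ℝ × ℝ) (ha : HasFDerivAt a A p) (hg : DifferentiableAt ℝ g p) :
    fderiv ℝ (fun q => ζ (a q) * g q) p v =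
      ζ (a p) * fderiv ℝ g p v + (deriv ζ (a p) * A v) * g p := by
  have h1 : HasFDerivAt (fun q => ζ (a q)) (deriv ζ (a p) • A) p :=
    (hζ (a p)).hasDerivAt.comp_hasFDerivAt p ha
  have h2 : HasFDerivAt (fun q => ζ (a q) * g q)
      (ζ (a p) • fderiv ℝ g p + g p • (deriv ζ (a p) • A)) p := h1.mul hg.hasFDerivAt
  rw [h2.fderiv]
  simp only [ContinuousLinearMap.add_apply, ContinuousLinearMap.smul_apply, smul_eq_mul]
  ring

theorem CRP_supp (ζ : ℝ → ℝ) (a g : ℝ × ℝ → ℝ) (ha : Continuous a) (p : ℝ × ℝ)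
    (hp : p ∈ tsupport (fun q => ζ (a q) * g q)) : p ∈ tsupport g ∧ a p ∈ tsupport ζ := by
  have h1 : tsupport (fun q => ζ (a q) * g q) ⊆ tsupport g ∩ a ⁻¹' tsupport ζ := by
    refine closure_minimal ?_ ((isClosed_tsupport g).inter ((isClosed_tsupport ζ).preimage ha))
    intro q hq
    rw [Function.mem_support] at hq
    exact ⟨subset_tsupport g (right_ne_zero_of_mul hq),
      subset_tsupport ζ (left_ne_zero_of_mul hq)⟩
  exact h1 hp

theorem CRP_pf (ζ : ℝ → ℝ) (Ω : Set E3) (a g : ℝ × ℝ → ℝ) (hζ : Bmp ζ)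
    (ha : ContDiff ℝ ((⊤ : ℕ∞) : WithTop ℕ∞) a) (hg : Pf Ω g) :
    Pf Ω (fun q => ζ (a q) * g q) := by
  obtain ⟨⟨h1, h2, h3⟩, h4⟩ := hg
  refine ⟨⟨(hζ.1.comp ha).mul h1, h2.mul_left, ?_⟩, ?_⟩
  · intro p hp hp1
    exact h3 p (CRP_supp ζ a g ha.continuous p hp).1 hp1
  · intro z
    show ζ (a (0, z)) * g (0, z) = 0
    rw [h4 z, mul_zero]

theorem prfCRP : CRP := by
  intro ζ Ω g h l s hζ hh hh2 hl hg
  have hζd : Differentiable ℝ ζ := hζ.1.differentiable (by simp)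
  have hgd : Differentiable ℝ g := hg.1.1.differentiable (by simp)
  -- the two arguments
  have har : ContDiff ℝ ((⊤ : ℕ∞) : WithTop ℕ∞) (fun p : ℝ × ℝ => (p.1 * Real.exp (-s) - 1) / h) :=
    ((contDiff_fst.mul contDiff_const).sub contDiff_const).div_const h
  have haz : ContDiff ℝ ((⊤ : ℕ∞) : WithTop ℕ∞) (fun p : ℝ × ℝ => (p.2 - s) / l) :=
    (contDiff_snd.sub contDiff_const).div_const l
  have hdr : ∀ p : ℝ × ℝ, HasFDerivAt (fun p : ℝ × ℝ => (p.1 * Real.exp (-s) - 1) / h)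
      ((Real.exp (-s) / h) • ContinuousLinearMap.fst ℝ ℝ ℝ) p := by
    intro p
    have e : (fun p : ℝ × ℝ => (p.1 * Real.exp (-s) - 1) / h) =
        fun p : ℝ × ℝ => (Real.exp (-s) / h) * p.1 - 1 / h := by
      funext q
      ring
    rw [e]
    exact ((hasFDerivAt_fst (p := p)).const_mul (Real.exp (-s) / h)).sub_const _
  have hdz : ∀ p : ℝ × ℝ, HasFDerivAt (fun p : ℝ × ℝ => (p.2 - s) / l)
      ((1 / l) • ContinuousLinearMap.snd ℝ ℝ ℝ) p := by
    intro p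
    have e : (fun p : ℝ × ℝ => (p.2 - s) / l) =
        fun p : ℝ × ℝ => (1 / l) * p.2 - s / l := by
      funext q
      ring
    rw [e]
    exact ((hasFDerivAt_snd (p := p)).const_mul (1 / l)).sub_const _
  refine ⟨⟨CRP_pf ζ Ω _ g hζ har hg, ?_, ?_, ?_⟩, ⟨CRP_pf ζ Ω _ g hζ haz hg, ?_, ?_, ?_⟩⟩
  · intro p hp
    obtain ⟨h1, h2⟩ := CRP_supp ζ _ g har.continuous p hp
    refine ⟨h1, ?_⟩
    have h3 := hζ.2.1 h2
    have h4 : |(p.1 * Real.exp (-s) - 1) / h| < 1 := abs_lt.mpr ⟨h3.1, h3.2⟩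
    rw [abs_div, abs_of_pos hh, div_lt_one hh] at h4
    have h5 : p.1 - Real.exp s = (p.1 * Real.exp (-s) - 1) * Real.exp s := by
      have : Real.exp (-s) * Real.exp s = 1 := by
        rw [← Real.exp_add, neg_add_cancel, Real.exp_zero]
      rw [sub_mul, mul_assoc, this]
      ring
    rw [h5, abs_mul, abs_of_pos (Real.exp_pos s)]
    exact mul_le_mul_of_nonneg_right h4.le (Real.exp_pos s).le
  · intro p
    have := CRP_der ζ hζd _ g _ p ((1 : ℝ), (0 : ℝ)) (hdr p) (hgd p)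
    simp only [ContinuousLinearMap.smul_apply, ContinuousLinearMap.coe_fst', smul_eq_mul,
      mul_one] at this
    exact this
  · intro p
    have := CRP_der ζ hζd _ g _ p ((0 : ℝ), (1 : ℝ)) (hdr p) (hgd p)
    simp only [ContinuousLinearMap.smul_apply, ContinuousLinearMap.coe_fst', smul_eq_mul,
      mul_zero, zero_mul, add_zero] at this
    exact this
  · intro p hp
    obtain ⟨h1, h2⟩ := CRP_supp ζ _ g haz.continuous p hp
    refine ⟨h1, ?_⟩
    have h3 := hζ.2.1 h2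
    have h4 : |(p.2 - s) / l| < 1 := abs_lt.mpr ⟨h3.1, h3.2⟩
    rw [abs_div, abs_of_pos hl, div_lt_one hl] at h4
    exact h4.le
  · intro p
    have := CRP_der ζ hζd _ g _ p ((1 : ℝ), (0 : ℝ)) (hdz p) (hgd p)
    simp only [ContinuousLinearMap.smul_apply, ContinuousLinearMap.coe_snd', smul_eq_mul,
      mul_zero, zero_mul, add_zero] at this
    exact this
  · intro p
    have := CRP_der ζ hζd _ g _ p ((0 : ℝ), (1 : ℝ)) (hdz p) (hgd p)
    simp only [ContinuousLinearMap.smul_apply, ContinuousLinearMap.coe_snd', smul_eq_mul,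
      mul_one, mul_one_div] at this
    exact this

end Pool.Agent.Work.MP_d5b3be_an.BU
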