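import Pool.Agent.Work.MP_d5b3be_an.BU.Stmts

/-!
Block BU, item FUB: the localization identity.
-/

set_option autoImplicit false

namespace Pool.Agent.Work.MP_d5b3be_an.BU

open Pool.Agent.Work.MP_d5b3be_an.BN
open MeasureTheory Filter Set
open scoped ENNReal Topology ContDiff

/-- the integral over `y` for a fixed point -/
theorem FUB_pt (μ : Measure ℝ) (w u v Γ c : ℝ) (a b : ℝ → ℝ) (ha : Measurable a) (hb : Measurable b)
    (h1 : Integrable (fun y => a y ^ 2) μ) (h2 : Integrable (fun y => b y ^ 2) μ)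
    (h3 : ∫ y, a y ^ 2 ∂μ = c) (h4 : ∫ y, a y * b y ∂μ = 0) (h5 : ∫ y, b y ^ 2 ∂μ = Γ) :
    Integrable (fun y => w * (a y * u + b y * v) ^ 2) μ ∧
      ∫ y, w * (a y * u + b y * v) ^ 2 ∂μ = c * (w * u ^ 2) + w * (Γ * v ^ 2) := by
  have h6 : Integrable (fun y => a y * b y) μ := by
    refine (h1.add h2).mono' (ha.mul hb).aestronglyMeasurable (Eventually.of_forall fun y => ?_)
    rw [Real.norm_eq_abs, Pi.add_apply, abs_le]
    constructor
    · nlinarith [sq_nonneg (a y + b y), sq_nonneg (a y), sq_nonneg (b y)]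
    · nlinarith [sq_nonneg (a y - b y), sq_nonneg (a y), sq_nonneg (b y)]
  have e1 : (fun y => w * (a y * u + b y * v) ^ 2) =
      fun y => (w * u ^ 2) * a y ^ 2 + (2 * w * u * v) * (a y * b y) + (w * v ^ 2) * b y ^ 2 := by
    funext y
    ring
  have i1 := h1.const_mul (w * u ^ 2)
  have i2 := h6.const_mul (2 * w * u * v)
  have i3 := h2.const_mul (w * v ^ 2)
  have i12 : Integrable (fun y => (w * u ^ 2) * a y ^ 2 + (2 * w * u * v) * (a y * b y)) μ := i1.add i2
  rw [e1]
  refine ⟨i12.add i3, ?_⟩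
  rw [integral_add i12 i3, integral_add i1 i2, integral_const_mul, integral_const_mul,
    integral_const_mul, h3, h4, h5]
  ring

theorem prfFUB : FUB := by
  intro μ _ w u v Γ χ η c hw hu hv hΓ hχ hη hw0 hp i1 i2
  have hHp : MeasurableSet Hp := measurableSet_lt measurable_const measurable_fst
  have key : ∀ p ∈ Hp, Integrable (fun y => w p * (χ y p * u p + η y p * v p) ^ 2) μ ∧
      ∫ y, w p * (χ y p * u p + η y p * v p) ^ 2 ∂μ = c * (w p * u p ^ 2) + w p * (Γ p * v p ^ 2) := by
    intro p hpp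
    obtain ⟨j1, j2, j3, j4, j5⟩ := hp p hpp
    exact FUB_pt μ (w p) (u p) (v p) (Γ p) c (fun y => χ y p) (fun y => η y p) hχ.of_uncurry_right
      hη.of_uncurry_right j1 j2 j3 j4 j5
  have hm : Measurable (fun q : ℝ × (ℝ × ℝ) => w q.2 * (χ q.1 q.2 * u q.2 + η q.1 q.2 * v q.2) ^ 2) := by
    have m1 : Measurable (fun q : ℝ × (ℝ × ℝ) => χ q.1 q.2) := hχ
    have m2 : Measurable (fun q : ℝ × (ℝ × ℝ) => η q.1 q.2) := hη
    exact (hw.comp measurable_snd).mul
      (((m1.mul (hu.comp measurable_snd)).add (m2.mul (hv.comp measurable_snd))).pow_const 2)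
  have hI : Integrable (fun q : ℝ × (ℝ × ℝ) => w q.2 * (χ q.1 q.2 * u q.2 + η q.1 q.2 * v q.2) ^ 2)
      (μ.prod (volume.restrict Hp)) := by
    rw [integrable_prod_iff' hm.aestronglyMeasurable]
    constructor
    · rw [ae_restrict_iff' hHp]
      exact Eventually.of_forall fun p hpp => (key p hpp).1
    · refine ((i1.const_mul c).add i2).congr ?_
      rw [EventuallyEq, ae_restrict_iff' hHp]
      refine Eventually.of_forall fun p hpp => ?_
      rw [Pi.add_apply, ← (key p hpp).2]
      apply integral_congr_ae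
      refine Eventually.of_forall fun y => ?_
      change _ = ‖w p * (χ y p * u p + η y p * v p) ^ 2‖
      rw [Real.norm_eq_abs, abs_of_nonneg (mul_nonneg (hw0 p hpp) (sq_nonneg _))]
  refine ⟨hI.integral_prod_left, ?_⟩
  have hsw := integral_integral_swap (μ := μ) (ν := volume.restrict Hp)
    (f := fun y p => w p * (χ y p * u p + η y p * v p) ^ 2) hI
  rw [hsw, ← integral_const_mul, ← integral_add (i1.const_mul c) i2]
  apply setIntegral_congr_fun hHp
  intro p hpp
  exact (key p hpp).2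

end Pool.Agent.Work.MP_d5b3be_an.BU
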