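import Pool.Agent.Work.MP_d5b3be_an.BU.Stmts

/-!
# KEY: the test function
-/

set_option autoImplicit false

namespace Pool.Agent.Work.MP_d5b3be_an.BU

open Pool.Agent.Work.MP_d5b3be_an.BN
open MeasureTheory Filter Set
open scoped ENNReal Topology ContDiff

theorem prfKEY (h1 : LOR) (h2 : LOZ) (h3 : CRP) (h4 : PSF) (h5 : PSJ) (h6 : BWI) (h7 : NUM)
    (h8 : BXV) (h9 : HOL) (h10 : BMP) : KEY := by
  obtain ⟨ζ, hζ, hI, -⟩ := h10 1 one_pos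
  obtain ⟨M1, hM1, hLR⟩ := h1 ζ hζ hI
  obtain ⟨M2, hM2, hLZ⟩ := h2 ζ hζ hI
  obtain ⟨M, hMd⟩ : ∃ M : ℝ, M = max M1 M2 := ⟨_, rfl⟩
  have hM1M : M1 ≤ M := by rw [hMd]; exact le_max_left _ _
  have hM2M : M2 ≤ M := by rw [hMd]; exact le_max_right _ _
  have hM : 0 < M := hM1.trans_le hM1M
  have hpi := Real.pi_pos
  obtain ⟨K, hKd⟩ : ∃ K : ℝ, K = 1 + 4096 * Real.pi ^ 2 * (12 + 5 * M) ^ 3 := ⟨_, rfl⟩
  have hE : 0 < 4096 * Real.pi ^ 2 * (12 + 5 * M) ^ 3 := by positivity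
  have hK1 : 1 ≤ K := by linarith
  have hK0 : 0 < K := by linarith
  have hK2 : 4096 * Real.pi ^ 2 * (12 + 5 * M) ^ 3 < K ^ 2 := by
    have : K * 1 ≤ K * K := mul_le_mul_of_nonneg_left hK1 hK0.le
    rw [pow_two]
    linarith
  have hτ0 : 0 < 1 / K ^ 2 := by positivity
  have hτ1 : 1 / K ^ 2 ≤ 1 := by
    rw [div_le_one (by positivity)]
    exact one_le_pow₀ hK1
  refine ⟨⌈2 * K⌉₊, 1 / K ^ 2, ?_, hτ0, hτ1, ?_⟩
  · exact Nat.one_le_ceil_iff.2 (by positivity)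
  intro Ω R lam m n g hRI hR hΩ hm hmn hn hg hW hA
  have h2Km : 2 * K ≤ m := Nat.ceil_le.1 hm
  have hmnR : (m : ℝ) < n := by exact_mod_cast hmn
  have h2Kn : 2 * K ≤ n := by linarith
  have hn0 : (0 : ℝ) < n := by linarith
  have hn1 : 1 ≤ n := by omega
  obtain ⟨h, hhd⟩ : ∃ h : ℝ, h = K / n := ⟨_, rfl⟩
  have hh0 : 0 < h := by rw [hhd]; positivity
  have hh1 : h ≤ 1 / 2 := by
    rw [hhd, div_le_div_iff₀ hn0 (by norm_num)]
    linarith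
  -- localization in `ρ`
  obtain ⟨s, hs1, hs2⟩ := hLR Ω g h ((m : ℝ) ^ 2) (lam + 1 / K ^ 2 * (m : ℝ) ^ 2 / R ^ 2) hh0 hh1
    hg hW hA
  obtain ⟨⟨hp1, hsup1, -, -⟩, -⟩ := h3 ζ Ω g h 1 s hζ hh0 hh1 one_pos hg
  obtain ⟨r, hrd⟩ : ∃ r : ℝ, r = Real.exp s := ⟨_, rfl⟩
  have hr0 : 0 < r := by rw [hrd]; exact Real.exp_pos s
  rw [← hrd] at hsup1
  obtain ⟨δ, hδd⟩ : ∃ δ : ℝ, δ = h * r := ⟨_, rfl⟩
  have hδ0 : 0 < δ := by rw [hδd]; positivity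
  have hδr : δ ≤ r / 2 := by
    rw [hδd]
    have := mul_le_mul_of_nonneg_right hh1 hr0.le
    linarith
  -- localization in `z`
  obtain ⟨z0, hz1, hz2⟩ := hLZ Ω (cr ζ h s g) δ ((m : ℝ) ^ 2 - M1 / h ^ 2)
    (lam + 1 / K ^ 2 * (m : ℝ) ^ 2 / R ^ 2) hδ0 hp1 hs1 hs2
  obtain ⟨-, ⟨hp2, hsup2, -, -⟩⟩ := h3 ζ Ω (cr ζ h s g) h δ z0 hζ hh0 hh1 hδ0 hp1
  obtain ⟨G, hG⟩ : ∃ G : ℝ × ℝ → ℝ, G = cz ζ δ z0 (cr ζ h s g) := ⟨_, rfl⟩
  rw [← hG] at hz1 hz2 hp2 hsup2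
  have hbox : ∀ p ∈ tsupport G, |p.1 - r| ≤ δ ∧ |p.2 - z0| ≤ δ := by
    intro p hp
    obtain ⟨ha, hb⟩ := hsup2 p hp
    refine ⟨?_, hb⟩
    rw [hδd]
    exact (hsup1 p ha).2
  obtain ⟨⟨hA0, hB0, hW0⟩, hzero, -, hlow⟩ := h6 Ω G hp2
  have hlow' : r ^ 2 * Wi G ≤ 4 * Bi G := by
    have e1 := hlow (r / 2) (by positivity) (by
      intro p hp _
      have e2 := (abs_le.1 (hbox p hp).1).1
      linarith)
    have e3 : (r / 2) ^ 2 * Wi G = r ^ 2 * Wi G / 4 := by ring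
    rw [e3] at e1
    linarith
  have hBpos : 0 < Bi G := by
    rcases lt_or_eq_of_le hB0 with e | e
    · exact e
    · exfalso
      have := (hzero (Or.inr e.symm)).2.2
      linarith
  -- the support is not empty
  have hne : ∃ p, p ∈ tsupport G := by
    by_contra hcon
    push Not at hcon
    have e1 : ∀ p, G p = 0 := by
      intro p
      by_contra hp
      exact hcon p (subset_tsupport G hp)
    have e2 : Bi G = 0 := by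
      unfold Bi
      simp [e1]
    linarith
  have hr2R : r ≤ 2 * R := by
    obtain ⟨p, hp⟩ := hne
    have e1 := (abs_le.1 (hbox p hp).1).1
    have hp0 : 0 < p.1 := by linarith
    have e2 := hΩ _ (hp2.1.2.2 p hp hp0)
    have e3 : (cyl p.1 0 p.2) 0 = p.1 := by simp [cyl]
    have e4 : (cyl p.1 0 p.2) 1 = 0 := by simp [cyl]
    rw [e3, e4] at e2
    have e5 : p.1 ≤ R := by
      refine (pow_le_pow_iff_left₀ hp0.le hR.le two_ne_zero).1 ?_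
      linarith
    linarith
  -- the test function
  have hδr' : δ < r := by linarith
  obtain ⟨hT, hout, -⟩ := h4 Ω n G r z0 δ hRI hn1 hp2 hδ0 hδr' hbox
  obtain ⟨hQ, hD⟩ := h5 Ω n G r z0 δ hRI hn1 hp2 hδ0 hδr' hbox
  obtain ⟨hSm, hSv⟩ := h8 r z0 δ δ hδ0 hδr' hδ0
  have hN : Q2 (pf n G) ^ 3 ≤ (8 * Real.pi * r * δ * δ) ^ 2 * N6 (pf n G) :=
    h9 (pf n G) (boxS r z0 δ δ) (8 * Real.pi * r * δ * δ) hT.1.1.continuous hT.1.2.1 hSm hout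
      (by positivity) hSv
  rw [hQ] at hN
  have hN0 : 0 < N6 (pf n G) := by
    by_contra hcon
    push Not at hcon
    have e1 : 0 < (Real.pi * Bi G) ^ 3 := by positivity
    have e2 : (8 * Real.pi * r * δ * δ) ^ 2 * N6 (pf n G) ≤ 0 :=
      mul_nonpos_of_nonneg_of_nonpos (by positivity) hcon
    linarith
  refine ⟨pf n G, hT, hN0, ?_⟩
  have hfin := h7 M K (1 / K ^ 2) lam r R (Ai G) (Bi G) (Wi G) (N6 (pf n G)) m n hM hK1 hK2 hτ0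
    le_rfl h2Kn hmn hn hr0 hR hr2R hB0 hW0 hN0 hlow' (by
      rw [← hhd, ← hδd]
      have e1 : M1 / h ^ 2 * Wi G ≤ M / h ^ 2 * Wi G :=
        mul_le_mul_of_nonneg_right (div_le_div_of_nonneg_right hM1M (by positivity)) hW0
      have e2 : M2 / δ ^ 2 * Bi G ≤ M / δ ^ 2 * Bi G :=
        mul_le_mul_of_nonneg_right (div_le_div_of_nonneg_right hM2M (by positivity)) hB0
      have e3 : Ai G + ((m : ℝ) ^ 2 - M / h ^ 2) * Wi G =
          Ai G + ((m : ℝ) ^ 2 - M1 / h ^ 2) * Wi G - (M / h ^ 2 * Wi G - M1 / h ^ 2 * Wi G) := by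
        ring
      have e4 : (lam + 1 / K ^ 2 * (m : ℝ) ^ 2 / R ^ 2 + M / δ ^ 2) * Bi G =
          (lam + 1 / K ^ 2 * (m : ℝ) ^ 2 / R ^ 2 + M2 / δ ^ 2) * Bi G +
            (M / δ ^ 2 * Bi G - M2 / δ ^ 2 * Bi G) := by ring
      rw [e3, e4]
      linarith) (by
      rw [← hhd, ← hδd]
      exact hN)
  unfold af
  rw [hD, hQ]
  exact hfin

end Pool.Agent.Work.MP_d5b3be_an.BU
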