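import Pool.Agent.Work.MP_d5b3be_an.BU.Stmts

/-! Item [d5b3be BU L1P]: the first eigenvalue is positive. -/

set_option autoImplicit false

namespace Pool.Agent.Work.MP_d5b3be_an.BU

open Pool.Agent.Work.MP_d5b3be_an.BN MeasureTheory Filter Set
open scoped ENNReal Topology ContDiff

theorem prfL1P (h1 : EG2) (h2 : NZT) : L1P := by
  intro Ω hO hne hb
  obtain ⟨C, hC⟩ := hb.exists_norm_le
  obtain ⟨M, hM⟩ : ∃ M : ℝ, M = max C 0 + 1 := ⟨_, rfl⟩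
  have hM0 : 0 < M := by
    rw [hM]
    have := le_max_right C 0
    linarith
  have hCM : C ≤ M := by
    rw [hM]
    have := le_max_left C 0
    linarith
  have hx : ∀ x ∈ Ω, ∀ i, -M ≤ x i ∧ x i ≤ M := by
    intro x hx i
    have h3 : |x i| ≤ M := by
      have h4 : ‖x i‖ ≤ ‖x‖ := norm_le_pi_norm x i
      rw [Real.norm_eq_abs] at h4
      exact (h4.trans (hC x hx)).trans hCM
    exact abs_le.1 h3
  have hcyl : ∀ x ∈ Ω, x 0 ^ 2 + x 1 ^ 2 ≤ (2 * M) ^ 2 ∧ -M ≤ x 2 ∧ x 2 ≤ M := by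
    intro x hxO
    have h3 := hx x hxO 0
    have h4 := hx x hxO 1
    have h5 : x 0 ^ 2 ≤ M ^ 2 := sq_le_sq' h3.1 h3.2
    have h6 : x 1 ^ 2 ≤ M ^ 2 := sq_le_sq' h4.1 h4.2
    refine ⟨?_, hx x hxO 2⟩
    nlinarith [sq_nonneg M]
  have hpos : 0 < (Real.pi / (2 * (2 * M))) ^ 2 + (Real.pi / (M - -M)) ^ 2 := by
    have h3 : 0 < Real.pi / (2 * (2 * M)) := div_pos Real.pi_pos (by linarith)
    have h4 : 0 ≤ (Real.pi / (M - -M)) ^ 2 := sq_nonneg _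
    have h5 : 0 < (Real.pi / (2 * (2 * M))) ^ 2 := pow_pos h3 2
    linarith
  refine lt_of_lt_of_le hpos ?_
  unfold lam1
  refine le_csInf ?_ ?_
  · obtain ⟨φ, hφ, hφ0⟩ := h2 Ω hO hne
    exact ⟨_, φ, hφ, hφ0, rfl⟩
  · rintro q ⟨φ, hφ, hφ0, rfl⟩
    rw [le_div_iff₀ hφ0]
    exact h1 Ω (2 * M) (-M) M φ (by linarith) (by linarith) hcyl hφ

end Pool.Agent.Work.MP_d5b3be_an.BU
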