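import Pool.Agent.Work.MP_d5b3be_an.BU.Stmts

/-!
Item LOR of block BU: localization in `ρ`.
-/

set_option autoImplicit false

namespace Pool.Agent.Work.MP_d5b3be_an.BU

open Pool.Agent.Work.MP_d5b3be_an.BN
open MeasureTheory Filter Set
open scoped ENNReal Topology ContDiff

theorem LOR_meas_Hp : MeasurableSet Hp := by
  have : Hp = (fun p : ℝ × ℝ => p.1) ⁻¹' (Ioi 0) := rfl
  rw [this]
  exact measurable_fst measurableSet_Ioi

theorem LOR_cont_e1 {g : ℝ × ℝ → ℝ} (hg : ContDiff ℝ ((⊤ : ℕ∞) : WithTop ℕ∞) g) :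
    Continuous (e1 g) := by
  have h1 : Continuous (fderiv ℝ g) := hg.continuous_fderiv (by simp)
  exact h1.clm_apply continuous_const

theorem LOR_cont_e2 {g : ℝ × ℝ → ℝ} (hg : ContDiff ℝ ((⊤ : ℕ∞) : WithTop ℕ∞) g) :
    Continuous (e2 g) := by
  have h1 : Continuous (fderiv ℝ g) := hg.continuous_fderiv (by simp)
  exact h1.clm_apply continuous_const

theorem prfLOR (h1 : FUB) (h2 : CH1) (h3 : CRP) (h4 : IN0) (h5 : BWI) : LOR := by
  intro ζ hζ hI
  obtain ⟨M0, hM0, hch⟩ := h2 ζ hζ hI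
  refine ⟨M0 + 1, by linarith, ?_⟩
  intro Ω g h k μ hh hh2 hg hW hle
  obtain ⟨c1, c2, hc1, hc2, hρ⟩ := hch h hh hh2
  have hgs := hg.1.1
  have hgc := hg.1.2.1
  obtain ⟨i1, i2, i3, i4'⟩ := h4 g hgs hgc
  have i4 := i4' hg.2
  have hcr : ∀ s : ℝ, Pf Ω (cr ζ h s g) ∧ (∀ p ∈ tsupport (cr ζ h s g), p ∈ tsupport g ∧
        |p.1 - Real.exp s| ≤ h * Real.exp s) ∧
      (∀ p, e1 (cr ζ h s g) p = ζ ((p.1 * Real.exp (-s) - 1) / h) * e1 g p +
        (deriv ζ ((p.1 * Real.exp (-s) - 1) / h) * (Real.exp (-s) / h)) * g p) ∧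
      ∀ p, e2 (cr ζ h s g) p = ζ ((p.1 * Real.exp (-s) - 1) / h) * e2 g p :=
    fun s => (h3 ζ Ω g h 1 s hζ hh hh2 one_pos hg).1
  have hζc : Continuous ζ := hζ.1.continuous
  have hζd : Continuous (deriv ζ) := hζ.1.continuous_deriv (by simp)
  have hmχ : Measurable (Function.uncurry (fun (s : ℝ) (p : ℝ × ℝ) =>
      ζ ((p.1 * Real.exp (-s) - 1) / h))) := by
    apply Continuous.measurable
    unfold Function.uncurry
    fun_prop
  have hmη : Measurable (Function.uncurry (fun (s : ℝ) (p : ℝ × ℝ) =>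
      deriv ζ ((p.1 * Real.exp (-s) - 1) / h) * (Real.exp (-s) / h))) := by
    apply Continuous.measurable
    unfold Function.uncurry
    fun_prop
  have hmf : Measurable (fun p : ℝ × ℝ => p.1) := measurable_fst
  have hmi : Measurable (fun p : ℝ × ℝ => 1 / p.1) := measurable_const.div measurable_fst
  have hmΓ : Measurable (fun p : ℝ × ℝ => c2 / p.1 ^ 2) :=
    measurable_const.div (measurable_fst.pow_const 2)
  have hm0 : Measurable (fun _ : ℝ × ℝ => (0 : ℝ)) := measurable_const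
  have hone : ∀ p ∈ Hp, Integrable (fun y : ℝ => ζ ((p.1 * Real.exp (-y) - 1) / h) ^ 2) volume ∧
      Integrable (fun y : ℝ => (deriv ζ ((p.1 * Real.exp (-y) - 1) / h) *
        (Real.exp (-y) / h)) ^ 2) volume ∧
      ∫ y : ℝ, ζ ((p.1 * Real.exp (-y) - 1) / h) ^ 2 = c1 ∧
      ∫ y : ℝ, ζ ((p.1 * Real.exp (-y) - 1) / h) *
        (deriv ζ ((p.1 * Real.exp (-y) - 1) / h) * (Real.exp (-y) / h)) = 0 ∧
      ∫ y : ℝ, (deriv ζ ((p.1 * Real.exp (-y) - 1) / h) * (Real.exp (-y) / h)) ^ 2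
        = c2 / p.1 ^ 2 := fun p hp => hρ p.1 hp
  have hz0 : IntegrableOn (fun p : ℝ × ℝ => p.1 * ((c2 / p.1 ^ 2) * (0 : ℝ) ^ 2)) Hp := by
    have : (fun p : ℝ × ℝ => p.1 * ((c2 / p.1 ^ 2) * (0 : ℝ) ^ 2)) = fun _ => 0 := by
      funext p; ring
    rw [this]
    exact integrableOn_zero
  have hz1 : IntegrableOn (fun p : ℝ × ℝ => 1 / p.1 * ((c2 / p.1 ^ 2) * (0 : ℝ) ^ 2)) Hp := by
    have : (fun p : ℝ × ℝ => 1 / p.1 * ((c2 / p.1 ^ 2) * (0 : ℝ) ^ 2)) = fun _ => 0 := by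
      funext p; ring
    rw [this]
    exact integrableOn_zero
  have hΓi : IntegrableOn (fun p : ℝ × ℝ => p.1 * ((c2 / p.1 ^ 2) * g p ^ 2)) Hp := by
    have i5 : IntegrableOn (fun p : ℝ × ℝ => c2 * (g p ^ 2 / p.1)) Hp := i4.const_mul c2
    refine i5.congr_fun ?_ LOR_meas_Hp
    intro p hp
    have hp' : (0 : ℝ) < p.1 := hp
    simp only
    field_simp
  have hΓe : ∫ p in Hp, p.1 * ((c2 / p.1 ^ 2) * g p ^ 2) = c2 * Wi g := by
    unfold Wi
    rw [← integral_const_mul]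
    refine setIntegral_congr_fun LOR_meas_Hp ?_
    intro p hp
    have hp' : (0 : ℝ) < p.1 := hp
    simp only
    field_simp
  obtain ⟨ja, ka⟩ := h1 volume (fun p => p.1) (e1 g) g (fun p => c2 / p.1 ^ 2)
    (fun s p => ζ ((p.1 * Real.exp (-s) - 1) / h))
    (fun s p => deriv ζ ((p.1 * Real.exp (-s) - 1) / h) * (Real.exp (-s) / h)) c1
    hmf (LOR_cont_e1 hgs).measurable hgs.continuous.measurable hmΓ hmχ hmη
    (fun p hp => le_of_lt hp) hone i2 hΓi
  obtain ⟨jb, kb⟩ := h1 volume (fun p => p.1) (e2 g) (fun _ => 0) (fun p => c2 / p.1 ^ 2)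
    (fun s p => ζ ((p.1 * Real.exp (-s) - 1) / h))
    (fun s p => deriv ζ ((p.1 * Real.exp (-s) - 1) / h) * (Real.exp (-s) / h)) c1
    hmf (LOR_cont_e2 hgs).measurable hm0 hmΓ hmχ hmη
    (fun p hp => le_of_lt hp) hone i3 hz0
  obtain ⟨jc, kc⟩ := h1 volume (fun p => p.1) g (fun _ => 0) (fun p => c2 / p.1 ^ 2)
    (fun s p => ζ ((p.1 * Real.exp (-s) - 1) / h))
    (fun s p => deriv ζ ((p.1 * Real.exp (-s) - 1) / h) * (Real.exp (-s) / h)) c1
    hmf hgs.continuous.measurable hm0 hmΓ hmχ hmη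
    (fun p hp => le_of_lt hp) hone i1 hz0
  have i4b : IntegrableOn (fun p : ℝ × ℝ => 1 / p.1 * g p ^ 2) Hp := by
    refine i4.congr_fun ?_ LOR_meas_Hp
    intro p hp
    simp only
    ring
  obtain ⟨jd, kd⟩ := h1 volume (fun p => 1 / p.1) g (fun _ => 0) (fun p => c2 / p.1 ^ 2)
    (fun s p => ζ ((p.1 * Real.exp (-s) - 1) / h))
    (fun s p => deriv ζ ((p.1 * Real.exp (-s) - 1) / h) * (Real.exp (-s) / h)) c1
    hmi hgs.continuous.measurable hm0 hmΓ hmχ hmη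
    (fun p hp => by
      have hp' : (0 : ℝ) < p.1 := hp
      positivity) hone i4b hz1
  -- the inner integrals
  have eA : ∀ s : ℝ, Ai (cr ζ h s g) =
      (∫ p in Hp, p.1 * (ζ ((p.1 * Real.exp (-s) - 1) / h) * e1 g p +
        deriv ζ ((p.1 * Real.exp (-s) - 1) / h) * (Real.exp (-s) / h) * g p) ^ 2) +
      ∫ p in Hp, p.1 * (ζ ((p.1 * Real.exp (-s) - 1) / h) * e2 g p +
        deriv ζ ((p.1 * Real.exp (-s) - 1) / h) * (Real.exp (-s) / h) * 0) ^ 2 := by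
    intro s
    obtain ⟨hP, _, hd1, hd2⟩ := hcr s
    obtain ⟨_, q2, q3, _⟩ := h4 (cr ζ h s g) hP.1.1 hP.1.2.1
    have e1' : (fun p : ℝ × ℝ => p.1 * (ζ ((p.1 * Real.exp (-s) - 1) / h) * e1 g p +
        deriv ζ ((p.1 * Real.exp (-s) - 1) / h) * (Real.exp (-s) / h) * g p) ^ 2) =
        fun p => p.1 * e1 (cr ζ h s g) p ^ 2 := by
      funext p
      rw [hd1 p]
    have e2' : (fun p : ℝ × ℝ => p.1 * (ζ ((p.1 * Real.exp (-s) - 1) / h) * e2 g p +
        deriv ζ ((p.1 * Real.exp (-s) - 1) / h) * (Real.exp (-s) / h) * 0) ^ 2) =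
        fun p => p.1 * e2 (cr ζ h s g) p ^ 2 := by
      funext p
      rw [hd2 p, mul_zero, add_zero]
    rw [e1', e2', ← integral_add q2 q3]
    unfold Ai
    congr 1
    funext p
    ring
  have eB : ∀ s : ℝ, Bi (cr ζ h s g) =
      ∫ p in Hp, p.1 * (ζ ((p.1 * Real.exp (-s) - 1) / h) * g p +
        deriv ζ ((p.1 * Real.exp (-s) - 1) / h) * (Real.exp (-s) / h) * 0) ^ 2 := by
    intro s
    unfold Bi cr
    congr 1
    funext p
    rw [mul_zero, add_zero]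
  have eW : ∀ s : ℝ, Wi (cr ζ h s g) =
      ∫ p in Hp, 1 / p.1 * (ζ ((p.1 * Real.exp (-s) - 1) / h) * g p +
        deriv ζ ((p.1 * Real.exp (-s) - 1) / h) * (Real.exp (-s) / h) * 0) ^ 2 := by
    intro s
    unfold Wi cr
    congr 1
    funext p
    rw [mul_zero, add_zero]
    ring
  have JA : Integrable (fun s : ℝ => Ai (cr ζ h s g)) volume := by
    have : (fun s : ℝ => Ai (cr ζ h s g)) = _ := funext eA
    rw [this]
    exact ja.add jb
  have JB : Integrable (fun s : ℝ => Bi (cr ζ h s g)) volume := by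
    have : (fun s : ℝ => Bi (cr ζ h s g)) = _ := funext eB
    rw [this]
    exact jc
  have JW : Integrable (fun s : ℝ => Wi (cr ζ h s g)) volume := by
    have : (fun s : ℝ => Wi (cr ζ h s g)) = _ := funext eW
    rw [this]
    exact jd
  have KA : ∫ s : ℝ, Ai (cr ζ h s g) = c1 * Ai g + c2 * Wi g := by
    have : (fun s : ℝ => Ai (cr ζ h s g)) = _ := funext eA
    rw [this, integral_add ja jb, ka, kb, hΓe]
    have e0 : ∫ p in Hp, p.1 * ((c2 / p.1 ^ 2) * (0 : ℝ) ^ 2) = 0 := by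
      have : (fun p : ℝ × ℝ => p.1 * ((c2 / p.1 ^ 2) * (0 : ℝ) ^ 2)) = fun _ => 0 := by
        funext p; ring
      rw [this, integral_zero]
    have eAg : Ai g = (∫ p in Hp, p.1 * e1 g p ^ 2) + ∫ p in Hp, p.1 * e2 g p ^ 2 := by
      rw [← integral_add i2 i3]
      unfold Ai
      congr 1
      funext p
      ring
    rw [e0, eAg]
    ring
  have KB : ∫ s : ℝ, Bi (cr ζ h s g) = c1 * Bi g := by
    have : (fun s : ℝ => Bi (cr ζ h s g)) = _ := funext eB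
    rw [this, kc]
    have e0 : ∫ p in Hp, p.1 * ((c2 / p.1 ^ 2) * (0 : ℝ) ^ 2) = 0 := by
      have : (fun p : ℝ × ℝ => p.1 * ((c2 / p.1 ^ 2) * (0 : ℝ) ^ 2)) = fun _ => 0 := by
        funext p; ring
      rw [this, integral_zero]
    rw [e0]
    unfold Bi
    ring
  have KW : ∫ s : ℝ, Wi (cr ζ h s g) = c1 * Wi g := by
    have : (fun s : ℝ => Wi (cr ζ h s g)) = _ := funext eW
    rw [this, kd]
    have e0 : ∫ p in Hp, 1 / p.1 * ((c2 / p.1 ^ 2) * (0 : ℝ) ^ 2) = 0 := by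
      have : (fun p : ℝ × ℝ => 1 / p.1 * ((c2 / p.1 ^ 2) * (0 : ℝ) ^ 2)) = fun _ => 0 := by
        funext p; ring
      rw [this, integral_zero]
    have eWg : ∫ p in Hp, 1 / p.1 * g p ^ 2 = Wi g := by
      unfold Wi
      congr 1
      funext p
      ring
    rw [e0, eWg]
    ring
  -- the integral of the combination is negative
  have hint : ∫ s : ℝ, (Ai (cr ζ h s g) + (k - (M0 + 1) / h ^ 2) * Wi (cr ζ h s g) -
      μ * Bi (cr ζ h s g)) < 0 := by
    have e : ∫ s : ℝ, (Ai (cr ζ h s g) + (k - (M0 + 1) / h ^ 2) * Wi (cr ζ h s g) -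
      μ * Bi (cr ζ h s g)) = c1 * (Ai g + k * Wi g - μ * Bi g) +
        (c2 - c1 * ((M0 + 1) / h ^ 2)) * Wi g := by
      have q1 : Integrable (fun s : ℝ => (k - (M0 + 1) / h ^ 2) * Wi (cr ζ h s g)) volume :=
        JW.const_mul _
      have q2 : Integrable (fun s : ℝ => μ * Bi (cr ζ h s g)) volume := JB.const_mul _
      have q3 : Integrable (fun s : ℝ => Ai (cr ζ h s g) +
        (k - (M0 + 1) / h ^ 2) * Wi (cr ζ h s g)) volume := JA.add q1
      rw [integral_sub q3 q2, integral_add JA q1, integral_const_mul, integral_const_mul,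
        KA, KB, KW]
      ring
    rw [e]
    have a1 : c1 * (Ai g + k * Wi g - μ * Bi g) ≤ 0 :=
      mul_nonpos_of_nonneg_of_nonpos hc1.le (by linarith)
    have a2 : c2 - c1 * ((M0 + 1) / h ^ 2) < 0 := by
      have b1 : (M0 + 1) / h ^ 2 = M0 / h ^ 2 + 1 / h ^ 2 := by rw [add_div]
      have b2 : 0 < 1 / h ^ 2 := by positivity
      have b3 : 0 < c1 * (1 / h ^ 2) := mul_pos hc1 b2
      rw [b1]
      nlinarith
    have a3 : (c2 - c1 * ((M0 + 1) / h ^ 2)) * Wi g < 0 := mul_neg_of_neg_of_pos a2 hW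
    linarith
  obtain ⟨s, hs⟩ : ∃ s : ℝ, Ai (cr ζ h s g) + (k - (M0 + 1) / h ^ 2) * Wi (cr ζ h s g) -
      μ * Bi (cr ζ h s g) < 0 := by
    by_contra hcon
    push Not at hcon
    have := integral_nonneg (μ := (volume : Measure ℝ)) (f := fun s : ℝ =>
      Ai (cr ζ h s g) + (k - (M0 + 1) / h ^ 2) * Wi (cr ζ h s g) - μ * Bi (cr ζ h s g)) hcon
    linarith
  refine ⟨s, ?_, by linarith⟩
  obtain ⟨⟨_, _, w0⟩, wz, _⟩ := h5 Ω (cr ζ h s g) (hcr s).1
  rcases lt_or_eq_of_le w0 with hw | hw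
  · exact hw
  · exfalso
    obtain ⟨z1, z2, z3⟩ := wz (Or.inl hw.symm)
    rw [z1, z2, z3] at hs
    simp at hs

end Pool.Agent.Work.MP_d5b3be_an.BU
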