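import Pool.Agent.Work.MP_d5b3be_an.BU.Stmts

/-! Item [d5b3be BU LOZ]: localization in `z`. -/

set_option autoImplicit false

namespace Pool.Agent.Work.MP_d5b3be_an.BU

open Pool.Agent.Work.MP_d5b3be_an.BN
open MeasureTheory Filter Set
open scoped ENNReal Topology ContDiff

theorem LOZ_cs {ζ : ℝ → ℝ} (h : Bmp ζ) : HasCompactSupport ζ := by
  refine HasCompactSupport.of_support_subset_isCompact (K := Icc (-1) 1) isCompact_Icc ?_
  exact (subset_tsupport ζ).trans (h.2.1.trans Ioo_subset_Icc_self)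

theorem LOZ_shift (f : ℝ → ℝ) (hf : Integrable f) (z l : ℝ) (hl : 0 < l) :
    Integrable (fun s : ℝ => f ((z - s) / l)) ∧ ∫ s : ℝ, f ((z - s) / l) = l * ∫ x, f x := by
  have h1 : Integrable (fun x : ℝ => f (x / l)) := hf.comp_div hl.ne'
  constructor
  · exact h1.comp_sub_left z
  · rw [integral_sub_left_eq_self (fun x => f (x / l)) volume z, Measure.integral_comp_div f l, abs_of_pos hl,
      smul_eq_mul]

theorem LOZ_mul {f g : ℝ → ℝ} (hf : Continuous f) (hg : Continuous g) (hs : HasCompactSupport f) :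
    Integrable (fun x => f x * g x) := by
  have h1 : Integrable (f * g) := (hf.mul hg).integrable_of_hasCompactSupport hs.mul_right
  exact h1

theorem LOZ_sq {f : ℝ → ℝ} (hf : Continuous f) (hs : HasCompactSupport f) : Integrable (fun x => f x ^ 2) := by
  have h1 := LOZ_mul hf hf hs
  have e : (fun x => f x ^ 2) = fun x => f x * f x := by
    funext x
    rw [sq]
  rw [e]
  exact h1

theorem LOZ_one {ζ : ℝ → ℝ} (h : Bmp ζ) (l : ℝ) (hl : 0 < l) (z : ℝ) :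
    Integrable (fun s : ℝ => ζ ((z - s) / l) ^ 2) ∧ Integrable (fun s : ℝ => (deriv ζ ((z - s) / l) / l) ^ 2) ∧
      ∫ s : ℝ, ζ ((z - s) / l) ^ 2 = l * ∫ x, ζ x ^ 2 ∧
      ∫ s : ℝ, ζ ((z - s) / l) * (deriv ζ ((z - s) / l) / l) = 0 ∧
      ∫ s : ℝ, (deriv ζ ((z - s) / l) / l) ^ 2 = (∫ x, deriv ζ x ^ 2) / l := by
  have hcs := LOZ_cs h
  have hc : Continuous ζ := h.1.continuous
  have hd : Differentiable ℝ ζ := h.1.differentiable (by simp)
  have hdc : Continuous (deriv ζ) := h.1.continuous_deriv (by simp)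
  have hdcs : HasCompactSupport (deriv ζ) := hcs.deriv
  have i1 : Integrable (fun x : ℝ => ζ x ^ 2) := LOZ_sq hc hcs
  have i2' : Integrable (fun x : ℝ => deriv ζ x ^ 2) := LOZ_sq hdc hdcs
  have e2' : (fun x : ℝ => (deriv ζ x / l) ^ 2) = fun x => deriv ζ x ^ 2 / l ^ 2 := by
    funext x
    rw [div_pow]
  have i2 : Integrable (fun x : ℝ => (deriv ζ x / l) ^ 2) := by
    rw [e2']
    exact i2'.div_const _
  have i3 : Integrable (fun x : ℝ => ζ x * (deriv ζ x / l)) :=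
    LOZ_mul (f := ζ) (g := fun x => deriv ζ x / l) hc (hdc.div_const l) hcs
  have h3 : ∫ x : ℝ, ζ x * (deriv ζ x / l) = 0 := by
    refine integral_eq_zero_of_hasDerivAt_of_integrable (f := fun x => ζ x ^ 2 / (2 * l)) ?_ i3 ?_
    · intro x
      have h4 := ((hd x).hasDerivAt.pow 2).div_const (2 * l)
      refine h4.congr_deriv ?_
      field_simp
      ring
    · exact i1.div_const _
  have s1 := LOZ_shift (fun x => ζ x ^ 2) i1 z l hl
  have s2 := LOZ_shift (fun x => (deriv ζ x / l) ^ 2) i2 z l hl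
  have s3 := LOZ_shift (fun x => ζ x * (deriv ζ x / l)) i3 z l hl
  refine ⟨s1.1, s2.1, s1.2, ?_, ?_⟩
  · have := s3.2
    rw [h3, mul_zero] at this
    exact this
  · refine s2.2.trans ?_
    have h5 : ∫ x : ℝ, (deriv ζ x / l) ^ 2 = (∫ x : ℝ, deriv ζ x ^ 2) / l ^ 2 := by
      rw [e2', integral_div]
    rw [h5]
    field_simp

theorem LOZ_key (h1 : FUB) {ζ : ℝ → ℝ} (h : Bmp ζ) (l : ℝ) (hl : 0 < l) (w u v : ℝ × ℝ → ℝ) (hw : Measurable w)
    (hu : Measurable u) (hv : Measurable v) (hw0 : ∀ p ∈ Hp, 0 ≤ w p) (iu : IntegrableOn (fun p => w p * u p ^ 2) Hp)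
    (iv : IntegrableOn (fun p => w p * v p ^ 2) Hp) :
    Integrable (fun s : ℝ => ∫ p in Hp, w p * (ζ ((p.2 - s) / l) * u p + deriv ζ ((p.2 - s) / l) / l * v p) ^ 2) ∧
    ∫ s : ℝ, (∫ p in Hp, w p * (ζ ((p.2 - s) / l) * u p + deriv ζ ((p.2 - s) / l) / l * v p) ^ 2) =
      l * (∫ x, ζ x ^ 2) * (∫ p in Hp, w p * u p ^ 2) + (∫ x, deriv ζ x ^ 2) / l * ∫ p in Hp, w p * v p ^ 2 := by
  have hc : Continuous ζ := h.1.continuous
  have hdc : Continuous (deriv ζ) := h.1.continuous_deriv (by simp)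
  have hF := h1 volume w u v (fun _ => (∫ x, deriv ζ x ^ 2) / l) (fun s p => ζ ((p.2 - s) / l))
    (fun s p => deriv ζ ((p.2 - s) / l) / l) (l * ∫ x, ζ x ^ 2) hw hu hv measurable_const
    (by
      have : Continuous (Function.uncurry fun (s : ℝ) (p : ℝ × ℝ) => ζ ((p.2 - s) / l)) :=
        hc.comp (by fun_prop)
      exact this.measurable)
    (by
      have : Continuous (Function.uncurry fun (s : ℝ) (p : ℝ × ℝ) => deriv ζ ((p.2 - s) / l) / l) :=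
        (hdc.comp (by fun_prop)).div_const l
      exact this.measurable)
    hw0 (fun p _ => LOZ_one h l hl p.2) iu
    (by
      have h2 := iv.const_mul ((∫ x, deriv ζ x ^ 2) / l)
      refine h2.congr (Eventually.of_forall fun p => ?_)
      show (∫ x, deriv ζ x ^ 2) / l * (w p * v p ^ 2) = w p * ((∫ x, deriv ζ x ^ 2) / l * v p ^ 2)
      ring)
  refine ⟨hF.1, hF.2.trans ?_⟩
  congr 1
  rw [← integral_const_mul]
  refine integral_congr_ae (Eventually.of_forall fun p => ?_)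
  show w p * ((∫ x, deriv ζ x ^ 2) / l * v p ^ 2) = (∫ x, deriv ζ x ^ 2) / l * (w p * v p ^ 2)
  ring

theorem LOZ_key0 (h1 : FUB) {ζ : ℝ → ℝ} (h : Bmp ζ) (l : ℝ) (hl : 0 < l) (w u : ℝ × ℝ → ℝ) (hw : Measurable w)
    (hu : Measurable u) (hw0 : ∀ p ∈ Hp, 0 ≤ w p) (iu : IntegrableOn (fun p => w p * u p ^ 2) Hp) :
    Integrable (fun s : ℝ => ∫ p in Hp, w p * (ζ ((p.2 - s) / l) * u p) ^ 2) ∧
    ∫ s : ℝ, (∫ p in Hp, w p * (ζ ((p.2 - s) / l) * u p) ^ 2) =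
      l * (∫ x, ζ x ^ 2) * (∫ p in Hp, w p * u p ^ 2) := by
  have hk := LOZ_key h1 h l hl w u (fun _ => 0) hw hu measurable_const hw0 iu (by
    have : (fun p : ℝ × ℝ => w p * (0 : ℝ) ^ 2) = fun _ => 0 := by
      funext p
      ring
    rw [this]
    exact integrableOn_zero)
  have e2 : ∀ p : ℝ × ℝ, w p * (0 : ℝ) ^ 2 = 0 := fun p => by ring
  simp only [e2, integral_zero, mul_zero, add_zero] at hk
  exact hk

theorem LOZ_ce1 {g : ℝ × ℝ → ℝ} (hg : ContDiff ℝ ((⊤ : ℕ∞) : WithTop ℕ∞) g) : Continuous (e1 g) := by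
  have h := hg.continuous_fderiv (by simp)
  exact h.clm_apply continuous_const

theorem LOZ_ce2 {g : ℝ × ℝ → ℝ} (hg : ContDiff ℝ ((⊤ : ℕ∞) : WithTop ℕ∞) g) : Continuous (e2 g) := by
  have h := hg.continuous_fderiv (by simp)
  exact h.clm_apply continuous_const

theorem LOZ_Ai (h3 : IN0) {g : ℝ × ℝ → ℝ} (hg : ContDiff ℝ ((⊤ : ℕ∞) : WithTop ℕ∞) g) (hc : HasCompactSupport g) :
    Ai g = (∫ p in Hp, p.1 * e1 g p ^ 2) + ∫ p in Hp, p.1 * e2 g p ^ 2 := by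
  have hin := h3 g hg hc
  unfold Ai
  simp only [mul_add]
  exact integral_add hin.2.1 hin.2.2.1

theorem LOZ_lin (A W B : ℝ → ℝ) (k c : ℝ) (hA : Integrable A) (hW : Integrable W) (hB : Integrable B) :
    Integrable (fun s => A s + k * W s - c * B s) ∧
      ∫ s, (A s + k * W s - c * B s) = (∫ s, A s) + k * (∫ s, W s) - c * ∫ s, B s := by
  have i1 : Integrable (fun s => k * W s) := hW.const_mul k
  have i2 : Integrable (fun s => c * B s) := hB.const_mul c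
  have i3 : Integrable (fun s => A s + k * W s) := hA.add i1
  refine ⟨i3.sub i2, ?_⟩
  rw [integral_sub i3 i2, integral_add hA i1, integral_const_mul, integral_const_mul]

theorem prfLOZ (h1 : FUB) (h2 : CRP) (h3 : IN0) (h4 : BWI) : LOZ := by
  intro ζ hζ hI
  have hJ : 0 ≤ ∫ x, deriv ζ x ^ 2 := integral_nonneg fun x => sq_nonneg _
  refine ⟨(∫ x, deriv ζ x ^ 2) / (∫ x, ζ x ^ 2) + 1, by positivity, ?_⟩
  intro Ω g l k μ hl hg hW hA
  obtain ⟨I, hIe⟩ : ∃ I, I = ∫ x, ζ x ^ 2 := ⟨_, rfl⟩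
  obtain ⟨J, hJe⟩ : ∃ J, J = ∫ x, deriv ζ x ^ 2 := ⟨_, rfl⟩
  have hcr : ∀ s : ℝ, Pf Ω (cz ζ l s g) ∧ (∀ p, e1 (cz ζ l s g) p = ζ ((p.2 - s) / l) * e1 g p) ∧
      ∀ p, e2 (cz ζ l s g) p = ζ ((p.2 - s) / l) * e2 g p + (deriv ζ ((p.2 - s) / l) / l) * g p := by
    intro s
    have h := (h2 ζ Ω g (1 / 2) l s hζ (by norm_num) le_rfl hl hg).2
    exact ⟨h.1, h.2.2.1, h.2.2.2⟩
  have hgc : ContDiff ℝ ((⊤ : ℕ∞) : WithTop ℕ∞) g := hg.1.1
  have hgs : HasCompactSupport g := hg.1.2.1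
  have hin := h3 g hgc hgs
  have hm1 : Measurable (fun p : ℝ × ℝ => p.1) := measurable_fst
  have hm2 : Measurable (fun p : ℝ × ℝ => (p.1)⁻¹) := measurable_fst.inv
  have hp1 : ∀ p ∈ Hp, 0 ≤ (fun p : ℝ × ℝ => p.1) p := fun p hp => le_of_lt hp
  have hp2 : ∀ p ∈ Hp, 0 ≤ (fun p : ℝ × ℝ => (p.1)⁻¹) p := fun p hp => inv_nonneg.2 (le_of_lt hp)
  have iW : IntegrableOn (fun p : ℝ × ℝ => (p.1)⁻¹ * g p ^ 2) Hp := by
    refine (hin.2.2.2 hg.2).congr (Eventually.of_forall fun p => ?_)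
    show g p ^ 2 / p.1 = (p.1)⁻¹ * g p ^ 2
    rw [div_eq_mul_inv, mul_comm]
  have kA1 := LOZ_key0 h1 hζ l hl (fun p => p.1) (e1 g) hm1 (LOZ_ce1 hgc).measurable hp1 hin.2.1
  have kA2 := LOZ_key h1 hζ l hl (fun p => p.1) (e2 g) g hm1 (LOZ_ce2 hgc).measurable hgc.continuous.measurable hp1
    hin.2.2.1 hin.1
  have kB := LOZ_key0 h1 hζ l hl (fun p => p.1) g hm1 hgc.continuous.measurable hp1 hin.1
  have kW := LOZ_key0 h1 hζ l hl (fun p => (p.1)⁻¹) g hm2 hgc.continuous.measurable hp2 iW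
  rw [← hIe] at kA1 kA2 kB kW hI
  rw [← hJe] at kA2 hJ
  rw [← hIe, ← hJe]
  have eA : ∀ s : ℝ, Ai (cz ζ l s g) = (∫ p in Hp, p.1 * (ζ ((p.2 - s) / l) * e1 g p) ^ 2) +
      ∫ p in Hp, p.1 * (ζ ((p.2 - s) / l) * e2 g p + deriv ζ ((p.2 - s) / l) / l * g p) ^ 2 := by
    intro s
    rw [LOZ_Ai h3 (hcr s).1.1.1 (hcr s).1.1.2.1]
    simp only [(hcr s).2.1, (hcr s).2.2]
  have eB : ∀ s : ℝ, Bi (cz ζ l s g) = ∫ p in Hp, p.1 * (ζ ((p.2 - s) / l) * g p) ^ 2 := fun s => rfl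
  have eW : ∀ s : ℝ, Wi (cz ζ l s g) = ∫ p in Hp, (p.1)⁻¹ * (ζ ((p.2 - s) / l) * g p) ^ 2 := by
    intro s
    unfold Wi
    refine integral_congr_ae (Eventually.of_forall fun p => ?_)
    show (ζ ((p.2 - s) / l) * g p) ^ 2 / p.1 = (p.1)⁻¹ * (ζ ((p.2 - s) / l) * g p) ^ 2
    rw [div_eq_mul_inv, mul_comm]
  have gW : Wi g = ∫ p in Hp, (p.1)⁻¹ * g p ^ 2 := by
    unfold Wi
    refine integral_congr_ae (Eventually.of_forall fun p => ?_)
    show g p ^ 2 / p.1 = (p.1)⁻¹ * g p ^ 2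
    rw [div_eq_mul_inv, mul_comm]
  have gA := LOZ_Ai h3 hgc hgs
  have gB : Bi g = ∫ p in Hp, p.1 * g p ^ 2 := rfl
  have jA : Integrable (fun s => Ai (cz ζ l s g)) ∧ ∫ s, Ai (cz ζ l s g) = l * I * Ai g + J / l * Bi g := by
    simp only [eA]
    refine ⟨kA1.1.add kA2.1, ?_⟩
    rw [integral_add kA1.1 kA2.1, kA1.2, kA2.2, gA, gB]
    ring
  have jB : Integrable (fun s => Bi (cz ζ l s g)) ∧ ∫ s, Bi (cz ζ l s g) = l * I * Bi g := by
    simp only [eB]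
    rw [gB]
    exact kB
  have jW : Integrable (fun s => Wi (cz ζ l s g)) ∧ ∫ s, Wi (cz ζ l s g) = l * I * Wi g := by
    simp only [eW]
    rw [gW]
    exact kW
  obtain ⟨⟨_, hB0, _⟩, hz, _⟩ := h4 Ω g hg
  have hBpos : 0 < Bi g := by
    rcases hB0.lt_or_eq with h | h
    · exact h
    · exact absurd (hz (Or.inr h.symm)).2.2 hW.ne'
  obtain ⟨M, hM⟩ : ∃ M, M = J / I + 1 := ⟨_, rfl⟩
  rw [← hM]
  have hlin := LOZ_lin (fun s => Ai (cz ζ l s g)) (fun s => Wi (cz ζ l s g)) (fun s => Bi (cz ζ l s g)) k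
    (μ + M / l ^ 2) jA.1 jW.1 jB.1
  rw [jA.2, jB.2, jW.2] at hlin
  have hval : ∫ s, (Ai (cz ζ l s g) + k * Wi (cz ζ l s g) - (μ + M / l ^ 2) * Bi (cz ζ l s g)) =
      l * I * (Ai g + k * Wi g - μ * Bi g) - I / l * Bi g := by
    rw [hlin.2, hM]
    field_simp
    ring
  have hneg : ∫ s, (Ai (cz ζ l s g) + k * Wi (cz ζ l s g) - (μ + M / l ^ 2) * Bi (cz ζ l s g)) < 0 := by
    rw [hval]
    have h5 : l * I * (Ai g + k * Wi g - μ * Bi g) ≤ 0 :=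
      mul_nonpos_of_nonneg_of_nonpos (by positivity) (by linarith)
    have h6 : 0 < I / l * Bi g := by positivity
    linarith
  obtain ⟨s, hs⟩ : ∃ s, Ai (cz ζ l s g) + k * Wi (cz ζ l s g) - (μ + M / l ^ 2) * Bi (cz ζ l s g) < 0 := by
    by_contra hcon
    push Not at hcon
    exact absurd (integral_nonneg hcon) (not_le.2 hneg)
  refine ⟨s, ?_, by linarith⟩
  obtain ⟨⟨_, _, hW0⟩, hz', _⟩ := h4 Ω (cz ζ l s g) (hcr s).1
  rcases hW0.lt_or_eq with h | h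
  · exact h
  · exfalso
    obtain ⟨z1, z2, z3⟩ := hz' (Or.inl h.symm)
    rw [z1, z2, z3] at hs
    simp at hs

end Pool.Agent.Work.MP_d5b3be_an.BU
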