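import Pool.Agent.Work.MP_d5b3be_an.BU.Stmts

/-! Block BU, item NUM: the numbers of the key lemma. -/

set_option autoImplicit false

namespace Pool.Agent.Work.MP_d5b3be_an.BU

open Pool.Agent.Work.MP_d5b3be_an.BN
open MeasureTheory Filter Set
open scoped ENNReal Topology ContDiff

/-- the linear estimate -/
theorem NUM_lin (M K τ lam r R A B W : ℝ) (m n : ℝ) (hM : 0 < M) (hK : 1 ≤ K)
    (hτ0 : 0 < τ) (hτ : τ ≤ 1 / K ^ 2) (hn : 0 < n) (hm0 : 0 ≤ m) (hmn : m ≤ n)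
    (hnm : n ≤ (1 + τ) * m) (hr : 0 < r) (hR : 0 < R) (hrR : r ≤ 2 * R) (hB : 0 ≤ B) (hW : 0 ≤ W)
    (hWB : r ^ 2 * W ≤ 4 * B)
    (hA : A + (m ^ 2 - M / (K / n) ^ 2) * W ≤
      (lam + τ * m ^ 2 / R ^ 2 + M / (K / n * r) ^ 2) * B) :
    A + n ^ 2 * W - lam * B ≤ ((12 + 5 * M) * n ^ 2 / (K ^ 2 * r ^ 2)) * B := by
  have hK0 : 0 < K := by linarith
  have hK2 : 0 < K ^ 2 := by positivity
  have hr2 : 0 < r ^ 2 := by positivity
  -- n² - m² ≤ 2 n² / K²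
  have e1 : n ^ 2 - m ^ 2 ≤ 2 * n ^ 2 / K ^ 2 := by
    have h1 : n - m ≤ τ * m := by linarith
    have h2 : n - m ≤ τ * n := h1.trans (mul_le_mul_of_nonneg_left hmn hτ0.le)
    have h3 : n ^ 2 - m ^ 2 ≤ τ * n * (2 * n) := by
      have h4 : n ^ 2 - m ^ 2 = (n - m) * (n + m) := by ring
      rw [h4]
      apply mul_le_mul h2 (by linarith) (by linarith) (by positivity)
    have h5 : τ * n * (2 * n) ≤ 1 / K ^ 2 * n * (2 * n) := by
      have : τ * n ≤ 1 / K ^ 2 * n := mul_le_mul_of_nonneg_right hτ hn.le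
      exact mul_le_mul_of_nonneg_right this (by positivity)
    calc n ^ 2 - m ^ 2 ≤ 1 / K ^ 2 * n * (2 * n) := h3.trans h5
      _ = 2 * n ^ 2 / K ^ 2 := by ring
  have e2 : M / (K / n) ^ 2 = M * n ^ 2 / K ^ 2 := by
    field_simp
  have e3 : M / (K / n * r) ^ 2 = M * n ^ 2 / (K ^ 2 * r ^ 2) := by
    field_simp
  -- the coefficient of W
  have e4 : (n ^ 2 - m ^ 2 + M / (K / n) ^ 2) * W ≤ ((8 + 4 * M) * n ^ 2 / (K ^ 2 * r ^ 2)) * B := by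
    have h1 : n ^ 2 - m ^ 2 + M / (K / n) ^ 2 ≤ (2 + M) * n ^ 2 / K ^ 2 := by
      rw [e2]
      calc n ^ 2 - m ^ 2 + M * n ^ 2 / K ^ 2 ≤ 2 * n ^ 2 / K ^ 2 + M * n ^ 2 / K ^ 2 := by linarith
        _ = (2 + M) * n ^ 2 / K ^ 2 := by ring
    have h2 : W ≤ 4 * B / r ^ 2 := by
      rw [le_div_iff₀ hr2]
      linarith
    calc (n ^ 2 - m ^ 2 + M / (K / n) ^ 2) * W ≤ (2 + M) * n ^ 2 / K ^ 2 * W :=
          mul_le_mul_of_nonneg_right h1 hW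
      _ ≤ (2 + M) * n ^ 2 / K ^ 2 * (4 * B / r ^ 2) :=
          mul_le_mul_of_nonneg_left h2 (by positivity)
      _ = ((8 + 4 * M) * n ^ 2 / (K ^ 2 * r ^ 2)) * B := by
          field_simp
          ring
  -- the coefficient of B
  have e5 : τ * m ^ 2 / R ^ 2 ≤ 4 * n ^ 2 / (K ^ 2 * r ^ 2) := by
    have h1 : τ * m ^ 2 ≤ 1 / K ^ 2 * n ^ 2 := by
      apply mul_le_mul hτ _ (by positivity) (by positivity)
      exact pow_le_pow_left₀ hm0 hmn 2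
    have h2 : r ^ 2 ≤ 4 * R ^ 2 := by nlinarith
    have h3 : 1 / R ^ 2 ≤ 4 / r ^ 2 := by
      rw [div_le_div_iff₀ (by positivity) hr2]
      linarith
    calc τ * m ^ 2 / R ^ 2 = (τ * m ^ 2) * (1 / R ^ 2) := by ring
      _ ≤ (1 / K ^ 2 * n ^ 2) * (4 / r ^ 2) := mul_le_mul h1 h3 (by positivity) (by positivity)
      _ = 4 * n ^ 2 / (K ^ 2 * r ^ 2) := by
          field_simp
  have e6 : (τ * m ^ 2 / R ^ 2 + M / (K / n * r) ^ 2) * B ≤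
      ((4 + M) * n ^ 2 / (K ^ 2 * r ^ 2)) * B := by
    apply mul_le_mul_of_nonneg_right _ hB
    rw [e3]
    calc τ * m ^ 2 / R ^ 2 + M * n ^ 2 / (K ^ 2 * r ^ 2) ≤
        4 * n ^ 2 / (K ^ 2 * r ^ 2) + M * n ^ 2 / (K ^ 2 * r ^ 2) := by linarith
      _ = (4 + M) * n ^ 2 / (K ^ 2 * r ^ 2) := by ring
  have e7 : A + n ^ 2 * W - lam * B ≤ (n ^ 2 - m ^ 2 + M / (K / n) ^ 2) * W +
      (τ * m ^ 2 / R ^ 2 + M / (K / n * r) ^ 2) * B := by nlinarith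
  calc A + n ^ 2 * W - lam * B ≤ ((8 + 4 * M) * n ^ 2 / (K ^ 2 * r ^ 2)) * B +
        ((4 + M) * n ^ 2 / (K ^ 2 * r ^ 2)) * B := by linarith
    _ = ((12 + 5 * M) * n ^ 2 / (K ^ 2 * r ^ 2)) * B := by ring

theorem prfNUM : NUM := by
  intro M K τ lam r R A B W N m n hM hK hKM hτ0 hτ hn2 hmn hnm hr hR hrR hB hW hN hWB hA hQ
  have hK0 : 0 < K := by linarith
  have hn : (0 : ℝ) < n := by linarith
  have hlin := NUM_lin M K τ lam r R A B W m n hM hK hτ0 hτ hn (Nat.cast_nonneg m)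
    (by exact_mod_cast hmn.le) hnm hr hR hrR hB hW hWB hA
  have hpi : 0 < Real.pi := Real.pi_pos
  set D : ℝ := (12 + 5 * M) * (n : ℝ) ^ 2 / (K ^ 2 * r ^ 2) with hD
  have hD0 : 0 ≤ D := by positivity
  have h1 : Real.pi * (A + (n : ℝ) ^ 2 * W) - lam * (Real.pi * B) ≤ D * (Real.pi * B) := by
    have := mul_le_mul_of_nonneg_left hlin hpi.le
    calc Real.pi * (A + (n : ℝ) ^ 2 * W) - lam * (Real.pi * B) =
        Real.pi * (A + (n : ℝ) ^ 2 * W - lam * B) := by ring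
      _ ≤ Real.pi * (D * B) := this
      _ = D * (Real.pi * B) := by ring
  have h2 : (Real.pi * (A + (n : ℝ) ^ 2 * W) - lam * (Real.pi * B)) ^ 3 ≤ (D * (Real.pi * B)) ^ 3 :=
    (Odd.strictMono_pow (by decide : Odd 3)).monotone h1
  have h3 : (D * (Real.pi * B)) ^ 3 ≤
      D ^ 3 * ((8 * Real.pi * r * (K / n * r) * (K / n * r)) ^ 2 * N) := by
    rw [mul_pow]
    exact mul_le_mul_of_nonneg_left hQ (by positivity)
  have h4 : 64 * (D ^ 3 * ((8 * Real.pi * r * (K / n * r) * (K / n * r)) ^ 2 * N)) =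
      (4096 * Real.pi ^ 2 * (12 + 5 * M) ^ 3) / K ^ 2 * ((n : ℝ) ^ 2 * N) := by
    rw [hD]
    field_simp
    ring
  have h5 : (4096 * Real.pi ^ 2 * (12 + 5 * M) ^ 3) / K ^ 2 < 1 := by
    rw [div_lt_one (by positivity)]
    exact hKM
  have h6 : (4096 * Real.pi ^ 2 * (12 + 5 * M) ^ 3) / K ^ 2 * ((n : ℝ) ^ 2 * N) <
      1 * ((n : ℝ) ^ 2 * N) := mul_lt_mul_of_pos_right h5 (by positivity)
  linarith

end Pool.Agent.Work.MP_d5b3be_an.BU
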