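import Pool.Agent.Work.MP_d5b3be_an.BU.Stmts

/-!
# Block BU, item PSF: profiles give test functions of the class
-/

set_option autoImplicit false

namespace Pool.Agent.Work.MP_d5b3be_an.BU

open Pool.Agent.Work.MP_d5b3be_an.BN
open MeasureTheory Filter Set
open scoped ENNReal Topology ContDiff

theorem PSF_s_cont : Continuous fun x : E3 => Real.sqrt (x 0 ^ 2 + x 1 ^ 2) := by
  fun_prop

/-- the meridian coordinates of a point -/
noncomputable def PSF_m (x : E3) : ℝ × ℝ := (Real.sqrt (x 0 ^ 2 + x 1 ^ 2), x 2)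

theorem PSF_m_cont : Continuous PSF_m := PSF_s_cont.prodMk (continuous_apply 2)

/-- the closed set which contains the support -/
def PSF_K (g : ℝ × ℝ → ℝ) : Set E3 := {x | PSF_m x ∈ tsupport g}

theorem PSF_K_closed (g : ℝ × ℝ → ℝ) : IsClosed (PSF_K g) :=
  (isClosed_tsupport g).preimage PSF_m_cont

theorem PSF_K_box {g : ℝ × ℝ → ℝ} {ρ0 z0 δ : ℝ}
    (h : ∀ p ∈ tsupport g, |p.1 - ρ0| ≤ δ ∧ |p.2 - z0| ≤ δ) : PSF_K g ⊆ boxS ρ0 z0 δ δ :=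
  fun x hx => h (PSF_m x) hx

theorem PSF_supp (n : ℕ) (g : ℝ × ℝ → ℝ) : tsupport (pf n g) ⊆ PSF_K g := by
  apply closure_minimal _ (PSF_K_closed g)
  intro x hx
  rw [Function.mem_support] at hx
  unfold pf at hx
  exact subset_closure (left_ne_zero_of_mul hx)

theorem PSF_zero (n : ℕ) (g : ℝ × ℝ → ℝ) {x : E3} (hx : x ∉ PSF_K g) : pf n g x = 0 := by
  by_contra h
  exact hx (PSF_supp n g (subset_closure h))

theorem PSF_box_closed (ρ0 z0 δ η : ℝ) : IsClosed (boxS ρ0 z0 δ η) := by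
  have h1 : Continuous fun x : E3 => |Real.sqrt (x 0 ^ 2 + x 1 ^ 2) - ρ0| :=
    (PSF_s_cont.sub continuous_const).abs
  have h2 : Continuous fun x : E3 => |x 2 - z0| :=
    ((continuous_apply 2).sub continuous_const).abs
  exact (isClosed_le h1 continuous_const).inter (isClosed_le h2 continuous_const)

theorem PSF_box_compact (ρ0 z0 δ η : ℝ) : IsCompact (boxS ρ0 z0 δ η) := by
  apply Metric.isCompact_of_isClosed_isBounded (PSF_box_closed ρ0 z0 δ η)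
  rw [Metric.isBounded_iff_subset_closedBall 0]
  refine ⟨|ρ0| + |δ| + |z0| + |η|, ?_⟩
  rintro x ⟨h1, h2⟩
  rw [mem_closedBall_zero_iff, pi_norm_le_iff_of_nonneg (by positivity)]
  have h3 : Real.sqrt (x 0 ^ 2 + x 1 ^ 2) ≤ |ρ0| + |δ| := by
    have := le_abs_self ρ0
    have := le_abs_self δ
    have := (abs_le.1 h1).2
    linarith
  have h4 : |x 2| ≤ |z0| + |η| := by
    have h5 : |x 2| ≤ |x 2 - z0| + |z0| := by
      have := abs_add_le (x 2 - z0) z0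
      rwa [sub_add_cancel] at this
    have := le_abs_self η
    linarith
  have h6 : |x 0| ≤ Real.sqrt (x 0 ^ 2 + x 1 ^ 2) := by
    apply Real.abs_le_sqrt
    nlinarith [sq_nonneg (x 1)]
  have h7 : |x 1| ≤ Real.sqrt (x 0 ^ 2 + x 1 ^ 2) := by
    apply Real.abs_le_sqrt
    nlinarith [sq_nonneg (x 0)]
  have h8 := abs_nonneg ρ0
  have h9 := abs_nonneg δ
  have h10 := abs_nonneg z0
  have h11 := abs_nonneg η
  intro i
  rw [Real.norm_eq_abs]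
  fin_cases i
  · change |x 0| ≤ _
    linarith
  · change |x 1| ≤ _
    linarith
  · change |x 2| ≤ _
    linarith

theorem PSF_smoothAt {n : ℕ} {g : ℝ × ℝ → ℝ} (hg : ContDiff ℝ ((⊤ : ℕ∞) : WithTop ℕ∞) g) (x : E3)
    (hx : x 0 ^ 2 + x 1 ^ 2 ≠ 0) : ContDiffAt ℝ ((⊤ : ℕ∞) : WithTop ℕ∞) (pf n g) x := by
  have p0 : ContDiffAt ℝ ((⊤ : ℕ∞) : WithTop ℕ∞) (fun x : E3 => x 0) x :=
    (contDiff_apply ℝ ℝ (0 : Fin 3)).contDiffAt
  have p1 : ContDiffAt ℝ ((⊤ : ℕ∞) : WithTop ℕ∞) (fun x : E3 => x 1) x :=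
    (contDiff_apply ℝ ℝ (1 : Fin 3)).contDiffAt
  have p2 : ContDiffAt ℝ ((⊤ : ℕ∞) : WithTop ℕ∞) (fun x : E3 => x 2) x :=
    (contDiff_apply ℝ ℝ (2 : Fin 3)).contDiffAt
  have ps : ContDiffAt ℝ ((⊤ : ℕ∞) : WithTop ℕ∞)
      (fun x : E3 => Real.sqrt (x 0 ^ 2 + x 1 ^ 2)) x :=
    ((p0.pow 2).add (p1.pow 2)).sqrt hx
  have hs : Real.sqrt (x 0 ^ 2 + x 1 ^ 2) ^ n ≠ 0 := by
    apply pow_ne_zero
    rw [Real.sqrt_ne_zero']
    exact lt_of_le_of_ne (by positivity) (Ne.symm hx)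
  have hc : ∀ i : Fin 3, ContDiffAt ℝ ((⊤ : ℕ∞) : WithTop ℕ∞) (fun x : E3 => (x i : ℂ)) x :=
    fun i => (Complex.ofRealCLM.contDiff.comp (contDiff_apply ℝ ℝ i)).contDiffAt
  have hz : ContDiffAt ℝ ((⊤ : ℕ∞) : WithTop ℕ∞)
      (fun x : E3 => (((x 0 : ℂ) + (x 1 : ℂ) * Complex.I) ^ n).im) x := by
    have h1 : ContDiffAt ℝ ((⊤ : ℕ∞) : WithTop ℕ∞)
        (fun x : E3 => ((x 0 : ℂ) + (x 1 : ℂ) * Complex.I) ^ n) x :=
      ((hc 0).add ((hc 1).mul contDiffAt_const)).pow n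
    exact Complex.imCLM.contDiff.contDiffAt.comp x h1
  have q1 : ContDiffAt ℝ ((⊤ : ℕ∞) : WithTop ℕ∞)
      (fun x : E3 => g (Real.sqrt (x 0 ^ 2 + x 1 ^ 2), x 2)) x :=
    hg.contDiffAt.comp x (ps.prodMk p2)
  exact q1.mul (hz.div (ps.pow n) hs)

theorem PSF_smooth {n : ℕ} {g : ℝ × ℝ → ℝ} {ρ0 z0 δ : ℝ}
    (hg : ContDiff ℝ ((⊤ : ℕ∞) : WithTop ℕ∞) g) (hδρ : δ < ρ0)
    (h : ∀ p ∈ tsupport g, |p.1 - ρ0| ≤ δ ∧ |p.2 - z0| ≤ δ) :
    ContDiff ℝ ((⊤ : ℕ∞) : WithTop ℕ∞) (pf n g) := by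
  rw [contDiff_iff_contDiffAt]
  intro x
  by_cases hx : x 0 ^ 2 + x 1 ^ 2 = 0
  · have h1 : x ∉ PSF_K g := by
      intro h2
      have h3 := (PSF_K_box h h2).1
      rw [hx, Real.sqrt_zero] at h3
      have h4 := (abs_le.1 h3).1
      linarith
    have h5 : (PSF_K g)ᶜ ∈ 𝓝 x := (PSF_K_closed g).isOpen_compl.mem_nhds h1
    have h6 : pf n g =ᶠ[𝓝 x] fun _ => 0 := by
      filter_upwards [h5] with y hy
      exact PSF_zero n g hy
    exact (contDiffAt_const (c := (0 : ℝ))).congr_of_eventuallyEq h6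
  · exact PSF_smoothAt hg x hx

theorem PSF_sign {n : ℕ} (hn : 1 ≤ n) (g : ℝ × ℝ → ℝ) (x : E3) :
    pf n g (rot (Real.pi / n) x) = -pf n g x := by
  set t : ℝ := Real.pi / n with ht
  have hn0 : (n : ℝ) ≠ 0 := by positivity
  have h0 : rot t x 0 = Real.cos t * x 0 - Real.sin t * x 1 := by simp [rot]
  have h1 : rot t x 1 = Real.sin t * x 0 + Real.cos t * x 1 := by simp [rot]
  have h2 : rot t x 2 = x 2 := by simp [rot]
  have hs : rot t x 0 ^ 2 + rot t x 1 ^ 2 = x 0 ^ 2 + x 1 ^ 2 := by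
    rw [h0, h1]
    have := Real.sin_sq_add_cos_sq t
    calc (Real.cos t * x 0 - Real.sin t * x 1) ^ 2 + (Real.sin t * x 0 + Real.cos t * x 1) ^ 2
        = (Real.sin t ^ 2 + Real.cos t ^ 2) * (x 0 ^ 2 + x 1 ^ 2) := by ring
      _ = x 0 ^ 2 + x 1 ^ 2 := by rw [this, one_mul]
  have hc : ((rot t x 0 : ℂ) + (rot t x 1 : ℂ) * Complex.I) =
      (Complex.cos t + Complex.sin t * Complex.I) * ((x 0 : ℂ) + (x 1 : ℂ) * Complex.I) := by
    rw [h0, h1]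
    push_cast
    have hI : Complex.I * Complex.I = -1 := Complex.I_mul_I
    linear_combination (-(Complex.sin t * x 1)) * hI
  have hp : ((rot t x 0 : ℂ) + (rot t x 1 : ℂ) * Complex.I) ^ n =
      -(((x 0 : ℂ) + (x 1 : ℂ) * Complex.I) ^ n) := by
    rw [hc, mul_pow, Complex.cos_add_sin_mul_I_pow]
    have h3 : (n : ℂ) * (t : ℂ) = (Real.pi : ℂ) := by
      have hnC : (n : ℂ) ≠ 0 := by exact_mod_cast hn0
      rw [ht]
      push_cast
      field_simp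
    rw [h3, Complex.cos_pi, Complex.sin_pi]
    ring
  unfold pf
  rw [hs, h2, hp, Complex.neg_im]
  ring

theorem PSF_formula (n : ℕ) (g : ℝ × ℝ → ℝ) (r t z : ℝ) (hr : 0 < r) :
    pf n g (cyl r t z) = g (r, z) * Real.sin (n * t) := by
  have h0 : cyl r t z 0 = r * Real.cos t := by simp [cyl]
  have h1 : cyl r t z 1 = r * Real.sin t := by simp [cyl]
  have h2 : cyl r t z 2 = z := by simp [cyl]
  have hs : Real.sqrt (cyl r t z 0 ^ 2 + cyl r t z 1 ^ 2) = r := by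
    have h3 : cyl r t z 0 ^ 2 + cyl r t z 1 ^ 2 = r ^ 2 := by
      rw [h0, h1]
      have := Real.sin_sq_add_cos_sq t
      calc (r * Real.cos t) ^ 2 + (r * Real.sin t) ^ 2
          = r ^ 2 * (Real.sin t ^ 2 + Real.cos t ^ 2) := by ring
        _ = r ^ 2 := by rw [this, mul_one]
    rw [h3, Real.sqrt_sq hr.le]
  have hc : ((cyl r t z 0 : ℂ) + (cyl r t z 1 : ℂ) * Complex.I) =
      (r : ℂ) * (Complex.cos t + Complex.sin t * Complex.I) := by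
    rw [h0, h1]
    push_cast
    ring
  have hp : (((cyl r t z 0 : ℂ) + (cyl r t z 1 : ℂ) * Complex.I) ^ n).im =
      r ^ n * Real.sin (n * t) := by
    rw [hc, mul_pow, Complex.cos_add_sin_mul_I_pow]
    have h4 : (r : ℂ) ^ n * (Complex.cos (n * t) + Complex.sin (n * t) * Complex.I) =
        ((r ^ n * Real.cos (n * t) : ℝ) : ℂ) + ((r ^ n * Real.sin (n * t) : ℝ) : ℂ) * Complex.I := by
      push_cast
      ring
    rw [h4]
    simp only [Complex.add_im, Complex.ofReal_im, Complex.mul_im, Complex.ofReal_re,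
      Complex.I_im, Complex.I_re]
    ring
  unfold pf
  rw [hs, h2, hp]
  have hr0 : r ^ n ≠ 0 := pow_ne_zero _ hr.ne'
  rw [mul_div_cancel_left₀ _ hr0]

/-- cylindrical coordinates of a point -/
theorem PSF_cyl (x : E3) : ∃ t : ℝ, x = cyl (Real.sqrt (x 0 ^ 2 + x 1 ^ 2)) t (x 2) := by
  set w : ℂ := ⟨x 0, x 1⟩ with hw
  have hn : ‖w‖ = Real.sqrt (x 0 ^ 2 + x 1 ^ 2) := by
    rw [Complex.norm_eq_sqrt_sq_add_sq]
  refine ⟨Complex.arg w, ?_⟩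
  rw [← hn]
  have h0 : ‖w‖ * Real.cos (Complex.arg w) = x 0 := Complex.norm_mul_cos_arg w
  have h1 : ‖w‖ * Real.sin (Complex.arg w) = x 1 := Complex.norm_mul_sin_arg w
  ext i
  fin_cases i
  · simpa [cyl] using h0.symm
  · simpa [cyl] using h1.symm
  · simp [cyl]

theorem PSF_K_sub (h1 : ROT) {Ω : Set E3} {g : ℝ × ℝ → ℝ} {ρ0 z0 δ : ℝ} (hR : RI Ω)
    (hP : Pf Ω g) (hδρ : δ < ρ0) (h : ∀ p ∈ tsupport g, |p.1 - ρ0| ≤ δ ∧ |p.2 - z0| ≤ δ) :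
    PSF_K g ⊆ Ω := by
  intro x hx
  have hr : 0 < Real.sqrt (x 0 ^ 2 + x 1 ^ 2) := by
    have h2 := (abs_le.1 (h (PSF_m x) hx).1).1
    have h3 : (PSF_m x).1 = Real.sqrt (x 0 ^ 2 + x 1 ^ 2) := rfl
    rw [h3] at h2
    linarith
  have h4 : cyl (Real.sqrt (x 0 ^ 2 + x 1 ^ 2)) 0 (x 2) ∈ Ω := hP.1.2.2 (PSF_m x) hx hr
  obtain ⟨t, ht⟩ := PSF_cyl x
  have h5 := hR t _ h4
  rw [h1.2.2.2.2.2.2.2.2 t, zero_add, ← ht] at h5
  exact h5

theorem prfPSF (h1 : ROT) : PSF := by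
  intro Ω n g ρ0 z0 δ hR hn hP hδ hδρ h
  have hout : ∀ x, x ∉ boxS ρ0 z0 δ δ → pf n g x = 0 :=
    fun x hx => PSF_zero n g fun h2 => hx (PSF_K_box h h2)
  refine ⟨⟨⟨PSF_smooth hP.1.1 hδρ h, ?_, ?_⟩, PSF_sign hn g⟩, hout,
    fun r t z hr => PSF_formula n g r t z hr⟩
  · exact HasCompactSupport.intro (PSF_box_compact ρ0 z0 δ δ) hout
  · exact (PSF_supp n g).trans (PSF_K_sub h1 hR hP hδρ h)

end Pool.Agent.Work.MP_d5b3be_an.BU
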