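import Pool.Agent.Work.MP_d5b3be_an.BU.Stmts

/-!
# Block BU, item PSJ: the integrals of the function `g(ρ, z) sin(n θ)`
-/

set_option autoImplicit false

namespace Pool.Agent.Work.MP_d5b3be_an.BU

open Pool.Agent.Work.MP_d5b3be_an.BN
open MeasureTheory Filter Set
open scoped ENNReal Topology ContDiff

theorem PSJ_sin (n : ℕ) (hn : 1 ≤ n) :
    ∫⁻ t in Ioo (-Real.pi) Real.pi, ENNReal.ofReal (Real.sin (n * t) ^ 2) =
      ENNReal.ofReal Real.pi := by
  have hn' : (n : ℝ) ≠ 0 := by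
    have : (0 : ℝ) < n := by exact_mod_cast hn
    exact this.ne'
  have e : ∫ t in (-Real.pi)..Real.pi, Real.sin (n * t) ^ 2 = Real.pi := by
    rw [intervalIntegral.integral_comp_mul_left (fun x => Real.sin x ^ 2) hn', integral_sin_sq]
    have h1 : Real.sin ((n : ℝ) * Real.pi) = 0 := Real.sin_nat_mul_pi n
    have h2 : Real.sin ((n : ℝ) * -Real.pi) = 0 := by
      rw [mul_neg, Real.sin_neg, h1, neg_zero]
    rw [h1, h2, smul_eq_mul]
    field_simp
    ring
  rw [restrict_Ioo_eq_restrict_Ioc]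
  have hc : Continuous (fun t : ℝ => Real.sin (n * t) ^ 2) := by fun_prop
  have hi : IntegrableOn _ (Ioc (-Real.pi) Real.pi) volume := hc.integrableOn_Ioc
  have e' : ∫ t in Ioc (-Real.pi) Real.pi, Real.sin (n * t) ^ 2 = Real.pi := by
    rw [← intervalIntegral.integral_of_le (by linarith [Real.pi_pos])]
    exact e
  rw [← ofReal_integral_eq_lintegral_ofReal hi (ae_of_all _ fun t => sq_nonneg _), e']

theorem PSJ_cos (n : ℕ) (hn : 1 ≤ n) :
    ∫⁻ t in Ioo (-Real.pi) Real.pi, ENNReal.ofReal (Real.cos (n * t) ^ 2) =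
      ENNReal.ofReal Real.pi := by
  have hn' : (n : ℝ) ≠ 0 := by
    have : (0 : ℝ) < n := by exact_mod_cast hn
    exact this.ne'
  have e : ∫ t in (-Real.pi)..Real.pi, Real.cos (n * t) ^ 2 = Real.pi := by
    rw [intervalIntegral.integral_comp_mul_left (fun x => Real.cos x ^ 2) hn', integral_cos_sq]
    have h1 : Real.sin ((n : ℝ) * Real.pi) = 0 := Real.sin_nat_mul_pi n
    have h2 : Real.sin ((n : ℝ) * -Real.pi) = 0 := by
      rw [mul_neg, Real.sin_neg, h1, neg_zero]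
    rw [h1, h2, smul_eq_mul]
    field_simp
    ring
  rw [restrict_Ioo_eq_restrict_Ioc]
  have hc : Continuous (fun t : ℝ => Real.cos (n * t) ^ 2) := by fun_prop
  have hi : IntegrableOn _ (Ioc (-Real.pi) Real.pi) volume := hc.integrableOn_Ioc
  have e' : ∫ t in Ioc (-Real.pi) Real.pi, Real.cos (n * t) ^ 2 = Real.pi := by
    rw [← intervalIntegral.integral_of_le (by linarith [Real.pi_pos])]
    exact e
  rw [← ofReal_integral_eq_lintegral_ofReal hi (ae_of_all _ fun t => sq_nonneg _), e']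

theorem PSJ_Hp (F : ℝ × ℝ → ℝ≥0∞) (hF : Measurable F) :
    ∫⁻ p in Hp, F p = ∫⁻ z : ℝ, ∫⁻ r in Ioi (0 : ℝ), F (r, z) := by
  have h : Hp = Ioi (0 : ℝ) ×ˢ (univ : Set ℝ) := by
    ext p
    simp [Hp]
  rw [h, Measure.volume_eq_prod, ← Measure.prod_restrict, Measure.restrict_univ]
  exact lintegral_prod_symm _ hF.aemeasurable

theorem PSJ_mHp : MeasurableSet Hp := measurableSet_lt measurable_const measurable_fst

theorem PSJ_term (F : ℝ × ℝ → ℝ≥0∞) (hF : Measurable F) (s : ℝ → ℝ≥0∞) (hs : Measurable s)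
    (c : ℝ≥0∞) (hc : ∫⁻ t in Ioo (-Real.pi) Real.pi, s t = c) :
    ∫⁻ z : ℝ, ∫⁻ t in Ioo (-Real.pi) Real.pi, ∫⁻ r in Ioi (0 : ℝ), F (r, z) * s t =
      c * ∫⁻ p in Hp, F p := by
  have e1 : ∀ z t : ℝ, ∫⁻ r in Ioi (0 : ℝ), F (r, z) * s t =
      (∫⁻ r in Ioi (0 : ℝ), F (r, z)) * s t := by
    intro z t
    exact lintegral_mul_const _ (hF.comp (measurable_id.prodMk measurable_const))
  simp_rw [e1]
  have e2 : ∀ z : ℝ, ∫⁻ t in Ioo (-Real.pi) Real.pi, (∫⁻ r in Ioi (0 : ℝ), F (r, z)) * s t =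
      c * ∫⁻ r in Ioi (0 : ℝ), F (r, z) := by
    intro z
    rw [lintegral_const_mul _ hs, hc, mul_comm]
  simp_rw [e2]
  have hm : Measurable (fun z : ℝ => ∫⁻ r in Ioi (0 : ℝ), F (r, z)) :=
    (hF.comp measurable_swap).lintegral_prod_right'
  rw [lintegral_const_mul _ hm, PSJ_Hp F hF]

theorem PSJ_add3 (F1 F2 : ℝ → ℝ → ℝ → ℝ≥0∞)
    (hm : Measurable (fun p : ℝ × ℝ × ℝ => F1 p.2.2 p.2.1 p.1)) :
    ∫⁻ z : ℝ, ∫⁻ t in Ioo (-Real.pi) Real.pi, ∫⁻ r in Ioi (0 : ℝ), (F1 r t z + F2 r t z) =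
      (∫⁻ z : ℝ, ∫⁻ t in Ioo (-Real.pi) Real.pi, ∫⁻ r in Ioi (0 : ℝ), F1 r t z) +
      ∫⁻ z : ℝ, ∫⁻ t in Ioo (-Real.pi) Real.pi, ∫⁻ r in Ioi (0 : ℝ), F2 r t z := by
  have a1 : ∀ z t : ℝ, ∫⁻ r in Ioi (0 : ℝ), (F1 r t z + F2 r t z) =
      (∫⁻ r in Ioi (0 : ℝ), F1 r t z) + ∫⁻ r in Ioi (0 : ℝ), F2 r t z := by
    intro z t
    apply lintegral_add_left
    exact hm.comp (measurable_const.prodMk (measurable_const.prodMk measurable_id))
  simp_rw [a1]
  have m1 : Measurable (fun p : ℝ × ℝ => ∫⁻ r in Ioi (0 : ℝ), F1 r p.2 p.1) := by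
    have hq : Measurable (fun q : (ℝ × ℝ) × ℝ => F1 q.2 q.1.2 q.1.1) :=
      hm.comp (measurable_fst.fst.prodMk (measurable_fst.snd.prodMk measurable_snd))
    exact hq.lintegral_prod_right'
  have a2 : ∀ z : ℝ, ∫⁻ t in Ioo (-Real.pi) Real.pi, ((∫⁻ r in Ioi (0 : ℝ), F1 r t z) +
      ∫⁻ r in Ioi (0 : ℝ), F2 r t z) =
      (∫⁻ t in Ioo (-Real.pi) Real.pi, ∫⁻ r in Ioi (0 : ℝ), F1 r t z) +
      ∫⁻ t in Ioo (-Real.pi) Real.pi, ∫⁻ r in Ioi (0 : ℝ), F2 r t z := by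
    intro z
    apply lintegral_add_left
    exact m1.comp (measurable_const.prodMk measurable_id)
  simp_rw [a2]
  apply lintegral_add_left
  exact m1.lintegral_prod_right'

theorem PSJ_de1 {g : ℝ × ℝ → ℝ} (hg : Differentiable ℝ g) (r z : ℝ) :
    HasDerivAt (fun s => g (s, z)) (e1 g (r, z)) r := by
  have h := (hg (r, z)).hasFDerivAt
  have h2 : HasDerivAt (fun s : ℝ => (s, z)) ((1 : ℝ), (0 : ℝ)) r :=
    (hasDerivAt_id r).prodMk (hasDerivAt_const r z)
  exact h.comp_hasDerivAt r h2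

theorem PSJ_de2 {g : ℝ × ℝ → ℝ} (hg : Differentiable ℝ g) (r z : ℝ) :
    HasDerivAt (fun s => g (r, s)) (e2 g (r, z)) z := by
  have h := (hg (r, z)).hasFDerivAt
  have h2 : HasDerivAt (fun s : ℝ => (r, s)) ((0 : ℝ), (1 : ℝ)) z :=
    (hasDerivAt_const z r).prodMk (hasDerivAt_id z)
  exact h.comp_hasDerivAt z h2

/-- The pointwise identity in cylindrical coordinates. -/
theorem PSJ_key (hD : CYD) {n : ℕ} {g : ℝ × ℝ → ℝ} {φ : E3 → ℝ}
    (hg : ContDiff ℝ ((⊤ : ℕ∞) : WithTop ℕ∞) g) (hsm : ContDiff ℝ ((⊤ : ℕ∞) : WithTop ℕ∞) φ)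
    (hform : ∀ r t z : ℝ, 0 < r → φ (cyl r t z) = g (r, z) * Real.sin (n * t)) (r t z : ℝ)
    (hr : 0 < r) : r * ∑ i, gr φ i (cyl r t z) ^ 2 =
      r * (e1 g (r, z) ^ 2 + e2 g (r, z) ^ 2) * Real.sin (n * t) ^ 2 +
        (n : ℝ) ^ 2 * (g (r, z) ^ 2 / r) * Real.cos (n * t) ^ 2 := by
  have gd : Differentiable ℝ g := hg.differentiable (by simp)
  obtain ⟨d1, d2, d3, -, -, -⟩ := hD φ hsm r t z
  have f1 : HasDerivAt (fun s => φ (cyl s t z)) (e1 g (r, z) * Real.sin (n * t)) r := by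
    have g3 := (PSJ_de1 gd r z).mul_const (Real.sin (n * t))
    have g4 : (fun s => φ (cyl s t z)) =ᶠ[𝓝 r] fun s => g (s, z) * Real.sin (n * t) := by
      filter_upwards [Ioi_mem_nhds hr] with s hs
      exact hform s t z hs
    exact g3.congr_of_eventuallyEq g4
  have f2 : HasDerivAt (fun s => φ (cyl r s z)) (g (r, z) * (n * Real.cos (n * t))) t := by
    have g1 : HasDerivAt (fun s : ℝ => (n : ℝ) * s) ((n : ℝ) * 1) t :=
      (hasDerivAt_id t).const_mul (n : ℝ)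
    have g2 := g1.sin
    have g3 := g2.const_mul (g (r, z))
    have g4 : (fun s => φ (cyl r s z)) = fun s => g (r, z) * Real.sin (n * s) := by
      funext s
      exact hform r s z hr
    rw [g4]
    refine g3.congr_deriv ?_
    ring
  have f3 : HasDerivAt (fun s => φ (cyl r t s)) (e2 g (r, z) * Real.sin (n * t)) z := by
    have g3 := (PSJ_de2 gd r z).mul_const (Real.sin (n * t))
    have g4 : (fun s => φ (cyl r t s)) = fun s => g (r, s) * Real.sin (n * t) := by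
      funext s
      exact hform r t s hr
    rw [g4]
    exact g3
  have q1 := d1.unique f1
  have q2 := d2.unique f2
  have q3 := d3.unique f3
  have hsum : ∑ i, gr φ i (cyl r t z) ^ 2 = pd 0 φ (cyl r t z) ^ 2 + pd 1 φ (cyl r t z) ^ 2 +
      pd 2 φ (cyl r t z) ^ 2 := by
    rw [Fin.sum_univ_three]
    rfl
  rw [hsum]
  have hrot : pd 0 φ (cyl r t z) ^ 2 + pd 1 φ (cyl r t z) ^ 2 =
      (Real.cos t * pd 0 φ (cyl r t z) + Real.sin t * pd 1 φ (cyl r t z)) ^ 2 +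
      (-Real.sin t * pd 0 φ (cyl r t z) + Real.cos t * pd 1 φ (cyl r t z)) ^ 2 := by
    have := Real.sin_sq_add_cos_sq t
    linear_combination (-(pd 0 φ (cyl r t z) ^ 2 + pd 1 φ (cyl r t z) ^ 2)) * this
  have q2' : -Real.sin t * pd 0 φ (cyl r t z) + Real.cos t * pd 1 φ (cyl r t z) =
      g (r, z) * (n * Real.cos (n * t)) / r := by
    rw [eq_div_iff hr.ne', ← q2]
    ring
  rw [hrot, q1, q2', q3]
  field_simp
  ring

theorem prfPSJ (h1 : PSF) (h2 : CYD) (h3 : CYI) (h4 : IN0) : PSJ := by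
  intro Ω n g ρ0 z0 δ hRI hn hPf hδ hρ hsupp
  obtain ⟨⟨⟨hsm, hcs, -⟩, -⟩, -, hform⟩ := h1 Ω n g ρ0 z0 δ hRI hn hPf hδ hρ hsupp
  set φ := pf n g with hφ
  obtain ⟨⟨hg, hgc, -⟩, hg0⟩ := hPf
  obtain ⟨i0, i1, i2, i3⟩ := h4 g hg hgc
  have i3 := i3 hg0
  have gc : Continuous g := hg.continuous
  have hfd : Continuous (fderiv ℝ g) := hg.continuous_fderiv (by simp)
  have gc1 : Continuous (e1 g) := hfd.clm_apply continuous_const
  have gc2 : Continuous (e2 g) := hfd.clm_apply continuous_const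
  have hpi := Real.pi_pos
  have hae : ∀ F : ℝ × ℝ → ℝ, (∀ p ∈ Hp, 0 ≤ F p) → 0 ≤ᵐ[volume.restrict Hp] F := by
    intro F hF
    filter_upwards [ae_restrict_mem PSJ_mHp] with p hp
    exact hF p hp
  have ms : Measurable (fun t : ℝ => ENNReal.ofReal (Real.sin (n * t) ^ 2)) := by
    apply ENNReal.measurable_ofReal.comp
    exact (by fun_prop : Continuous fun t : ℝ => Real.sin (n * t) ^ 2).measurable
  have mc : Measurable (fun t : ℝ => ENNReal.ofReal (Real.cos (n * t) ^ 2)) := by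
    apply ENNReal.measurable_ofReal.comp
    exact (by fun_prop : Continuous fun t : ℝ => Real.cos (n * t) ^ 2).measurable
  constructor
  · have hcont : Continuous (fun x => φ x ^ 2) := hsm.continuous.pow 2
    have mF : Measurable (fun p : ℝ × ℝ => ENNReal.ofReal (p.1 * g p ^ 2)) :=
      ENNReal.measurable_ofReal.comp (continuous_fst.mul (gc.pow 2)).measurable
    have hB : ENNReal.ofReal (Bi g) = ∫⁻ p in Hp, ENNReal.ofReal (p.1 * g p ^ 2) := by
      unfold Bi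
      exact ofReal_integral_eq_lintegral_ofReal i0
        (hae _ fun p hp => mul_nonneg (le_of_lt hp) (sq_nonneg _))
    have hB0 : 0 ≤ Bi g := by
      unfold Bi
      exact setIntegral_nonneg PSJ_mHp fun p hp => mul_nonneg (le_of_lt hp) (sq_nonneg _)
    unfold Q2
    rw [integral_eq_lintegral_of_nonneg_ae (ae_of_all _ fun x => sq_nonneg _)
      hcont.aestronglyMeasurable]
    rw [h3 (fun x => ENNReal.ofReal (φ x ^ 2)) (ENNReal.measurable_ofReal.comp hcont.measurable)]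
    have e : ∫⁻ z : ℝ, ∫⁻ t in Ioo (-Real.pi) Real.pi, ∫⁻ r in Ioi (0 : ℝ),
        ENNReal.ofReal r * ENNReal.ofReal (φ (cyl r t z) ^ 2) =
        ∫⁻ z : ℝ, ∫⁻ t in Ioo (-Real.pi) Real.pi, ∫⁻ r in Ioi (0 : ℝ),
        (fun p : ℝ × ℝ => ENNReal.ofReal (p.1 * g p ^ 2)) (r, z) *
          (fun t : ℝ => ENNReal.ofReal (Real.sin (n * t) ^ 2)) t := by
      refine lintegral_congr fun z => lintegral_congr fun t => ?_
      refine setLIntegral_congr_fun measurableSet_Ioi fun r hr => ?_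
      have hr' : 0 < r := hr
      show ENNReal.ofReal r * ENNReal.ofReal (φ (cyl r t z) ^ 2) =
        ENNReal.ofReal (r * g (r, z) ^ 2) * ENNReal.ofReal (Real.sin (n * t) ^ 2)
      rw [← ENNReal.ofReal_mul hr'.le, hform r t z hr',
        ← ENNReal.ofReal_mul (mul_nonneg hr'.le (sq_nonneg _))]
      congr 1
      ring
    rw [e, PSJ_term _ mF _ ms _ (PSJ_sin n hn), ← hB, ← ENNReal.ofReal_mul hpi.le,
      ENNReal.toReal_ofReal (mul_nonneg hpi.le hB0)]
  · have hpd : ∀ i, Continuous (pd i φ) := by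
      intro i
      unfold pd
      exact (hsm.continuous_fderiv (by simp)).clm_apply continuous_const
    have hcont : Continuous (fun x => ∑ i, gr φ i x ^ 2) := by
      apply continuous_finsetSum
      intro i _
      exact (hpd i).pow 2
    have mF1 : Measurable (fun p : ℝ × ℝ => ENNReal.ofReal (p.1 * (e1 g p ^ 2 + e2 g p ^ 2))) :=
      ENNReal.measurable_ofReal.comp
        (continuous_fst.mul ((gc1.pow 2).add (gc2.pow 2))).measurable
    have mF2 : Measurable (fun p : ℝ × ℝ => ENNReal.ofReal ((n : ℝ) ^ 2 * (g p ^ 2 / p.1))) := by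
      apply ENNReal.measurable_ofReal.comp
      exact ((gc.pow 2).measurable.div measurable_fst).const_mul _
    have hA : ENNReal.ofReal (Ai g) =
        ∫⁻ p in Hp, ENNReal.ofReal (p.1 * (e1 g p ^ 2 + e2 g p ^ 2)) := by
      unfold Ai
      refine ofReal_integral_eq_lintegral_ofReal ?_
        (hae _ fun p hp => mul_nonneg (le_of_lt hp) (by positivity))
      refine (i1.add i2).congr (ae_of_all _ fun p => ?_)
      show p.1 * e1 g p ^ 2 + p.1 * e2 g p ^ 2 = p.1 * (e1 g p ^ 2 + e2 g p ^ 2)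
      ring
    have hA0 : 0 ≤ Ai g := by
      unfold Ai
      exact setIntegral_nonneg PSJ_mHp fun p hp => mul_nonneg (le_of_lt hp) (by positivity)
    have hW : ENNReal.ofReal ((n : ℝ) ^ 2 * Wi g) =
        ∫⁻ p in Hp, ENNReal.ofReal ((n : ℝ) ^ 2 * (g p ^ 2 / p.1)) := by
      unfold Wi
      rw [← integral_const_mul]
      refine ofReal_integral_eq_lintegral_ofReal (i3.const_mul _)
        (hae _ fun p hp => mul_nonneg (sq_nonneg _) (div_nonneg (sq_nonneg _) (le_of_lt hp)))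
    have hW0 : 0 ≤ Wi g := by
      unfold Wi
      exact setIntegral_nonneg PSJ_mHp fun p hp => div_nonneg (sq_nonneg _) (le_of_lt hp)
    unfold DD
    rw [integral_eq_lintegral_of_nonneg_ae
      (ae_of_all _ fun x => Finset.sum_nonneg fun i _ => sq_nonneg _)
      hcont.aestronglyMeasurable]
    rw [h3 (fun x => ENNReal.ofReal (∑ i, gr φ i x ^ 2))
      (ENNReal.measurable_ofReal.comp hcont.measurable)]
    have e : ∫⁻ z : ℝ, ∫⁻ t in Ioo (-Real.pi) Real.pi, ∫⁻ r in Ioi (0 : ℝ),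
        ENNReal.ofReal r * ENNReal.ofReal (∑ i, gr φ i (cyl r t z) ^ 2) =
        ∫⁻ z : ℝ, ∫⁻ t in Ioo (-Real.pi) Real.pi, ∫⁻ r in Ioi (0 : ℝ),
        ((fun p : ℝ × ℝ => ENNReal.ofReal (p.1 * (e1 g p ^ 2 + e2 g p ^ 2))) (r, z) *
          (fun t : ℝ => ENNReal.ofReal (Real.sin (n * t) ^ 2)) t +
        (fun p : ℝ × ℝ => ENNReal.ofReal ((n : ℝ) ^ 2 * (g p ^ 2 / p.1))) (r, z) *
          (fun t : ℝ => ENNReal.ofReal (Real.cos (n * t) ^ 2)) t) := by
      refine lintegral_congr fun z => lintegral_congr fun t => ?_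
      refine setLIntegral_congr_fun measurableSet_Ioi fun r hr => ?_
      have hr' : 0 < r := hr
      show ENNReal.ofReal r * ENNReal.ofReal (∑ i, gr φ i (cyl r t z) ^ 2) =
        ENNReal.ofReal (r * (e1 g (r, z) ^ 2 + e2 g (r, z) ^ 2)) *
          ENNReal.ofReal (Real.sin (n * t) ^ 2) +
        ENNReal.ofReal ((n : ℝ) ^ 2 * (g (r, z) ^ 2 / r)) *
          ENNReal.ofReal (Real.cos (n * t) ^ 2)
      rw [← ENNReal.ofReal_mul hr'.le, PSJ_key h2 hg hsm hform r t z hr',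
        ← ENNReal.ofReal_mul (by positivity), ← ENNReal.ofReal_mul (by positivity),
        ← ENNReal.ofReal_add (by positivity) (by positivity)]
    rw [e, PSJ_add3
      (fun r t z => (fun p : ℝ × ℝ => ENNReal.ofReal (p.1 * (e1 g p ^ 2 + e2 g p ^ 2))) (r, z) *
          (fun t : ℝ => ENNReal.ofReal (Real.sin (n * t) ^ 2)) t)
      (fun r t z => (fun p : ℝ × ℝ => ENNReal.ofReal ((n : ℝ) ^ 2 * (g p ^ 2 / p.1))) (r, z) *
          (fun t : ℝ => ENNReal.ofReal (Real.cos (n * t) ^ 2)) t) ?_,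
      PSJ_term _ mF1 _ ms _ (PSJ_sin n hn), PSJ_term _ mF2 _ mc _ (PSJ_cos n hn), ← hA, ← hW,
      ← ENNReal.ofReal_mul hpi.le, ← ENNReal.ofReal_mul hpi.le,
      ← ENNReal.ofReal_add (by positivity) (by positivity), ENNReal.toReal_ofReal (by positivity)]
    · ring
    · exact (mF1.comp (measurable_snd.snd.prodMk measurable_fst)).mul
        (ms.comp measurable_snd.fst)

end Pool.Agent.Work.MP_d5b3be_an.BU
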