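import Pool.Agent.Work.MP_d5b3be_an.BU.Stmts
import Pool.Agent.Work.MP_d5b3be_an.BN.ANG

/-!
Block BU, item SLW: the lower bound of the class `n` by slices.
-/

set_option autoImplicit false

namespace Pool.Agent.Work.MP_d5b3be_an.BU

open Pool.Agent.Work.MP_d5b3be_an.BN
open MeasureTheory Filter Set
open scoped ENNReal Topology ContDiff

theorem SLW_cylc : Continuous (fun q : ℝ × (ℝ × ℝ) => cyl q.2.1 q.1 q.2.2) := by
  unfold cyl
  refine continuous_pi fun i => ?_
  fin_cases i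
  · simp
    fun_prop
  · simp
    fun_prop
  · simp
    fun_prop

theorem SLW_HpM : MeasurableSet Hp := measurableSet_lt measurable_const measurable_fst

theorem SLW_Hp : Hp = Ioi (0 : ℝ) ×ˢ (univ : Set ℝ) := by
  ext p
  simp [Hp]

theorem SLW_res : (volume : Measure (ℝ × ℝ)).restrict Hp =
    ((volume : Measure ℝ).restrict (Ioi 0)).prod (volume : Measure ℝ) := by
  rw [SLW_Hp, Measure.volume_eq_prod, ← Measure.prod_restrict, Measure.restrict_univ]

theorem SLW_tot (hCYI : CYI) (F : E3 → ℝ≥0∞) (hF : Measurable F) :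
    ∫⁻ x, F x = ∫⁻ p in Hp, ∫⁻ t in Ioo (-Real.pi) Real.pi,
      ENNReal.ofReal p.1 * F (cyl p.1 t p.2) := by
  have hm : Measurable fun q : (ℝ × ℝ) × ℝ => ENNReal.ofReal q.1.1 * F (cyl q.1.1 q.2 q.1.2) := by
    have h1 : Measurable fun q : (ℝ × ℝ) × ℝ => cyl q.1.1 q.2 q.1.2 :=
      SLW_cylc.measurable.comp (measurable_snd.prodMk measurable_fst)
    exact (measurable_fst.fst.ennreal_ofReal).mul (hF.comp h1)
  have hK : Measurable fun p : ℝ × ℝ => ∫⁻ t in Ioo (-Real.pi) Real.pi,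
      ENNReal.ofReal p.1 * F (cyl p.1 t p.2) := hm.lintegral_prod_right'
  rw [SLW_res, lintegral_prod_symm' _ hK, hCYI F hF]
  refine lintegral_congr fun z => ?_
  have hm2 : Measurable fun q : ℝ × ℝ => ENNReal.ofReal q.2 * F (cyl q.2 q.1 z) := by
    have h1 : Measurable fun q : ℝ × ℝ => cyl q.2 q.1 z := (ANG_cyl_cont z).measurable
    exact (measurable_snd.ennreal_ofReal).mul (hF.comp h1)
  exact lintegral_lintegral_swap hm2.aemeasurable

theorem SLW_DD {φ : E3 → ℝ} (hφ : ContDiff ℝ ((⊤ : ℕ∞) : WithTop ℕ∞) φ)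
    (hc : HasCompactSupport φ) :
    ENNReal.ofReal (DD (gr φ)) = ∫⁻ x, ENNReal.ofReal (∑ i, pd i φ x ^ 2) := by
  unfold DD gr
  rw [ofReal_integral_eq_lintegral_ofReal]
  · apply Continuous.integrable_of_hasCompactSupport
    · exact continuous_finsetSum _ fun i _ => (ANG_pd_cont i hφ).pow 2
    · have h1 : HasCompactSupport (fderiv ℝ φ) := hc.fderiv (𝕜 := ℝ)
      have h2 := h1.comp_left (g := fun L : E3 →L[ℝ] ℝ => ∑ i : Fin 3, (L (Pi.single i 1)) ^ 2)
        (by simp)
      exact h2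
  · exact Eventually.of_forall fun x => Finset.sum_nonneg fun i _ => sq_nonneg _

theorem prfSLW (h1 : CYI) (h2 : CYD) (h3 : WAP) (h4 : ROT) (h5 : SLC) (h6 : IN0) : SLW := by
  intro Ω n φ hRI hn hφN
  obtain ⟨⟨hφ, hφc, hφs⟩, hanti⟩ := hφN
  have hφT : Test Ω φ := ⟨hφ, hφc, hφs⟩
  have hpc : ∀ i, Continuous (pd i φ) := fun i => ANG_pd_cont i hφ
  have hφcont : Continuous φ := hφ.continuous
  set G : ℝ → ℝ × ℝ → ℝ := fun t p => p.1 * ((Real.cos t * pd 0 φ (cyl p.1 t p.2) +
    Real.sin t * pd 1 φ (cyl p.1 t p.2)) ^ 2 + pd 2 φ (cyl p.1 t p.2) ^ 2) +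
    (n : ℝ) ^ 2 * (φ (cyl p.1 t p.2) ^ 2 / p.1) with hG
  have hsl : ∀ t, ENNReal.ofReal (Ai (sl φ t) + (n : ℝ) ^ 2 * Wi (sl φ t)) =
      ∫⁻ p in Hp, ENNReal.ofReal (G t p) := by
    intro t
    obtain ⟨hP0, he1, he2, hPf⟩ := h5 Ω φ t hRI hφT
    have hP := hPf n hn ⟨hφT, hanti⟩
    obtain ⟨hI1, hI2, hI3, hI4⟩ := h6 (sl φ t) hP.1.1 hP.1.2.1
    have hI4' := hI4 hP.2
    have hA : IntegrableOn (fun p : ℝ × ℝ => p.1 * (e1 (sl φ t) p ^ 2 + e2 (sl φ t) p ^ 2)) Hp := by
      have := hI2.add hI3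
      refine this.congr (Eventually.of_forall fun p => ?_)
      simp only [Pi.add_apply]
      ring
    have hW : IntegrableOn (fun p : ℝ × ℝ => (n : ℝ) ^ 2 * (sl φ t p ^ 2 / p.1)) Hp :=
      hI4'.const_mul _
    have hsum : Ai (sl φ t) + (n : ℝ) ^ 2 * Wi (sl φ t) =
        ∫ p in Hp, (p.1 * (e1 (sl φ t) p ^ 2 + e2 (sl φ t) p ^ 2) +
          (n : ℝ) ^ 2 * (sl φ t p ^ 2 / p.1)) := by
      rw [integral_add hA hW, integral_const_mul]
      rfl
    have hAW : Integrable (fun p : ℝ × ℝ => p.1 * (e1 (sl φ t) p ^ 2 + e2 (sl φ t) p ^ 2) +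
        (n : ℝ) ^ 2 * (sl φ t p ^ 2 / p.1)) (volume.restrict Hp) := hA.add hW
    rw [hsum, ofReal_integral_eq_lintegral_ofReal hAW]
    · refine lintegral_congr fun p => ?_
      simp only [hG]
      rw [he1 p, he2 p]
      rfl
    · refine ae_restrict_of_forall_mem SLW_HpM fun p hp => ?_
      have hp0 : 0 < p.1 := hp
      simp only [Pi.zero_apply]
      positivity
  have hGm : Measurable (Function.uncurry fun (t : ℝ) (p : ℝ × ℝ) => ENNReal.ofReal (G t p)) := by
    have hcm : Measurable fun q : ℝ × (ℝ × ℝ) => cyl q.2.1 q.1 q.2.2 := SLW_cylc.measurable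
    have ha : ∀ i, Measurable fun q : ℝ × (ℝ × ℝ) => pd i φ (cyl q.2.1 q.1 q.2.2) := fun i =>
      (hpc i).measurable.comp hcm
    have hb : Measurable fun q : ℝ × (ℝ × ℝ) => φ (cyl q.2.1 q.1 q.2.2) :=
      hφcont.measurable.comp hcm
    have hcos : Measurable fun q : ℝ × (ℝ × ℝ) => Real.cos q.1 :=
      Real.measurable_cos.comp measurable_fst
    have hsin : Measurable fun q : ℝ × (ℝ × ℝ) => Real.sin q.1 :=
      Real.measurable_sin.comp measurable_fst
    have hr : Measurable fun q : ℝ × (ℝ × ℝ) => q.2.1 := measurable_snd.fst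
    have : Measurable fun q : ℝ × (ℝ × ℝ) => ENNReal.ofReal (q.2.1 * ((Real.cos q.1 *
        pd 0 φ (cyl q.2.1 q.1 q.2.2) + Real.sin q.1 * pd 1 φ (cyl q.2.1 q.1 q.2.2)) ^ 2 +
        pd 2 φ (cyl q.2.1 q.1 q.2.2) ^ 2) + (n : ℝ) ^ 2 * (φ (cyl q.2.1 q.1 q.2.2) ^ 2 / q.2.1)) := by
      refine Measurable.ennreal_ofReal ?_
      refine Measurable.add ?_ ?_
      · exact hr.mul (((((hcos.mul (ha 0)).add (hsin.mul (ha 1))).pow_const 2)).add
          ((ha 2).pow_const 2))
      · exact ((hb.pow_const 2).div hr).const_mul _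
    exact this
  calc ∫⁻ t in Ioo (-Real.pi) Real.pi,
        ENNReal.ofReal (Ai (sl φ t) + (n : ℝ) ^ 2 * Wi (sl φ t))
      = ∫⁻ t in Ioo (-Real.pi) Real.pi, ∫⁻ p in Hp, ENNReal.ofReal (G t p) :=
        lintegral_congr fun t => hsl t
    _ = ∫⁻ p in Hp, ∫⁻ t in Ioo (-Real.pi) Real.pi, ENNReal.ofReal (G t p) :=
        lintegral_lintegral_swap hGm.aemeasurable
    _ ≤ ∫⁻ p in Hp, ∫⁻ t in Ioo (-Real.pi) Real.pi, ENNReal.ofReal p.1 *
          ENNReal.ofReal (∑ i, pd i φ (cyl p.1 t p.2) ^ 2) := by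
        refine setLIntegral_mono' SLW_HpM fun p hp => ?_
        have hr0 : (0 : ℝ) < p.1 := hp
        have hrn : p.1 ≠ 0 := hr0.ne'
        have hfc : ContDiff ℝ ((⊤ : ℕ∞) : WithTop ℕ∞) (fun s => φ (cyl p.1 s p.2)) :=
          (h2 φ hφ p.1 0 p.2).2.2.2.2.1
        have hder : ∀ t, deriv (fun s => φ (cyl p.1 s p.2)) t =
            p.1 * (-Real.sin t * pd 0 φ (cyl p.1 t p.2) + Real.cos t * pd 1 φ (cyl p.1 t p.2)) :=
          fun t => ((h2 φ hφ p.1 t p.2).2.1).deriv
        have hap : ∀ t, φ (cyl p.1 (t + Real.pi / n) p.2) = -φ (cyl p.1 t p.2) := by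
          intro t
          rw [← h4.2.2.2.2.2.2.2.2 (Real.pi / n) p.1 t p.2]
          exact hanti _
        have hW := h3 (fun s => φ (cyl p.1 s p.2)) n hn (hfc.of_le (by simp)) hap
        have hcy : Continuous fun t : ℝ => cyl p.1 t p.2 :=
          (ANG_cyl_cont p.2).comp (continuous_id.prodMk continuous_const)
        have hc1 : Continuous fun t : ℝ => (n : ℝ) ^ 2 / p.1 * φ (cyl p.1 t p.2) ^ 2 :=
          continuous_const.mul ((hφcont.comp hcy).pow 2)
        have hc2 : Continuous fun t : ℝ => 1 / p.1 * deriv (fun s => φ (cyl p.1 s p.2)) t ^ 2 :=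
          continuous_const.mul ((hfc.continuous_deriv (by simp)).pow 2)
        have hone := ANG_one hc1 hc2 (fun t => by positivity) (fun t => by positivity) (by
          rw [intervalIntegral.integral_const_mul, intervalIntegral.integral_const_mul]
          have h3 : (n : ℝ) ^ 2 / p.1 * ∫ t in (-Real.pi)..Real.pi, φ (cyl p.1 t p.2) ^ 2 =
              1 / p.1 * ((n : ℝ) ^ 2 * ∫ t in (-Real.pi)..Real.pi, φ (cyl p.1 t p.2) ^ 2) := by ring
          rw [h3]
          exact mul_le_mul_of_nonneg_left hW (by positivity))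
        have hm3 : Measurable fun t : ℝ => ENNReal.ofReal (p.1 * ((Real.cos t *
            pd 0 φ (cyl p.1 t p.2) + Real.sin t * pd 1 φ (cyl p.1 t p.2)) ^ 2 +
            pd 2 φ (cyl p.1 t p.2) ^ 2)) := by
          refine Measurable.ennreal_ofReal ?_
          have ha : ∀ i, Measurable fun t : ℝ => pd i φ (cyl p.1 t p.2) := fun i =>
            (hpc i).measurable.comp hcy.measurable
          exact ((((Real.measurable_cos.mul (ha 0)).add (Real.measurable_sin.mul (ha 1))).pow_const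
            2).add ((ha 2).pow_const 2)).const_mul _
        calc ∫⁻ t in Ioo (-Real.pi) Real.pi, ENNReal.ofReal (G t p)
            = ∫⁻ t in Ioo (-Real.pi) Real.pi, (ENNReal.ofReal (p.1 * ((Real.cos t *
                pd 0 φ (cyl p.1 t p.2) + Real.sin t * pd 1 φ (cyl p.1 t p.2)) ^ 2 +
                pd 2 φ (cyl p.1 t p.2) ^ 2)) +
                ENNReal.ofReal ((n : ℝ) ^ 2 / p.1 * φ (cyl p.1 t p.2) ^ 2)) := by
              refine lintegral_congr fun t => ?_
              rw [← ENNReal.ofReal_add (by positivity) (by positivity)]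
              congr 1
              simp only [hG]
              ring
          _ = (∫⁻ t in Ioo (-Real.pi) Real.pi, ENNReal.ofReal (p.1 * ((Real.cos t *
                pd 0 φ (cyl p.1 t p.2) + Real.sin t * pd 1 φ (cyl p.1 t p.2)) ^ 2 +
                pd 2 φ (cyl p.1 t p.2) ^ 2))) +
                ∫⁻ t in Ioo (-Real.pi) Real.pi,
                  ENNReal.ofReal ((n : ℝ) ^ 2 / p.1 * φ (cyl p.1 t p.2) ^ 2) :=
              lintegral_add_left hm3 _
          _ ≤ (∫⁻ t in Ioo (-Real.pi) Real.pi, ENNReal.ofReal (p.1 * ((Real.cos t *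
                pd 0 φ (cyl p.1 t p.2) + Real.sin t * pd 1 φ (cyl p.1 t p.2)) ^ 2 +
                pd 2 φ (cyl p.1 t p.2) ^ 2))) +
                ∫⁻ t in Ioo (-Real.pi) Real.pi,
                  ENNReal.ofReal (1 / p.1 * deriv (fun s => φ (cyl p.1 s p.2)) t ^ 2) :=
              add_le_add le_rfl hone
          _ = ∫⁻ t in Ioo (-Real.pi) Real.pi, (ENNReal.ofReal (p.1 * ((Real.cos t *
                pd 0 φ (cyl p.1 t p.2) + Real.sin t * pd 1 φ (cyl p.1 t p.2)) ^ 2 +
                pd 2 φ (cyl p.1 t p.2) ^ 2)) +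
                ENNReal.ofReal (1 / p.1 * deriv (fun s => φ (cyl p.1 s p.2)) t ^ 2)) :=
              (lintegral_add_left hm3 _).symm
          _ = ∫⁻ t in Ioo (-Real.pi) Real.pi, ENNReal.ofReal p.1 *
                ENNReal.ofReal (∑ i, pd i φ (cyl p.1 t p.2) ^ 2) := by
              refine lintegral_congr fun t => ?_
              rw [← ENNReal.ofReal_add (by positivity) (by positivity),
                ← ENNReal.ofReal_mul hr0.le]
              congr 1
              rw [hder t, Fin.sum_univ_three]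
              set a := pd 0 φ (cyl p.1 t p.2)
              set b := pd 1 φ (cyl p.1 t p.2)
              set c := pd 2 φ (cyl p.1 t p.2)
              have h8 : 1 / p.1 * (p.1 * (-Real.sin t * a + Real.cos t * b)) ^ 2 =
                  p.1 * (-Real.sin t * a + Real.cos t * b) ^ 2 := by
                field_simp
              rw [h8]
              have h7 := Real.sin_sq_add_cos_sq t
              linear_combination (p.1 * (a ^ 2 + b ^ 2)) * h7
    _ = ∫⁻ x, ENNReal.ofReal (∑ i, pd i φ x ^ 2) := by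
        rw [SLW_tot h1 (fun x => ENNReal.ofReal (∑ i, pd i φ x ^ 2))
          (Finset.measurable_sum _ fun i _ => ((hpc i).measurable.pow_const 2)).ennreal_ofReal]
    _ = ENNReal.ofReal (DD (gr φ)) := (SLW_DD hφ hφc).symm

end Pool.Agent.Work.MP_d5b3be_an.BU
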