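import Pool.Agent.Work.MP_d5b3be_an.BU.Stmts
import Pool.Agent.Work.MP_d5b3be_an.BU.SLW

/-!
Item SLB of block BU: integrals by slices.
-/

set_option autoImplicit false

namespace Pool.Agent.Work.MP_d5b3be_an.BU

open Pool.Agent.Work.MP_d5b3be_an.BN
open MeasureTheory Filter Set
open scoped ENNReal Topology ContDiff

/-- Tonelli: cylindrical coordinates with the angle outside. -/
theorem SLB_tot (hCYI : CYI) (F : E3 → ℝ≥0∞) (hF : Measurable F) :
    ∫⁻ x, F x = ∫⁻ t in Ioo (-Real.pi) Real.pi, ∫⁻ p in Hp,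
      ENNReal.ofReal p.1 * F (cyl p.1 t p.2) := by
  rw [SLW_tot hCYI F hF]
  have hm : Measurable fun q : (ℝ × ℝ) × ℝ => ENNReal.ofReal q.1.1 * F (cyl q.1.1 q.2 q.1.2) := by
    have h1 : Measurable fun q : (ℝ × ℝ) × ℝ => cyl q.1.1 q.2 q.1.2 :=
      SLW_cylc.measurable.comp (measurable_snd.prodMk measurable_fst)
    exact (measurable_fst.fst.ennreal_ofReal).mul (hF.comp h1)
  exact lintegral_lintegral_swap hm.aemeasurable

theorem prfSLB (h1 : CYI) (h2 : SLC) (h3 : IN0) : SLB := by
  intro Ω φ hRI hT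
  obtain ⟨hφ, hφc, hφs⟩ := hT
  have hφT : Test Ω φ := ⟨hφ, hφc, hφs⟩
  have hpc : ∀ i, Continuous (pd i φ) := fun i => ANG_pd_cont i hφ
  have hφcont : Continuous φ := hφ.continuous
  constructor
  · have hm : Measurable fun x : E3 => ENNReal.ofReal (φ x ^ 2) :=
      (hφcont.measurable.pow_const 2).ennreal_ofReal
    have hQ : ENNReal.ofReal (Q2 φ) = ∫⁻ x, ENNReal.ofReal (φ x ^ 2) := by
      unfold Q2
      rw [ofReal_integral_eq_lintegral_ofReal]
      · apply Continuous.integrable_of_hasCompactSupport (hφcont.pow 2)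
        have h2 := hφc.comp_left (g := fun a : ℝ => a ^ 2) (by simp)
        exact h2
      · exact Eventually.of_forall fun x => sq_nonneg _
    rw [hQ, SLB_tot h1 _ hm]
    refine lintegral_congr fun t => ?_
    obtain ⟨hP0, -, -, -⟩ := h2 Ω φ t hRI hφT
    obtain ⟨hI1, -, -, -⟩ := h3 (sl φ t) hP0.1 hP0.2.1
    unfold Bi
    rw [ofReal_integral_eq_lintegral_ofReal hI1]
    · refine setLIntegral_congr_fun SLW_HpM fun p hp => ?_
      have hp0 : 0 < p.1 := hp
      rw [ENNReal.ofReal_mul hp0.le]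
      rfl
    · refine ae_restrict_of_forall_mem SLW_HpM fun p hp => ?_
      have hp0 : 0 < p.1 := hp
      simp only [Pi.zero_apply]
      positivity
  · have hm : Measurable fun x : E3 => ENNReal.ofReal (∑ i, pd i φ x ^ 2) :=
      (Finset.measurable_sum _ fun i _ => (hpc i).measurable.pow_const 2).ennreal_ofReal
    rw [SLW_DD hφ hφc, SLB_tot h1 _ hm]
    refine lintegral_mono fun t => ?_
    obtain ⟨hP0, he1, he2, -⟩ := h2 Ω φ t hRI hφT
    obtain ⟨-, hI2, hI3, -⟩ := h3 (sl φ t) hP0.1 hP0.2.1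
    have hA : IntegrableOn (fun p : ℝ × ℝ => p.1 * (e1 (sl φ t) p ^ 2 + e2 (sl φ t) p ^ 2)) Hp := by
      have := hI2.add hI3
      refine this.congr (Eventually.of_forall fun p => ?_)
      simp only [Pi.add_apply]
      ring
    unfold Ai
    rw [ofReal_integral_eq_lintegral_ofReal hA]
    · refine setLIntegral_mono' SLW_HpM fun p hp => ?_
      have hp0 : 0 < p.1 := hp
      rw [← ENNReal.ofReal_mul hp0.le]
      refine ENNReal.ofReal_le_ofReal ?_
      refine mul_le_mul_of_nonneg_left ?_ hp0.le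
      rw [he1 p, he2 p, Fin.sum_univ_three]
      set a := pd 0 φ (cyl p.1 t p.2)
      set b := pd 1 φ (cyl p.1 t p.2)
      have h7 := Real.sin_sq_add_cos_sq t
      have h9 : a ^ 2 + b ^ 2 - (Real.cos t * a + Real.sin t * b) ^ 2 =
          (-Real.sin t * a + Real.cos t * b) ^ 2 := by
        linear_combination (-(a ^ 2 + b ^ 2)) * h7
      nlinarith [sq_nonneg (-Real.sin t * a + Real.cos t * b)]
    · refine ae_restrict_of_forall_mem SLW_HpM fun p hp => ?_
      have hp0 : 0 < p.1 := hp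
      simp only [Pi.zero_apply]
      positivity

end Pool.Agent.Work.MP_d5b3be_an.BU
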