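import Pool.Agent.Work.MP_d5b3be_an.BU.Stmts

/-!
# Block BU, item SLC: slices
-/

set_option autoImplicit false

namespace Pool.Agent.Work.MP_d5b3be_an.BU

open Pool.Agent.Work.MP_d5b3be_an.BN
open MeasureTheory Filter Set
open scoped ENNReal Topology ContDiff

/-- the linear map `p ↦ cyl p.1 t p.2` -/
noncomputable def SLC_L (t : ℝ) : (ℝ × ℝ) →L[ℝ] E3 :=
  ContinuousLinearMap.pi (![Real.cos t • ContinuousLinearMap.fst ℝ ℝ ℝ,
    Real.sin t • ContinuousLinearMap.fst ℝ ℝ ℝ, ContinuousLinearMap.snd ℝ ℝ ℝ] :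
      Fin 3 → ((ℝ × ℝ) →L[ℝ] ℝ))

theorem SLC_L_apply (t : ℝ) (p : ℝ × ℝ) : SLC_L t p = cyl p.1 t p.2 := by
  funext i
  fin_cases i <;> simp [SLC_L, cyl, mul_comm]

theorem SLC_sl (φ : E3 → ℝ) (t : ℝ) : sl φ t = φ ∘ (SLC_L t) := by
  funext p
  simp only [sl, Function.comp_apply, SLC_L_apply]

theorem SLC_inj (t : ℝ) : Function.Injective (SLC_L t) := by
  intro p q h
  rw [SLC_L_apply, SLC_L_apply] at h
  have h0 : p.1 * Real.cos t = q.1 * Real.cos t := by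
    have := congrFun h 0
    simpa [cyl] using this
  have h1 : p.1 * Real.sin t = q.1 * Real.sin t := by
    have := congrFun h 1
    simpa [cyl] using this
  have h2 : p.2 = q.2 := by
    have := congrFun h 2
    simpa [cyl] using this
  have h3 : p.1 = q.1 := by
    have e := Real.sin_sq_add_cos_sq t
    have e1 : p.1 * (Real.sin t ^ 2 + Real.cos t ^ 2) = q.1 * (Real.sin t ^ 2 + Real.cos t ^ 2) := by
      linear_combination Real.cos t * h0 + Real.sin t * h1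
    rw [e, mul_one, mul_one] at e1
    exact e1
  exact Prod.ext h3 h2

theorem SLC_emb (t : ℝ) : Topology.IsClosedEmbedding (SLC_L t) := by
  have h : LinearMap.ker (SLC_L t).toLinearMap = ⊥ := LinearMap.ker_eq_bot.2 (SLC_inj t)
  exact LinearMap.isClosedEmbedding_of_injective h

theorem SLC_fd (φ : E3 → ℝ) (x v : E3) :
    fderiv ℝ φ x v = v 0 * pd 0 φ x + v 1 * pd 1 φ x + v 2 * pd 2 φ x := by
  have h : v = v 0 • (Pi.single 0 1 : E3) + v 1 • (Pi.single 1 1 : E3) +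
      v 2 • (Pi.single 2 1 : E3) := by
    funext i
    fin_cases i <;> simp
  unfold pd
  calc fderiv ℝ φ x v = fderiv ℝ φ x (v 0 • (Pi.single 0 1 : E3) + v 1 • (Pi.single 1 1 : E3) +
      v 2 • (Pi.single 2 1 : E3)) := by rw [← h]
    _ = _ := by simp only [map_add, map_smul, smul_eq_mul]

theorem SLC_fderiv {φ : E3 → ℝ} (hφ : ContDiff ℝ ((⊤ : ℕ∞) : WithTop ℕ∞) φ) (t : ℝ) (p v : ℝ × ℝ) :
    fderiv ℝ (sl φ t) p v = v.1 * (Real.cos t * pd 0 φ (cyl p.1 t p.2) +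
      Real.sin t * pd 1 φ (cyl p.1 t p.2)) + v.2 * pd 2 φ (cyl p.1 t p.2) := by
  have h1 : HasFDerivAt φ (fderiv ℝ φ (SLC_L t p)) (SLC_L t p) :=
    (hφ.differentiable (by simp) _).hasFDerivAt
  have h2 := h1.comp p (SLC_L t).hasFDerivAt
  rw [SLC_sl, h2.fderiv, ContinuousLinearMap.comp_apply, SLC_fd, SLC_L_apply, SLC_L_apply]
  simp only [cyl, Matrix.cons_val_zero, Matrix.cons_val_one, Matrix.cons_val]
  ring

theorem SLC_P0 (h1 : ROT) (Ω : Set E3) (φ : E3 → ℝ) (t : ℝ) (hΩ : RI Ω) (hφ : Test Ω φ) :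
    P0 Ω (sl φ t) := by
  obtain ⟨hs, hc, ht⟩ := hφ
  obtain ⟨-, -, -, -, -, -, -, -, hrot⟩ := h1
  refine ⟨?_, ?_, ?_⟩
  · rw [SLC_sl]
    exact hs.comp (SLC_L t).contDiff
  · rw [SLC_sl]
    exact hc.comp_isClosedEmbedding (SLC_emb t)
  · intro p hp _
    rw [SLC_sl] at hp
    have h2 : SLC_L t p ∈ tsupport φ := tsupport_comp_subset_preimage φ (SLC_L t).continuous hp
    rw [SLC_L_apply] at h2
    have h3 := hΩ (-t) _ (ht h2)
    rw [hrot, add_neg_cancel] at h3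
    exact h3

theorem prfSLC (h1 : ROT) : SLC := by
  intro Ω φ t hΩ hφ
  refine ⟨SLC_P0 h1 Ω φ t hΩ hφ, ?_, ?_, ?_⟩
  · intro p
    unfold e1
    rw [SLC_fderiv hφ.1]
    ring
  · intro p
    unfold e2
    rw [SLC_fderiv hφ.1]
    ring
  · intro n _ hn
    refine ⟨SLC_P0 h1 Ω φ t hΩ hn.1, ?_⟩
    intro z
    obtain ⟨-, -, -, -, -, -, -, -, hrot⟩ := h1
    have e0 : ∀ s : ℝ, cyl 0 s z = ![0, 0, z] := by
      intro s
      unfold cyl
      rw [zero_mul, zero_mul]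
    have h3 := hn.2 (cyl 0 t z)
    rw [hrot, e0, e0] at h3
    change φ (cyl 0 t z) = 0
    rw [e0]
    linarith

end Pool.Agent.Work.MP_d5b3be_an.BU
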