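import Pool.Agent.Work.MP_d5b3be_an.BU.Stmts

/-!
# Block BU, item SLL: the lower bound of the class `n`
-/

set_option autoImplicit false

namespace Pool.Agent.Work.MP_d5b3be_an.BU

open Pool.Agent.Work.MP_d5b3be_an.BN
open MeasureTheory Filter Set
open scoped ENNReal Topology ContDiff

theorem prfSLL (h1 : SLC) (h2 : SLB) (h3 : SLW) : SLL := by
  intro Ω n V hRI hn hV φ hφ
  have hD0 : 0 ≤ DD (gr φ) := by
    unfold DD
    exact integral_nonneg fun x => Finset.sum_nonneg fun i _ => sq_nonneg _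
  have hQ0 : 0 ≤ Q2 φ := by
    unfold Q2
    exact integral_nonneg fun x => sq_nonneg _
  rcases le_or_gt V 0 with hV0 | hV0
  · nlinarith [mul_nonneg (neg_nonneg.mpr hV0) hQ0]
  · have hkey : ENNReal.ofReal (V * Q2 φ) ≤ ENNReal.ofReal (DD (gr φ)) := by
      calc ENNReal.ofReal (V * Q2 φ) = ENNReal.ofReal V * ENNReal.ofReal (Q2 φ) :=
            ENNReal.ofReal_mul hV0.le
        _ = ENNReal.ofReal V *
            ∫⁻ t in Ioo (-Real.pi) Real.pi, ENNReal.ofReal (Bi (sl φ t)) := by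
            rw [(h2 Ω φ hRI hφ.1).1]
        _ = ∫⁻ t in Ioo (-Real.pi) Real.pi,
              ENNReal.ofReal V * ENNReal.ofReal (Bi (sl φ t)) := by
            rw [lintegral_const_mul' _ _ ENNReal.ofReal_ne_top]
        _ ≤ ∫⁻ t in Ioo (-Real.pi) Real.pi,
              ENNReal.ofReal (Ai (sl φ t) + (n : ℝ) ^ 2 * Wi (sl φ t)) := by
            refine lintegral_mono fun t => ?_
            rw [← ENNReal.ofReal_mul hV0.le]
            exact ENNReal.ofReal_le_ofReal
              (hV (sl φ t) ((h1 Ω φ t hRI hφ.1).2.2.2 n hn hφ))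
        _ ≤ ENNReal.ofReal (DD (gr φ)) := h3 Ω n φ hRI hn hφ
    exact (ENNReal.ofReal_le_ofReal_iff hD0).mp hkey

end Pool.Agent.Work.MP_d5b3be_an.BU
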