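import Pool.Agent.Work.MP_d5b3be_an.BU.Stmts

/-!
# Block BU, item UNF: the numbers `Un Ω n`
-/

set_option autoImplicit false

namespace Pool.Agent.Work.MP_d5b3be_an.BU

open Pool.Agent.Work.MP_d5b3be_an.BN
open MeasureTheory Filter Set
open scoped ENNReal Topology ContDiff

/-- the profile obtained from a test function -/
theorem UNF_profile (h2 : SLP) (h5 : SLC) {C : ℝ}
    (hC : ∀ (Ω : Set E3) (f : ℝ × ℝ → ℝ) (μ : ℝ), P0 Ω f → 0 < μ → 0 < Bi f →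
      Ai f ≤ μ * Bi f → ∃ g, Pf Ω g ∧ 0 < Bi g ∧ Ai g ≤ C * μ * Bi g ∧ Wi g ≤ C * μ * Bi g)
    {Ω : Set E3} (hRI : RI Ω) {φ : E3 → ℝ} (hφ : Test Ω φ) {μ : ℝ} (hμ : 0 < μ)
    (h : DD (gr φ) < μ * Q2 φ) :
    ∃ g, Pf Ω g ∧ 0 < Bi g ∧ Ai g ≤ C * μ * Bi g ∧ Wi g ≤ C * μ * Bi g := by
  obtain ⟨t, ht1, ht2⟩ := h2 Ω φ μ hRI hφ hμ h
  exact hC Ω (sl φ t) μ (h5 Ω φ t hRI hφ).1 hμ ht1 ht2

theorem UNF_DD_nonneg (φ : E3 → ℝ) : 0 ≤ DD (gr φ) := by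
  unfold DD
  exact integral_nonneg fun x => Finset.sum_nonneg fun i _ => sq_nonneg _

theorem UNF_bdd (h1 : BWI) (Ω : Set E3) (n : ℕ) : BddBelow (Qs Ω n) := by
  refine ⟨0, ?_⟩
  rintro q ⟨g, hg, hB, rfl⟩
  obtain ⟨hA, -, hW⟩ := (h1 Ω g hg).1
  positivity

theorem prfUNF (h1 : BWI) (h2 : SLP) (h3 : CUT) (h4 : NZT) (h5 : SLC) : UNF := by
  obtain ⟨C, hC0, hC⟩ := h3
  refine ⟨2 * C, by positivity, ?_⟩
  intro Ω hO hne hRI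
  obtain ⟨φ₀, hφ₀, hQ₀⟩ := h4 Ω hO hne
  have hQ₀' : 0 < Q2 φ₀ := hQ₀
  have hD₀ := UNF_DD_nonneg φ₀
  obtain ⟨g₀, hg₀, hB₀, -, -⟩ := UNF_profile h2 h5 hC hRI hφ₀ (μ := DD (gr φ₀) / Q2 φ₀ + 1)
    (by positivity) (by
      rw [add_mul, div_mul_cancel₀ _ hQ₀'.ne']
      linarith)
  have hnonempty : ∀ n : ℕ, (Qs Ω n).Nonempty := fun n => ⟨_, g₀, hg₀, hB₀, rfl⟩
  have hbdd : ∀ n : ℕ, BddBelow (Qs Ω n) := UNF_bdd h1 Ω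
  have hle : ∀ (n : ℕ) (g : ℝ × ℝ → ℝ), Pf Ω g → 0 < Bi g →
      Un Ω n ≤ (Ai g + (n : ℝ) ^ 2 * Wi g) / Bi g := fun n g hg hB =>
    csInf_le (hbdd n) ⟨g, hg, hB, rfl⟩
  refine ⟨?_, ?_, ?_, ?_, ?_⟩
  · intro n g hg
    obtain ⟨⟨hA, hB, hW⟩, hz, -, -⟩ := h1 Ω g hg
    rcases hB.eq_or_lt with h0 | h0
    · obtain ⟨e1, e2, e3⟩ := hz (Or.inr h0.symm)
      rw [e1, e2, e3]
      simp
    · exact (le_div_iff₀ h0).mp (hle n g hg h0)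
  · intro n n' hnn
    refine le_csInf (hnonempty n') ?_
    rintro q ⟨g, hg, hB, rfl⟩
    refine (hle n g hg hB).trans ?_
    obtain ⟨hA, -, hW⟩ := (h1 Ω g hg).1
    have h6 : (n : ℝ) ≤ (n' : ℝ) := by exact_mod_cast hnn
    have h7 : (0 : ℝ) ≤ (n : ℝ) := Nat.cast_nonneg n
    gcongr
  · intro R n hR hΩ
    refine le_csInf (hnonempty n) ?_
    rintro q ⟨g, hg, hB, rfl⟩
    obtain ⟨⟨hA, -, hW⟩, -, hR3, -⟩ := h1 Ω g hg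
    have h6 : Bi g ≤ R ^ 2 * Wi g := by
      refine hR3 R fun p hp hp0 => ?_
      have h7 := hΩ _ (hg.1.2.2 p hp hp0)
      have h8 : p.1 ^ 2 ≤ R ^ 2 := by
        simpa [cyl] using h7
      exact le_of_sq_le_sq h8 hR.le
    rw [div_le_div_iff₀ (by positivity) hB]
    calc (n : ℝ) ^ 2 * Bi g ≤ (n : ℝ) ^ 2 * (R ^ 2 * Wi g) :=
          mul_le_mul_of_nonneg_left h6 (by positivity)
      _ ≤ (Ai g + (n : ℝ) ^ 2 * Wi g) * R ^ 2 := by nlinarith [mul_nonneg hA (sq_nonneg R)]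
  · intro n δ hδ
    obtain ⟨q, ⟨g, hg, hB, rfl⟩, hq⟩ := exists_lt_of_csInf_lt (hnonempty n)
      (lt_add_of_pos_right (sInf (Qs Ω n)) hδ)
    obtain ⟨⟨hA, -, hW⟩, hz, -, -⟩ := h1 Ω g hg
    refine ⟨g, hg, ?_, ?_⟩
    · rcases hW.eq_or_lt with h0 | h0
      · exact absurd (hz (Or.inl h0.symm)).2.1 hB.ne'
      · exact h0
    · rw [div_lt_iff₀ hB] at hq
      exact hq.le
  · intro n hn
    have hn1 : (1 : ℝ) ≤ (n : ℝ) := by exact_mod_cast hn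
    -- every number above the first eigenvalue
    have key : ∀ μ : ℝ, lam1 Ω < μ → Un Ω n ≤ 2 * C * (n : ℝ) ^ 2 * μ := by
      intro μ hμ
      have hS : {q | ∃ φ : E3 → ℝ, Test Ω φ ∧ 0 < ∫ x, φ x ^ 2 ∧
          q = (∫ x, ∑ i, pd i φ x ^ 2) / ∫ x, φ x ^ 2}.Nonempty := ⟨_, φ₀, hφ₀, hQ₀, rfl⟩
      obtain ⟨q, ⟨φ, hφ, hQ, rfl⟩, hq⟩ := exists_lt_of_csInf_lt hS hμ
      have hD := UNF_DD_nonneg φ
      have hQ' : 0 < Q2 φ := hQ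
      have hq' : DD (gr φ) / Q2 φ < μ := hq
      have hμ0 : 0 < μ := lt_of_le_of_lt (by positivity) hq'
      obtain ⟨g, hg, hB, h6, h7⟩ := UNF_profile h2 h5 hC hRI hφ hμ0 ((div_lt_iff₀ hQ').mp hq')
      refine (hle n g hg hB).trans ?_
      rw [div_le_iff₀ hB]
      have h8 : (n : ℝ) ^ 2 * Wi g ≤ (n : ℝ) ^ 2 * (C * μ * Bi g) :=
        mul_le_mul_of_nonneg_left h7 (by positivity)
      have h9 : C * μ * Bi g ≤ (n : ℝ) ^ 2 * (C * μ * Bi g) := by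
        have h10 : (0 : ℝ) ≤ C * μ * Bi g := by positivity
        have h11 : (1 : ℝ) ≤ (n : ℝ) ^ 2 := one_le_pow₀ hn1
        nlinarith
      nlinarith
    by_contra hcon
    rw [not_le] at hcon
    have hc : 0 < 2 * C * (n : ℝ) ^ 2 := by positivity
    have h6 : lam1 Ω < Un Ω n / (2 * C * (n : ℝ) ^ 2) := by
      rw [lt_div_iff₀ hc]
      linarith
    obtain ⟨μ, hμ1, hμ2⟩ := exists_between h6
    have h7 := key μ hμ1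
    rw [lt_div_iff₀ hc] at hμ2
    linarith

end Pool.Agent.Work.MP_d5b3be_an.BU
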