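import Pool.Agent.Work.MP_d5b3be_an.BN.All
import Pool.Agent.Work.MP_d5b3be_an.BU.Asm
import Pool.Agent.Work.MP_d5b3be_an.BU.AXI
import Pool.Agent.Work.MP_d5b3be_an.BU.BWI
import Pool.Agent.Work.MP_d5b3be_an.BU.CH1
import Pool.Agent.Work.MP_d5b3be_an.BU.CNU
import Pool.Agent.Work.MP_d5b3be_an.BU.CR2
import Pool.Agent.Work.MP_d5b3be_an.BU.CRP
import Pool.Agent.Work.MP_d5b3be_an.BU.CUT
import Pool.Agent.Work.MP_d5b3be_an.BU.FUB
import Pool.Agent.Work.MP_d5b3be_an.BU.IN0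
import Pool.Agent.Work.MP_d5b3be_an.BU.KEY
import Pool.Agent.Work.MP_d5b3be_an.BU.L1P
import Pool.Agent.Work.MP_d5b3be_an.BU.LOR
import Pool.Agent.Work.MP_d5b3be_an.BU.LOZ
import Pool.Agent.Work.MP_d5b3be_an.BU.NUM
import Pool.Agent.Work.MP_d5b3be_an.BU.PSF
import Pool.Agent.Work.MP_d5b3be_an.BU.PSJ
import Pool.Agent.Work.MP_d5b3be_an.BU.SLB
import Pool.Agent.Work.MP_d5b3be_an.BU.SLC
import Pool.Agent.Work.MP_d5b3be_an.BU.SLL
import Pool.Agent.Work.MP_d5b3be_an.BU.SLP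
import Pool.Agent.Work.MP_d5b3be_an.BU.SLW
import Pool.Agent.Work.MP_d5b3be_an.BU.UNF

/-!
# Block BU: all items
-/

set_option autoImplicit false

namespace Pool.Agent.Work.MP_d5b3be_an.BU

open Pool.Agent.Work.MP_d5b3be_an.BN

theorem all_IN0 : IN0 := prfIN0
theorem all_FUB : FUB := prfFUB
theorem all_CH1 : CH1 := prfCH1
theorem all_CRP : CRP := prfCRP
theorem all_NUM : NUM := prfNUM
theorem all_CNU : CNU := prfCNU
theorem all_BWI : BWI := prfBWI all_IN0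
theorem all_SLC : SLC := prfSLC all_ROT
theorem all_SLB : SLB := prfSLB all_CYI all_SLC all_IN0
theorem all_SLW : SLW := prfSLW all_CYI all_CYD all_WAP all_ROT all_SLC all_IN0
theorem all_SLL : SLL := prfSLL all_SLC all_SLB all_SLW
theorem all_SLP : SLP := prfSLP all_SLC all_SLB
theorem all_AXI : AXI := prfAXI all_IN0
theorem all_CUT : CUT := prfCUT all_AXI all_IN0
theorem all_PSF : PSF := prfPSF all_ROT
theorem all_PSJ : PSJ := prfPSJ all_PSF all_CYD all_CYI all_IN0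
theorem all_LOR : LOR := prfLOR all_FUB all_CH1 all_CRP all_IN0 all_BWI
theorem all_LOZ : LOZ := prfLOZ all_FUB all_CRP all_IN0 all_BWI
theorem all_KEY : KEY :=
  prfKEY all_LOR all_LOZ all_CRP all_PSF all_PSJ all_BWI all_NUM all_BXV all_HOL all_BMP
theorem all_CR2 : CR2 := prfCR2 all_CLT all_SOB all_EXI all_SYM all_NSY
theorem all_UNF : UNF := prfUNF all_BWI all_SLP all_CUT all_NZT all_SLC
theorem all_L1P : L1P := prfL1P all_EG2 all_NZT

end Pool.Agent.Work.MP_d5b3be_an.BU
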