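import Pool.Agent.Work.MP_d5b3be_an.BU.Stmts2

/-!
[d5b3be BU CP0] the integral of a periodic function after a change of scale
-/

set_option autoImplicit false

namespace Pool.Agent.Work.MP_d5b3be_an.BU

open Pool.Agent.Work.MP_d5b3be_an.BN
open MeasureTheory Filter Set
open scoped ENNReal Topology ContDiff

/-- the integral over `2 k` periods -/
theorem CP0_periods (F : ℝ → ℝ) (T a b : ℝ) (k : ℕ) (hF : Continuous F)
    (hP : Function.Periodic F T) (hab : b = a + ((2 * k : ℕ) : ℝ) * T) :
    ∫ t in a..b, F t = ((2 * k : ℕ) : ℝ) * ∫ t in (0 : ℝ)..(0 + T), F t := by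
  have h1 := hP.intervalIntegral_add_zsmul_eq ((2 * k : ℕ) : ℤ) a
    (fun t₁ t₂ => hF.intervalIntegrable t₁ t₂)
  rw [hP.intervalIntegral_add_eq a 0, zsmul_eq_mul, zsmul_eq_mul] at h1
  rw [hab]
  exact_mod_cast h1

theorem prfCP0 : CP0 := by
  intro F n n' hn hn' hF hper
  have hn0 : (0 : ℝ) < n := by exact_mod_cast hn
  have hn'0 : (0 : ℝ) < n' := by exact_mod_cast hn'
  have hP : Function.Periodic F (Real.pi / n') := hper
  have hq : (n : ℝ) / n' ≠ 0 := by positivity
  rw [intervalIntegral.integral_comp_mul_left F hq, smul_eq_mul]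
  rw [CP0_periods F (Real.pi / n') ((n : ℝ) / n' * -Real.pi) ((n : ℝ) / n' * Real.pi) n hF hP
    (by push_cast; field_simp; ring)]
  rw [CP0_periods F (Real.pi / n') (-Real.pi) Real.pi n' hF hP
    (by push_cast; field_simp; ring)]
  push_cast
  field_simp

end Pool.Agent.Work.MP_d5b3be_an.BU
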