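import Pool.Agent.Work.MP_d5b3be_an.BU.Stmts2

/-!
# Block BU, item CP1: the compressed function
-/

set_option autoImplicit false

namespace Pool.Agent.Work.MP_d5b3be_an.BU

open Pool.Agent.Work.MP_d5b3be_an.BN
open MeasureTheory Filter Set
open scoped ENNReal Topology ContDiff

/-- the angle of a point -/
noncomputable def CP1_a (x : E3) : ℝ := Complex.arg (Complex.mk (x 0) (x 1))

/-- the angle, smooth near the negative axis -/
noncomputable def CP1_b (x : E3) : ℝ := Complex.arg (Complex.mk (-x 0) (-x 1)) + Real.pi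

/-- the function `φ` with the angle `q b` -/
noncomputable def CP1_v (q : ℝ) (b : E3 → ℝ) (φ : E3 → ℝ) (x : E3) : ℝ :=
  φ (cyl (Real.sqrt (x 0 ^ 2 + x 1 ^ 2)) (q * b x) (x 2))

theorem CP1_cyl_a (x : E3) :
    x = cyl (Real.sqrt (x 0 ^ 2 + x 1 ^ 2)) (CP1_a x) (x 2) := by
  have hn : ‖Complex.mk (x 0) (x 1)‖ = Real.sqrt (x 0 ^ 2 + x 1 ^ 2) := by
    rw [Complex.norm_eq_sqrt_sq_add_sq]
  have h0 := Complex.norm_mul_cos_arg (Complex.mk (x 0) (x 1))
  have h1 := Complex.norm_mul_sin_arg (Complex.mk (x 0) (x 1))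
  rw [hn] at h0 h1
  ext i
  fin_cases i
  · simpa [cyl, CP1_a] using h0.symm
  · simpa [cyl, CP1_a] using h1.symm
  · simp [cyl]

theorem CP1_cyl_b (x : E3) :
    x = cyl (Real.sqrt (x 0 ^ 2 + x 1 ^ 2)) (CP1_b x) (x 2) := by
  have hn : ‖Complex.mk (-x 0) (-x 1)‖ = Real.sqrt (x 0 ^ 2 + x 1 ^ 2) := by
    rw [Complex.norm_eq_sqrt_sq_add_sq]
    simp
  have h0 := Complex.norm_mul_cos_arg (Complex.mk (-x 0) (-x 1))
  have h1 := Complex.norm_mul_sin_arg (Complex.mk (-x 0) (-x 1))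
  rw [hn] at h0 h1
  ext i
  fin_cases i
  · have : x 0 = Real.sqrt (x 0 ^ 2 + x 1 ^ 2) * Real.cos (CP1_b x) := by
      rw [CP1_b, Real.cos_add_pi, mul_neg, h0]
      simp
    simpa [cyl] using this
  · have : x 1 = Real.sqrt (x 0 ^ 2 + x 1 ^ 2) * Real.sin (CP1_b x) := by
      rw [CP1_b, Real.sin_add_pi, mul_neg, h1]
      simp
    simpa [cyl] using this
  · simp [cyl]

theorem CP1_r (r t z : ℝ) (hr : 0 ≤ r) :
    Real.sqrt (cyl r t z 0 ^ 2 + cyl r t z 1 ^ 2) = r := by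
  have h0 : cyl r t z 0 = r * Real.cos t := by simp [cyl]
  have h1 : cyl r t z 1 = r * Real.sin t := by simp [cyl]
  have h3 : cyl r t z 0 ^ 2 + cyl r t z 1 ^ 2 = r ^ 2 := by
    rw [h0, h1]
    have := Real.sin_sq_add_cos_sq t
    calc (r * Real.cos t) ^ 2 + (r * Real.sin t) ^ 2
        = r ^ 2 * (Real.sin t ^ 2 + Real.cos t ^ 2) := by ring
      _ = r ^ 2 := by rw [this, mul_one]
  rw [h3, Real.sqrt_sq hr]

/-- two angles of the same point -/
theorem CP1_angle {r s t z : ℝ} (hr : 0 < r) (h : cyl r s z = cyl r t z) :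
    ∃ k : ℤ, s - t = 2 * Real.pi * k := by
  have h0 : r * Real.cos s = r * Real.cos t := by
    have := congrFun h 0
    simpa [cyl] using this
  have h1 : r * Real.sin s = r * Real.sin t := by
    have := congrFun h 1
    simpa [cyl] using this
  have h2 : Real.cos s = Real.cos t := mul_left_cancel₀ hr.ne' h0
  have h3 : Real.sin s = Real.sin t := mul_left_cancel₀ hr.ne' h1
  exact Real.Angle.angle_eq_iff_two_pi_dvd_sub.1 (Real.Angle.cos_sin_inj h2 h3)

theorem CP1_anti (h1 : ROT) {n' : ℕ} {φ : E3 → ℝ}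
    (hφ : ∀ x, φ (rot (Real.pi / n') x) = -φ x) (r z : ℝ) :
    Function.Antiperiodic (fun s => φ (cyl r s z)) (Real.pi / n') := by
  intro s
  show φ (cyl r (s + Real.pi / n') z) = -φ (cyl r s z)
  rw [← h1.2.2.2.2.2.2.2.2 (Real.pi / n') r s z, hφ]

/-- the value does not depend on the choice of the angle -/
theorem CP1_indep (h1 : ROT) {n n' : ℕ} (hn' : 1 ≤ n') {φ : E3 → ℝ}
    (hφ : ∀ x, φ (rot (Real.pi / n') x) = -φ x) {r s t z : ℝ} (hr : 0 ≤ r)
    (h : cyl r s z = cyl r t z) :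
    φ (cyl r ((n : ℝ) / n' * s) z) = φ (cyl r ((n : ℝ) / n' * t) z) := by
  rcases hr.eq_or_lt with h0 | h0
  · subst h0
    have : ∀ a : ℝ, cyl 0 a z = ![0, 0, z] := by
      intro a
      simp [cyl]
    rw [this, this]
  · obtain ⟨k, hk⟩ := CP1_angle h0 h
    have hp : Function.Periodic (fun s => φ (cyl r s z)) (((n * k : ℤ) : ℝ) * (2 * (Real.pi / n'))) :=
      (CP1_anti h1 hφ r z).periodic_two_mul.int_mul (n * k)
    have h2 := hp ((n : ℝ) / n' * t)
    have hn0 : (n' : ℝ) ≠ 0 := by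
      have : 0 < n' := hn'
      positivity
    have h3 : (n : ℝ) / n' * t + ((n * k : ℤ) : ℝ) * (2 * (Real.pi / n')) = (n : ℝ) / n' * s := by
      have : s = t + 2 * Real.pi * k := by linarith
      rw [this]
      push_cast
      field_simp
    rw [h3] at h2
    exact h2

theorem CP1_eq (h1 : ROT) {n n' : ℕ} (hn' : 1 ≤ n') {φ : E3 → ℝ}
    (hφ : ∀ x, φ (rot (Real.pi / n') x) = -φ x) {r t z : ℝ} (hr : 0 ≤ r) :
    CP1_v ((n : ℝ) / n') CP1_a φ (cyl r t z) = φ (cyl r ((n : ℝ) / n' * t) z) := by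
  have h2 : cyl r t z 2 = z := by simp [cyl]
  unfold CP1_v
  rw [CP1_r r t z hr, h2]
  apply CP1_indep h1 hn' hφ hr
  have h3 := CP1_cyl_a (cyl r t z)
  rw [CP1_r r t z hr, h2] at h3
  exact h3.symm

theorem CP1_ab (h1 : ROT) {n n' : ℕ} (hn' : 1 ≤ n') {φ : E3 → ℝ}
    (hφ : ∀ x, φ (rot (Real.pi / n') x) = -φ x) :
    CP1_v ((n : ℝ) / n') CP1_a φ = CP1_v ((n : ℝ) / n') CP1_b φ := by
  funext x
  apply CP1_indep h1 hn' hφ (Real.sqrt_nonneg _)
  rw [← CP1_cyl_a, ← CP1_cyl_b]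

/-- the argument is smooth off the negative axis -/
theorem CP1_arg {w : ℂ} (hw : w ∈ Complex.slitPlane) :
    ContDiffAt ℝ ((⊤ : ℕ∞) : WithTop ℕ∞) Complex.arg w := by
  have h1 : ContDiffAt ℝ ((⊤ : ℕ∞) : WithTop ℕ∞) Complex.log w :=
    (Complex.contDiffAt_log hw).restrict_scalars ℝ
  have h2 : ContDiffAt ℝ ((⊤ : ℕ∞) : WithTop ℕ∞) (fun w => (Complex.log w).im) w :=
    Complex.imCLM.contDiff.contDiffAt.comp w h1
  have h3 : (fun w => (Complex.log w).im) = Complex.arg := by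
    funext w
    exact Complex.log_im w
  rwa [h3] at h2

theorem CP1_mk {f g : E3 → ℝ} {x : E3}
    (hf : ContDiffAt ℝ ((⊤ : ℕ∞) : WithTop ℕ∞) f x)
    (hg : ContDiffAt ℝ ((⊤ : ℕ∞) : WithTop ℕ∞) g x) :
    ContDiffAt ℝ ((⊤ : ℕ∞) : WithTop ℕ∞) (fun x => Complex.mk (f x) (g x)) x := by
  have h1 : (fun x => Complex.mk (f x) (g x)) = fun x => ((f x : ℂ) + (g x : ℂ) * Complex.I) := by
    funext x
    apply Complex.ext <;> simp
  rw [h1]
  have hc : ∀ {k : E3 → ℝ}, ContDiffAt ℝ ((⊤ : ℕ∞) : WithTop ℕ∞) k x →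
      ContDiffAt ℝ ((⊤ : ℕ∞) : WithTop ℕ∞) (fun x => (k x : ℂ)) x := by
    intro k hk
    exact Complex.ofRealCLM.contDiff.contDiffAt.comp x hk
  exact (hc hf).add ((hc hg).mul contDiffAt_const)

theorem CP1_coord (i : Fin 3) (x : E3) :
    ContDiffAt ℝ ((⊤ : ℕ∞) : WithTop ℕ∞) (fun x : E3 => x i) x :=
  (contDiff_apply ℝ ℝ i).contDiffAt

theorem CP1_vs {q : ℝ} {b φ : E3 → ℝ} {x : E3} (hφ : ContDiff ℝ ((⊤ : ℕ∞) : WithTop ℕ∞) φ)
    (hx : x 0 ^ 2 + x 1 ^ 2 ≠ 0) (hb : ContDiffAt ℝ ((⊤ : ℕ∞) : WithTop ℕ∞) b x) :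
    ContDiffAt ℝ ((⊤ : ℕ∞) : WithTop ℕ∞) (CP1_v q b φ) x := by
  have ps : ContDiffAt ℝ ((⊤ : ℕ∞) : WithTop ℕ∞)
      (fun x : E3 => Real.sqrt (x 0 ^ 2 + x 1 ^ 2)) x :=
    (((CP1_coord 0 x).pow 2).add ((CP1_coord 1 x).pow 2)).sqrt hx
  have pb : ContDiffAt ℝ ((⊤ : ℕ∞) : WithTop ℕ∞) (fun x : E3 => q * b x) x :=
    contDiffAt_const.mul hb
  have hin : ContDiffAt ℝ ((⊤ : ℕ∞) : WithTop ℕ∞)
      (fun x : E3 => cyl (Real.sqrt (x 0 ^ 2 + x 1 ^ 2)) (q * b x) (x 2)) x := by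
    rw [contDiffAt_pi]
    intro i
    fin_cases i
    · have : ContDiffAt ℝ ((⊤ : ℕ∞) : WithTop ℕ∞)
          (fun x : E3 => Real.sqrt (x 0 ^ 2 + x 1 ^ 2) * Real.cos (q * b x)) x := ps.mul pb.cos
      simpa [cyl] using this
    · have : ContDiffAt ℝ ((⊤ : ℕ∞) : WithTop ℕ∞)
          (fun x : E3 => Real.sqrt (x 0 ^ 2 + x 1 ^ 2) * Real.sin (q * b x)) x := ps.mul pb.sin
      simpa [cyl] using this
    · simpa [cyl] using CP1_coord 2 x
  exact hφ.contDiffAt.comp x hin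

theorem prfCP1 (h1 : ROT) : CP1 := by
  intro Ω n n' φ hR hn hn' hφ hV
  obtain ⟨⟨hsm, hcs, hsub⟩, han⟩ := hφ
  obtain ⟨ε, hε, hax⟩ := hV
  have hn0 : (n : ℝ) ≠ 0 := by
    have : 0 < n := hn
    positivity
  have hn0' : (n' : ℝ) ≠ 0 := by
    have : 0 < n' := hn'
    positivity
  set q : ℝ := (n : ℝ) / n' with hq
  have hq0 : 0 ≤ q := by positivity
  set v : E3 → ℝ := CP1_v q CP1_a φ with hv
  have hf : ∀ r t z : ℝ, 0 ≤ r → v (cyl r t z) = φ (cyl r (q * t) z) := fun r t z hr =>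
    CP1_eq h1 hn' han hr
  have hvax : ∀ x : E3, x 0 ^ 2 + x 1 ^ 2 < ε → v x = 0 := by
    intro x hx
    show φ (cyl (Real.sqrt (x 0 ^ 2 + x 1 ^ 2)) (q * CP1_a x) (x 2)) = 0
    apply hax
    have h2 := CP1_r (Real.sqrt (x 0 ^ 2 + x 1 ^ 2)) (q * CP1_a x) (x 2) (Real.sqrt_nonneg _)
    have h3 := (Real.sqrt_inj (by positivity) (by positivity)).1 h2
    rw [h3]
    exact hx
  -- smoothness
  have hvs : ContDiff ℝ ((⊤ : ℕ∞) : WithTop ℕ∞) v := by
    rw [contDiff_iff_contDiffAt]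
    intro x
    by_cases hx : x 0 ^ 2 + x 1 ^ 2 < ε
    · have hc : Continuous fun x : E3 => x 0 ^ 2 + x 1 ^ 2 := by fun_prop
      have ho : IsOpen {x : E3 | x 0 ^ 2 + x 1 ^ 2 < ε} := isOpen_lt hc continuous_const
      have h6 : v =ᶠ[𝓝 x] fun _ => 0 := by
        filter_upwards [ho.mem_nhds hx] with y hy
        exact hvax y hy
      exact (contDiffAt_const (c := (0 : ℝ))).congr_of_eventuallyEq h6
    · have hx0 : x 0 ^ 2 + x 1 ^ 2 ≠ 0 := by
        intro h0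
        rw [h0] at hx
        exact hx hε
      by_cases hs : Complex.mk (x 0) (x 1) ∈ Complex.slitPlane
      · apply CP1_vs hsm hx0
        exact (CP1_arg hs).comp x (CP1_mk (CP1_coord 0 x) (CP1_coord 1 x))
      · have hs2 : Complex.mk (-x 0) (-x 1) ∈ Complex.slitPlane := by
          rw [Complex.mem_slitPlane_iff] at hs ⊢
          push Not at hs
          obtain ⟨h3, h4⟩ := hs
          simp only at h3 h4
          left
          show 0 < -x 0
          rcases h3.eq_or_lt with h5 | h5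
          · exfalso
            apply hx0
            rw [h4, h5]
            ring
          · linarith
        rw [hv, hq, CP1_ab h1 hn' han]
        apply CP1_vs hsm hx0
        exact ((CP1_arg hs2).comp x (CP1_mk (CP1_coord 0 x).neg (CP1_coord 1 x).neg)).add
          contDiffAt_const
  -- support
  set K : Set E3 := (fun p : ℝ × E3 => rot p.1 p.2) ''
    (Icc (-((1 + q) * Real.pi)) ((1 + q) * Real.pi) ×ˢ tsupport φ) with hK
  have hrc : Continuous fun p : ℝ × E3 => rot p.1 p.2 := by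
    refine continuous_pi fun i => ?_
    fin_cases i
    · have : Continuous fun p : ℝ × E3 => Real.cos p.1 * p.2 0 - Real.sin p.1 * p.2 1 := by
        fun_prop
      simpa [rot] using this
    · have : Continuous fun p : ℝ × E3 => Real.sin p.1 * p.2 0 + Real.cos p.1 * p.2 1 := by
        fun_prop
      simpa [rot] using this
    · have : Continuous fun p : ℝ × E3 => p.2 2 := by
        fun_prop
      simpa [rot] using this
  have hKc : IsCompact K := (isCompact_Icc.prod hcs).image hrc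
  have hKs : K ⊆ Ω := by
    rintro _ ⟨p, hp, rfl⟩
    exact hR p.1 p.2 (hsub hp.2)
  have hvK : ∀ x, v x ≠ 0 → x ∈ K := by
    intro x hx
    refine ⟨(CP1_a x - q * CP1_a x, cyl (Real.sqrt (x 0 ^ 2 + x 1 ^ 2)) (q * CP1_a x) (x 2)),
      ⟨?_, subset_tsupport φ hx⟩, ?_⟩
    · have h2 : |CP1_a x| ≤ Real.pi := Complex.abs_arg_le_pi _
      have h3 := abs_le.1 h2
      have h4 : |CP1_a x - q * CP1_a x| ≤ (1 + q) * Real.pi := by
        have h5 : CP1_a x - q * CP1_a x = (1 - q) * CP1_a x := by ring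
        rw [h5, abs_mul]
        have h6 : |1 - q| ≤ 1 + q := by
          rw [abs_le]
          constructor <;> linarith
        exact mul_le_mul h6 h2 (abs_nonneg _) (by linarith)
      exact ⟨(abs_le.1 h4).1, (abs_le.1 h4).2⟩
    · show rot (CP1_a x - q * CP1_a x)
        (cyl (Real.sqrt (x 0 ^ 2 + x 1 ^ 2)) (q * CP1_a x) (x 2)) = x
      rw [h1.2.2.2.2.2.2.2.2]
      have h2 : q * CP1_a x + (CP1_a x - q * CP1_a x) = CP1_a x := by ring
      rw [h2]
      exact (CP1_cyl_a x).symm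
  have hts : tsupport v ⊆ K := closure_minimal (fun x hx => hvK x hx) hKc.isClosed
  refine ⟨v, ⟨⟨hvs, ?_, hts.trans hKs⟩, ?_⟩, ⟨ε, hε, hvax⟩, fun r t z hr => hf r t z hr.le⟩
  · exact HasCompactSupport.intro hKc fun x hx => by
      by_contra h2
      exact hx (hvK x h2)
  · intro x
    have h2 : v (rot (Real.pi / n) x) =
        -φ (cyl (Real.sqrt (x 0 ^ 2 + x 1 ^ 2)) (q * CP1_a x) (x 2)) := by
      conv_lhs => rw [CP1_cyl_a x]
      rw [h1.2.2.2.2.2.2.2.2, hf _ _ _ (Real.sqrt_nonneg _)]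
      have h3 : q * (CP1_a x + Real.pi / n) = q * CP1_a x + Real.pi / n' := by
        rw [hq]
        field_simp
      rw [h3]
      exact CP1_anti h1 han _ _ _
    exact h2

end Pool.Agent.Work.MP_d5b3be_an.BU
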