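import Pool.Agent.Work.MP_d5b3be_an.BU.Stmts2
import Pool.Agent.Work.MP_d5b3be_an.BU.SLW

/-!
Block BU, item CP2: the integrals of the compressed function.
-/

set_option autoImplicit false

namespace Pool.Agent.Work.MP_d5b3be_an.BU

open Pool.Agent.Work.MP_d5b3be_an.BN
open MeasureTheory Filter Set
open scoped ENNReal Topology ContDiff

theorem CP2_key {g : ℝ → ℝ} (hg : Continuous g) (hn : ∀ t, 0 ≤ g t) :
    ∫⁻ t in Ioo (-Real.pi) Real.pi, ENNReal.ofReal (g t) =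
      ENNReal.ofReal (∫ t in (-Real.pi)..Real.pi, g t) := by
  have hle : -Real.pi ≤ Real.pi := by linarith [Real.pi_pos]
  rw [intervalIntegral.integral_of_le hle, integral_Ioc_eq_integral_Ioo]
  rw [ofReal_integral_eq_lintegral_ofReal]
  · exact (hg.integrableOn_Icc).mono_set Ioo_subset_Icc_self
  · exact Eventually.of_forall hn

theorem CP2_per (h1 : CP0) {n n' : ℕ} (hn : 1 ≤ n) (hn' : 1 ≤ n') {F : ℝ → ℝ} (hF : Continuous F)
    (hF0 : ∀ t, 0 ≤ F t) (hp : ∀ t, F (t + Real.pi / n') = F t) :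
    ∫⁻ t in Ioo (-Real.pi) Real.pi, ENNReal.ofReal (F ((n : ℝ) / n' * t)) =
      ∫⁻ t in Ioo (-Real.pi) Real.pi, ENNReal.ofReal (F t) := by
  have hc : Continuous fun t : ℝ => F ((n : ℝ) / n' * t) :=
    hF.comp (continuous_const.mul continuous_id)
  rw [CP2_key hF hF0, CP2_key hc (fun t => hF0 _), h1 F n n' hn hn' hF hp]

theorem CP2_cy (r z : ℝ) : Continuous fun t : ℝ => cyl r t z :=
  (ANG_cyl_cont z).comp (continuous_id.prodMk continuous_const)

theorem CP2_pow (h1 : CP0) (h3 : CYI) (h5 : ROT) {Ω : Set E3} {n n' : ℕ} {φ v : E3 → ℝ}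
    (hn : 1 ≤ n) (hn' : 1 ≤ n') (hφ : TestN Ω n' φ) (hv : TestN Ω n v)
    (h : ∀ r t z : ℝ, 0 < r → v (cyl r t z) = φ (cyl r ((n : ℝ) / n' * t) z)) (k : ℕ)
    (hk : Even k) (hk0 : k ≠ 0) : ∫ x, v x ^ k = ∫ x, φ x ^ k := by
  have hcv : Continuous v := hv.1.1.continuous
  have hcφ : Continuous φ := hφ.1.1.continuous
  have key : ∀ u : E3 → ℝ, Continuous u → HasCompactSupport u →
      ENNReal.ofReal (∫ x, u x ^ k) = ∫⁻ x, ENNReal.ofReal (u x ^ k) := by
    intro u hu hc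
    rw [ofReal_integral_eq_lintegral_ofReal]
    · apply Continuous.integrable_of_hasCompactSupport (hu.pow k)
      exact hc.comp_left (g := fun y : ℝ => y ^ k) (zero_pow hk0)
    · exact Eventually.of_forall fun x => hk.pow_nonneg _
  have h0 : ∀ u : E3 → ℝ, 0 ≤ ∫ x, u x ^ k := fun u => integral_nonneg fun x => hk.pow_nonneg _
  rw [← ENNReal.ofReal_eq_ofReal_iff (h0 v) (h0 φ), key v hcv hv.1.2.1, key φ hcφ hφ.1.2.1,
    SLW_tot h3 (fun x => ENNReal.ofReal (v x ^ k)) (hcv.measurable.pow_const k).ennreal_ofReal,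
    SLW_tot h3 (fun x => ENNReal.ofReal (φ x ^ k)) (hcφ.measurable.pow_const k).ennreal_ofReal]
  refine setLIntegral_congr_fun SLW_HpM fun p hp => ?_
  have hr0 : (0 : ℝ) < p.1 := hp
  have hF : Continuous fun t : ℝ => p.1 * φ (cyl p.1 t p.2) ^ k :=
    continuous_const.mul ((hcφ.comp (CP2_cy p.1 p.2)).pow k)
  have hper : ∀ t, p.1 * φ (cyl p.1 (t + Real.pi / n') p.2) ^ k =
      p.1 * φ (cyl p.1 t p.2) ^ k := by
    intro t
    rw [← h5.2.2.2.2.2.2.2.2 (Real.pi / n') p.1 t p.2, hφ.2, hk.neg_pow]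
  have h2 := CP2_per h1 hn hn' hF (fun t => mul_nonneg hr0.le (hk.pow_nonneg _)) hper
  have e1 : ∀ t, ENNReal.ofReal p.1 * ENNReal.ofReal (v (cyl p.1 t p.2) ^ k) =
      ENNReal.ofReal (p.1 * φ (cyl p.1 ((n : ℝ) / n' * t) p.2) ^ k) := by
    intro t
    rw [← ENNReal.ofReal_mul hr0.le, h p.1 t p.2 hr0]
  have e2 : ∀ t, ENNReal.ofReal p.1 * ENNReal.ofReal (φ (cyl p.1 t p.2) ^ k) =
      ENNReal.ofReal (p.1 * φ (cyl p.1 t p.2) ^ k) := by
    intro t
    rw [← ENNReal.ofReal_mul hr0.le]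
  simp only [e1, e2]
  exact h2

/-- the gradient in cylindrical coordinates -/
theorem CP2_grad (h2 : CYD) {n n' : ℕ} {φ v : E3 → ℝ}
    (hφ : ContDiff ℝ ((⊤ : ℕ∞) : WithTop ℕ∞) φ) (hv : ContDiff ℝ ((⊤ : ℕ∞) : WithTop ℕ∞) v)
    (h : ∀ r t z : ℝ, 0 < r → v (cyl r t z) = φ (cyl r ((n : ℝ) / n' * t) z)) (r t z : ℝ)
    (hr : 0 < r) (s : ℝ) (hs : s = (n : ℝ) / n' * t) :
    ∑ i, pd i v (cyl r t z) ^ 2 =
      (Real.cos s * pd 0 φ (cyl r s z) + Real.sin s * pd 1 φ (cyl r s z)) ^ 2 +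
      ((n : ℝ) / n') ^ 2 * (-Real.sin s * pd 0 φ (cyl r s z) + Real.cos s * pd 1 φ (cyl r s z)) ^ 2 +
      pd 2 φ (cyl r s z) ^ 2 := by
  subst hs
  obtain ⟨a1, a2, a3, -, -, -⟩ := h2 v hv r t z
  obtain ⟨b1, b2, b3, -, -, -⟩ := h2 φ hφ r ((n : ℝ) / n' * t) z
  have c1 : Real.cos t * pd 0 v (cyl r t z) + Real.sin t * pd 1 v (cyl r t z) =
      Real.cos ((n : ℝ) / n' * t) * pd 0 φ (cyl r ((n : ℝ) / n' * t) z) +
        Real.sin ((n : ℝ) / n' * t) * pd 1 φ (cyl r ((n : ℝ) / n' * t) z) := by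
    refine a1.unique (b1.congr_of_eventuallyEq ?_)
    filter_upwards [lt_mem_nhds hr] with y hy
    exact h y t z hy
  have c2 : r * (-Real.sin t * pd 0 v (cyl r t z) + Real.cos t * pd 1 v (cyl r t z)) =
      r * (-Real.sin ((n : ℝ) / n' * t) * pd 0 φ (cyl r ((n : ℝ) / n' * t) z) +
        Real.cos ((n : ℝ) / n' * t) * pd 1 φ (cyl r ((n : ℝ) / n' * t) z)) * ((n : ℝ) / n') := by
    have h3 : HasDerivAt (fun y : ℝ => (n : ℝ) / n' * y) ((n : ℝ) / n') t := by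
      simpa using (hasDerivAt_id t).const_mul ((n : ℝ) / n')
    have h4 := b2.comp t h3
    refine a2.unique (h4.congr_of_eventuallyEq ?_)
    exact Eventually.of_forall fun y => h r y z hr
  have c3 : pd 2 v (cyl r t z) = pd 2 φ (cyl r ((n : ℝ) / n' * t) z) := by
    refine a3.unique (b3.congr_of_eventuallyEq ?_)
    exact Eventually.of_forall fun y => h r t y hr
  have c2' : -Real.sin t * pd 0 v (cyl r t z) + Real.cos t * pd 1 v (cyl r t z) =
      (-Real.sin ((n : ℝ) / n' * t) * pd 0 φ (cyl r ((n : ℝ) / n' * t) z) +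
        Real.cos ((n : ℝ) / n' * t) * pd 1 φ (cyl r ((n : ℝ) / n' * t) z)) * ((n : ℝ) / n') := by
    have : r ≠ 0 := hr.ne'
    apply mul_left_cancel₀ this
    rw [c2]
    ring
  rw [Fin.sum_univ_three, ← c1, ← c3]
  have h7 := Real.sin_sq_add_cos_sq t
  have h8 : ((n : ℝ) / n') ^ 2 * (-Real.sin ((n : ℝ) / n' * t) * pd 0 φ (cyl r ((n : ℝ) / n' * t) z) +
        Real.cos ((n : ℝ) / n' * t) * pd 1 φ (cyl r ((n : ℝ) / n' * t) z)) ^ 2 =
      (-Real.sin t * pd 0 v (cyl r t z) + Real.cos t * pd 1 v (cyl r t z)) ^ 2 := by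
    rw [c2']
    ring
  rw [h8]
  linear_combination (-(pd 0 v (cyl r t z) ^ 2 + pd 1 v (cyl r t z) ^ 2)) * h7

/-- periodicity of the derivatives -/
theorem CP2_pd (h2 : CYD) (h5 : ROT) {Ω : Set E3} {n' : ℕ} {φ : E3 → ℝ} (hφ : TestN Ω n' φ)
    (r s z : ℝ) (hr : 0 < r) :
    (Real.cos (s + Real.pi / n') * pd 0 φ (cyl r (s + Real.pi / n') z) +
      Real.sin (s + Real.pi / n') * pd 1 φ (cyl r (s + Real.pi / n') z)) =
      -(Real.cos s * pd 0 φ (cyl r s z) + Real.sin s * pd 1 φ (cyl r s z)) ∧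
    (-Real.sin (s + Real.pi / n') * pd 0 φ (cyl r (s + Real.pi / n') z) +
      Real.cos (s + Real.pi / n') * pd 1 φ (cyl r (s + Real.pi / n') z)) =
      -(-Real.sin s * pd 0 φ (cyl r s z) + Real.cos s * pd 1 φ (cyl r s z)) ∧
    pd 2 φ (cyl r (s + Real.pi / n') z) = -pd 2 φ (cyl r s z) := by
  obtain ⟨a1, a2, a3, -, -, -⟩ := h2 φ hφ.1.1 r (s + Real.pi / n') z
  obtain ⟨b1, b2, b3, -, -, -⟩ := h2 φ hφ.1.1 r s z
  have hap : ∀ r t z, φ (cyl r (t + Real.pi / n') z) = -φ (cyl r t z) := by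
    intro r t z
    rw [← h5.2.2.2.2.2.2.2.2 (Real.pi / n') r t z]
    exact hφ.2 _
  refine ⟨?_, ?_, ?_⟩
  · refine a1.unique (b1.neg.congr_of_eventuallyEq ?_)
    exact Eventually.of_forall fun y => hap y s z
  · have h3 : HasDerivAt (fun y : ℝ => y + Real.pi / n') 1 s := (hasDerivAt_id s).add_const _
    have h4 := a2.comp s h3
    have h6 := h4.unique (b2.neg.congr_of_eventuallyEq (Eventually.of_forall fun y => hap r y z))
    have : r ≠ 0 := hr.ne'
    apply mul_left_cancel₀ this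
    rw [mul_one] at h6
    rw [h6]
    ring
  · refine a3.unique (b3.neg.congr_of_eventuallyEq ?_)
    exact Eventually.of_forall fun y => hap r s y

theorem CP2_DD0 (v : E3 → ℝ) : 0 ≤ DD (gr v) := by
  unfold DD
  exact integral_nonneg fun x => Finset.sum_nonneg fun i _ => sq_nonneg _

theorem CP2_Q20 (v : E3 → ℝ) : 0 ≤ Q2 v := by
  unfold Q2
  exact integral_nonneg fun x => sq_nonneg _

theorem CP2_Q2 (c : ℝ) (hc : 0 ≤ c) {φ : E3 → ℝ} (hφ : Continuous φ) (hs : HasCompactSupport φ) :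
    ENNReal.ofReal (c * Q2 φ) = ∫⁻ x, ENNReal.ofReal (c * φ x ^ 2) := by
  have hi : Integrable (fun x : E3 => φ x ^ 2) := by
    have h2 : HasCompactSupport fun x : E3 => φ x ^ 2 :=
      hs.comp_left (g := fun y : ℝ => y ^ 2) (zero_pow two_ne_zero)
    exact (hφ.pow 2).integrable_of_hasCompactSupport h2
  have hi2 : Integrable (fun x : E3 => c * φ x ^ 2) := hi.const_mul c
  unfold Q2
  rw [← integral_const_mul, ofReal_integral_eq_lintegral_ofReal hi2]
  exact Eventually.of_forall fun x => mul_nonneg hc (sq_nonneg _)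

theorem prfCP2 (h1 : CP0) (h2 : CYD) (h3 : CYI) (h4 : WAP) (h5 : ROT) : CP2 := by
  intro Ω n n' φ v R hRI hn hnn hR hΩ hφ hv h
  have hn' : 1 ≤ n' := by omega
  have hcv : Continuous v := hv.1.1.continuous
  have hcφ : Continuous φ := hφ.1.1.continuous
  have hpv : ∀ i, Continuous (pd i v) := fun i => ANG_pd_cont i hv.1.1
  have hpφ : ∀ i, Continuous (pd i φ) := fun i => ANG_pd_cont i hφ.1.1
  refine ⟨CP2_pow h1 h3 h5 hn hn' hφ hv h 6 (by decide) (by norm_num),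
    CP2_pow h1 h3 h5 hn hn' hφ hv h 2 (by decide) (by norm_num), ?_⟩
  have hn0 : (0 : ℝ) < n := by exact_mod_cast hn
  have hn0' : (0 : ℝ) < n' := by exact_mod_cast hn'
  have hlt : (n : ℝ) < n' := by exact_mod_cast hnn
  set c : ℝ := ((n' : ℝ) ^ 2 - (n : ℝ) ^ 2) / R ^ 2 with hc
  have hd0 : 0 < (n' : ℝ) ^ 2 - (n : ℝ) ^ 2 := by nlinarith
  have hc0 : 0 ≤ c := by positivity
  set q : ℝ := (n : ℝ) / n' with hq
  have hDv0 : 0 ≤ DD (gr v) := CP2_DD0 v
  have hDφ0 : 0 ≤ DD (gr φ) := CP2_DD0 φ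
  have hQ0 : 0 ≤ Q2 φ := CP2_Q20 φ
  have hQ : ENNReal.ofReal (c * Q2 φ) = ∫⁻ x, ENNReal.ofReal (c * φ x ^ 2) :=
    CP2_Q2 c hc0 hcφ hφ.1.2.1
  have hmv : Measurable fun x : E3 => ENNReal.ofReal (∑ i, pd i v x ^ 2) :=
    (Finset.measurable_sum _ fun i _ => ((hpv i).measurable.pow_const 2)).ennreal_ofReal
  have hmφ : Measurable fun x : E3 => ENNReal.ofReal (∑ i, pd i φ x ^ 2) :=
    (Finset.measurable_sum _ fun i _ => ((hpφ i).measurable.pow_const 2)).ennreal_ofReal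
  have hmQ : Measurable fun x : E3 => ENNReal.ofReal (c * φ x ^ 2) :=
    ((hcφ.measurable.pow_const 2).const_mul c).ennreal_ofReal
  rw [← ENNReal.ofReal_le_ofReal_iff hDφ0, ENNReal.ofReal_add hDv0 (by positivity), hQ,
    SLW_DD hv.1.1 hv.1.2.1, SLW_DD hφ.1.1 hφ.1.2.1, ← lintegral_add_left hmv,
    SLW_tot h3 (fun x => ENNReal.ofReal (∑ i, pd i v x ^ 2) + ENNReal.ofReal (c * φ x ^ 2))
      (hmv.add hmQ), SLW_tot h3 _ hmφ]
  refine setLIntegral_mono' SLW_HpM fun p hp => ?_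
  have hr0 : (0 : ℝ) < p.1 := hp
  have hrn : p.1 ≠ 0 := hr0.ne'
  obtain ⟨r, z⟩ := p
  simp only at hr0 hrn ⊢
  set A : ℝ → ℝ := fun s => Real.cos s * pd 0 φ (cyl r s z) + Real.sin s * pd 1 φ (cyl r s z)
    with hA
  set B : ℝ → ℝ := fun s => -Real.sin s * pd 0 φ (cyl r s z) + Real.cos s * pd 1 φ (cyl r s z)
    with hB
  set Z : ℝ → ℝ := fun s => pd 2 φ (cyl r s z) with hZ
  set f : ℝ → ℝ := fun s => φ (cyl r s z) with hf
  have hcy := CP2_cy r z
  have hpc : ∀ i, Continuous fun s : ℝ => pd i φ (cyl r s z) := fun i => (hpφ i).comp hcy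
  have hAc : Continuous A :=
    (Real.continuous_cos.mul (hpc 0)).add (Real.continuous_sin.mul (hpc 1))
  have hBc : Continuous B :=
    (Real.continuous_sin.neg.mul (hpc 0)).add (Real.continuous_cos.mul (hpc 1))
  have hZc : Continuous Z := hpc 2
  have hfc : Continuous f := hcφ.comp hcy
  have hfd : ContDiff ℝ ((⊤ : ℕ∞) : WithTop ℕ∞) f := (h2 φ hφ.1.1 r 0 z).2.2.2.2.1
  have hder : ∀ t, deriv f t = r * B t := fun t => ((h2 φ hφ.1.1 r t z).2.1).deriv
  have hper := fun s => CP2_pd h2 h5 hφ r s z hr0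
  have hap : ∀ t, f (t + Real.pi / n') = -f t := by
    intro t
    simp only [hf]
    rw [← h5.2.2.2.2.2.2.2.2 (Real.pi / n') r t z]
    exact hφ.2 _
  have hW := h4 f n' hn' (hfd.of_le (by simp)) hap
  simp only [hder] at hW
  -- the function of the slice
  have hΦc : Continuous fun s => r * (A s ^ 2 + q ^ 2 * B s ^ 2 + Z s ^ 2) :=
    continuous_const.mul (((hAc.pow 2).add (continuous_const.mul (hBc.pow 2))).add (hZc.pow 2))
  have hΦp : ∀ s, r * (A (s + Real.pi / n') ^ 2 + q ^ 2 * B (s + Real.pi / n') ^ 2 +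
      Z (s + Real.pi / n') ^ 2) = r * (A s ^ 2 + q ^ 2 * B s ^ 2 + Z s ^ 2) := by
    intro s
    obtain ⟨e1, e2, e3⟩ := hper s
    have e1' : A (s + Real.pi / n') = -A s := e1
    have e2' : B (s + Real.pi / n') = -B s := e2
    have e3' : Z (s + Real.pi / n') = -Z s := e3
    rw [e1', e2', e3']
    ring
  have hCP := h1 _ n n' hn hn' hΦc hΦp
  have hgv : ∀ t, ∑ i, pd i v (cyl r t z) ^ 2 =
      A (q * t) ^ 2 + q ^ 2 * B (q * t) ^ 2 + Z (q * t) ^ 2 := fun t =>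
    CP2_grad h2 hφ.1.1 hv.1.1 h r t z hr0 (q * t) rfl
  have hgφ : ∀ t, ∑ i, pd i φ (cyl r t z) ^ 2 = A t ^ 2 + B t ^ 2 + Z t ^ 2 := by
    intro t
    rw [Fin.sum_univ_three]
    simp only [hA, hB, hZ]
    have h7 := Real.sin_sq_add_cos_sq t
    linear_combination (-(pd 0 φ (cyl r t z) ^ 2 + pd 1 φ (cyl r t z) ^ 2)) * h7
  -- the support
  have hsupp : ∀ t, c * (r * f t ^ 2) ≤ ((n' : ℝ) ^ 2 - (n : ℝ) ^ 2) / r * f t ^ 2 := by
    intro t
    by_cases hft : f t = 0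
    · rw [hft]
      simp
    · have hmem : cyl r t z ∈ Ω := by
        apply hφ.1.2.2
        apply subset_tsupport
        exact hft
      have h6 := hΩ _ hmem
      have h7 : cyl r t z 0 ^ 2 + cyl r t z 1 ^ 2 = r ^ 2 := by
        have h8 : cyl r t z 0 = r * Real.cos t := rfl
        have h9 : cyl r t z 1 = r * Real.sin t := rfl
        rw [h8, h9]
        have h7 := Real.sin_sq_add_cos_sq t
        linear_combination (r ^ 2) * h7
      rw [h7] at h6
      have h10 : c * r ≤ ((n' : ℝ) ^ 2 - (n : ℝ) ^ 2) / r := by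
        rw [hc, le_div_iff₀ hr0]
        calc ((n' : ℝ) ^ 2 - (n : ℝ) ^ 2) / R ^ 2 * r * r
            = ((n' : ℝ) ^ 2 - (n : ℝ) ^ 2) * (r ^ 2 / R ^ 2) := by ring
          _ ≤ ((n' : ℝ) ^ 2 - (n : ℝ) ^ 2) * 1 := by
              apply mul_le_mul_of_nonneg_left _ hd0.le
              rw [div_le_one (by positivity)]
              exact h6
          _ = _ := mul_one _
      calc c * (r * f t ^ 2) = c * r * f t ^ 2 := by ring
        _ ≤ _ := mul_le_mul_of_nonneg_right h10 (sq_nonneg _)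
  -- the inequality of the integrals
  have hqc : Continuous fun t : ℝ => q * t := continuous_const.mul continuous_id
  have g1c : Continuous fun t => r * (A (q * t) ^ 2 + q ^ 2 * B (q * t) ^ 2 + Z (q * t) ^ 2) :=
    hΦc.comp hqc
  have g2c : Continuous fun t => c * (r * f t ^ 2) :=
    continuous_const.mul (continuous_const.mul (hfc.pow 2))
  have g3c : Continuous fun t => r * (A t ^ 2 + B t ^ 2 + Z t ^ 2) :=
    continuous_const.mul (((hAc.pow 2).add (hBc.pow 2)).add (hZc.pow 2))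
  have hII : ∀ g : ℝ → ℝ, Continuous g → IntervalIntegrable g volume (-Real.pi) Real.pi :=
    fun g hg => hg.intervalIntegrable _ _
  have hint : (∫ t in (-Real.pi)..Real.pi, (r * (A (q * t) ^ 2 + q ^ 2 * B (q * t) ^ 2 +
      Z (q * t) ^ 2) + c * (r * f t ^ 2))) ≤
      ∫ t in (-Real.pi)..Real.pi, r * (A t ^ 2 + B t ^ 2 + Z t ^ 2) := by
    rw [intervalIntegral.integral_add (hII _ g1c) (hII _ g2c)]
    have hCP' : (∫ t in (-Real.pi)..Real.pi, r * (A (q * t) ^ 2 + q ^ 2 * B (q * t) ^ 2 +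
        Z (q * t) ^ 2)) =
        ∫ t in (-Real.pi)..Real.pi, r * (A t ^ 2 + q ^ 2 * B t ^ 2 + Z t ^ 2) := hCP
    rw [hCP']
    have hle : -Real.pi ≤ Real.pi := by linarith [Real.pi_pos]
    have k1 : (∫ t in (-Real.pi)..Real.pi, c * (r * f t ^ 2)) ≤
        ∫ t in (-Real.pi)..Real.pi, ((n' : ℝ) ^ 2 - (n : ℝ) ^ 2) / r * f t ^ 2 :=
      intervalIntegral.integral_mono_on hle (hII _ g2c)
        (hII _ (continuous_const.mul (hfc.pow 2))) fun t _ => hsupp t
    have k2 : (∫ t in (-Real.pi)..Real.pi, ((n' : ℝ) ^ 2 - (n : ℝ) ^ 2) / r * f t ^ 2) =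
        (1 - q ^ 2) / r * ((n' : ℝ) ^ 2 * ∫ t in (-Real.pi)..Real.pi, f t ^ 2) := by
      rw [intervalIntegral.integral_const_mul, hq]
      field_simp
    have k3 : (1 - q ^ 2) / r * ((n' : ℝ) ^ 2 * ∫ t in (-Real.pi)..Real.pi, f t ^ 2) ≤
        (1 - q ^ 2) / r * ∫ t in (-Real.pi)..Real.pi, (r * B t) ^ 2 := by
      apply mul_le_mul_of_nonneg_left hW
      have : q ^ 2 ≤ 1 := by
        rw [hq, div_pow, div_le_one (by positivity)]
        exact pow_le_pow_left₀ hn0.le hlt.le 2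
      apply div_nonneg (by linarith) hr0.le
    have k4 : (1 - q ^ 2) / r * ∫ t in (-Real.pi)..Real.pi, (r * B t) ^ 2 =
        ∫ t in (-Real.pi)..Real.pi, r * ((1 - q ^ 2) * B t ^ 2) := by
      rw [← intervalIntegral.integral_const_mul]
      apply intervalIntegral.integral_congr
      intro t _
      simp only
      field_simp
    have k5 : (∫ t in (-Real.pi)..Real.pi, r * (A t ^ 2 + B t ^ 2 + Z t ^ 2)) =
        (∫ t in (-Real.pi)..Real.pi, r * (A t ^ 2 + q ^ 2 * B t ^ 2 + Z t ^ 2)) +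
          ∫ t in (-Real.pi)..Real.pi, r * ((1 - q ^ 2) * B t ^ 2) := by
      have hBq : Continuous fun t => r * ((1 - q ^ 2) * B t ^ 2) :=
        continuous_const.mul (continuous_const.mul (hBc.pow 2))
      rw [← intervalIntegral.integral_add (hII _ hΦc) (hII _ hBq)]
      apply intervalIntegral.integral_congr
      intro t _
      simp only
      ring
    linarith
  have eL : ∀ t, ENNReal.ofReal r * (ENNReal.ofReal (∑ i, pd i v (cyl r t z) ^ 2) +
      ENNReal.ofReal (c * φ (cyl r t z) ^ 2)) =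
      ENNReal.ofReal (r * (A (q * t) ^ 2 + q ^ 2 * B (q * t) ^ 2 + Z (q * t) ^ 2) +
        c * (r * f t ^ 2)) := by
    intro t
    rw [← ENNReal.ofReal_add (Finset.sum_nonneg fun i _ => sq_nonneg _) (by positivity),
      ← ENNReal.ofReal_mul hr0.le, hgv t]
    congr 1
    simp only [hf]
    ring
  have eR : ∀ t, ENNReal.ofReal r * ENNReal.ofReal (∑ i, pd i φ (cyl r t z) ^ 2) =
      ENNReal.ofReal (r * (A t ^ 2 + B t ^ 2 + Z t ^ 2)) := by
    intro t
    rw [← ENNReal.ofReal_mul hr0.le, hgφ t]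
  simp only [eL, eR]
  have g12c : Continuous fun t => r * (A (q * t) ^ 2 + q ^ 2 * B (q * t) ^ 2 + Z (q * t) ^ 2) +
      c * (r * f t ^ 2) := g1c.add g2c
  rw [CP2_key g12c (fun t => by positivity), CP2_key g3c (fun t => by positivity)]
  exact ENNReal.ofReal_le_ofReal hint

end Pool.Agent.Work.MP_d5b3be_an.BU
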