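import Pool.Agent.Work.MP_d5b3be_an.BN.Defs

/-!
# Families of solutions with increasing energies
-/

set_option autoImplicit false

namespace Pool.Agent.Work.MP_d5b3be_an.BU

open Pool.Agent.Work.MP_d5b3be_an.BN
open MeasureTheory Filter Set
open scoped ENNReal Topology ContDiff

/-- at least `X` infinite families of pairwise different solutions; the solutions of the family `i` have
the energy `∫ u⁶ = E i`, and these numbers are strictly increasing in `i` -/
def FamE (Ω : Set E3) (lam X : ℝ) : Prop :=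
  ∃ (N : ℕ) (U : Fin N → ℕ → E3 → ℝ) (E : Fin N → ℝ), X ≤ N ∧ (∀ i j, IsSol Ω lam (U i j)) ∧
    (∀ i j j', j ≠ j' → ¬ (U i j =ᵐ[volume] U i j')) ∧ (∀ i j, ∫ x, U i j x ^ 6 = E i) ∧
    StrictMono E

end Pool.Agent.Work.MP_d5b3be_an.BU
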