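import Pool.Agent.Work.MP_d5b3be_an.BU.Stmts2

/-!
# Block BU, item EXM: existence with minimality
-/

set_option autoImplicit false

namespace Pool.Agent.Work.MP_d5b3be_an.BU

open Pool.Agent.Work.MP_d5b3be_an.BN
open MeasureTheory Filter Set
open scoped ENNReal Topology ContDiff

theorem EXM_N6 (s : ℝ) (u : E3 → ℝ) : N6 (fun x => s * u x) = s ^ 6 * N6 u := by
  unfold N6
  rw [← integral_const_mul]
  exact integral_congr_ae (Filter.Eventually.of_forall fun x => by
    show (s * u x) ^ 6 = s ^ 6 * u x ^ 6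
    ring)

theorem EXM_Q2 (s : ℝ) (u : E3 → ℝ) : Q2 (fun x => s * u x) = s ^ 2 * Q2 u := by
  unfold Q2
  rw [← integral_const_mul]
  exact integral_congr_ae (Filter.Eventually.of_forall fun x => by
    show (s * u x) ^ 2 = s ^ 2 * u x ^ 2
    ring)

theorem EXM_DD (s : ℝ) (g : Fin 3 → E3 → ℝ) : DD (fun i x => s * g i x) = s ^ 2 * DD g := by
  unfold DD
  rw [← integral_const_mul]
  refine integral_congr_ae (Filter.Eventually.of_forall fun x => ?_)
  show (∑ i, (s * g i x) ^ 2) = s ^ 2 * ∑ i, g i x ^ 2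
  rw [Finset.mul_sum]
  exact Finset.sum_congr rfl fun i _ => by ring

theorem EXM_af (lam s : ℝ) (u : E3 → ℝ) (g : Fin 3 → E3 → ℝ) :
    af lam (fun x => s * u x) (fun i x => s * g i x) = s ^ 2 * af lam u g := by
  unfold af
  rw [EXM_DD, EXM_Q2]
  ring

theorem prfEXM (h1 : INF) (h2 : CPT) (h3 : EUL) (h4 : HCL) : EXM := by
  intro Ω T ν V lam hb hT hHy hex
  obtain ⟨m, hm, hmν, hmall, φ, hφ, hlim⟩ := h1 T ν V lam hHy hex
  obtain ⟨u, g, hHC, hL6, hN6, haf⟩ := h2 Ω T ν V lam m φ hb hT hHy hm hmν hmall hφ hlim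
  have hE := h3 T ν V lam m u g hHy hm hmall hHC hL6 hN6 haf
  set s : ℝ := Real.sqrt (Real.sqrt m) with hs
  have hs0 : 0 < s := Real.sqrt_pos.2 (Real.sqrt_pos.2 hm)
  have hs2 : s ^ 2 = Real.sqrt m := Real.sq_sqrt (Real.sqrt_nonneg m)
  have hs4 : s ^ 4 = m := by
    have : s ^ 4 = (s ^ 2) ^ 2 := by ring
    rw [this, hs2, Real.sq_sqrt hm.le]
  have hNU : N6 (fun x => s * u x) = s ^ 6 := by rw [EXM_N6, hN6, mul_one]
  have hs12 : (s ^ 6) ^ 2 = m ^ 3 := by
    rw [← hs4]; ring
  refine ⟨fun x => s * u x, fun i x => s * g i x, ?_, hL6.const_mul s, ?_, ?_, ?_, ?_, ?_, ?_⟩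
  · have h := (h4 T hHy.1).2 u u g g s 0 hHC hHC
    have e1 : (fun x => s * u x + 0 * u x) = fun x => s * u x := by
      funext x; ring
    have e2 : (fun (i : Fin 3) (x : E3) => s * g i x + 0 * g i x) = fun i x => s * g i x := by
      funext i x; ring
    rwa [e1, e2] at h
  · intro h0
    have h1 : N6 (fun x => s * u x) = 0 := by
      unfold N6
      rw [show (0 : ℝ) = ∫ _x : E3, (0 : ℝ) by simp]
      refine integral_congr_ae ?_
      filter_upwards [h0] with x hx
      show (s * u x) ^ 6 = 0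
      rw [hx]
      norm_num
    rw [hNU] at h1
    exact (pow_pos hs0 6).ne' h1
  · rw [hNU, hs12]
    exact hmν
  · intro w hw
    have h := hE w hw
    have h1 : (∫ x, ∑ i, (s * g i x) * pd i w x) = s * ∫ x, ∑ i, g i x * pd i w x := by
      rw [← integral_const_mul]
      refine integral_congr_ae (Filter.Eventually.of_forall fun x => ?_)
      show (∑ i, (s * g i x) * pd i w x) = s * ∑ i, g i x * pd i w x
      rw [Finset.mul_sum]
      exact Finset.sum_congr rfl fun i _ => by ring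
    have h2 : (∫ x, (s * u x) ^ 5 * w x) = s ^ 5 * ∫ x, u x ^ 5 * w x := by
      rw [← integral_const_mul]
      refine integral_congr_ae (Filter.Eventually.of_forall fun x => ?_)
      show (s * u x) ^ 5 * w x = s ^ 5 * (u x ^ 5 * w x)
      ring
    have h3 : (∫ x, (s * u x) * w x) = s * ∫ x, u x * w x := by
      rw [← integral_const_mul]
      refine integral_congr_ae (Filter.Eventually.of_forall fun x => ?_)
      show (s * u x) * w x = s * (u x * w x)
      ring
    show (∫ x, ∑ i, (s * g i x) * pd i w x) = (∫ x, (s * u x) ^ 5 * w x) +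
      lam * ∫ x, (s * u x) * w x
    rw [h1, h2, h3]
    have h5 : s ^ 5 = s * m := by rw [← hs4]; ring
    rw [h5]
    linear_combination s * h
  · rw [hNU]
    exact pow_pos hs0 6
  · rw [hNU, EXM_af, haf, ← hs4]
    ring
  · intro ψ hψ
    rw [hNU, hs12]
    exact hmall ψ hψ

end Pool.Agent.Work.MP_d5b3be_an.BU
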