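import Pool.Agent.Work.MP_d5b3be_an.BU.Stmts

/-! Item IN0 of the block BU (problem MP_d5b3be_an): integrability of the profiles. -/

set_option autoImplicit false

namespace Pool.Agent.Work.MP_d5b3be_an.BU

open Pool.Agent.Work.MP_d5b3be_an.BN
open MeasureTheory Filter Set
open scoped ENNReal Topology ContDiff

lemma IN0_meas : MeasurableSet Hp := measurableSet_lt measurable_const measurable_fst

lemma IN0_basic (f : ℝ × ℝ → ℝ) (hf : Continuous f) (hc : HasCompactSupport f) :
    IntegrableOn (fun p : ℝ × ℝ => p.1 * f p ^ 2) Hp := by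
  have h1 : Continuous (fun p : ℝ × ℝ => p.1 * f p ^ 2) := by fun_prop
  have h2 : HasCompactSupport (fun p : ℝ × ℝ => f p ^ 2) :=
    hc.comp_left (g := fun x : ℝ => x ^ 2) (by norm_num)
  have h3 : HasCompactSupport (fun p : ℝ × ℝ => p.1 * f p ^ 2) := h2.mul_left
  exact (h1.integrable_of_hasCompactSupport h3).integrableOn

lemma IN0_bound (g : ℝ × ℝ → ℝ) (hg : ContDiff ℝ ((⊤ : ℕ∞) : WithTop ℕ∞) g)
    (hc : HasCompactSupport g) (h0 : ∀ z : ℝ, g (0, z) = 0) :
    ∃ C : ℝ, 0 ≤ C ∧ ∀ p : ℝ × ℝ, 0 < p.1 → |g p| ≤ C * p.1 := by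
  have hfc : Continuous (fderiv ℝ g) := hg.continuous_fderiv (by simp)
  obtain ⟨C, hC⟩ := hfc.bounded_above_of_compact_support (hc.fderiv (𝕜 := ℝ))
  have hC0 : 0 ≤ C := le_trans (norm_nonneg _) (hC 0)
  refine ⟨C, hC0, ?_⟩
  intro p hp
  have hd : Differentiable ℝ g := hg.differentiable (by simp)
  have h1 := (convex_univ : Convex ℝ (Set.univ : Set (ℝ × ℝ))).norm_image_sub_le_of_norm_fderiv_le
    (f := g) (𝕜 := ℝ) (C := C) (x := ((0 : ℝ), p.2)) (y := p)
    (fun x _ => hd x) (fun x _ => hC x) (Set.mem_univ _) (Set.mem_univ _)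
  rw [h0, sub_zero, Real.norm_eq_abs] at h1
  have h2 : ‖p - ((0 : ℝ), p.2)‖ = p.1 := by
    have : p - ((0 : ℝ), p.2) = (p.1, 0) := by
      ext <;> simp
    rw [this, Prod.norm_def]
    simp [abs_of_pos hp, hp.le]
  rw [h2] at h1
  exact h1

theorem prfIN0 : IN0 := by
  intro g hg hc
  have hfc : Continuous (fderiv ℝ g) := hg.continuous_fderiv (by simp)
  refine ⟨IN0_basic g hg.continuous hc, ?_, ?_, ?_⟩
  · refine IN0_basic (e1 g) ?_ ?_
    · unfold e1
      exact hfc.clm_apply continuous_const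
    · exact hc.fderiv_apply (𝕜 := ℝ) ((1 : ℝ), (0 : ℝ))
  · refine IN0_basic (e2 g) ?_ ?_
    · unfold e2
      exact hfc.clm_apply continuous_const
    · exact hc.fderiv_apply (𝕜 := ℝ) ((0 : ℝ), (1 : ℝ))
  · intro h0
    obtain ⟨C, hC0, hC⟩ := IN0_bound g hg hc h0
    have h1 : Integrable (fun p : ℝ × ℝ => C * |g p|) := by
      have h2 : Continuous (fun p : ℝ × ℝ => C * |g p|) := by
        have := hg.continuous
        fun_prop
      have h3 : HasCompactSupport (fun p : ℝ × ℝ => |g p|) :=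
        hc.comp_left (g := fun x : ℝ => |x|) (by simp)
      exact h2.integrable_of_hasCompactSupport h3.mul_left
    refine Integrable.mono' h1.integrableOn ?_ ?_
    · exact ((hg.continuous.measurable.pow_const 2).div measurable_fst).aestronglyMeasurable
    · refine ae_restrict_of_forall_mem IN0_meas ?_
      intro p hp
      have hp1 : 0 < p.1 := hp
      rw [Real.norm_eq_abs, abs_of_nonneg (by positivity), div_le_iff₀ hp1, ← sq_abs, sq]
      have h4 := mul_le_mul_of_nonneg_left (hC p hp1) (abs_nonneg (g p))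
      calc |g p| * |g p| ≤ |g p| * (C * p.1) := h4
        _ = C * |g p| * p.1 := by ring

end Pool.Agent.Work.MP_d5b3be_an.BU
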