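import Pool.Agent.Work.MP_d5b3be_an.BU.Stmts

/-!
# Block BU, item SLP: a good slice
-/

set_option autoImplicit false

namespace Pool.Agent.Work.MP_d5b3be_an.BU

open Pool.Agent.Work.MP_d5b3be_an.BN
open MeasureTheory Filter Set
open scoped ENNReal Topology ContDiff

theorem SLP_meas : MeasurableSet Hp := (isOpen_lt continuous_const continuous_fst).measurableSet

theorem SLP_Ai (g : ℝ × ℝ → ℝ) : 0 ≤ Ai g :=
  setIntegral_nonneg SLP_meas fun p hp =>
    mul_nonneg (le_of_lt hp) (add_nonneg (sq_nonneg _) (sq_nonneg _))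

theorem SLP_DD (g : Fin 3 → E3 → ℝ) : 0 ≤ DD g :=
  integral_nonneg fun _ => Finset.sum_nonneg fun _ _ => sq_nonneg _

theorem prfSLP (_h1 : SLC) (h2 : SLB) : SLP := by
  intro Ω φ μ hΩ hφ hμ hlt
  by_contra hcon
  push Not at hcon
  obtain ⟨hB, hA⟩ := h2 Ω φ hΩ hφ
  have key : ∀ t, μ * Bi (sl φ t) ≤ Ai (sl φ t) := by
    intro t
    rcases le_or_gt (Bi (sl φ t)) 0 with h | h
    · exact (mul_nonpos_of_nonneg_of_nonpos hμ.le h).trans (SLP_Ai _)
    · exact (hcon t h).le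
  have h3 : ENNReal.ofReal (μ * Q2 φ) ≤ ENNReal.ofReal (DD (gr φ)) := by
    rw [ENNReal.ofReal_mul hμ.le, hB, ← lintegral_const_mul' _ _ ENNReal.ofReal_ne_top]
    refine le_trans (lintegral_mono fun t => ?_) hA
    rw [← ENNReal.ofReal_mul hμ.le]
    exact ENNReal.ofReal_le_ofReal (key t)
  rw [ENNReal.ofReal_le_ofReal_iff (SLP_DD _)] at h3
  exact absurd hlt (not_lt.2 h3)

end Pool.Agent.Work.MP_d5b3be_an.BU
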