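import Pool.Agent.Work.MP_d5b3be_an.BU.Stmts2

/-! Block BU, item STR: the strict inequality between the classes. -/

set_option autoImplicit false

namespace Pool.Agent.Work.MP_d5b3be_an.BU

open Pool.Agent.Work.MP_d5b3be_an.BN
open MeasureTheory Filter Set
open scoped ENNReal Topology ContDiff

theorem STR_pd_memLp {T : (E3 → ℝ) → Prop} (hT : Cl T) {φ : E3 → ℝ} (h : T φ) (i : Fin 3) :
    MemLp (pd i φ) 2 volume := by
  obtain ⟨h1, h2⟩ := hT.1 φ h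
  have hc : Continuous (pd i φ) := by
    have := h1.continuous_fderiv (by simp)
    exact this.clm_apply continuous_const
  exact hc.memLp_of_hasCompactSupport (h2.fderiv_apply (𝕜 := ℝ) _)

theorem STR_memLp {T : (E3 → ℝ) → Prop} (hT : Cl T) {φ : E3 → ℝ} (h : T φ) (p : ℝ≥0∞) :
    MemLp φ p volume := by
  obtain ⟨h1, h2⟩ := hT.1 φ h
  exact h1.continuous.memLp_of_hasCompactSupport h2

theorem STR_DD {g : Fin 3 → E3 → ℝ} (hg : ∀ i, MemLp (g i) 2 volume) :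
    DD g = ∑ i, ∫ x, g i x ^ 2 := by
  unfold DD
  exact integral_finsetSum _ fun i _ => (hg i).integrable_sq

/-- the integral of the square of a function which is not zero is positive -/
theorem STR_pos {u : E3 → ℝ} (hu : MemLp u 2 volume) (h0 : ¬ (u =ᵐ[volume] fun _ => 0)) :
    0 < Q2 u := by
  have hnn : 0 ≤ Q2 u := integral_nonneg fun x => sq_nonneg _
  rcases hnn.lt_or_eq with h | h
  · exact h
  · exfalso
    apply h0
    have h1 := (integral_eq_zero_iff_of_nonneg (fun x => sq_nonneg (u x)) hu.integrable_sq).1 h.symm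
    filter_upwards [h1] with x hx
    have hx' : u x ^ 2 = 0 := hx
    exact pow_eq_zero_iff (two_ne_zero) |>.1 hx'

theorem STR_lim {a b : ℕ → ℝ} {l : ℝ} (ha : Tendsto a atTop (𝓝 l))
    (hb : ∀ k : ℕ, |b k - a k| < 1 / ((k : ℝ) + 1)) : Tendsto b atTop (𝓝 l) := by
  have h1 : Tendsto (fun k => b k - a k) atTop (𝓝 0) := by
    apply squeeze_zero_norm (a := fun k : ℕ => 1 / ((k : ℝ) + 1))
    · intro k
      rw [Real.norm_eq_abs]
      exact (hb k).le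
    · exact tendsto_one_div_add_atTop_nhds_zero_nat
  have h2 := h1.add ha
  simpa using h2

theorem prfSTR (h1 : CP1) (h2 : CP2) (h3 : AXC) (h4 : SOB) (h5 : CLT) (h6 : HS6) (h7 : LCV)
    (h8 : L6C) : STR := by
  intro Ω n n' lam R μ u g hRI hn hnn hR hΩ hμ hHC hu0
  obtain ⟨hu2, hg2, φ, hφ, hc1, hc2⟩ := hHC
  have hn' : 1 ≤ n' := by omega
  have hT : Cl (TestN Ω n') := (h5 Ω).2 n'
  have hn'R : (0 : ℝ) < n' := by exact_mod_cast hn'
  have hc : (0 : ℝ) < (n' : ℝ) ^ 2 / 64 := by positivity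
  obtain ⟨hu6, hcv6⟩ := h6 (TestN Ω n') ((n' : ℝ) ^ 2 / 64) u g φ hT hc (fun f hf => by
    have := h4 Ω n' f hn' hf
    linarith) hu2 hg2 hφ hc1 hc2
  have hN : Tendsto (fun k => N6 (φ k)) atTop (𝓝 (N6 u)) :=
    (h8 φ u (fun k => STR_memLp hT (hφ k) 6) hu6 hcv6).1
  have hQ : Tendsto (fun k => Q2 (φ k)) atTop (𝓝 (Q2 u)) :=
    (h7 φ u (fun k => STR_memLp hT (hφ k) 2) hu2 hc1).1
  have hD : Tendsto (fun k => DD (gr (φ k))) atTop (𝓝 (DD g)) := by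
    have e1 : ∀ k, DD (gr (φ k)) = ∑ i, ∫ x, gr (φ k) i x ^ 2 := fun k =>
      STR_DD fun i => STR_pd_memLp hT (hφ k) i
    simp_rw [e1, STR_DD hg2]
    exact tendsto_finsetSum _ fun i _ =>
      (h7 (fun k => pd i (φ k)) (g i) (fun k => STR_pd_memLp hT (hφ k) i) (hg2 i) (hc2 i)).1
  -- the functions which vanish near the axis
  have hψ : ∀ k : ℕ, ∃ ψ, TestN Ω n' ψ ∧ Vax ψ ∧ |N6 ψ - N6 (φ k)| < 1 / ((k : ℝ) + 1) ∧
      |Q2 ψ - Q2 (φ k)| < 1 / ((k : ℝ) + 1) ∧ |DD (gr ψ) - DD (gr (φ k))| < 1 / ((k : ℝ) + 1) :=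
    fun k => h3 Ω n' (φ k) (1 / ((k : ℝ) + 1)) hRI hn' (hφ k) (by positivity)
  choose ψ p1 p2 p3 p4 p5 using hψ
  have hN' : Tendsto (fun k => N6 (ψ k)) atTop (𝓝 (N6 u)) := STR_lim hN p3
  have hQ' : Tendsto (fun k => Q2 (ψ k)) atTop (𝓝 (Q2 u)) := STR_lim hQ p4
  have hD' : Tendsto (fun k => DD (gr (ψ k))) atTop (𝓝 (DD g)) := STR_lim hD p5
  -- the inequality for the approximations
  set c : ℝ := ((n' : ℝ) ^ 2 - (n : ℝ) ^ 2) / R ^ 2 with hcdef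
  have hc0 : 0 < c := by
    have e1 : (n : ℝ) < n' := by exact_mod_cast hnn
    have e2 : (n : ℝ) ^ 2 < (n' : ℝ) ^ 2 := pow_lt_pow_left₀ e1 (Nat.cast_nonneg n) two_ne_zero
    have e3 : 0 < (n' : ℝ) ^ 2 - (n : ℝ) ^ 2 := by linarith
    positivity
  have hin : ∀ k, μ * N6 (ψ k) ≤ (DD (gr (ψ k)) - c * Q2 (ψ k) - lam * Q2 (ψ k)) ^ 3 := by
    intro k
    obtain ⟨v, v1, -, v3⟩ := h1 Ω n n' (ψ k) hRI hn hn' (p1 k) (p2 k)
    obtain ⟨w1, w2, w3⟩ := h2 Ω n n' (ψ k) v R hRI hn hnn hR hΩ (p1 k) v1 v3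
    have e1 := hμ v v1
    unfold af at e1
    rw [w1, w2] at e1
    have e2 : DD (gr v) - lam * Q2 (ψ k) ≤ DD (gr (ψ k)) - c * Q2 (ψ k) - lam * Q2 (ψ k) := by
      linarith
    exact e1.trans ((Odd.strictMono_pow (by decide : Odd 3)).monotone e2)
  have hlim : μ * N6 u ≤ (DD g - c * Q2 u - lam * Q2 u) ^ 3 :=
    le_of_tendsto_of_tendsto' (hN'.const_mul μ)
      (((hD'.sub (hQ'.const_mul c)).sub (hQ'.const_mul lam)).pow 3) hin
  have hpos := STR_pos hu2 hu0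
  have e3 : DD g - c * Q2 u - lam * Q2 u < DD g - lam * Q2 u := by
    have := mul_pos hc0 hpos
    linarith
  calc μ * N6 u ≤ (DD g - c * Q2 u - lam * Q2 u) ^ 3 := hlim
    _ < (DD g - lam * Q2 u) ^ 3 := Odd.strictMono_pow (by decide : Odd 3) e3
    _ = af lam u g ^ 3 := rfl

end Pool.Agent.Work.MP_d5b3be_an.BU
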