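import Pool.Agent.Work.MP_d5b3be_an.BN.Stmts4

/-!
# Block BU: a uniform threshold for all bodies of revolution (statements)

THEOREM BU. There are absolute constants `C, c > 0` such that for EVERY nonempty bounded open body of
revolution `Ω ⊂ ℝ³` (no convexity) and every `lam ≥ C lam1 Ω` the Brezis-Nirenberg problem has infinitely
many solutions (in at least `c log(lam / lam1 Ω)`, and at least one, inequivalent infinite families).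

PLAN. `Pf Ω`: profiles `g(ρ, z)` (smooth, compact support, `g(0, z) = 0`, support over the meridian
section of `Ω`), `Ai`, `Bi`, `Wi`: the integrals of `|∇g|²`, `g²`, `g²/ρ²` with the weight `ρ`.
`Un Ω n` = infimum of `(Ai g + n² Wi g)/Bi g`. Slices of functions of the class `TestN Ω n` are profiles
(SLC, SLB, SLW), so `Un Ω n` is a lower bound of the class `n` (SLL); `Un Ω n ≤ C n² lam1 Ω` (SLP, AXI, CUT).
Given `Un Ω m ≤ lam < Un Ω (m+1)`, a nearly optimal profile for `m` is localized to a box of size `K ρ/n`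
(IMS localization with continuous parameters: FUB, CH1, LOR in `ρ`, LOZ in `z`: the error is `M n²/K²`
times `Wi`), and multiplied by `sin(n θ)`, `m < n ≤ (1+τ) m`, it is a test function of the class `n` below the
threshold (PSF, PSJ, KEY). Then the existence theorem of block BN (CR2).

Use the items of block BN as hypotheses or import `BN.All` and use `all_CYI`, `all_ROT`, ..; every item
may assume the items it quotes, as hypotheses (`theorem prfSLL (h1 : SLC) (h2 : SLB) (h3 : SLW) : SLL`).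
Please put the name of your item in the names of all auxiliary lemmas.
-/

set_option autoImplicit false

namespace Pool.Agent.Work.MP_d5b3be_an.BU

open Pool.Agent.Work.MP_d5b3be_an.BN
open MeasureTheory Filter Set
open scoped ENNReal Topology ContDiff

/-! ## Definitions -/

/-- the open half plane of the meridian coordinates -/
def Hp : Set (ℝ × ℝ) := {p | 0 < p.1}

/-- the derivative with respect to `ρ` -/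
noncomputable def e1 (g : ℝ × ℝ → ℝ) (p : ℝ × ℝ) : ℝ := fderiv ℝ g p ((1 : ℝ), (0 : ℝ))

/-- the derivative with respect to `z` -/
noncomputable def e2 (g : ℝ × ℝ → ℝ) (p : ℝ × ℝ) : ℝ := fderiv ℝ g p ((0 : ℝ), (1 : ℝ))

/-- `∫ |∇g|² ρ` -/
noncomputable def Ai (g : ℝ × ℝ → ℝ) : ℝ := ∫ p in Hp, p.1 * (e1 g p ^ 2 + e2 g p ^ 2)

/-- `∫ g² ρ` -/
noncomputable def Bi (g : ℝ × ℝ → ℝ) : ℝ := ∫ p in Hp, p.1 * g p ^ 2

/-- `∫ g² / ρ` -/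
noncomputable def Wi (g : ℝ × ℝ → ℝ) : ℝ := ∫ p in Hp, g p ^ 2 / p.1

/-- smooth functions with compact support, over the meridian section of `Ω` -/
def P0 (Ω : Set E3) (g : ℝ × ℝ → ℝ) : Prop :=
  ContDiff ℝ ((⊤ : ℕ∞) : WithTop ℕ∞) g ∧ HasCompactSupport g ∧
    ∀ p ∈ tsupport g, 0 < p.1 → cyl p.1 0 p.2 ∈ Ω

/-- profiles: they vanish on the axis -/
def Pf (Ω : Set E3) (g : ℝ × ℝ → ℝ) : Prop := P0 Ω g ∧ ∀ z : ℝ, g (0, z) = 0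

/-- the slice of a function at the angle `t` -/
noncomputable def sl (φ : E3 → ℝ) (t : ℝ) (p : ℝ × ℝ) : ℝ := φ (cyl p.1 t p.2)

/-- the function `g(ρ, z) sin(n θ)` -/
noncomputable def pf (n : ℕ) (g : ℝ × ℝ → ℝ) (x : E3) : ℝ :=
  g (Real.sqrt (x 0 ^ 2 + x 1 ^ 2), x 2) *
    ((((x 0 : ℂ) + (x 1 : ℂ) * Complex.I) ^ n).im / Real.sqrt (x 0 ^ 2 + x 1 ^ 2) ^ n)

/-- localization in `ρ` near `exp s`, with the relative width `h` -/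
noncomputable def cr (ζ : ℝ → ℝ) (h s : ℝ) (g : ℝ × ℝ → ℝ) (p : ℝ × ℝ) : ℝ :=
  ζ ((p.1 * Real.exp (-s) - 1) / h) * g p

/-- localization in `z` near `s`, with the width `l` -/
noncomputable def cz (ζ : ℝ → ℝ) (l s : ℝ) (g : ℝ × ℝ → ℝ) (p : ℝ × ℝ) : ℝ :=
  ζ ((p.2 - s) / l) * g p

/-- the set of the quotients of the profiles -/
def Qs (Ω : Set E3) (n : ℕ) : Set ℝ :=
  {q | ∃ g, Pf Ω g ∧ 0 < Bi g ∧ q = (Ai g + (n : ℝ) ^ 2 * Wi g) / Bi g}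

/-- the first eigenvalue of the class `n` -/
noncomputable def Un (Ω : Set E3) (n : ℕ) : ℝ := sInf (Qs Ω n)

/-! ## Integrals -/

/-- IN0 (EASY-MEDIUM): integrability. The first and the third function are continuous with compact
support. For the last one `|g(ρ, z)| ≤ C ρ` (`g(0, z) = 0`, the derivative is bounded: mean value
inequality), so `0 ≤ g²/ρ ≤ C |g|` for `ρ > 0`, and `|g|` is continuous with compact support. -/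
def IN0 : Prop :=
  ∀ g : ℝ × ℝ → ℝ, ContDiff ℝ ((⊤ : ℕ∞) : WithTop ℕ∞) g → HasCompactSupport g →
    IntegrableOn (fun p : ℝ × ℝ => p.1 * g p ^ 2) Hp ∧
    IntegrableOn (fun p : ℝ × ℝ => p.1 * e1 g p ^ 2) Hp ∧
    IntegrableOn (fun p : ℝ × ℝ => p.1 * e2 g p ^ 2) Hp ∧
    ((∀ z : ℝ, g (0, z) = 0) → IntegrableOn (fun p : ℝ × ℝ => g p ^ 2 / p.1) Hp)

/-- BWI (EASY-MEDIUM, from IN0): comparison of the integrals of a profile. (1) nonnegative. (2) if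
`Wi g = 0` or `Bi g = 0` then `g = 0` almost everywhere in `Hp`, so (continuous) everywhere in the open set
`Hp`, so `e1 g = e2 g = 0` there. (3), (4) compare the integrands: outside the support `g = 0`. -/
def BWI : Prop :=
  ∀ (Ω : Set E3) (g : ℝ × ℝ → ℝ), Pf Ω g →
    (0 ≤ Ai g ∧ 0 ≤ Bi g ∧ 0 ≤ Wi g) ∧
    ((Wi g = 0 ∨ Bi g = 0) → Ai g = 0 ∧ Bi g = 0 ∧ Wi g = 0) ∧
    (∀ R : ℝ, (∀ p ∈ tsupport g, 0 < p.1 → p.1 ≤ R) → Bi g ≤ R ^ 2 * Wi g) ∧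
    ∀ a : ℝ, 0 < a → (∀ p ∈ tsupport g, 0 < p.1 → a ≤ p.1) → a ^ 2 * Wi g ≤ Bi g

/-! ## Slices -/

/-- SLC (EASY-MEDIUM, from ROT, CYD): slices. `p ↦ cyl p.1 t p.2` is linear, so the slice is smooth; its
support is contained in the (compact) set of the `p` with `cyl p.1 t p.2 ∈ tsupport φ`
(`|p.1|, |p.2|` are bounded there), and `cyl r 0 z = rot (-t) (cyl r t z)`. The derivatives: CYD and the
chain rule (`fderiv` of a linear map). For the class `n`: `(0, 0, z)` is fixed by the rotations, so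
`φ(0, 0, z) = -φ(0, 0, z)`. -/
def SLC : Prop :=
  ∀ (Ω : Set E3) (φ : E3 → ℝ) (t : ℝ), RI Ω → Test Ω φ → P0 Ω (sl φ t) ∧
    (∀ p : ℝ × ℝ, e1 (sl φ t) p =
      Real.cos t * pd 0 φ (cyl p.1 t p.2) + Real.sin t * pd 1 φ (cyl p.1 t p.2)) ∧
    (∀ p : ℝ × ℝ, e2 (sl φ t) p = pd 2 φ (cyl p.1 t p.2)) ∧
    ∀ n : ℕ, 1 ≤ n → TestN Ω n φ → Pf Ω (sl φ t)

/-- SLB (MEDIUM, from CYI, SLC, IN0): integrals by slices. `ofReal (Bi (sl φ t))` is the `∫⁻` over `Hp` of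
`ofReal (ρ φ(cyl ρ t z)²)` (`ofReal_integral_eq_lintegral_ofReal`, IN0), over `Hp = Ioi 0 × ℝ` it is an
iterated integral (`lintegral_prod`, restricted measures); Tonelli and CYI. For `Ai`:
`(cos t a + sin t b)² + c² ≤ a² + b² + c²`. -/
def SLB : Prop :=
  ∀ (Ω : Set E3) (φ : E3 → ℝ), RI Ω → Test Ω φ →
    ENNReal.ofReal (Q2 φ) = (∫⁻ t in Ioo (-Real.pi) Real.pi, ENNReal.ofReal (Bi (sl φ t))) ∧
    (∫⁻ t in Ioo (-Real.pi) Real.pi, ENNReal.ofReal (Ai (sl φ t))) ≤ ENNReal.ofReal (DD (gr φ))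

/-- SLW (MEDIUM, from CYI, CYD, WAP, ROT, SLC, IN0; models `BN/ANG.lean` and SLB): for fixed `r > 0`, `z`,
`f(t) = φ(cyl r t z)` satisfies WAP, `f' = r (-sin t pd 0 φ + cos t pd 1 φ)`, so
`∫ (n²/r²) f² dt ≤ ∫ (-sin t pd 0 φ + cos t pd 1 φ)² dt`, and
`(-sin t a + cos t b)² + (cos t a + sin t b)² = a² + b²`. -/
def SLW : Prop :=
  ∀ (Ω : Set E3) (n : ℕ) (φ : E3 → ℝ), RI Ω → 1 ≤ n → TestN Ω n φ →
    (∫⁻ t in Ioo (-Real.pi) Real.pi,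
      ENNReal.ofReal (Ai (sl φ t) + (n : ℝ) ^ 2 * Wi (sl φ t))) ≤ ENNReal.ofReal (DD (gr φ))

/-- SLL (EASY, from SLC, SLB, SLW): the lower bound of the class `n`. For `V ≤ 0` trivial
(`Q2, DD ≥ 0`). For `V > 0`: `ofReal (V Q2) = ∫⁻ ofReal (V Bi) ≤ ∫⁻ ofReal (Ai + n² Wi) ≤ ofReal DD`. -/
def SLL : Prop :=
  ∀ (Ω : Set E3) (n : ℕ) (V : ℝ), RI Ω → 1 ≤ n →
    (∀ g, Pf Ω g → V * Bi g ≤ Ai g + (n : ℝ) ^ 2 * Wi g) →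
    ∀ φ, TestN Ω n φ → V * Q2 φ ≤ DD (gr φ)

/-- SLP (EASY-MEDIUM, from SLC, SLB): a good slice. Otherwise `μ Bi ≤ Ai` for every `t` (if `Bi = 0` this
is `0 ≤ Ai`), so `μ Q2 ≤ DD` by SLB (`0 < μ`). -/
def SLP : Prop :=
  ∀ (Ω : Set E3) (φ : E3 → ℝ) (μ : ℝ), RI Ω → Test Ω φ → 0 < μ → DD (gr φ) < μ * Q2 φ →
    ∃ t, 0 < Bi (sl φ t) ∧ Ai (sl φ t) ≤ μ * Bi (sl φ t)

/-- AXI (MEDIUM, from IN0): functions do not concentrate near the axis. For fixed `z`, `F(ρ) = f(ρ, z)`,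
`M(s) = ∫_0^s ρ F²`: `(ρ² F²)' = 2ρF² + 2ρ²FF'` and `2ρ²|F||F'| ≤ ρF² + ρ³F'²` give
`M(s) ≤ s² F(s)² + ∫_0^s ρ³ F'² ≤ s² F(s)² + s² A`, `A = ∫_0^∞ ρ F'²`. For `b ≤ s ≤ 2b` divide by `s`:
`M(b)/(2b) ≤ s F(s)² + s A`; integrate over `[b, 2b]`: `M(b)/2 ≤ (B - M(b)) + (3/2) b² A`, `B = ∫_0^∞ ρ F²`, so
`M(b) ≤ (2/3) B + b² A`. Integrate over `z` (Fubini on `Hp = Ioi 0 × ℝ`). -/
def AXI : Prop :=
  ∀ (f : ℝ × ℝ → ℝ) (b : ℝ), ContDiff ℝ ((⊤ : ℕ∞) : WithTop ℕ∞) f → HasCompactSupport f → 0 < b →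
    ∫ p in Hp ∩ {p | p.1 < b}, p.1 * f p ^ 2 ≤ 2 / 3 * Bi f + b ^ 2 * Ai f

/-- CUT (MEDIUM, from AXI, IN0): from slices to profiles. `b² = 1/(12 μ)`,
`κ(ρ) = Real.smoothTransition (2ρ/b - 1)`, `g(p) = κ(p.1) f(p)`. AXI: `∫_{ρ<b} ρ f² ≤ (2/3 + 1/12) Bi f`, so
`Bi g ≥ Bi f / 4` (`κ = 1` for `ρ ≥ b`). `|κ'| ≤ 2 S/b`, `S = sup |deriv smoothTransition|` (continuous, zero
outside `[0, 1]`): `Ai g ≤ 2 Ai f + (8 S²/b²) Bi f`. `κ = 0` for `ρ ≤ b/2`: `Wi g ≤ (4/b²) Bi f`. -/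
def CUT : Prop :=
  ∃ C : ℝ, 0 < C ∧ ∀ (Ω : Set E3) (f : ℝ × ℝ → ℝ) (μ : ℝ), P0 Ω f → 0 < μ → 0 < Bi f →
    Ai f ≤ μ * Bi f → ∃ g, Pf Ω g ∧ 0 < Bi g ∧ Ai g ≤ C * μ * Bi g ∧ Wi g ≤ C * μ * Bi g

/-! ## Profiles give test functions of the class -/

/-- PSF (MEDIUM, from ROT; model `BN/BXF.lean`): the function `g(ρ, z) sin(n θ)` is in the class if the
support of `g` is in a box away from the axis. (`cyl r t z = rot t (cyl r 0 z)` is in `Ω` if `(r, z)` is in the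
support of `g`.) -/
def PSF : Prop :=
  ∀ (Ω : Set E3) (n : ℕ) (g : ℝ × ℝ → ℝ) (ρ0 z0 δ : ℝ), RI Ω → 1 ≤ n → Pf Ω g → 0 < δ → δ < ρ0 →
    (∀ p ∈ tsupport g, |p.1 - ρ0| ≤ δ ∧ |p.2 - z0| ≤ δ) →
    TestN Ω n (pf n g) ∧ (∀ x, x ∉ boxS ρ0 z0 δ δ → pf n g x = 0) ∧
      ∀ r t z : ℝ, 0 < r → pf n g (cyl r t z) = g (r, z) * Real.sin (n * t)

/-- PSJ (MEDIUM, from PSF, CYD, CYI, IN0; model `BN/BXI.lean`): its integrals: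
`|∇φ|² = (∂_r φ)² + (∂_t φ)²/r² + (∂_z φ)²` (CYD), `∫ sin²(nt) = ∫ cos²(nt) = π` over `(-π, π)`. -/
def PSJ : Prop :=
  ∀ (Ω : Set E3) (n : ℕ) (g : ℝ × ℝ → ℝ) (ρ0 z0 δ : ℝ), RI Ω → 1 ≤ n → Pf Ω g → 0 < δ → δ < ρ0 →
    (∀ p ∈ tsupport g, |p.1 - ρ0| ≤ δ ∧ |p.2 - z0| ≤ δ) →
    Q2 (pf n g) = Real.pi * Bi g ∧ DD (gr (pf n g)) = Real.pi * (Ai g + (n : ℝ) ^ 2 * Wi g)

/-! ## Localization -/

/-- FUB (MEDIUM): the localization identity. On the product measure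
`|w (χ u + η v)²| ≤ 2 w χ² u² + 2 w η² v²`, whose integral (Tonelli, first over `y`) is
`2 c ∫ w u² + 2 ∫ w Γ v² < ∞`; so `w (χ u + η v)²` is integrable on `μ × volume.restrict Hp`; Fubini
(`integral_integral_swap`, `Integrable.integral_prod_left`), and for fixed `p`
`∫ (χ u + η v)² dμ(y) = c u² + Γ v²` (`∫ χ η = 0`; `χ η` is integrable by `2|χη| ≤ χ² + η²`). -/
def FUB : Prop :=
  ∀ (μ : Measure ℝ) [SFinite μ] (w u v Γ : ℝ × ℝ → ℝ) (χ η : ℝ → ℝ × ℝ → ℝ) (c : ℝ),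
    Measurable w → Measurable u → Measurable v → Measurable Γ →
    Measurable (Function.uncurry χ) → Measurable (Function.uncurry η) →
    (∀ p ∈ Hp, 0 ≤ w p) →
    (∀ p ∈ Hp, Integrable (fun y => χ y p ^ 2) μ ∧ Integrable (fun y => η y p ^ 2) μ ∧
      ∫ y, χ y p ^ 2 ∂μ = c ∧ ∫ y, χ y p * η y p ∂μ = 0 ∧ ∫ y, η y p ^ 2 ∂μ = Γ p) →
    IntegrableOn (fun p => w p * u p ^ 2) Hp → IntegrableOn (fun p => w p * (Γ p * v p ^ 2)) Hp →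
    Integrable (fun y => ∫ p in Hp, w p * (χ y p * u p + η y p * v p) ^ 2) μ ∧
    ∫ y, (∫ p in Hp, w p * (χ y p * u p + η y p * v p) ^ 2) ∂μ =
      c * (∫ p in Hp, w p * u p ^ 2) + ∫ p in Hp, w p * (Γ p * v p ^ 2)

/-- CH1 (MEDIUM): the one-dimensional integrals. For `ρ > 0` the substitution `s = s' + log ρ`
(`integral_add_right_eq_self`, `exp(-s' - log ρ) = exp(-s')/ρ`) reduces to `ρ = 1`:
`c1 = ∫ ζ((e^{-s} - 1)/h)² ds`, `c2 = ∫ (ζ'((e^{-s} - 1)/h) e^{-s}/h)² ds`. All integrands are continuous in `s`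
with compact support (`|e^{-s} - 1| ≤ h ≤ 1/2` on the support). The mixed integral is `-(1/2ρ)` times the
integral of the derivative of `ζ((ρ e^{-s} - 1)/h)²`, which is zero
(`integral_eq_zero_of_hasDerivAt_of_integrable`). With `t = (e^{-s} - 1)/h`, `ds = -h dt/(1 + h t)`
(substitution, or `integral_image_eq_integral_abs_deriv_smul`):
`c1 = h ∫ ζ(t)²/(1 + h t) dt ≥ (2/3) h I`, `c2 = (1/h) ∫ ζ'(t)² (1 + h t) dt ≤ (3/2) J/h`, `I = ∫ ζ²`, `J = ∫ ζ'²`. So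
`M = (9/4) J/I + 1`. -/
def CH1 : Prop :=
  ∀ ζ : ℝ → ℝ, Bmp ζ → 0 < ∫ x, ζ x ^ 2 → ∃ M : ℝ, 0 < M ∧ ∀ h : ℝ, 0 < h → h ≤ 1 / 2 →
    ∃ c1 c2 : ℝ, 0 < c1 ∧ c2 ≤ M / h ^ 2 * c1 ∧ ∀ ρ : ℝ, 0 < ρ →
      Integrable (fun s : ℝ => ζ ((ρ * Real.exp (-s) - 1) / h) ^ 2) ∧
      Integrable (fun s : ℝ => (deriv ζ ((ρ * Real.exp (-s) - 1) / h) * (Real.exp (-s) / h)) ^ 2) ∧
      ∫ s : ℝ, ζ ((ρ * Real.exp (-s) - 1) / h) ^ 2 = c1 ∧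
      ∫ s : ℝ, ζ ((ρ * Real.exp (-s) - 1) / h) *
        (deriv ζ ((ρ * Real.exp (-s) - 1) / h) * (Real.exp (-s) / h)) = 0 ∧
      ∫ s : ℝ, (deriv ζ ((ρ * Real.exp (-s) - 1) / h) * (Real.exp (-s) / h)) ^ 2 = c2 / ρ ^ 2

/-- CRP (EASY-MEDIUM): the localized functions are profiles; supports and derivatives
(`p.1 * exp(-s) - 1 ∈ [-h, h]` on the support of `cr`). -/
def CRP : Prop :=
  ∀ (ζ : ℝ → ℝ) (Ω : Set E3) (g : ℝ × ℝ → ℝ) (h l s : ℝ), Bmp ζ → 0 < h → h ≤ 1 / 2 → 0 < l →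
    Pf Ω g →
    (Pf Ω (cr ζ h s g) ∧ (∀ p ∈ tsupport (cr ζ h s g), p ∈ tsupport g ∧
        |p.1 - Real.exp s| ≤ h * Real.exp s) ∧
      (∀ p, e1 (cr ζ h s g) p = ζ ((p.1 * Real.exp (-s) - 1) / h) * e1 g p +
        (deriv ζ ((p.1 * Real.exp (-s) - 1) / h) * (Real.exp (-s) / h)) * g p) ∧
      ∀ p, e2 (cr ζ h s g) p = ζ ((p.1 * Real.exp (-s) - 1) / h) * e2 g p) ∧
    (Pf Ω (cz ζ l s g) ∧ (∀ p ∈ tsupport (cz ζ l s g), p ∈ tsupport g ∧ |p.2 - s| ≤ l) ∧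
      (∀ p, e1 (cz ζ l s g) p = ζ ((p.2 - s) / l) * e1 g p) ∧
      ∀ p, e2 (cz ζ l s g) p = ζ ((p.2 - s) / l) * e2 g p + (deriv ζ ((p.2 - s) / l) / l) * g p)

/-- LOR (MEDIUM, from FUB, CH1, CRP, IN0, BWI): localization in `ρ`. `M = M(CH1) + 1`. FUB with `w = p.1`,
`(u, v) = (e1 g, g)` and `(e2 g, 0)` (`Γ = c2/ρ²`), with `w = p.1`, `(g, 0)`, and with `w = 1/p.1`, `(g, 0)` give
`∫ Ai (cr s g) ds = c1 Ai g + c2 Wi g`, `∫ Bi (cr s g) ds = c1 Bi g`, `∫ Wi (cr s g) ds = c1 Wi g`, so the integral of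
`Ai + (k - M/h²) Wi - μ Bi` of `cr s g` is `c1 (Ai g + k Wi g - μ Bi g) + (c2 - c1 M/h²) Wi g < 0`: it is negative for
some `s`, and then `Wi (cr s g) > 0` by BWI. -/
def LOR : Prop :=
  ∀ ζ : ℝ → ℝ, Bmp ζ → 0 < ∫ x, ζ x ^ 2 → ∃ M : ℝ, 0 < M ∧
    ∀ (Ω : Set E3) (g : ℝ × ℝ → ℝ) (h k μ : ℝ), 0 < h → h ≤ 1 / 2 → Pf Ω g → 0 < Wi g →
      Ai g + k * Wi g ≤ μ * Bi g → ∃ s : ℝ, 0 < Wi (cr ζ h s g) ∧
        Ai (cr ζ h s g) + (k - M / h ^ 2) * Wi (cr ζ h s g) ≤ μ * Bi (cr ζ h s g)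

/-- LOZ (MEDIUM, from FUB, CRP, IN0, BWI): localization in `z`. `M = J/I + 1`. For every `z`:
`∫ ζ((z-s)/l)² ds = l I`, `∫ ζ((z-s)/l) ζ'((z-s)/l)/l ds = 0`, `∫ (ζ'((z-s)/l)/l)² ds = J/l`
(`integral_sub_left_eq_self`, `Measure.integral_comp_div`). The integral over `s` of
`Ai + k Wi - (μ + M/l²) Bi` of `cz s g` is `l I (Ai g + k Wi g - μ Bi g) + (J/l - l I M/l²) Bi g < 0`. -/
def LOZ : Prop :=
  ∀ ζ : ℝ → ℝ, Bmp ζ → 0 < ∫ x, ζ x ^ 2 → ∃ M : ℝ, 0 < M ∧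
    ∀ (Ω : Set E3) (g : ℝ × ℝ → ℝ) (l k μ : ℝ), 0 < l → Pf Ω g → 0 < Wi g →
      Ai g + k * Wi g ≤ μ * Bi g → ∃ s : ℝ, 0 < Wi (cz ζ l s g) ∧
        Ai (cz ζ l s g) + k * Wi (cz ζ l s g) ≤ (μ + M / l ^ 2) * Bi (cz ζ l s g)

/-- NUM (EASY-MEDIUM): the numbers of KEY. `r` is `exp s`, `K² > 4096 π² (12 + 5M)³`, `K ≥ 1`, `τ ≤ 1/K²`, `τ ≤ 1`:
`h = K/n ≤ 1/2`; `n ≤ (1+τ) m`, so `n² - m² ≤ 2 τ n²` (`m² ≥ n²/(1+τ)² ≥ (1 - 2τ) n²`). With `W ≤ 4 B/r²`, `1/R² ≤ 4/r²`: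
`A + n² W - lam B ≤ (τ n²/R² + M/(hr)² + 4 (n² - m² + M/h²)/r²) B ≤ ((12 τ + 5 M/K²) n²/r²) B ≤ (12 + 5M) n²/(K² r²) B`.
With `Q = π B`, `Q³ ≤ (8π h² r³)² N`: `64 π³ (..)³ ≤ 64 (12+5M)³ n⁶/(K⁶ r⁶) Q³ ≤ 4096 π² (12+5M)³/K² n² N < n² N` (cube
is monotone, also for negative numbers). -/
def NUM : Prop :=
  ∀ (M K τ lam r R A B W N : ℝ) (m n : ℕ), 0 < M → 1 ≤ K → 4096 * Real.pi ^ 2 * (12 + 5 * M) ^ 3 < K ^ 2 →
    0 < τ → τ ≤ 1 / K ^ 2 → 2 * K ≤ n → m < n → (n : ℝ) ≤ (1 + τ) * m → 0 < r → 0 < R → r ≤ 2 * R →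
    0 ≤ B → 0 ≤ W → 0 < N → r ^ 2 * W ≤ 4 * B →
    A + ((m : ℝ) ^ 2 - M / (K / n) ^ 2) * W ≤
      (lam + τ * (m : ℝ) ^ 2 / R ^ 2 + M / (K / n * r) ^ 2) * B →
    (Real.pi * B) ^ 3 ≤ (8 * Real.pi * r * (K / n * r) * (K / n * r)) ^ 2 * N →
    64 * (Real.pi * (A + (n : ℝ) ^ 2 * W) - lam * (Real.pi * B)) ^ 3 < (n : ℝ) ^ 2 * N

/-- KEY (MEDIUM, from LOR, LOZ, CRP, PSF, PSJ, BWI, NUM, and BN: BXV, HOL, BMP): the test function.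
`ζ` from BMP (`ε = 1`), `M` the larger of the two constants, `K` with `K ≥ 1`, `4096 π² (12+5M)³ < K²`, `τ = 1/K²`,
`N0 ≥ 2K`. `h = K/n`; LOR (`k = m²`): `g1 = cr ζ h s g`; LOZ (`l = h exp s`): `g2 = cz ζ l z0 g1`. `r = exp s`. On the support of
`g2`: `|p.1 - r| ≤ h r`, `|p.2 - z0| ≤ h r`, so `p.1 ≥ r/2` (BWI: `r² Wi g2 ≤ 4 Bi g2`) and, as `Bi g2 > 0`, the support
has a point with `p.1 > 0`, which gives `cyl p.1 0 p.2 ∈ Ω`, `p.1 ≤ R`, `r ≤ 2R`. `ψ = pf n g2` (PSF, PSJ with `δ = h r`),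
HOL with `S = boxS r z0 δ δ` (BXV). `N6 ψ > 0` because `Q2 ψ > 0` (HOL). NUM. (LOR and LOZ with the smaller
constant give the inequality with the larger one, as `Wi, Bi ≥ 0`.) -/
def KEY : Prop :=
  ∃ (N0 : ℕ) (τ : ℝ), 1 ≤ N0 ∧ 0 < τ ∧ τ ≤ 1 ∧
    ∀ (Ω : Set E3) (R lam : ℝ) (m n : ℕ) (g : ℝ × ℝ → ℝ), RI Ω → 0 < R →
      (∀ x ∈ Ω, x 0 ^ 2 + x 1 ^ 2 ≤ R ^ 2) → N0 ≤ m → m < n → (n : ℝ) ≤ (1 + τ) * m → Pf Ω g →
      0 < Wi g → Ai g + (m : ℝ) ^ 2 * Wi g ≤ (lam + τ * (m : ℝ) ^ 2 / R ^ 2) * Bi g →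
      ∃ ψ, TestN Ω n ψ ∧ 0 < N6 ψ ∧ 64 * af lam ψ (gr ψ) ^ 3 < (n : ℝ) ^ 2 * N6 ψ

/-! ## Existence and assembly -/

/-- CR2 (EASY, from CLT, SOB, EXI, SYM, NSY; the proof of `BN/CRI.lean` with the test function given): the
criterion. -/
def CR2 : Prop :=
  ∀ (Ω : Set E3) (n : ℕ) (V lam : ℝ), Bornology.IsBounded Ω → RI Ω → 1 ≤ n →
    0 < lam → lam < V → (∀ φ, TestN Ω n φ → V * Q2 φ ≤ DD (gr φ)) →
    (∃ ψ, TestN Ω n ψ ∧ 0 < N6 ψ ∧ 64 * af lam ψ (gr ψ) ^ 3 < (n : ℝ) ^ 2 * N6 ψ) →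
    ∃ u, IsSol Ω lam u ∧ 64 * N6 u ^ 2 < (n : ℝ) ^ 2 ∧ Anti n u

/-- UNF (EASY-MEDIUM, from BWI, SLP, CUT, NZT): the numbers `Un Ω n`. (1) there is a profile with `Bi > 0`: a
nonzero test function (NZT), `μ` with `DD < μ Q2`, SLP, CUT. So `Qs Ω n` is not empty, and it is bounded
below by `0`. (2) by the definition (for `Bi g = 0` use BWI). (3) `Ai g + n² Wi g` is increasing in `n`.
(4) BWI with `p.1 ≤ R` (`cyl p.1 0 p.2 ∈ Ω`): `Bi ≤ R² Wi`. (5) `exists_lt_of_csInf_lt`; `Wi g > 0` by BWI. (6) for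
`φ ∈ Test Ω`, `Q2 φ > 0`, and `μ > DD φ/Q2 φ`, `μ > 0`: SLP and CUT give a profile with
`Ai g + n² Wi g ≤ (1 + n²) C μ Bi g ≤ 2 C n² μ Bi g`. -/
def UNF : Prop :=
  ∃ C : ℝ, 0 < C ∧ ∀ Ω : Set E3, IsOpen Ω → Ω.Nonempty → RI Ω →
    (∀ (n : ℕ) (g : ℝ × ℝ → ℝ), Pf Ω g → Un Ω n * Bi g ≤ Ai g + (n : ℝ) ^ 2 * Wi g) ∧
    (∀ n n' : ℕ, n ≤ n' → Un Ω n ≤ Un Ω n') ∧
    (∀ (R : ℝ) (n : ℕ), 0 < R → (∀ x ∈ Ω, x 0 ^ 2 + x 1 ^ 2 ≤ R ^ 2) → (n : ℝ) ^ 2 / R ^ 2 ≤ Un Ω n) ∧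
    (∀ (n : ℕ) (δ : ℝ), 0 < δ → ∃ g, Pf Ω g ∧ 0 < Wi g ∧
      Ai g + (n : ℝ) ^ 2 * Wi g ≤ (Un Ω n + δ) * Bi g) ∧
    ∀ n : ℕ, 1 ≤ n → Un Ω n ≤ C * (n : ℝ) ^ 2 * lam1 Ω

/-- L1P (EASY, from SLL or EG2 and NZT): the first eigenvalue of a nonempty bounded open set is
positive (EG2 with a large cylinder gives a positive lower bound of all quotients, NZT that there is
one). -/
def L1P : Prop :=
  ∀ Ω : Set E3, IsOpen Ω → Ω.Nonempty → Bornology.IsBounded Ω → 0 < lam1 Ω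

/-- CNU (EASY-MEDIUM): the count. `m ≥ N1 = N1(τ)`, `(m+1)² > x/C` with `x = lam/lam1`, `J` = the largest number with
`2^J ≤ τ m`: then `J ≥ c log x` and the numbers `n ∈ [m+1, m+2^J]` are `≤ (1+τ) m`. State for `m` only:
there are `N1, c > 0` such that for every `m ≥ N1` and `x ≥ 1` with `x < C (m+1)²` there is `J ≥ 1` with
`c log x ≤ J` and `2^J ≤ τ m`. (Take `J = ⌊log₂(τ m)⌋`: `log x ≤ log C + 2 log(m+1)`, `J ≥ log₂(τ m) - 1`; the quotient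
`(log₂(τ m) - 1)/(log C + 2 log(m+1))` tends to `1/(2 log 2)`, so it is `≥ 1/4` for large `m`.) -/
def CNU : Prop :=
  ∀ C τ : ℝ, 0 < C → 0 < τ → ∃ (N1 : ℕ) (c : ℝ), 0 < c ∧ ∀ (m : ℕ) (x : ℝ), N1 ≤ m → 1 ≤ x →
    x < C * ((m : ℝ) + 1) ^ 2 → ∃ J : ℕ, 1 ≤ J ∧ c * Real.log x ≤ J ∧ (2 : ℝ) ^ J ≤ τ * m

end Pool.Agent.Work.MP_d5b3be_an.BU
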