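import Pool.Agent.Work.MP_d5b3be_an.BU.Stmts

/-!
# Block BU, second part: the number of families (statements)

THEOREM BU2. There are absolute constants `C, c > 0` such that for EVERY nonempty bounded open body of
revolution `Ω ⊂ ℝ³` and every `lam ≥ C lam1 Ω` there are at least `c √(lam / lam1 Ω)` infinite families of
solutions; the solutions of a family have the same energy `∫ u⁶`, solutions of different families have
different energies.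

PLAN. The solutions `u_n` of the classes `TestN Ω n`, `m < n ≤ (1+τ) m`, minimize `af(φ)³/N6 φ` over the class
`n` (EXM, CR3). The energy is strictly increasing in `n`: for `n < n'` and `u` in the class `n'` the
function `v(r, θ, z) = u(r, (n/n') θ, z)` is in the class `n`, it has the same integrals of `v²`, `v⁶`,
`(∂_r v)²`, `(∂_z v)²`, and the integral of `(∂_θ v)²/r²` is smaller by the factor `(n/n')²` (CP0, CP1, CP2; AXC:
it is enough to do it for functions which vanish near the axis). So different `n` give different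
energies (STR).

Same rules as for the first part: every item may assume the items it quotes, as hypotheses.
-/

set_option autoImplicit false

namespace Pool.Agent.Work.MP_d5b3be_an.BU

open Pool.Agent.Work.MP_d5b3be_an.BN
open MeasureTheory Filter Set
open scoped ENNReal Topology ContDiff

/-- the function vanishes near the axis -/
def Vax (φ : E3 → ℝ) : Prop := ∃ ε : ℝ, 0 < ε ∧ ∀ x : E3, x 0 ^ 2 + x 1 ^ 2 < ε → φ x = 0

/-- EXM (EASY, from INF, CPT, EUL, HCL: the proof of `BN/EXI.lean`): existence with minimality. There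
`U = s u`, `s⁴ = m`, `N6 U = s⁶`, `N6 U ^ 2 = m³`, `af U = s² m = s⁶`; the last property is `hmall`. -/
def EXM : Prop :=
  ∀ (Ω : Set E3) (T : (E3 → ℝ) → Prop) (ν V lam : ℝ), Bornology.IsBounded Ω →
    (∀ φ, T φ → Test Ω φ) → Hy T ν V lam →
    (∃ φ, T φ ∧ 0 < N6 φ ∧ 64 * af lam φ (gr φ) ^ 3 < ν * N6 φ) →
    ∃ (u : E3 → ℝ) (g : Fin 3 → E3 → ℝ), HC T u g ∧ MemLp u 6 volume ∧
      ¬ (u =ᵐ[volume] fun _ => 0) ∧ 64 * N6 u ^ 2 < ν ∧ Eqn T lam u g ∧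
      0 < N6 u ∧ af lam u g = N6 u ∧ ∀ φ, T φ → N6 u ^ 2 * N6 φ ≤ af lam φ (gr φ) ^ 3

/-- CR3 (EASY, from CLT, SOB, EXM, SYM, NSY: the proof of `BU/CR2.lean`): the criterion with minimality. -/
def CR3 : Prop :=
  ∀ (Ω : Set E3) (n : ℕ) (V lam : ℝ), Bornology.IsBounded Ω → RI Ω → 1 ≤ n →
    0 < lam → lam < V → (∀ φ, TestN Ω n φ → V * Q2 φ ≤ DD (gr φ)) →
    (∃ ψ, TestN Ω n ψ ∧ 0 < N6 ψ ∧ 64 * af lam ψ (gr ψ) ^ 3 < (n : ℝ) ^ 2 * N6 ψ) →
    ∃ (u : E3 → ℝ) (g : Fin 3 → E3 → ℝ), IsSol Ω lam u ∧ Anti n u ∧ HC (TestN Ω n) u g ∧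
      0 < N6 u ∧ af lam u g = N6 u ∧
      ∀ φ, TestN Ω n φ → N6 u ^ 2 * N6 φ ≤ af lam φ (gr φ) ^ 3

/-- CP0 (EASY-MEDIUM): one variable. `∫_{-π}^π F(q t) dt = (1/q) ∫_{-qπ}^{qπ} F`, `q = n/n'`, and `[-qπ, qπ]` is
`2n` periods, `[-π, π]` is `2n'` periods (`Function.Periodic.intervalIntegral_add_eq`,
`Function.Periodic.intervalIntegral_add_zsmul_eq` or an induction). -/
def CP0 : Prop :=
  ∀ (F : ℝ → ℝ) (n n' : ℕ), 1 ≤ n → 1 ≤ n' → Continuous F → (∀ t, F (t + Real.pi / n') = F t) →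
    ∫ t in (-Real.pi)..Real.pi, F ((n : ℝ) / n' * t) = ∫ t in (-Real.pi)..Real.pi, F t

/-- CP1 (MEDIUM, from ROT): the compressed function. `v(x) = φ(cyl r (q a) x₂)`, `r = √(x₀² + x₁²)`, `a` the
argument of `x₀ + i x₁`, `q = n/n'`. `φ(cyl r (s + π/n') z) = -φ(cyl r s z)`, so `φ(cyl r (q (t + 2π)) z) = φ(cyl r (q t) z)`
(`q 2π = 2n (π/n')`) and the formula holds for every `t`; `q (t + π/n) = q t + π/n'` gives the sign. Smooth: near
the axis `v = 0`; elsewhere `Complex.arg` is smooth near points which are not on the negative real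
axis, and near the negative axis use `a = arg(-(x₀ + i x₁)) + π`, which gives the same `v`. The support:
`v(x) ≠ 0` gives `rot(..) x ∈ tsupport φ`; `tsupport v` is contained in the compact set of the points `x` with
`rot s x ∈ tsupport φ` for some `s ∈ [-4π, 4π]` (image of a compact set), which is contained in `Ω`. -/
def CP1 : Prop :=
  ∀ (Ω : Set E3) (n n' : ℕ) (φ : E3 → ℝ), RI Ω → 1 ≤ n → 1 ≤ n' → TestN Ω n' φ → Vax φ →
    ∃ v, TestN Ω n v ∧ Vax v ∧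
      ∀ r t z : ℝ, 0 < r → v (cyl r t z) = φ (cyl r ((n : ℝ) / n' * t) z)

/-- CP2 (MEDIUM, from CP0, CYD, CYI, WAP, ROT; models `BN/ANG.lean`, `BU/PSJ.lean`): its integrals. By CYD
`(∂_r v, ∂_t v, ∂_z v)` at `(r, t, z)` is `(∂_r φ, q ∂_t φ, ∂_z φ)` at `(r, q t, z)`, and
`∑ (pd i φ)² = (∂_r φ)² + (∂_t φ)²/r² + (∂_z φ)²`. All functions of `t` have the period `π/n'`: CP0. So
`DD (gr φ) - DD (gr v) = (1 - q²) ∫ (∂_t φ)²/r² ≥ (1 - q²) n'² ∫ φ²/r² ≥ ((n'² - n²)/R²) Q2 φ` (WAP, `r ≤ R` on the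
support). -/
def CP2 : Prop :=
  ∀ (Ω : Set E3) (n n' : ℕ) (φ v : E3 → ℝ) (R : ℝ), RI Ω → 1 ≤ n → n < n' → 0 < R →
    (∀ x ∈ Ω, x 0 ^ 2 + x 1 ^ 2 ≤ R ^ 2) → TestN Ω n' φ → TestN Ω n v →
    (∀ r t z : ℝ, 0 < r → v (cyl r t z) = φ (cyl r ((n : ℝ) / n' * t) z)) →
    N6 v = N6 φ ∧ Q2 v = Q2 φ ∧
      DD (gr v) + ((n' : ℝ) ^ 2 - (n : ℝ) ^ 2) / R ^ 2 * Q2 φ ≤ DD (gr φ)

/-- AXC (MEDIUM, from ROT): cutting off near the axis. `φ(0, 0, z) = 0`, so `|φ(x)| ≤ C r`.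
`ψ_d(x) = S((x₀² + x₁²)/d² - 1) φ(x)`, `S = Real.smoothTransition`, is `0` for `r ≤ d` and `φ` for `r ≥ 2d`; where
`S' ≠ 0` we have `r ≤ 2d` and the gradient of the factor is `≤ sup |S'| 2 r/d² ≤ C/d`, times `|φ| ≤ 2 C d`: bounded. As
`d → 0`, `ψ_d → φ` and `pd i ψ_d → pd i φ` for `r > 0`, and everything is bounded by a constant times the
indicator of `tsupport φ`: dominated convergence. -/
def AXC : Prop :=
  ∀ (Ω : Set E3) (n : ℕ) (φ : E3 → ℝ) (ε : ℝ), RI Ω → 1 ≤ n → TestN Ω n φ → 0 < ε →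
    ∃ ψ, TestN Ω n ψ ∧ Vax ψ ∧ |N6 ψ - N6 φ| < ε ∧ |Q2 ψ - Q2 φ| < ε ∧
      |DD (gr ψ) - DD (gr φ)| < ε

/-- STR (EASY-MEDIUM, from CP1, CP2, AXC and BN: SOB, CLT, HS6, LCV, L6C): the strict inequality. `φ_k → u`
in the class `n'`; `ψ_k` from AXC (`ε = 1/(k+1)`), `v_k` from CP1, CP2: with `c = (n'² - n²)/R²`
`μ N6 ψ_k = μ N6 v_k ≤ af(v_k)³ ≤ (af(ψ_k) - c Q2 ψ_k)³`. Limits (HS6, LCV, L6C): `μ N6 u ≤ (af u - c Q2 u)³`, `Q2 u > 0`. -/
def STR : Prop :=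
  ∀ (Ω : Set E3) (n n' : ℕ) (lam R μ : ℝ) (u : E3 → ℝ) (g : Fin 3 → E3 → ℝ), RI Ω → 1 ≤ n →
    n < n' → 0 < R → (∀ x ∈ Ω, x 0 ^ 2 + x 1 ^ 2 ≤ R ^ 2) →
    (∀ φ, TestN Ω n φ → μ * N6 φ ≤ af lam φ (gr φ) ^ 3) → HC (TestN Ω n') u g →
    ¬ (u =ᵐ[volume] fun _ => 0) → μ * N6 u < af lam u g ^ 3

end Pool.Agent.Work.MP_d5b3be_an.BU
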